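import Pool.Agent.H258R2.GU.Base

set_option linter.unusedSectionVars false
set_option linter.unusedVariables false

namespace GU4

open SkewMonoidAlgebra

variable {K : Type} [Field K] [Fintype K] [GD K]

theorem supp_mono {X : Lam K} {l u l' u' : ℤ} (hX : Supp X l u) (h1 : l' ≤ l) (h2 : u ≤ u') :
    Supp X l' u' := by
  intro i hi
  have := hX i hi
  omega

theorem supp_zero (l u : ℤ) : Supp (0 : Lam K) l u := by
  intro i hi
  exact absurd (cf_zero i) hi

theorem supp_add {X Y : Lam K} {l u : ℤ} (hX : Supp X l u) (hY : Supp Y l u) :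
    Supp (X + Y) l u := by
  intro i hi
  rw [cf_add] at hi
  by_cases h : cf X i = 0
  · rw [h, zero_add] at hi
    exact hY i hi
  · exact hX i h

theorem supp_sub {X Y : Lam K} {l u : ℤ} (hX : Supp X l u) (hY : Supp Y l u) :
    Supp (X - Y) l u := by
  intro i hi
  rw [cf_sub] at hi
  by_cases h : cf X i = 0
  · rw [h, zero_sub, neg_ne_zero] at hi
    exact hY i hi
  · exact hX i h

theorem supp_mon (i : ℤ) (a : K) : Supp (mon i a) i i := by
  intro j hj
  rw [cf_mon] at hj
  have : i = j := by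
    by_contra h
    exact hj (if_neg h)
  omega

theorem supp_ff : Supp (ff : Lam K) (-4) 4 := by
  intro i hi
  rw [cf_ff] at hi
  by_contra h
  apply hi
  rw [if_neg (by omega), if_neg (by omega)]

theorem alg_cf_sum {ι : Type*} (s : Finset ι) (F : ι → Lam K) (k : ℤ) :
    cf (∑ i ∈ s, F i) k = ∑ i ∈ s, cf (F i) k := by
  classical
  induction s using Finset.induction_on with
  | empty => simp [cf_zero]
  | insert a s ha ih => rw [Finset.sum_insert ha, Finset.sum_insert ha, cf_add, ih]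

theorem alg_eq_sum {X : Lam K} {l u : ℤ} (hX : Supp X l u) :
    X = ∑ i ∈ Finset.Icc l u, mon i (cf X i) := by
  apply cf_ext
  intro k
  rw [alg_cf_sum]
  simp only [cf_mon]
  rw [Finset.sum_ite_eq']
  by_cases h : k ∈ Finset.Icc l u
  · rw [if_pos h]
  · rw [if_neg h]
    by_contra hk
    exact h (Finset.mem_Icc.2 (hX k hk))

theorem alg_cf_mul {X : Lam K} {l u : ℤ} (hX : Supp X l u) (Y : Lam K) (k : ℤ) :
    cf (X * Y) k = ∑ i ∈ Finset.Icc l u, cf X i * fr i (cf Y (k - i)) := by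
  conv_lhs => rw [alg_eq_sum hX]
  rw [Finset.sum_mul, alg_cf_sum]
  apply Finset.sum_congr rfl
  intro i _
  rw [cf_mon_mul]

theorem supp_mul {X Y : Lam K} {l u l' u' : ℤ} (hX : Supp X l u) (hY : Supp Y l' u') :
    Supp (X * Y) (l + l') (u + u') := by
  intro k hk
  rw [alg_cf_mul hX] at hk
  obtain ⟨i, hi, h⟩ := Finset.exists_ne_zero_of_sum_ne_zero hk
  rw [Finset.mem_Icc] at hi
  have h1 : cf Y (k - i) ≠ 0 := by
    intro h0
    apply h
    rw [h0, map_zero, mul_zero]
  have := hY _ h1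
  omega

theorem alg_cf_zero_of {X : Lam K} {l u : ℤ} (hX : Supp X l u) {i : ℤ} (h : i < l ∨ u < i) :
    cf X i = 0 := by
  by_contra h0
  have := hX i h0
  omega

theorem cf_mul_top {X Y : Lam K} {l u l' u' : ℤ} (hX : Supp X l u) (hY : Supp Y l' u') :
    cf (X * Y) (u + u') = cf X u * fr u (cf Y u') := by
  rw [alg_cf_mul hX, Finset.sum_eq_single u]
  · rw [add_sub_cancel_left]
  · intro i hi hne
    rw [Finset.mem_Icc] at hi
    rw [alg_cf_zero_of hY (i := u + u' - i) (by omega), map_zero, mul_zero]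
  · intro h
    rw [Finset.mem_Icc] at h
    rw [alg_cf_zero_of hX (i := u) (by omega), zero_mul]

theorem cf_mul_bot {X Y : Lam K} {l u l' u' : ℤ} (hX : Supp X l u) (hY : Supp Y l' u') :
    cf (X * Y) (l + l') = cf X l * fr l (cf Y l') := by
  rw [alg_cf_mul hX, Finset.sum_eq_single l]
  · rw [add_sub_cancel_left]
  · intro i hi hne
    rw [Finset.mem_Icc] at hi
    rw [alg_cf_zero_of hY (i := l + l' - i) (by omega), map_zero, mul_zero]
  · intro h
    rw [Finset.mem_Icc] at h
    rw [alg_cf_zero_of hX (i := l) (by omega), zero_mul]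

theorem supp_st {X : Lam K} {l u : ℤ} (hX : Supp X l u) : Supp (st X) (-u) (-l) := by
  intro i hi
  rw [cf_st] at hi
  have h1 : cf X (-i) ≠ 0 := by
    intro h0
    apply hi
    rw [h0, map_zero]
  have := hX _ h1
  omega

theorem supp_ff_pow (g : ℕ) : Supp ((ff : Lam K) ^ g) (-4 * g) (4 * g) := by
  induction g with
  | zero =>
    rw [pow_zero, one_eq]
    exact supp_mono (supp_mon 0 1) (by simp) (by simp)
  | succ g ih =>
    rw [pow_succ]
    refine supp_mono (supp_mul ih supp_ff) ?_ ?_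
    · push_cast; omega
    · push_cast; omega

theorem cf_ff_pow_top (g : ℕ) : cf ((ff : Lam K) ^ g) (4 * g) = 1 := by
  induction g with
  | zero =>
    rw [pow_zero, one_eq, cf_mon]
    simp
  | succ g ih =>
    have h := cf_mul_top (supp_ff_pow (K := K) g) (supp_ff (K := K))
    rw [pow_succ]
    have e : (4 * ((g + 1 : ℕ) : ℤ)) = 4 * g + 4 := by push_cast; ring
    rw [e, h, ih, cf_ff, if_pos (Or.inl rfl), map_one, mul_one]

theorem cf_ff_pow_bot (g : ℕ) : cf ((ff : Lam K) ^ g) (-4 * g) = 1 := by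
  induction g with
  | zero =>
    rw [pow_zero, one_eq, cf_mon]
    simp
  | succ g ih =>
    have h := cf_mul_bot (supp_ff_pow (K := K) g) (supp_ff (K := K))
    rw [pow_succ]
    have e : (-4 * ((g + 1 : ℕ) : ℤ)) = -4 * g + -4 := by push_cast; ring
    rw [e, h, ih, cf_ff, if_pos (Or.inr rfl), map_one, mul_one]

theorem exists_supp_sub {X : Lam K} (hX : X ≠ 0) {a b : ℤ} (hS : Supp X a b) :
    ∃ l u, a ≤ l ∧ l ≤ u ∧ u ≤ b ∧ Supp X l u ∧ cf X l ≠ 0 ∧ cf X u ≠ 0 := by
  classical
  set F : Finset ℤ := (Finset.Icc a b).filter (fun i => cf X i ≠ 0) with hF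
  have hmem : ∀ i, i ∈ F ↔ cf X i ≠ 0 := by
    intro i
    rw [hF, Finset.mem_filter, Finset.mem_Icc]
    exact ⟨fun h => h.2, fun h => ⟨hS i h, h⟩⟩
  have hne : F.Nonempty := by
    by_contra h
    rw [Finset.not_nonempty_iff_eq_empty] at h
    apply hX
    apply cf_ext
    intro i
    rw [cf_zero]
    by_contra h0
    have := (hmem i).2 h0
    rw [h] at this
    exact absurd this (Finset.notMem_empty i)
  have h1 := (hmem _).1 (F.min'_mem hne)
  have h2 := (hmem _).1 (F.max'_mem hne)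
  refine ⟨F.min' hne, F.max' hne, (hS _ h1).1, F.min'_le _ (F.max'_mem hne), (hS _ h2).2, ?_,
    h1, h2⟩
  intro i hi
  exact ⟨F.min'_le _ ((hmem i).2 hi), F.le_max' _ ((hmem i).2 hi)⟩

theorem alg_exists_supp (X : Lam K) : ∃ l u, Supp X l u := by
  induction X using lam_induction with
  | h0 => exact ⟨0, 0, supp_zero 0 0⟩
  | hadd X Y hX hY =>
    obtain ⟨l, u, h1⟩ := hX
    obtain ⟨l', u', h2⟩ := hY
    exact ⟨min l l', max u u', supp_add (supp_mono h1 (min_le_left _ _) (le_max_left _ _))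
      (supp_mono h2 (min_le_right _ _) (le_max_right _ _))⟩
  | hmon i a => exact ⟨i, i, supp_mon i a⟩

theorem exists_supp {X : Lam K} (hX : X ≠ 0) :
    ∃ l u, l ≤ u ∧ Supp X l u ∧ cf X l ≠ 0 ∧ cf X u ≠ 0 := by
  obtain ⟨a, b, h⟩ := alg_exists_supp X
  obtain ⟨l, u, -, h1, -, h2⟩ := exists_supp_sub hX h
  exact ⟨l, u, h1, h2⟩

theorem mul_eq_zero'' {X Y : Lam K} (h : X * Y = 0) : X = 0 ∨ Y = 0 := by
  by_contra hn
  rw [not_or] at hn
  obtain ⟨l, u, -, h1, -, h2⟩ := exists_supp hn.1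
  obtain ⟨l', u', -, h3, -, h4⟩ := exists_supp hn.2
  have h5 := cf_mul_top h1 h3
  rw [h, cf_zero] at h5
  exact (mul_ne_zero h2 (fun h6 => h4 ((fr_eq_zero u).1 h6))) h5.symm

theorem ff_ne_zero : (ff : Lam K) ≠ 0 := by
  intro h
  have h1 := cf_ff (K := K) 4
  rw [h, cf_zero, if_pos (Or.inl rfl)] at h1
  exact zero_ne_one h1

theorem st_one : st (1 : Lam K) = 1 := by
  rw [one_eq, st_mon, map_one, neg_zero]

theorem st_ff_pow (g : ℕ) : st ((ff : Lam K) ^ g) = ff ^ g := by
  induction g with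
  | zero => rw [pow_zero, st_one]
  | succ g ih => rw [pow_succ, st_mul, ih, st_ff, ← pow_succ']; rfl

/-- factorisations of the central element `f` can be rotated. -/
theorem rotate {A B : Lam K} (h : A * B = ff) : B * A = ff := by
  have hA : A ≠ 0 := by
    rintro rfl
    rw [zero_mul] at h
    exact ff_ne_zero h.symm
  have h1 : A * (B * A - ff) = 0 := by
    rw [mul_sub, ← mul_assoc, h, ff_comm, sub_self]
  rcases mul_eq_zero'' h1 with h2 | h2
  · exact absurd h2 hA
  · exact sub_eq_zero.1 h2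

end GU4
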