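import Pool.Agent.H258R2.GU.Alg

set_option linter.unusedSectionVars false
set_option linter.unusedVariables false

namespace GU4

open SkewMonoidAlgebra

variable {K : Type} [Field K] [Fintype K] [GD K]

section
variable {L : Type} [Field L] [Fintype L] (j : K →+* L) (s : L) (hs : s ≠ 0)

theorem Cd_ext {v v' : Lam K} (hv : IsU v) (hv' : IsU v') (h1 : cf v 1 = cf v' 1)
    (h0 : cf v 0 = cf v' 0) : v = v' := by
  have hm : ∀ {u : Lam K}, IsU u → cf u (-1) = fr 1 (cf u 1) := by
    intro u hu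
    have := cf_st u (-1)
    rw [hu.st_eq, neg_neg, show (2 : ℤ) + -1 = 1 from rfl] at this
    exact this
  have hz : ∀ {u : Lam K}, IsU u → ∀ i : ℤ, (i < -1 ∨ 1 < i) → cf u i = 0 := by
    intro u hu i hi
    by_contra hne
    have := hu.supp i hne
    omega
  apply cf_ext
  intro i
  by_cases hi : i < -1 ∨ 1 < i
  · rw [hz hv i hi, hz hv' i hi]
  · have : i = -1 ∨ i = 0 ∨ i = 1 := by omega
    rcases this with rfl | rfl | rfl
    · rw [hm hv, hm hv', h1]
    · exact h0
    · exact h1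

/-- the injection into a finite set -/
noncomputable def Cd_map (t : L) (R : Lam K × Matrix (Fin 4) (Fin 4) L → Prop)
    (hR : ∀ r, R r → IsU r.1 ∧ r.2.det = t) (r : {r // R r}) :
    (K × K) × {A : Matrix (Fin 4) (Fin 4) L // A.det = t} :=
  ((cf r.1.1 1, cf r.1.1 0), ⟨r.1.2, (hR r.1 r.2).2⟩)

theorem Cd_inj (t : L) (R : Lam K × Matrix (Fin 4) (Fin 4) L → Prop)
    (hR : ∀ r, R r → IsU r.1 ∧ r.2.det = t) : Function.Injective (Cd_map t R hR) := by
  rintro ⟨⟨v, A⟩, h⟩ ⟨⟨v', A'⟩, h'⟩ he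
  simp only [Cd_map, Prod.mk.injEq, Subtype.mk.injEq] at he
  obtain ⟨⟨h1, h0⟩, hA⟩ := he
  have := Cd_ext (hR _ h).1 (hR _ h').1 h1 h0
  simp only at this
  subst this
  subst hA
  rfl

instance finite_R0 : Finite (R0 K L) :=
  Finite.of_injective _ (Cd_inj (1 : L) _ fun _ h => h)

instance finite_R1 : Finite (R1 (K := K) j s) :=
  Finite.of_injective _ (Cd_inj (- fs j s) _ fun _ h => h)

theorem Cd_det (t : L) (ht : t ≠ 0) :
    Nat.card {A : Matrix (Fin 4) (Fin 4) L // A.det = t} ≤ 2 * Fintype.card L ^ 15 := by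
  classical
  let D : Lˣ → Matrix (Fin 4) (Fin 4) L := fun c =>
    Matrix.diagonal fun i => if i = 0 then (c : L) else 1
  have hD : ∀ c, (D c).det = c := by
    intro c
    simp [D, Matrix.det_diagonal, Fin.prod_univ_four]
  let φ : Lˣ × {A : Matrix (Fin 4) (Fin 4) L // A.det = t} → (Fin 4 → Fin 4 → L) :=
    fun p => D p.1 * p.2.1
  have hφ : Function.Injective φ := by
    rintro ⟨c, A, hA⟩ ⟨c', A', hA'⟩ h
    have h' : D c * A = D c' * A' := h
    have h1 : (c : L) = c' := by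
      have := congrArg Matrix.det h'
      rw [Matrix.det_mul, Matrix.det_mul, hD, hD, hA, hA'] at this
      exact mul_right_cancel₀ ht this
    have h1' : c = c' := Units.ext h1
    subst h1'
    have hu : IsUnit (D c) := by
      rw [Matrix.isUnit_iff_isUnit_det, hD]
      exact c.isUnit
    have h2 : A = A' := hu.mul_left_cancel h'
    subst h2
    rfl
  have hc := Nat.card_le_card_of_injective φ hφ
  rw [Nat.card_prod, Nat.card_units, Nat.card_eq_fintype_card (α := L),
    Nat.card_eq_fintype_card (α := Fin 4 → Fin 4 → L)] at hc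
  simp only [Fintype.card_fun, Fintype.card_fin, ← pow_mul] at hc
  have hL : 2 ≤ Fintype.card L := Fintype.one_lt_card
  have h3 : Fintype.card L ≤ 2 * (Fintype.card L - 1) := by omega
  have h4 : Fintype.card L * Nat.card {A : Matrix (Fin 4) (Fin 4) L // A.det = t} ≤
      Fintype.card L * (2 * Fintype.card L ^ 15) := by
    calc _ ≤ 2 * (Fintype.card L - 1) * Nat.card {A : Matrix (Fin 4) (Fin 4) L // A.det = t} :=
          Nat.mul_le_mul_right _ h3
      _ = 2 * ((Fintype.card L - 1) * Nat.card {A : Matrix (Fin 4) (Fin 4) L // A.det = t}) := by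
          ring
      _ ≤ 2 * Fintype.card L ^ (4 * 4) := Nat.mul_le_mul_left _ hc
      _ = _ := by ring
  exact Nat.le_of_mul_le_mul_left h4 (by omega)

theorem Cd_card (t : L) (ht : t ≠ 0) (R : Lam K × Matrix (Fin 4) (Fin 4) L → Prop)
    (hR : ∀ r, R r → IsU r.1 ∧ r.2.det = t) :
    Nat.card {r // R r} ≤ 2 * GD.q K ^ 8 * Fintype.card L ^ 15 := by
  refine (Nat.card_le_card_of_injective _ (Cd_inj t R hR)).trans ?_
  rw [Nat.card_prod, Nat.card_prod, Nat.card_eq_fintype_card (α := K), GD.card]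
  calc GD.q K ^ 4 * GD.q K ^ 4 * Nat.card {A : Matrix (Fin 4) (Fin 4) L // A.det = t}
      ≤ GD.q K ^ 4 * GD.q K ^ 4 * (2 * Fintype.card L ^ 15) :=
        Nat.mul_le_mul_left _ (Cd_det t ht)
    _ = _ := by ring

/-- `v` is determined by two coefficients; `|{A : det A = 1}| ≤ 2 |L|^15`. -/
theorem card_R0 : Nat.card (R0 K L) ≤ 2 * GD.q K ^ 8 * Fintype.card L ^ 15 :=
  Cd_card (1 : L) one_ne_zero _ fun _ h => h

theorem card_R1 (hf : fs (K := K) j s ≠ 0) :
    Nat.card (R1 (K := K) j s) ≤ 2 * GD.q K ^ 8 * Fintype.card L ^ 15 :=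
  Cd_card (- fs j s) (neg_ne_zero.2 hf) _ fun _ h => h
end

end GU4
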