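import Pool.Agent.H258R2.GU.Alg

set_option linter.unusedSectionVars false
set_option linter.unusedVariables false

namespace GU4

open SkewMonoidAlgebra

variable {K : Type} [Field K] [Fintype K] [GD K]

section
variable {L : Type} [Field L] (j : K →+* L) (s : L) (hs : s ≠ 0)

theorem fr_nrm (a : K) : fr 1 (nrm a) = nrm a := by
  have h4 : fr 4 a = a := fr_four a
  simp only [nrm, map_mul, fr_fr]
  rw [show (1 : ℤ) + 1 = 2 from rfl, show (1 : ℤ) + 2 = 3 from rfl, show (1 : ℤ) + 3 = 4 from rfl,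
    h4]
  ring

theorem nrm_mul (a b : K) : nrm (a * b) = nrm a * nrm b := by
  simp only [nrm, map_mul]
  ring

theorem nrm_fr (i : ℤ) (a : K) : nrm (fr i a) = nrm a := by
  have h1 : ∀ a : K, nrm (fr 1 a) = nrm a := by
    intro a
    rw [← fr_nrm a]
    simp only [nrm, map_mul, fr_fr]
    rw [show (2 : ℤ) + 1 = 1 + 2 from rfl, show (3 : ℤ) + 1 = 1 + 3 from rfl]
  have h2 : ∀ a : K, nrm (fr (-1) a) = nrm a := by
    intro a
    have := h1 (fr (-1) a)
    rw [fr_fr, show (1 : ℤ) + -1 = 0 from rfl, fr_zero] at this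
    exact this.symm
  induction i using Int.induction_on with
  | zero => rw [fr_zero]
  | succ n ih => rw [add_comm, ← fr_fr, h1, ih]
  | pred n ih => rw [sub_eq_add_neg, add_comm, ← fr_fr, h2, ih]

theorem det_rho_mon (c : K) : (rho j s hs (mon 0 c)).det = j (nrm c) := by
  rw [rho_mon, zpow_zero, Units.val_one, mul_one]
  show (Matrix.diagonal (fun r : Fin 4 => j (fr (r : ℕ) c))).det = _
  rw [Matrix.det_diagonal, Fin.prod_univ_four]
  simp only [nrm, map_mul]
  have : fr (((0 : Fin 4) : ℕ) : ℤ) c = c := by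
    show fr ((0 : ℕ) : ℤ) c = c
    rw [Nat.cast_zero, fr_zero]
  rw [this]
  rfl

/-- the constant term of the determinant. -/
noncomputable def kap (a b c : K) : K :=
  b * fr 1 b * fr 2 b * fr 3 b -
    (a * fr 1 c * fr 2 b * fr 3 b + fr 1 a * fr 2 c * b * fr 3 b + fr 2 a * fr 3 c * b * fr 1 b +
      fr 3 a * c * fr 1 b * fr 2 b) + a * fr 1 c * (fr 2 a * fr 3 c) +
      fr 1 a * fr 2 c * (fr 3 a * c)

theorem fr_kap (a b c : K) : fr 1 (kap a b c) = kap a b c := by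
  simp only [kap, map_mul, map_add, map_sub, fr_fr]
  rw [show (1 : ℤ) + 1 = 2 from rfl, show (1 : ℤ) + 2 = 3 from rfl, show (1 : ℤ) + 3 = 4 from rfl,
    fr_four, fr_four, fr_four]
  ring

theorem rho_tri (a b c : K) : rho j s hs (mon 1 a + mon 0 b + mon (-1) c) =
    !![j b, j a, 0, j c * s⁻¹; j (fr 1 c), j (fr 1 b), j (fr 1 a), 0;
      0, j (fr 2 c), j (fr 2 b), j (fr 2 a); j (fr 3 a) * s, 0, j (fr 3 c), j (fr 3 b)] := by
  rw [map_add, map_add, rho_mon, rho_mon, rho_mon, zpow_zero, zpow_one, zpow_neg, zpow_one,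
    Units.val_one, mul_one]
  have e1 : ((rhoTU s hs : (Matrix (Fin 4) (Fin 4) L)ˣ) : Matrix (Fin 4) (Fin 4) L) = rhoT s := rfl
  have e2 : (((rhoTU s hs)⁻¹ : (Matrix (Fin 4) (Fin 4) L)ˣ) : Matrix (Fin 4) (Fin 4) L) =
    rhoTi s := rfl
  rw [e1, e2]
  have k0 : ∀ d : K, (rhoK j d) = Matrix.diagonal (fun r : Fin 4 => j (fr (r : ℕ) d)) :=
    fun d => rfl
  rw [k0, k0, k0]
  ext r t
  fin_cases r <;> fin_cases t <;>
    simp [rhoT, rhoTi, Matrix.diagonal_mul, fr_zero]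

theorem det_tri (a b c : K) : (rho j s hs (mon 1 a + mon 0 b + mon (-1) c)).det =
    j (kap a b c) - j (nrm a) * s - j (nrm c) * s⁻¹ := by
  rw [rho_tri]
  simp only [Matrix.det_succ_row_zero, Fin.sum_univ_succ, kap, nrm, map_mul, map_add, map_sub]
  simp [Fin.succAbove, Matrix.submatrix]
  field_simp
  ring

theorem eq_tri {N : Lam K} (h : Supp N (-1) 1) :
    N = mon 1 (cf N 1) + mon 0 (cf N 0) + mon (-1) (cf N (-1)) := by
  apply cf_ext
  intro i
  rw [cf_add, cf_add, cf_mon, cf_mon, cf_mon]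
  by_cases h1 : i = 1
  · subst h1; simp
  by_cases h0 : i = 0
  · subst h0; simp
  by_cases h2 : i = -1
  · subst h2; simp
  rw [if_neg (Ne.symm h1), if_neg (Ne.symm h0), if_neg (Ne.symm h2)]
  simp only [add_zero]
  by_contra h3
  have := h i h3
  omega

theorem det_zero {a b c : K} {w : K × K} (hw : w ≠ 0)
    (hN : act (mon 1 a + mon 0 b + mon (-1) c) w = 0) :
    kap a b c - nrm a * GD.x ^ 4 - nrm c * (GD.x ^ 4)⁻¹ = 0 := by
  have hx : (GD.x : K) ≠ 0 := x_ne_zero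
  have hx4 : (GD.x : K) ^ 4 ≠ 0 := pow_ne_zero 4 hx
  have h := det_tri (RingHom.id K) (GD.x ^ 4) hx4 a b c
  simp only [RingHom.id_apply] at h
  rw [← h]
  rw [act_add, act_add, act_mon_one, act_mon_zero, act_mon_neg_one] at hN
  have e1 : a * (GD.x * w.2) + b * w.1 + c * ((GD.x)⁻¹ * fr 2 w.2) = 0 := congrArg Prod.fst hN
  have e2 : fr 1 a * (GD.x * fr 2 w.1) + fr 1 b * w.2 + fr 1 c * ((GD.x)⁻¹ * w.1) = 0 :=
    congrArg Prod.snd hN
  have e3 := congrArg (fr 2) e1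
  have e4 := congrArg (fr 2) e2
  simp only [map_add, map_mul, map_inv₀, fr_two_x, fr_fr, map_zero] at e3 e4
  rw [show (2 : ℤ) + 2 = 4 from rfl, fr_four] at e3 e4
  rw [show (2 : ℤ) + 1 = 3 from rfl] at e4
  apply Matrix.exists_mulVec_eq_zero_iff.1
  refine ⟨![w.1, GD.x * w.2, GD.x ^ 2 * fr 2 w.1, GD.x ^ 3 * fr 2 w.2], ?_, ?_⟩
  · intro h0
    apply hw
    have h1 := congrFun h0 0
    have h2 := congrFun h0 1
    simp at h1 h2
    exact Prod.ext h1 (by simpa [hx] using h2)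
  · rw [rho_tri]
    funext r
    fin_cases r
    · simp [Matrix.mulVec, dotProduct, Fin.sum_univ_four]
      rw [← e1]
      field_simp
      ring
    · simp [Matrix.mulVec, dotProduct, Fin.sum_univ_four]
      have : fr 1 c * w.1 + fr 1 b * (GD.x * w.2) + fr 1 a * (GD.x ^ 2 * fr 2 w.1) =
        GD.x * (fr 1 a * (GD.x * fr 2 w.1) + fr 1 b * w.2 + fr 1 c * ((GD.x)⁻¹ * w.1)) := by
        field_simp
        ring
      rw [this, e2, mul_zero]
    · simp [Matrix.mulVec, dotProduct, Fin.sum_univ_four]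
      have : fr 2 c * (GD.x * w.2) + fr 2 b * (GD.x ^ 2 * fr 2 w.1) +
          fr 2 a * (GD.x ^ 3 * fr 2 w.2) =
        GD.x ^ 2 * (fr 2 a * (GD.x * fr 2 w.2) + fr 2 b * fr 2 w.1 +
          fr 2 c * ((GD.x)⁻¹ * w.2)) := by
        field_simp
        ring
      rw [this, e3, mul_zero]
    · simp [Matrix.mulVec, dotProduct, Fin.sum_univ_four]
      have : fr 3 a * GD.x ^ 4 * w.1 + fr 3 c * (GD.x ^ 2 * fr 2 w.1) +
          fr 3 b * (GD.x ^ 3 * fr 2 w.2) =
        GD.x ^ 3 * (fr 3 a * (GD.x * w.1) + fr 3 b * fr 2 w.2 +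
          fr 3 c * ((GD.x)⁻¹ * fr 2 w.1)) := by
        field_simp
        ring
      rw [this, e4, mul_zero]

theorem nrm_eq_aux {a b c : K} {w : K × K} (hw : w ≠ 0)
    (hN : act (mon 1 a + mon 0 b + mon (-1) c) w = 0) : nrm c = nrm a := by
  have hx : (GD.x : K) ≠ 0 := x_ne_zero
  have h1 := det_zero hw hN
  have h2 := congrArg (fr 1) h1
  simp only [map_sub, map_mul, map_inv₀, map_pow, fr_nrm, fr_kap, fr_one_x, map_zero] at h2
  have h3 : (nrm a - nrm c) * (((GD.x : K) ^ 4)⁻¹ - GD.x ^ 4) = 0 := by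
    have h4 : (((GD.x : K)⁻¹) ^ 4)⁻¹ = GD.x ^ 4 := by rw [inv_pow, inv_inv]
    rw [h4, inv_pow] at h2
    linear_combination h1 - h2
  rcases mul_eq_zero.1 h3 with h | h
  · exact (sub_eq_zero.1 h).symm
  · exfalso
    apply GD.hx8 (K := K)
    have h5 := sub_eq_zero.1 h
    have h6 : (1 : K) = GD.x ^ 4 * GD.x ^ 4 := by
      rw [← h5]
      rw [h5]
      field_simp at h5
      linear_combination h5
    rw [show (8 : ℕ) = 4 + 4 from rfl, pow_add, ← h6]

/-- If `N` of width two is singular on `S`, its two extreme coefficients have the same norm.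
Proof: the vector `(y, x z, x^2 y^(q^2), x^3 z^(q^2))` of `K^4` is killed by `rho (RingHom.id K) (x^4) N`
when `(y, z)` is killed by `N` (check on the generators); so the determinant
`κ - nrm (cf N 1) ω - nrm (cf N (-1)) ω⁻¹` (`ω = x^4`, `κ ∈ F_q`) vanishes; apply `fr 1`
(`fr 1 ω = ω⁻¹`) and subtract; `ω ≠ ω⁻¹` because `x ^ 8 ≠ 1`. -/
theorem nrm_cf {N : Lam K} (h : Supp N (-1) 1) {w : K × K} (hw : w ≠ 0) (hN : act N w = 0) :
    nrm (cf N (-1)) = nrm (cf N 1) := by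
  rw [eq_tri h] at hN
  exact nrm_eq_aux hw hN

/-- and the determinant of `rho N` is `- nrm (cf N 1) * f(s)`. -/
theorem det_rho {N : Lam K} (h : Supp N (-1) 1) {w : K × K} (hw : w ≠ 0) (hN : act N w = 0) :
    (rho j s hs N).det = - (j (nrm (cf N 1)) * fs j s) := by
  have hN' := hN
  rw [eq_tri h] at hN'
  have h1 := det_zero hw hN'
  have h2 := nrm_eq_aux hw hN'
  have h3 : kap (cf N 1) (cf N 0) (cf N (-1)) =
      nrm (cf N 1) * ((GD.x) ^ 4 + ((GD.x)⁻¹) ^ 4) := by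
    rw [h2] at h1
    rw [inv_pow]
    linear_combination h1
  conv_lhs => rw [eq_tri h]
  rw [det_tri, h3, h2, fs, map_mul]
  ring
end

end GU4
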