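import Pool.Agent.H258R2.GU.Sd
import Pool.Agent.H258R2.GU.Dt

set_option linter.unusedSectionVars false
set_option linter.unusedVariables false

namespace GU4

open SkewMonoidAlgebra

variable {K : Type} [Field K] [Fintype K] [GD K]

theorem Se_nrm_zero : nrm (0 : K) = 0 := by
  simp [nrm]

theorem Se_nrm_one : nrm (1 : K) = 1 := by
  simp [nrm]

theorem Se_ne_zero {v : Lam K} (hv : IsU v) : v ≠ 0 := by
  rintro rfl
  have := hv.nrm_eq
  rw [cf_zero, Se_nrm_zero] at this
  exact zero_ne_one this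

/-- an isotropic vector gives a neighbour. -/
theorem exists_nbr {v : Lam K} (hv : IsU v) (y : K × K) (hy : BB (act v y) y = 0)
    (hw : act v y ≠ 0) {N : Lam K} (hN : Supp N (-1) 1) (h1 : cf N 1 = 1)
    (hNw : act N (act v y) = 0) : ∃ u : Lam K, IsU u ∧ N * v * st N * u = ff := by
  have hv0 := Se_ne_zero hv
  obtain ⟨k, hk0, hk⟩ := hv.ker
  have hN0 : N ≠ 0 := by
    rintro rfl
    rw [cf_zero] at h1
    exact zero_ne_one h1
  -- (a)
  obtain ⟨V, hV⟩ := dvd_N hv.supp hv0 hk0 hk (X := ff) (act_ff _)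
  -- (b)
  have hVw : act V (act v y) = 0 := by
    rw [← act_mul, ← hV, act_ff]
  obtain ⟨R, hR⟩ := dvd_N hN hN0 hw hNw hVw
  have hb1 : R * (N * v) = ff := by rw [hV, hR, mul_assoc]
  have hb2 : N * v * R = ff := rotate hb1
  -- (c)
  have hc : st R * (v * st N) = ff := by
    have := congrArg st hb2
    rw [st_mul, st_mul, hv.st_eq, st_ff] at this
    exact this
  -- (d)
  obtain ⟨z, hz⟩ := im_st hN hN0 hw hNw y hy
  have hd1 : act (st R) (act v y) = 0 := by
    rw [← hz, ← act_mul v, ← act_mul, hc, act_ff]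
  obtain ⟨Z, hZ⟩ := dvd_N hN hN0 hw hNw hd1
  have hd2 : R = st N * st Z := by
    rw [← st_st R, hZ, st_mul]
  set u := st Z with hu
  set G := N * v * st N with hG
  have hGu : G * u = ff := by
    rw [hG, mul_assoc, ← hd2, hb2]
  have hG0 : G ≠ 0 := by
    intro h
    rw [h, zero_mul] at hGu
    exact ff_ne_zero hGu.symm
  -- (e)
  have hstG : st G = G := by
    rw [hG, st_mul, st_mul, st_st, hv.st_eq, mul_assoc]
  have he1 : st u * G = ff := by
    have := congrArg st hGu
    rw [st_mul, hstG, st_ff] at this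
    exact this
  have he2 : G * st u = ff := rotate he1
  have hst : st u = u := by
    have h0 : G * (u - st u) = 0 := by rw [mul_sub, hGu, he2, sub_self]
    rcases mul_eq_zero'' h0 with h | h
    · exact absurd h hG0
    · exact (sub_eq_zero.1 h).symm
  -- (f)
  have hcf := ker_cf_ne hN hN0 hw hNw
  have hcfv := ker_cf_ne hv.supp hv0 hk0 hk
  have hsN : Supp (st N) (-1) 1 := by
    have := supp_st hN
    simpa using this
  have hNv : Supp (N * v) (-2) 2 := by
    have := supp_mul hN hv.supp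
    norm_num at this
    exact this
  have hGs : Supp G (-3) 3 := by
    have := supp_mul hNv hsN
    norm_num at this
    exact this
  have hNv2 : cf (N * v) 2 = cf N 1 * fr 1 (cf v 1) := by
    have := cf_mul_top hN hv.supp
    norm_num at this
    exact this
  have hNvm2 : cf (N * v) (-2) = cf N (-1) * fr (-1) (cf v (-1)) := by
    have := cf_mul_bot hN hv.supp
    norm_num at this
    exact this
  have hG3 : cf G 3 = cf (N * v) 2 * fr 2 (cf (st N) 1) := by
    have := cf_mul_top hNv hsN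
    norm_num at this
    exact this
  have hGm3 : cf G (-3) = cf (N * v) (-2) * fr (-2) (cf (st N) (-1)) := by
    have := cf_mul_bot hNv hsN
    norm_num at this
    exact this
  have hsN1 : cf (st N) 1 = fr 3 (cf N (-1)) := by
    rw [cf_st]
    norm_num
  have hsNm1 : cf (st N) (-1) = fr 1 (cf N 1) := by
    rw [cf_st]
    norm_num
  have hG3' : cf G 3 ≠ 0 := by
    rw [hG3, hNv2, hsN1]
    refine mul_ne_zero (mul_ne_zero hcf.1 ?_) ?_
    · rw [Ne, fr_eq_zero]; exact hcfv.1
    · rw [Ne, fr_eq_zero, fr_eq_zero]; exact hcf.2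
  have hGm3' : cf G (-3) ≠ 0 := by
    rw [hGm3, hNvm2, hsNm1]
    refine mul_ne_zero (mul_ne_zero hcf.2 ?_) ?_
    · rw [Ne, fr_eq_zero]; exact hcfv.2
    · rw [Ne, fr_eq_zero, fr_eq_zero]; exact hcf.1
  have hu0 : u ≠ 0 := by
    intro h
    rw [h, mul_zero] at hGu
    exact ff_ne_zero hGu.symm
  obtain ⟨l, t, hlt, hsu, hcl, hct⟩ := exists_supp hu0
  have htop := cf_mul_top hGs hsu
  have hbot := cf_mul_bot hGs hsu
  rw [hGu] at htop hbot
  have ht : t ≤ 1 := by
    have h2 : cf (ff : Lam K) (3 + t) ≠ 0 := by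
      rw [htop]
      refine mul_ne_zero hG3' ?_
      rw [Ne, fr_eq_zero]; exact hct
    have := (supp_ff _ h2).2
    linarith
  have hl : -1 ≤ l := by
    have h2 : cf (ff : Lam K) (-3 + l) ≠ 0 := by
      rw [hbot]
      refine mul_ne_zero hGm3' ?_
      rw [Ne, fr_eq_zero]; exact hcl
    have := (supp_ff _ h2).1
    linarith
  have hsu' : Supp u (-1) 1 := supp_mono hsu hl ht
  -- (g)
  have hg : nrm (cf u 1) = 1 := by
    have h2 := cf_mul_top hGs hsu'
    rw [hGu] at h2
    norm_num at h2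
    have h3 : cf (ff : Lam K) 4 = 1 := by
      rw [cf_ff]; simp
    rw [h3] at h2
    have h4 := congrArg nrm h2
    rw [Se_nrm_one, nrm_mul, nrm_fr, hG3, hNv2, hsN1, nrm_mul, nrm_mul, nrm_fr, nrm_fr, nrm_fr,
      hv.nrm_eq, nrm_cf hN hw hNw, h1, Se_nrm_one, one_mul, one_mul, one_mul] at h4
    exact h4.symm
  -- (h)
  refine ⟨u, ⟨hsu', hst, hg, ?_⟩, hGu⟩
  by_contra hcon
  push Not at hcon
  have hinj : Function.Injective (act u : K × K → K × K) := by
    intro a b hab
    by_contra hne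
    apply hcon (a - b) (sub_ne_zero.2 hne)
    rw [map_sub, sub_eq_zero]
    exact hab
  have hsurj := Finite.surjective_of_injective hinj
  obtain ⟨z0, hz0⟩ := three_ne hN hv.supp hsN hN0 hv0
    (by
      intro h
      rw [hG, h, mul_zero] at hG0
      exact hG0 rfl)
    ⟨_, hw, hNw⟩ ⟨k, hk0, hk⟩ (ker_st hN hN0 hw hNw)
  obtain ⟨z1, hz1⟩ := hsurj z0
  apply hz0
  have : act G z0 = 0 := by
    rw [← hz1, ← act_mul, hGu, act_ff]
  exact this

end GU4
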