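import Pool.Agent.H258R2.GU.Ct
import Pool.Agent.H258R2.GU.Se

set_option linter.unusedSectionVars false
set_option linter.unusedVariables false

namespace GU4

open SkewMonoidAlgebra

variable {K : Type} [Field K] [Fintype K] [GD K]

open Classical in
theorem Cn_card (p : K × K → Prop) :
    Nat.card {x : K × K // p x} = (Finset.univ.filter p).card := by
  rw [Nat.card_eq_fintype_card, Fintype.card_subtype]

theorem Cn_ne {N : Lam K} {i : ℤ} (h : cf N i ≠ 0) : N ≠ 0 := by
  rintro rfl
  exact h (cf_zero i)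

theorem Cn_v_ne {v : Lam K} (hv : IsU v) : v ≠ 0 := by
  apply Cn_ne (i := 1)
  intro h
  have h1 := hv.nrm_eq
  rw [h] at h1
  simp [nrm] at h1

open Classical in
/-- the fibres of `v` -/
theorem Cn_fib {v : Lam K} (hv : IsU v) (S : Finset (K × K)) (w : K × K) :
    (S.filter fun y => act v y = w).card ≤ GD.q K ^ 2 := by
  obtain ⟨w0, hw0, hw0'⟩ := hv.ker
  rw [← card_ker hv.supp (Cn_v_ne hv) hw0 hw0', Cn_card]
  by_cases hne : (S.filter fun y => act v y = w).Nonempty
  · obtain ⟨y1, hy1⟩ := hne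
    rw [Finset.mem_filter] at hy1
    refine Finset.card_le_card_of_injOn (fun y => y - y1) ?_ ?_
    · intro y hy
      rw [Finset.mem_coe, Finset.mem_filter] at hy
      simp only [Finset.coe_filter, Finset.mem_univ, true_and, Set.mem_ofPred_eq]
      rw [map_sub, hy.2, hy1.2, sub_self]
    · intro y _ y' _ h
      exact sub_left_injective h
  · rw [Finset.not_nonempty_iff_eq_empty] at hne
    rw [hne]
    simp

/-- there are at least `q ^ 3 + 1` edges out of `v`. -/
theorem nbr_count {v : Lam K} (hv : IsU v) : ∃ F : Finset (Lam K), GD.q K ^ 3 + 1 ≤ F.card ∧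
    ∀ N ∈ F, Supp N (-1) 1 ∧ cf N 1 = 1 ∧
      ∃ y, act v y ≠ 0 ∧ BB (act v y) y = 0 ∧ act N (act v y) = 0 := by
  classical
  have hch : ∀ y : K × K, ∃ N : Lam K, act v y ≠ 0 → Supp N (-1) 1 ∧ cf N 1 = 1 ∧
      act N (act v y) = 0 := by
    intro y
    by_cases h : act v y = 0
    · exact ⟨0, fun h' => absurd h h'⟩
    · obtain ⟨N, hN⟩ := exists_N (act v y) h
      exact ⟨N, fun _ => hN⟩
  choose g hg using hch
  obtain ⟨P, hP⟩ : ∃ P : Finset (K × K), P = Finset.univ.filter
    (fun y : K × K => BB (act v y) y = 0 ∧ act v y ≠ 0) := ⟨_, rfl⟩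
  have hq2 : 2 ≤ GD.q K := GD.hq
  -- the number of elements of `P`
  have hPc : (GD.q K ^ 3 + 1) * (GD.q K ^ 2 * (GD.q K ^ 2 - 1)) ≤ P.card := by
    have h1 := isotropic_count hv
    rw [Cn_card] at h1
    have h2 : (Finset.univ.filter (fun y : K × K => BB (act v y) y = 0)).card ≤
        P.card + GD.q K ^ 2 := by
      have h3 : Finset.univ.filter (fun y : K × K => BB (act v y) y = 0) ⊆
          P ∪ Finset.univ.filter (fun y : K × K => act v y = 0) := by
        intro y hy
        rw [Finset.mem_filter] at hy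
        rw [Finset.mem_union, hP, Finset.mem_filter, Finset.mem_filter]
        by_cases h : act v y = 0
        · exact Or.inr ⟨Finset.mem_univ _, h⟩
        · exact Or.inl ⟨Finset.mem_univ _, hy.2, h⟩
      refine (Finset.card_le_card h3).trans ((Finset.card_union_le _ _).trans ?_)
      exact Nat.add_le_add_left (Cn_fib hv Finset.univ 0) _
    obtain ⟨Q, hQ⟩ : ∃ Q, GD.q K ^ 2 = Q + 1 := ⟨GD.q K ^ 2 - 1, by
      have : 0 < GD.q K ^ 2 := by positivity
      omega⟩
    have h7 : GD.q K ^ 7 = GD.q K ^ 3 * (Q + 1) * (Q + 1) := by rw [← hQ]; ring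
    have h4 : GD.q K ^ 4 = (Q + 1) * (Q + 1) := by rw [← hQ]; ring
    have h5 : GD.q K ^ 5 = GD.q K ^ 3 * (Q + 1) := by rw [← hQ]; ring
    rw [h7, h4, h5] at h1
    rw [hQ] at h2 ⊢
    have h6 : Q + 1 - 1 = Q := by omega
    rw [h6]
    generalize GD.q K ^ 3 = c at *
    have h8 : (c + 1) * ((Q + 1) * Q) + c * (Q + 1) + (Q + 1) =
        c * (Q + 1) * (Q + 1) + (Q + 1) * (Q + 1) := by ring
    omega
  -- fibres of `g`
  have hfib : ∀ N ∈ P.image g, (P.filter fun y => g y = N).card ≤
      GD.q K ^ 2 * (GD.q K ^ 2 - 1) := by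
    intro N hN
    rw [Finset.mem_image] at hN
    obtain ⟨y0, hy0, rfl⟩ := hN
    rw [hP, Finset.mem_filter] at hy0
    obtain ⟨hs, h1, hk⟩ := hg y0 hy0.2.2
    have hN0 : g y0 ≠ 0 := Cn_ne (i := 1) (by rw [h1]; exact one_ne_zero)
    have hker := card_ker hs hN0 hy0.2.2 hk
    rw [Cn_card] at hker
    have hker' : (Finset.univ.filter fun u : K × K => act (g y0) u = 0).card = GD.q K ^ 2 := by
      convert hker
    have hT : ((Finset.univ.filter fun u : K × K => act (g y0) u = 0).erase 0).card =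
        GD.q K ^ 2 - 1 := by
      rw [Finset.card_erase_of_mem, hker']
      rw [Finset.mem_filter]
      exact ⟨Finset.mem_univ _, map_zero _⟩
    rw [← hT]
    refine Finset.card_le_mul_card_image_of_maps_to (f := fun y => act v y) ?_ _ ?_
    · intro y hy
      rw [Finset.mem_filter] at hy
      have hyP := hy.1
      rw [hP, Finset.mem_filter] at hyP
      rw [Finset.mem_erase, Finset.mem_filter]
      refine ⟨hyP.2.2, Finset.mem_univ _, ?_⟩
      rw [← hy.2]
      exact (hg y hyP.2.2).2.2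
    · intro w _
      exact Cn_fib hv _ w
  have hmul := Finset.card_le_mul_card_image P _ hfib
  refine ⟨P.image g, ?_, ?_⟩
  · have hpos : 0 < GD.q K ^ 2 * (GD.q K ^ 2 - 1) := by
      have h1 : 4 ≤ GD.q K ^ 2 := by nlinarith
      have h2 : 0 < GD.q K ^ 2 - 1 := by omega
      positivity
    have h3 := hPc.trans hmul
    rw [mul_comm] at h3
    exact Nat.le_of_mul_le_mul_left h3 hpos
  · intro N hN
    rw [Finset.mem_image] at hN
    obtain ⟨y0, hy0, rfl⟩ := hN
    rw [hP, Finset.mem_filter] at hy0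
    obtain ⟨hs, h1, hk⟩ := hg y0 hy0.2.2
    exact ⟨hs, h1, y0, hy0.2.2, hy0.2.1, hk⟩

end GU4
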