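import Pool.Agent.H258R2.GU.Sh
import Pool.Agent.H258R2.GU.Ineq
import Pool.Agent.H258R2.GU.Cn

set_option linter.unusedSectionVars false
set_option linter.unusedVariables false

namespace GU4

open SkewMonoidAlgebra

variable {K : Type} [Field K] [Fintype K] [GD K]

theorem Cl_cancel_left {X Y Z : Lam K} (hX : X ≠ 0) (h : X * Y = X * Z) : Y = Z := by
  have h1 : X * (Y - Z) = 0 := by rw [mul_sub, h, sub_self]
  rcases mul_eq_zero'' h1 with h2 | h2
  · exact absurd h2 hX
  · exact sub_eq_zero.1 h2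

theorem Cl_cancel_right {X Y Z : Lam K} (hX : X ≠ 0) (h : Y * X = Z * X) : Y = Z := by
  have h1 : (Y - Z) * X = 0 := by rw [sub_mul, h, sub_self]
  rcases mul_eq_zero'' h1 with h2 | h2
  · exact sub_eq_zero.1 h2
  · exact absurd h2 hX

theorem Cl_mon_inv {d : K} (hd : d ≠ 0) : mon 0 d⁻¹ * mon 0 d = (1 : Lam K) := by
  rw [mon_mul, fr_zero, add_zero, inv_mul_cancel₀ hd, one_eq]

theorem Cl_nrm_one : nrm (1 : K) = 1 := by
  simp [nrm]

theorem Cl_nrm_inv {d : K} (hd : nrm d = 1) : nrm d⁻¹ = 1 := by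
  have hd0 : d ≠ 0 := by
    rintro rfl
    simp [nrm] at hd
  have h := nrm_mul d d⁻¹
  rw [mul_inv_cancel₀ hd0, Cl_nrm_one, hd, one_mul] at h
  exact h.symm

section
variable {L : Type} [Field L] [Fintype L] (j : K →+* L) (s : L) (hs : s ≠ 0)

/-- consecutive odd vertices are different -/
theorem Cl_nb1 (hfs : fs j s ≠ 0) {v u u2 R P : Lam K} {A B B2 : Matrix (Fin 4) (Fin 4) L}
    (hB : B.det = - fs j s) (hB2 : B2.det = - fs j s)
    (eR : R * v * st R * u = ff) (eP : P * v * st P * u2 = ff)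
    (rR : B = rho j s hs R * A) (rP : B2 = rho j s hs P * A) (d : K) (hd : P = mon 0 d * R) :
    nrm d = 1 ∧ st (mon 0 d) * u2 * mon 0 d = u ∧ B2 = rho j s hs (mon 0 d) * B := by
  have e1 : B2 = rho j s hs (mon 0 d) * B := by
    rw [rP, hd, map_mul, rR, Matrix.mul_assoc]
  have e2 : nrm d = 1 := by
    have h1 := congrArg Matrix.det e1
    rw [Matrix.det_mul, det_rho_mon, hB, hB2] at h1
    have h2 : j (nrm d) = 1 := by
      have h3 : (j (nrm d) - 1) * (- fs j s) = 0 := by rw [sub_mul, ← h1]; ring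
      rcases mul_eq_zero.1 h3 with h4 | h4
      · exact sub_eq_zero.1 h4
      · exact absurd (neg_eq_zero.1 h4) hfs
    exact j.injective (by rw [h2, map_one])
  refine ⟨e2, ?_, e1⟩
  have h1 : mon 0 d * ((R * v * st R) * (st (mon 0 d) * u2)) = ff := by
    rw [← eP, hd, st_mul]
    noncomm_ring
  have h2 := rotate h1
  have h3 : (R * v * st R) * (st (mon 0 d) * u2 * mon 0 d) = (R * v * st R) * u := by
    rw [eR, ← h2]
    noncomm_ring
  refine Cl_cancel_left ?_ h3
  intro h0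
  apply ff_ne_zero (K := K)
  rw [← eR, h0, zero_mul]

/-- consecutive even vertices are different -/
theorem Cl_nb2 (hfs : fs j s ≠ 0) {v v2 u R P : Lam K} {A A2 B : Matrix (Fin 4) (Fin 4) L}
    (hA : A.det = 1) (hA2 : A2.det = 1) (hB : B.det = - fs j s)
    (eP : P * v * st P * u = ff) (eR : R * v2 * st R * u = ff)
    (rP : B = rho j s hs P * A) (rR : B = rho j s hs R * A2) (d : K) (hd : R = P * mon 0 d) :
    ∃ c : K, nrm c = 1 ∧ v2 = mon 0 c * v * st (mon 0 c) ∧ A2 = rho j s hs (mon 0 c) * A := by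
  have hP0 : P ≠ 0 := by
    rintro rfl
    apply ff_ne_zero (K := K)
    rw [← eP]
    simp
  have hPu : st P * u ≠ 0 := by
    intro h0
    apply ff_ne_zero (K := K)
    rw [← eP, mul_assoc, h0, mul_zero]
  have hdetP : IsUnit (rho j s hs P).det := by
    have h1 := congrArg Matrix.det rP
    rw [Matrix.det_mul, hA, mul_one, hB] at h1
    rw [← h1]
    exact isUnit_iff_ne_zero.2 (neg_ne_zero.2 hfs)
  have e1 : A = rho j s hs (mon 0 d) * A2 := by
    have h1 : rho j s hs P * A = rho j s hs P * (rho j s hs (mon 0 d) * A2) := by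
      rw [← rP, rR, hd, map_mul, Matrix.mul_assoc]
    have hU : IsUnit (rho j s hs P) := (Matrix.isUnit_iff_isUnit_det _).2 hdetP
    exact hU.mul_left_cancel h1
  have e2 : nrm d = 1 := by
    have h1 := congrArg Matrix.det e1
    rw [Matrix.det_mul, det_rho_mon, hA, hA2, mul_one] at h1
    exact j.injective (by rw [← h1, map_one])
  have hd0 : d ≠ 0 := by
    rintro rfl
    simp [nrm] at e2
  have e3 : v = mon 0 d * v2 * st (mon 0 d) := by
    have h1 : P * (v * (st P * u)) = P * ((mon 0 d * v2 * st (mon 0 d)) * (st P * u)) := by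
      have : P * (v * (st P * u)) = P * v * st P * u := by noncomm_ring
      rw [this, eP, ← eR, hd, st_mul]
      noncomm_ring
    exact Cl_cancel_right hPu (Cl_cancel_left hP0 h1)
  refine ⟨d⁻¹, Cl_nrm_inv e2, ?_, ?_⟩
  · have h1 : st (mon 0 d) * st (mon 0 d⁻¹) = (1 : Lam K) := by
      rw [← st_mul, Cl_mon_inv hd0, st_one]
    have h2 : mon 0 d⁻¹ * v * st (mon 0 d⁻¹) =
        (mon 0 d⁻¹ * mon 0 d) * v2 * (st (mon 0 d) * st (mon 0 d⁻¹)) := by
      rw [e3]
      noncomm_ring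
    rw [h2, h1, Cl_mon_inv hd0, one_mul, mul_one]
  · rw [e1, ← Matrix.mul_assoc, ← map_mul, Cl_mon_inv hd0, map_one, Matrix.one_mul]

/-- closed non-backtracking walks have length at least `8 D`. -/
theorem closed_walk (D : ℕ) (hcard : Fintype.card L = GD.q K ^ D) (h4 : 4 ∣ D) (hD : 0 < D)
    (hord : orderOf s = GD.q K ^ D - 1) (g : ℕ) (hg : 1 ≤ g)
    (a : ℕ → R0 K L) (b : ℕ → R1 (K := K) j s)
    (hP : ∀ i < g, edge j s hs (a i) (b i)) (hR : ∀ i < g, edge j s hs (a (i + 1)) (b i))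
    (ha : ∀ i < g, ¬ rel0 j s hs (a i) (a (i + 1)))
    (hb : ∀ i, i + 1 < g → ¬ rel1 j s hs (b i) (b (i + 1)))
    (hclose : a g = a 0) : 8 * D ≤ 2 * g := by
  classical
  have hfs : fs j s ≠ 0 := fs_ne_zero j s D h4 hD hord
  have hP' : ∀ i, ∃ N : Lam K, i < g → Supp N (-1) 1 ∧
      N * (a i).1.1 * st N * (b i).1.1 = ff ∧ (b i).1.2 = rho j s hs N * (a i).1.2 := by
    intro i
    by_cases h : i < g
    · obtain ⟨N, hN⟩ := hP i h
      exact ⟨N, fun _ => hN⟩
    · exact ⟨0, fun h' => absurd h' h⟩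
  have hR' : ∀ i, ∃ N : Lam K, i < g → Supp N (-1) 1 ∧
      N * (a (i + 1)).1.1 * st N * (b i).1.1 = ff ∧
        (b i).1.2 = rho j s hs N * (a (i + 1)).1.2 := by
    intro i
    by_cases h : i < g
    · obtain ⟨N, hN⟩ := hR i h
      exact ⟨N, fun _ => hN⟩
    · exact ⟨0, fun h' => absurd h' h⟩
  choose P hP using hP'
  choose R hR using hR'
  obtain ⟨v, hv⟩ : ∃ v : ℕ → Lam K, ∀ i, v i = (a i).1.1 := ⟨_, fun _ => rfl⟩
  obtain ⟨A, hA⟩ : ∃ A : ℕ → Matrix (Fin 4) (Fin 4) L, ∀ i, A i = (a i).1.2 := ⟨_, fun _ => rfl⟩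
  obtain ⟨u, hu⟩ : ∃ u : ℕ → Lam K, ∀ i, u i = (b i).1.1 := ⟨_, fun _ => rfl⟩
  obtain ⟨B, hB⟩ : ∃ B : ℕ → Matrix (Fin 4) (Fin 4) L, ∀ i, B i = (b i).1.2 := ⟨_, fun _ => rfl⟩
  simp only [← hv, ← hA, ← hu, ← hB] at hP hR
  have hvU : ∀ i, IsU (v i) := fun i => by rw [hv]; exact (a i).2.1
  have hAd : ∀ i, (A i).det = 1 := fun i => by rw [hA]; exact (a i).2.2
  have huU : ∀ i, IsU (u i) := fun i => by rw [hu]; exact (b i).2.1
  have hBd : ∀ i, (B i).det = - fs j s := fun i => by rw [hB]; exact (b i).2.2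
  have hvg : v g = v 0 := by rw [hv, hv, hclose]
  have hAg : A g = A 0 := by rw [hA, hA, hclose]
  -- X and M
  obtain ⟨X, hX⟩ : ∃ X : ℕ → Lam K, ∀ i, X i = v (i + 1) * st (R i) * u i * P i :=
    ⟨_, fun _ => rfl⟩
  obtain ⟨M, hM0, hM⟩ : ∃ M : ℕ → Lam K, M 0 = 1 ∧ ∀ i, M (i + 1) = X i * M i :=
    ⟨fun n => Nat.rec 1 (fun i m => X i * m) n, rfl, fun _ => rfl⟩
  have hRX : ∀ i < g, R i * X i = ff * P i := by
    intro i hi
    rw [hX, ← (hR i hi).2.1]
    noncomm_ring
  -- the chain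
  have hstep : ∀ i < g, R i * (ff ^ (g - (i + 1)) * M (i + 1)) = P i * (ff ^ (g - i) * M i) := by
    intro i hi
    have e1 : g - i = (g - (i + 1)) + 1 := by omega
    rw [hM, e1, pow_succ]
    calc R i * (ff ^ (g - (i + 1)) * (X i * M i))
        = (R i * ff ^ (g - (i + 1))) * X i * M i := by noncomm_ring
      _ = ff ^ (g - (i + 1)) * (R i * X i) * M i := by
          rw [← Ineq_ff_pow_comm]; noncomm_ring
      _ = ff ^ (g - (i + 1)) * (ff * P i) * M i := by rw [hRX i hi]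
      _ = (ff ^ (g - (i + 1)) * ff) * P i * M i := by noncomm_ring
      _ = P i * (ff ^ (g - (i + 1)) * ff) * M i := by
          rw [← pow_succ, Ineq_ff_pow_comm]
      _ = _ := by noncomm_ring
  -- supports
  have hXs : ∀ i < g, Supp (X i) (-4) 4 := by
    intro i hi
    have h1 := supp_mul (supp_mul (supp_mul (hvU (i + 1)).supp (supp_st (hR i hi).1))
      (huU i).supp) (hP i hi).1
    rw [← hX] at h1
    norm_num at h1
    exact h1
  have hMs : ∀ i ≤ g, Supp (M i) (-4 * i) (4 * i) := by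
    intro i
    induction i with
    | zero =>
      intro _
      rw [hM0, one_eq]
      have := supp_mon (K := K) 0 1
      simpa using this
    | succ i ih =>
      intro hi
      have h1 := supp_mul (hXs i (by omega)) (ih (by omega))
      rw [← hM] at h1
      refine supp_mono h1 ?_ ?_
      · push_cast; linarith
      · push_cast; linarith
  -- hermitian relation
  have hXv : ∀ i < g, X i * v i * st (X i) = ff * (ff * v (i + 1)) := by
    intro i hi
    have e1 : st (X i) = st (P i) * u i * R i * v (i + 1) := by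
      rw [hX, st_mul, st_mul, st_mul, st_st, (huU i).st_eq, (hvU (i + 1)).st_eq]
      noncomm_ring
    have e2 : v (i + 1) * st (R i) * u i * R i = ff := by
      have : R i * (v (i + 1) * st (R i) * u i) = ff := by
        rw [← (hR i hi).2.1]; noncomm_ring
      exact rotate this
    rw [e1, hX]
    calc v (i + 1) * st (R i) * u i * P i * v i * (st (P i) * u i * R i * v (i + 1))
        = (v (i + 1) * st (R i) * u i) * (P i * v i * st (P i) * u i) * R i * v (i + 1) := by
          noncomm_ring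
      _ = (v (i + 1) * st (R i) * u i) * ff * R i * v (i + 1) := by rw [(hP i hi).2.1]
      _ = ff * (v (i + 1) * st (R i) * u i) * R i * v (i + 1) := by rw [ff_comm]
      _ = ff * ((v (i + 1) * st (R i) * u i * R i) * v (i + 1)) := by noncomm_ring
      _ = _ := by rw [e2]
  have hMv : ∀ i ≤ g, M i * v 0 * st (M i) = ff ^ (2 * i) * v i := by
    intro i
    induction i with
    | zero =>
      intro _
      rw [hM0, st_one]
      simp
    | succ i ih =>
      intro hi
      have ih' := ih (by omega)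
      rw [hM, st_mul]
      calc X i * M i * v 0 * (st (M i) * st (X i))
          = X i * (M i * v 0 * st (M i)) * st (X i) := by noncomm_ring
        _ = X i * (ff ^ (2 * i) * v i) * st (X i) := by rw [ih']
        _ = (X i * ff ^ (2 * i)) * v i * st (X i) := by noncomm_ring
        _ = ff ^ (2 * i) * (X i * v i * st (X i)) := by
            rw [← Ineq_ff_pow_comm]; noncomm_ring
        _ = ff ^ (2 * i) * (ff * (ff * v (i + 1))) := by rw [hXv i (by omega)]
        _ = ff ^ (2 * (i + 1)) * v (i + 1) := by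
            rw [show 2 * (i + 1) = 2 * i + 1 + 1 by ring, pow_succ, pow_succ]
            noncomm_ring
  -- the representation
  have hXA : ∀ i < g, rho j s hs (X i) * A i = fs j s • A (i + 1) := by
    intro i hi
    have e2 : v (i + 1) * st (R i) * u i * R i = ff := by
      have : R i * (v (i + 1) * st (R i) * u i) = ff := by
        rw [← (hR i hi).2.1]; noncomm_ring
      exact rotate this
    rw [hX, map_mul, Matrix.mul_assoc, ← (hP i hi).2.2, (hR i hi).2.2, ← Matrix.mul_assoc,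
      ← map_mul, e2, rho_ff j s hs 0, Matrix.smul_mul, Matrix.one_mul]
  have hMA : ∀ i ≤ g, rho j s hs (M i) * A 0 = (fs j s) ^ i • A i := by
    intro i
    induction i with
    | zero =>
      intro _
      rw [hM0, map_one, Matrix.one_mul, pow_zero, one_smul]
    | succ i ih =>
      intro hi
      rw [hM, map_mul, Matrix.mul_assoc, ih (by omega), Matrix.mul_smul, hXA i (by omega),
        smul_smul, pow_succ]
  have hrho : rho j s hs (M g) = (fs j s) ^ g • (1 : Matrix (Fin 4) (Fin 4) L) := by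
    have h1 := hMA g le_rfl
    rw [hAg] at h1
    have hU : IsUnit (A 0) := (Matrix.isUnit_iff_isUnit_det _).2 (by rw [hAd 0]; exact isUnit_one)
    refine hU.mul_right_cancel ?_
    rw [h1, Matrix.smul_mul, Matrix.one_mul]
  have h1 : rho j s hs (M g - ff ^ g) = 0 := by
    rw [map_sub, Ineq_rho_ff_pow, hrho, sub_self]
  have h2 : rho j s hs (st (M g - ff ^ g)) = 0 := by
    rw [map_sub (st : Lam K →+ Lam K), st_ff_pow, map_sub, Ineq_rho_ff_pow]
    have e1 := congrArg (rho j s hs) (hMv g le_rfl)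
    rw [hvg, map_mul, map_mul, hrho, map_mul, Ineq_rho_ff_pow, Matrix.smul_mul, Matrix.one_mul,
      Matrix.smul_mul, Matrix.smul_mul, Matrix.one_mul] at e1
    have hdet : IsUnit (rho j s hs (v 0)) := by
      rw [Matrix.isUnit_iff_isUnit_det]
      obtain ⟨w, hw, hw'⟩ := (hvU 0).ker
      rw [det_rho j s hs (hvU 0).supp hw hw', (hvU 0).nrm_eq, map_one, one_mul]
      exact isUnit_iff_ne_zero.2 (neg_ne_zero.2 hfs)
    have e2 : (fs j s) ^ g • (rho j s hs (v 0) * rho j s hs (st (M g))) =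
        (fs j s) ^ g • (rho j s hs (v 0) * ((fs j s) ^ g • (1 : Matrix (Fin 4) (Fin 4) L))) := by
      rw [e1, Matrix.mul_smul, Matrix.mul_one, smul_smul, ← pow_add, two_mul]
    have e3 := smul_right_injective _ (pow_ne_zero g hfs) e2
    have e4 := hdet.mul_left_cancel e3
    rw [e4, sub_self]
  -- non-vanishing
  have hP0 : ∀ i < g, P i ≠ 0 := by
    intro i hi h0
    apply ff_ne_zero (K := K)
    rw [← (hP i hi).2.1, h0]
    simp
  have hstart : ∃ e0 : K × K, e0 ≠ 0 ∧ ∃ Q u' : Lam K, IsU u' ∧ Supp Q (-1) 1 ∧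
      Q * v 0 * st Q * u' = ff ∧ act Q e0 = 0 ∧ ¬ ∃ d : K, P 0 = mon 0 d * Q := by
    obtain ⟨F, hF, hFN⟩ := nbr_count (hvU 0)
    have hq2 : 2 ≤ GD.q K := GD.hq
    have hF1 : 1 < F.card := by
      have : 0 < GD.q K ^ 3 := by positivity
      omega
    obtain ⟨N1, hN1, N2, hN2, hne⟩ := Finset.one_lt_card.1 hF1
    have hkey : ∃ N ∈ F, ¬ ∃ d : K, P 0 = mon 0 d * N := by
      by_contra hcon
      push Not at hcon
      obtain ⟨d1, hd1⟩ := hcon N1 hN1
      obtain ⟨d2, hd2⟩ := hcon N2 hN2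
      have c1 : cf (P 0) 1 = d1 := by
        rw [hd1, cf_mon_mul, sub_zero, (hFN N1 hN1).2.1, map_one, mul_one]
      have c2 : cf (P 0) 1 = d2 := by
        rw [hd2, cf_mon_mul, sub_zero, (hFN N2 hN2).2.1, map_one, mul_one]
      have hd : d1 = d2 := c1.symm.trans c2
      subst hd
      apply hne
      refine Cl_cancel_left (X := mon 0 d1) ?_ (hd1.symm.trans hd2)
      intro h0
      apply hP0 0 (by omega)
      rw [hd1, h0, zero_mul]
    obtain ⟨N, hN, hNd⟩ := hkey
    obtain ⟨s1, s2, y, y1, y2, y3⟩ := hFN N hN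
    obtain ⟨u', hu', he'⟩ := exists_nbr (hvU 0) y y2 y1 s1 s2 y3
    exact ⟨act (v 0) y, y1, N, u', hu', s1, he', y3, hNd⟩
  obtain ⟨e0, he0, hQ0⟩ := hstart
  have hnb2 : ∀ i < g, ¬ ∃ d : K, R i = P i * mon 0 d := by
    rintro i hi ⟨d, hd⟩
    apply ha i hi
    obtain ⟨c, hc1, hc2, hc3⟩ := Cl_nb2 j s hs hfs (hAd i) (hAd (i + 1)) (hBd i) (hP i hi).2.1
      (hR i hi).2.1 (hP i hi).2.2 (hR i hi).2.2 d hd
    refine ⟨c, hc1, ?_, ?_⟩
    · rw [← hv, ← hv]; exact hc2
    · rw [← hA, ← hA]; exact hc3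
  have hnb1 : ∀ i, i + 1 < g → ¬ ∃ d : K, P (i + 1) = mon 0 d * R i := by
    rintro i hi ⟨d, hd⟩
    apply hb i hi
    obtain ⟨hc1, hc2, hc3⟩ := Cl_nb1 j s hs hfs (hBd i) (hBd (i + 1)) (hR i (by omega)).2.1
      (hP (i + 1) hi).2.1 (hR i (by omega)).2.2 (hP (i + 1) hi).2.2 d hd
    refine ⟨d, hc1, ?_, ?_⟩
    · rw [← hu, ← hu]; exact hc2
    · rw [← hB, ← hB]; exact hc3
  have hind : ∀ i < g, act (M i) e0 ≠ 0 ∧ ∃ Q u' : Lam K, IsU u' ∧ Supp Q (-1) 1 ∧
      Q * v i * st Q * u' = ff ∧ act Q (act (M i) e0) = 0 ∧ ¬ ∃ d : K, P i = mon 0 d * Q := by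
    intro i
    induction i with
    | zero =>
      intro _
      rw [hM0, act_one]
      exact ⟨he0, hQ0⟩
    | succ i ih =>
      intro hi
      obtain ⟨hne, Q, u', hu', hQs, hQe, hQ0', hnb⟩ := ih (by omega)
      have hi' : i < g := by omega
      have k1 := nonvanish (hvU i) (hvU (i + 1)) (huU i) hu' (hP i hi').1 (hR i hi').1 hQs
        (hP i hi').2.1 (hR i hi').2.1 hQe hne hQ0' hnb (hnb2 i hi')
      rw [← hX] at k1
      rw [hM, act_mul]
      refine ⟨k1, R i, u i, huU i, (hR i hi').1, (hR i hi').2.1, ?_, hnb1 i hi⟩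
      rw [← act_mul, hRX i hi', act_mul, act_ff]
  have hfinal : act (M g) e0 ≠ 0 := by
    obtain ⟨i, rfl⟩ : ∃ i, g = i + 1 := ⟨g - 1, by omega⟩
    obtain ⟨hne, Q, u', hu', hQs, hQe, hQ0', hnb⟩ := hind i (by omega)
    have hi' : i < i + 1 := by omega
    have k1 := nonvanish (hvU i) (hvU (i + 1)) (huU i) hu' (hP i hi').1 (hR i hi').1 hQs
      (hP i hi').2.1 (hR i hi').2.1 hQe hne hQ0' hnb (hnb2 i hi')
    rw [← hX] at k1
    rw [hM, act_mul]
    exact k1
  have hne : M g ≠ ff ^ g := by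
    intro h
    apply hfinal
    obtain ⟨i, rfl⟩ : ∃ i, g = i + 1 := ⟨g - 1, by omega⟩
    rw [h, pow_succ', act_mul, act_ff]
  refine main_ineq j s hs D hcard h4 hD hord (fun i => ff ^ (g - i) * M i) R P g ?_ ?_ hstep ?_ ?_
    ?_ ?_
  · intro i hi
    refine ⟨(hR i hi).1, ?_⟩
    intro h0
    apply ff_ne_zero (K := K)
    rw [← (hR i hi).2.1, h0]
    simp
  · simp only [Nat.sub_zero, hM0, mul_one]
  · simp only [Nat.sub_self, pow_zero, one_mul]
    exact hne
  · simp only [Nat.sub_self, pow_zero, one_mul]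
    exact hMs g le_rfl
  · simp only [Nat.sub_self, pow_zero, one_mul]
    exact h1
  · simp only [Nat.sub_self, pow_zero, one_mul]
    exact h2
end

end GU4
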