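import Pool.Agent.H258R2.GU.Sb
import Pool.Agent.H258R2.GU.Dt

set_option linter.unusedSectionVars false
set_option linter.unusedVariables false

namespace GU4

open SkewMonoidAlgebra

variable {K : Type} [Field K] [Fintype K] [GD K]

open Polynomial in
/-- no scalar satisfies `fr 2 z = - c z` for all `z` -/
theorem Ex_exists_ne (c : K) : ∃ z : K, fr 2 z + c * z ≠ 0 := by
  classical
  by_contra h
  push Not at h
  have hq := GD.hq (K := K)
  have hn : (X ^ (GD.q K ^ 2) + C c * X : K[X]).natDegree = GD.q K ^ 2 := by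
    have h1 : (C c * X : K[X]).degree < ((X : K[X]) ^ (GD.q K ^ 2)).degree := by
      rw [degree_X_pow]
      refine lt_of_le_of_lt (degree_C_mul_X_le c) ?_
      have : 1 < GD.q K ^ 2 := by nlinarith
      exact_mod_cast this
    have h2 := degree_add_eq_left_of_degree_lt h1
    rw [degree_X_pow] at h2
    exact natDegree_eq_of_degree_eq_some h2
  have h0 : (X ^ (GD.q K ^ 2) + C c * X : K[X]) = 0 := by
    refine eq_zero_of_natDegree_lt_card_of_eval_eq_zero _ (f := fun z : K => z)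
      (fun _ _ e => e) (fun z => ?_) ?_
    · have h2 := fr_nat 2 z
      rw [Nat.cast_ofNat] at h2
      rw [eval_add, eval_pow, eval_X, eval_mul, eval_C, eval_X, ← h2]
      exact h z
    · rw [hn, GD.card (K := K)]
      exact Nat.pow_lt_pow_right (by omega) (by norm_num)
  rw [h0, natDegree_zero] at hn
  have : 0 < GD.q K ^ 2 := by positivity
  omega

/-- Hilbert 90 -/
theorem Ex_hilbert (c : K) (hc : c * fr 2 c = 1) : ∃ y : K, y ≠ 0 ∧ fr 2 y = c * y := by
  have hc0 : c ≠ 0 := by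
    rintro rfl
    simp at hc
  obtain ⟨z, hz⟩ := Ex_exists_ne c
  refine ⟨z + c⁻¹ * fr 2 z, ?_, ?_⟩
  · intro h
    apply hz
    have : fr 2 z + c * z = c * (z + c⁻¹ * fr 2 z) := by
      field_simp
      ring
    rw [this, h, mul_zero]
  · rw [map_add, map_mul, fr_fr, map_inv₀, show (2 : ℤ) + 2 = 4 from rfl, fr_four]
    have : (fr 2 c)⁻¹ = c := by
      rw [inv_eq_iff_eq_inv]
      exact eq_inv_of_mul_eq_one_right hc
    rw [this]
    field_simp
    ring

/-- the norm from `K` to the fixed field of `fr 2` is surjective -/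
theorem Ex_norm (d : K) (hd : d ≠ 0) (h2 : fr 2 d = d) : ∃ a : K, a * fr 2 a = d := by
  classical
  have hq := GD.hq (K := K)
  obtain ⟨g, hg⟩ := IsCyclic.exists_generator (α := Kˣ)
  have hord : orderOf g = GD.q K ^ 4 - 1 := by
    rw [orderOf_eq_card_of_forall_mem_zpowers hg, Nat.card_eq_fintype_card, Fintype.card_units,
      GD.card (K := K)]
  obtain ⟨k, hk⟩ := (mem_powers_iff_mem_zpowers (x := g)).2 (hg (Units.mk0 d hd))
  have hk' : g ^ k = Units.mk0 d hd := hk
  have hdpow : (Units.mk0 d hd) ^ (GD.q K ^ 2 - 1) = 1 := by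
    have e1 : d ^ (GD.q K ^ 2) = d := by
      have := fr_nat 2 d
      rw [Nat.cast_ofNat] at this
      rw [← this, h2]
    apply Units.ext
    rw [Units.val_pow_eq_pow_val, Units.val_mk0, Units.val_one]
    have h1 : 1 ≤ GD.q K ^ 2 := Nat.one_le_pow _ _ (by omega)
    have e2 : d ^ (GD.q K ^ 2 - 1) * d = d := by
      rw [← pow_succ, Nat.sub_add_cancel h1, e1]
    exact mul_right_cancel₀ hd (by rw [e2, one_mul])
  rw [← hk', ← pow_mul] at hdpow
  have hdvd := orderOf_dvd_of_pow_eq_one hdpow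
  rw [hord] at hdvd
  have h1 : 1 < GD.q K ^ 2 := by nlinarith
  have hfac : GD.q K ^ 4 - 1 = (GD.q K ^ 2 + 1) * (GD.q K ^ 2 - 1) := by
    have : GD.q K ^ 4 = (GD.q K ^ 2) ^ 2 := by ring
    rw [this]
    have := Nat.sq_sub_sq (GD.q K ^ 2) 1
    rw [one_pow] at this
    exact this
  rw [hfac] at hdvd
  have hdvd' : GD.q K ^ 2 + 1 ∣ k := Nat.dvd_of_mul_dvd_mul_right (by omega) hdvd
  obtain ⟨m, rfl⟩ := hdvd'
  refine ⟨((g ^ m : Kˣ) : K), ?_⟩
  have h3 := fr_nat 2 ((g ^ m : Kˣ) : K)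
  rw [Nat.cast_ofNat] at h3
  rw [h3, ← Units.val_pow_eq_pow_val, ← Units.val_mul, ← pow_succ', ← pow_mul, mul_comm m, hk']
  rfl

/-- a Gram element exists. -/
theorem exists_IsU : ∃ v : Lam K, IsU v := by
  have hx := x_ne_zero (K := K)
  obtain ⟨a, ha⟩ := Ex_norm (-(GD.x : K) ^ 2) (by simpa using hx)
    (by rw [map_neg, map_pow, fr_two_x])
  have ha0 : a ≠ 0 := by
    rintro rfl
    rw [zero_mul] at ha
    exact hx (by simpa using ha.symm)
  have h1 : fr 1 a * fr 3 a = -((GD.x : K)⁻¹) ^ 2 := by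
    have := congrArg (fr 1) ha
    rw [map_mul, fr_fr, show (1 : ℤ) + 2 = 3 from rfl, map_neg, map_pow, fr_one_x] at this
    exact this
  have hf1 : fr 1 a ≠ 0 := fun h => ha0 ((fr_eq_zero 1).1 h)
  have hf3 : fr 3 a ≠ 0 := fun h => ha0 ((fr_eq_zero 3).1 h)
  obtain ⟨y, hy0, hy⟩ := Ex_hilbert (-(fr 2 a) / (fr 1 a * (GD.x : K) ^ 2)) (by
    rw [map_div₀, map_neg, map_mul, map_pow, fr_two_x, fr_fr, fr_fr,
      show (2 : ℤ) + 2 = 4 from rfl, show (2 : ℤ) + 1 = 3 from rfl, fr_four]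
    rw [div_mul_div_comm, div_eq_one_iff_eq (by
      exact mul_ne_zero (mul_ne_zero hf1 (pow_ne_zero _ hx)) (mul_ne_zero hf3 (pow_ne_zero _ hx)))]
    have e1 : -(fr 2 a) * -a = a * fr 2 a := by ring
    have e2 : fr 1 a * (GD.x : K) ^ 2 * (fr 3 a * (GD.x : K) ^ 2) =
        (fr 1 a * fr 3 a) * (GD.x : K) ^ 4 := by ring
    rw [e1, e2, ha, h1]
    field_simp)
  refine ⟨mon 1 a + mon (-1) (fr 1 a), ?_, ?_, ?_, (y, 0), ?_, ?_⟩
  · intro i hi
    rw [cf_add, cf_mon, cf_mon] at hi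
    by_contra hcon
    apply hi
    have e1 : ¬ (1 : ℤ) = i := by omega
    have e2 : ¬ (-1 : ℤ) = i := by omega
    rw [if_neg e1, if_neg e2, add_zero]
  · rw [map_add, st_mon, st_mon, fr_fr, neg_neg]
    rw [show (2 : ℤ) - -1 + 1 = 4 from rfl, show (2 : ℤ) - 1 = 1 from rfl, fr_four, add_comm]
  · rw [cf_add, cf_mon, cf_mon, if_pos rfl, if_neg (by norm_num), add_zero]
    unfold nrm
    have : a * fr 1 a * fr 2 a * fr 3 a = (a * fr 2 a) * (fr 1 a * fr 3 a) := by ring
    rw [this, ha, h1]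
    field_simp
  · intro h
    exact hy0 (congrArg Prod.fst h)
  · rw [act_add, act_mon_one, act_mon_neg_one, fr_fr, show (1 : ℤ) + 1 = 2 from rfl, hy]
    ext
    · simp
    · simp only [Prod.snd_add, Prod.snd_zero]
      field_simp
      ring

end GU4
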