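import Pool.Agent.H258R2.GU.Gr

set_option linter.unusedSectionVars false
set_option linter.unusedVariables false

namespace GU4

open SkewMonoidAlgebra

variable {K : Type} [Field K] [Fintype K] [GD K]

section
variable {L : Type} [Field L] [Fintype L] (j : K →+* L) (s : L) (hs : s ≠ 0)

theorem Gt_rho_one (a : K) : rho j s hs (mon 1 a) = rhoK j a * rhoT s := by
  rw [rho_mon, zpow_one]; rfl

theorem Gt_rho_zero (a : K) : rho j s hs (mon 0 a) = rhoK j a := by
  rw [rho_mon, zpow_zero, Units.val_one, mul_one]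

theorem Gt_rho_neg (a : K) : rho j s hs (mon (-1) a) = rhoK j a * rhoTi s := by
  rw [rho_mon, zpow_neg, zpow_one]; rfl

theorem Gt_three {X : Lam K} (h : Supp X (-1) 1) :
    X = mon 1 (cf X 1) + mon 0 (cf X 0) + mon (-1) (cf X (-1)) := by
  apply cf_ext
  intro i
  simp only [cf_add, cf_mon]
  by_cases h1 : i = 1
  · subst h1; simp
  by_cases h0 : i = 0
  · subst h0; simp
  by_cases hm : i = -1
  · subst hm; simp
  have : cf X i = 0 := by
    by_contra hne
    have := h i hne
    omega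
  rw [this, if_neg (Ne.symm h1), if_neg (Ne.symm h0), if_neg (Ne.symm hm)]
  simp

include hs in
theorem Gt_rho_inj {X : Lam K} (h : Supp X (-1) 1) (h0 : rho j s hs X = 0) : X = 0 := by
  have hX := Gt_three h
  set a := cf X 1
  set b := cf X 0
  set c := cf X (-1)
  rw [hX, map_add, map_add, Gt_rho_one, Gt_rho_zero, Gt_rho_neg] at h0
  have e00 := congrFun (congrFun h0 0) 0
  have e01 := congrFun (congrFun h0 0) 1
  have e03 := congrFun (congrFun h0 0) 3
  simp [rhoK, rhoT, rhoTi, Matrix.mul_apply, Fin.sum_univ_four, Matrix.diagonal, fr_zero] at e00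
  simp [rhoK, rhoT, rhoTi, Matrix.mul_apply, Fin.sum_univ_four, Matrix.diagonal, fr_zero] at e01
  simp [rhoK, rhoT, rhoTi, Matrix.mul_apply, Fin.sum_univ_four, Matrix.diagonal, fr_zero, hs] at e03
  have hb : b = 0 := by simpa using e00
  have ha : a = 0 := by simpa using e01
  have hc : c = 0 := by simpa using e03
  rw [hX, ha, hb, hc, mon_zero, mon_zero, mon_zero]
  simp

/-- an odd vertex has at least `q ^ 3 + 1` inequivalent neighbours. -/
theorem deg_odd (hf : fs (K := K) j s ≠ 0) (r' : R1 (K := K) j s) :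
    ∃ F : Finset (Lam K), GD.q K ^ 3 + 1 ≤ F.card ∧ ∃ φ : F → R0 K L,
      (∀ N, edge j s hs (φ N) r') ∧ ∀ N N', rel0 j s hs (φ N) (φ N') → N = N' := by
  obtain ⟨⟨u, A'⟩, hu, hA'⟩ := r'
  simp only at hu hA'
  obtain ⟨F, hF, hM⟩ := nbr_count hu
  have hex : ∀ M : F, ∃ v : Lam K, IsU v ∧ (M : Lam K) * u * st (M : Lam K) * v = ff := by
    intro M
    obtain ⟨h1, h2, y, hy, hyy, hNy⟩ := hM M.1 M.2
    exact exists_nbr hu y hyy hy h1 h2 hNy
  choose v hv hMv using hex
  have hne : ∀ M : F, (M : Lam K) ≠ 0 := by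
    intro M h
    have := (hM M.1 M.2).2.1
    rw [h, cf_zero] at this
    exact zero_ne_one this
  have hSt : ∀ M : F, Supp (st (M : Lam K)) (-1) 1 := by
    intro M
    have := supp_st (hM M.1 M.2).1
    simpa using this
  have hdetM : ∀ M : F, (rho j s hs (st (M : Lam K))).det = - fs j s := by
    intro M
    obtain ⟨h1, h2, y, hy, hyy, hNy⟩ := hM M.1 M.2
    obtain ⟨w', hw', hw0⟩ := ker_st h1 (hne M) hy hNy
    rw [det_rho j s hs (hSt M) hw' hw0, cf_st, nrm_fr, nrm_cf h1 hy hNy, h2]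
    have : nrm (1 : K) = 1 := by simp [nrm]
    rw [this, map_one, one_mul]
  have hfs : - fs (K := K) j s ≠ 0 := neg_ne_zero.2 hf
  have hunit : ∀ M : F, IsUnit (rho j s hs (st (M : Lam K))).det := by
    intro M
    rw [hdetM M]
    exact isUnit_iff_ne_zero.2 hfs
  have hdet : ∀ M : F, ((rho j s hs (st (M : Lam K)))⁻¹ * A').det = 1 := by
    intro M
    rw [Matrix.det_mul, Matrix.det_nonsing_inv, hdetM M, hA', Ring.inverse_eq_inv',
      inv_mul_cancel₀ hfs]
  have hmul : ∀ M : F, rho j s hs (st (M : Lam K)) * ((rho j s hs (st (M : Lam K)))⁻¹ * A') = A' :=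
    fun M => Matrix.mul_nonsing_inv_cancel_left _ _ (hunit M)
  refine ⟨F, hF, fun M => ⟨(v M, (rho j s hs (st (M : Lam K)))⁻¹ * A'), hv M, hdet M⟩, ?_, ?_⟩
  · intro M
    refine ⟨st (M : Lam K), hSt M, ?_, (hmul M).symm⟩
    simp only
    rw [st_st]
    have h1 : ((M : Lam K) * u) * (st (M : Lam K) * v M) = ff := by
      rw [← hMv M]; simp only [mul_assoc]
    have h2 := rotate h1
    rw [← h2]
    simp only [mul_assoc]
  · rintro M M' ⟨c, hc, _, h⟩
    simp only at h
    set A := (rho j s hs (st (M : Lam K)))⁻¹ * A' with hAdef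
    have hAu : IsUnit A := by
      rw [Matrix.isUnit_iff_isUnit_det, hAdef, hdet M]; exact isUnit_one
    have h0 : rho j s hs (st (M' : Lam K)) * (rho j s hs (mon 0 c) * A) =
        rho j s hs (st (M : Lam K)) * A := by
      rw [← h, hmul M', hAdef, hmul M]
    have h1 : rho j s hs (st (M' : Lam K) * mon 0 c - st (M : Lam K)) * A = 0 := by
      rw [map_sub, sub_mul, map_mul, Matrix.mul_assoc, h0, sub_self]
    have h2 : rho j s hs (st (M' : Lam K) * mon 0 c - st (M : Lam K)) = 0 := by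
      rw [← hAu.mul_left_inj, h1, zero_mul]
    have hs0 : Supp (st (M' : Lam K) * mon 0 c) (-1) 1 := by
      have := supp_mul (hSt M') (supp_mon 0 c)
      simpa using this
    have h3 := Gt_rho_inj j s hs (supp_sub hs0 (hSt M)) h2
    have h4 : st (M' : Lam K) * mon 0 c = st (M : Lam K) := sub_eq_zero.1 h3
    have h5 : (M : Lam K) = mon 0 (fr 2 c) * (M' : Lam K) := by
      rw [← st_st (M : Lam K), ← h4, st_mul, st_st, st_mon]
      simp
    have h6 : cf (M : Lam K) 1 = fr 2 c := by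
      rw [h5, cf_mon_mul]
      simp [fr_zero, (hM M'.1 M'.2).2.1]
    rw [(hM M.1 M.2).2.1] at h6
    rw [← h6, ← one_eq, one_mul] at h5
    exact Subtype.ext h5
end

end GU4
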