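import Pool.Agent.H258R2.GU.Gs
import Pool.Agent.H258R2.GU.Gt
import Pool.Agent.H258R2.GU.Cl
import Pool.Agent.H258R2.GU.Cd
import Pool.Agent.H258R2.GU.GL
import Pool.Agent.H258R2.GU.Ex

set_option linter.unusedSectionVars false
set_option linter.unusedVariables false

namespace GU4

open SkewMonoidAlgebra

variable {K : Type} [Field K] [Fintype K] [GD K]

/-- the embedding of `K` into `L`. -/
theorem asm_j {L : Type} [Field L] [Fintype L] (D : ℕ) (hcard : Fintype.card L = GD.q K ^ D)
    (h4 : 4 ∣ D) (hD : 0 < D) : Nonempty (K →+* L) := by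
  obtain ⟨e, he⟩ := h4
  have he0 : 0 < e := by omega
  obtain ⟨p, hcp, n, hp, hn⟩ := FiniteField.card' K
  obtain ⟨p', hcp', n', hp', hn'⟩ := FiniteField.card' L
  have hL : Fintype.card L = p ^ ((n : ℕ) * e) := by
    rw [hcard, he, pow_mul, ← GD.card (K := K), hn, ← pow_mul]
  have hpp : p = p' := by
    have h1 : p' ∣ p ^ ((n : ℕ) * e) := by
      rw [← hL, hn']
      exact dvd_pow_self _ n'.pos.ne'
    exact ((Nat.prime_dvd_prime_iff_eq hp' hp).1 (hp'.dvd_of_dvd_pow h1)).symm
  subst hpp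
  have : Fact p.Prime := ⟨hp⟩
  let _ : Algebra (ZMod p) K := ZMod.algebra _ _
  let _ : Algebra (ZMod p) L := ZMod.algebra _ _
  have h1 : Module.finrank (ZMod p) K = n := by
    have h := FiniteField.pow_finrank_eq_card p K
    rw [hn] at h
    exact Nat.pow_right_injective hp.two_le h
  have h2 : Module.finrank (ZMod p) L = n * e := by
    have h := FiniteField.pow_finrank_eq_card p L
    rw [hL] at h
    exact Nat.pow_right_injective hp.two_le h
  have h3 : Module.finrank (ZMod p) K ∣ Module.finrank (ZMod p) L := by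
    rw [h1, h2]
    exact dvd_mul_right _ _
  obtain ⟨f⟩ := FiniteField.nonempty_algHom_of_finrank_dvd h3
  exact ⟨f⟩

section
variable {L : Type} [Field L] [Fintype L] (j : K →+* L) (s : L) (hs : s ≠ 0)

/-- the setoid of even vertices. -/
def asmS0 : Setoid (R0 K L) where
  r := rel0 j s hs
  iseqv := ⟨rel0_refl j s hs, rel0_symm j s hs, rel0_trans j s hs⟩

/-- the setoid of odd vertices. -/
def asmS1 : Setoid (R1 (K := K) j s) where
  r := rel1 j s hs
  iseqv := ⟨rel1_refl j s hs, rel1_symm j s hs, rel1_trans j s hs⟩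

/-- adjacency of classes. -/
def asmE (a : Quotient (asmS0 (K := K) j s hs)) (b : Quotient (asmS1 (K := K) j s hs)) : Prop :=
  edge j s hs a.out b.out

/-- the graph. -/
def asmG : SimpleGraph (Quotient (asmS0 (K := K) j s hs) ⊕ Quotient (asmS1 (K := K) j s hs)) :=
  SimpleGraph.fromRel (fun x y => ∃ a b, x = Sum.inl a ∧ y = Sum.inr b ∧ asmE j s hs a b)

theorem asm_adj (a : Quotient (asmS0 (K := K) j s hs)) (b : Quotient (asmS1 (K := K) j s hs)) :
    (asmG j s hs).Adj (Sum.inl a) (Sum.inr b) ↔ asmE j s hs a b := by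
  unfold asmG
  rw [SimpleGraph.fromRel_adj]
  constructor
  · rintro ⟨-, ⟨a', b', h1, h2, h3⟩ | ⟨a', b', h1, h2, h3⟩⟩
    · cases h1; cases h2; exact h3
    · cases h1
  · intro h
    exact ⟨by simp, Or.inl ⟨a, b, rfl, rfl, h⟩⟩

theorem asm_out0 (r : R0 K L) :
    rel0 j s hs r (Quotient.out (Quotient.mk (asmS0 (K := K) j s hs) r)) :=
  rel0_symm j s hs (Quotient.exact (Quotient.out_eq (Quotient.mk (asmS0 (K := K) j s hs) r)))

theorem asm_out1 (r : R1 (K := K) j s) :
    rel1 j s hs r (Quotient.out (Quotient.mk (asmS1 (K := K) j s hs) r)) :=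
  rel1_symm j s hs (Quotient.exact (Quotient.out_eq (Quotient.mk (asmS1 (K := K) j s hs) r)))

theorem asm_deg (hf : fs (K := K) j s ≠ 0)
    [Fintype (Quotient (asmS0 (K := K) j s hs) ⊕ Quotient (asmS1 (K := K) j s hs))]
    [DecidableRel (asmG (K := K) j s hs).Adj] (v) :
    GD.q K ^ 3 + 1 ≤ (asmG (K := K) j s hs).degree v := by
  rw [← SimpleGraph.card_neighborSet_eq_degree]
  rcases v with a | b
  · obtain ⟨F, hF, φ, h1, h2⟩ := deg_even j s hs hf a.out
    refine hF.trans ?_
    rw [← Fintype.card_coe F]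
    refine Fintype.card_le_of_injective (fun N => ⟨Sum.inr (Quotient.mk _ (φ N)), ?_⟩) ?_
    · show (asmG j s hs).Adj _ _
      rw [asm_adj]
      exact edge_right j s hs (asm_out1 j s hs (φ N)) (h1 N)
    · intro N N' h
      apply h2
      have h3 := congrArg Subtype.val h
      exact Quotient.exact (Sum.inr.inj h3)
  · obtain ⟨F, hF, φ, h1, h2⟩ := deg_odd j s hs hf b.out
    refine hF.trans ?_
    rw [← Fintype.card_coe F]
    refine Fintype.card_le_of_injective (fun N => ⟨Sum.inl (Quotient.mk _ (φ N)), ?_⟩) ?_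
    · show (asmG j s hs).Adj _ _
      apply SimpleGraph.Adj.symm
      rw [asm_adj]
      exact edge_left j s hs (asm_out0 j s hs (φ N)) (h1 N)
    · intro N N' h
      apply h2
      have h3 := congrArg Subtype.val h
      exact Quotient.exact (Sum.inl.inj h3)

/-- the graph. -/
theorem graph_exists (D : ℕ) (hcard : Fintype.card L = GD.q K ^ D) (h4 : 4 ∣ D) (hD : 0 < D)
    (hord : orderOf s = GD.q K ^ D - 1) :
    ∃ (V : Type) (_ : Fintype V) (G : SimpleGraph V) (_ : DecidableRel G.Adj), Nonempty V ∧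
      (∀ v, GD.q K ^ 3 + 1 ≤ G.degree v) ∧ ((8 * D : ℕ) : ℕ∞) ≤ G.egirth ∧
      Fintype.card V ≤ 4 * GD.q K ^ 8 * GD.q K ^ (15 * D) := by
  classical
  obtain ⟨j⟩ := asm_j (K := K) (L := L) D hcard h4 hD
  have hs : s ≠ 0 := by
    rintro rfl
    have h1 := pow_orderOf_eq_one (0 : L)
    have h2 : 2 ≤ GD.q K ^ D := by
      calc 2 ≤ GD.q K := GD.hq
        _ = GD.q K ^ 1 := (pow_one _).symm
        _ ≤ GD.q K ^ D := Nat.pow_le_pow_right (by have := GD.hq (K := K); omega) hD
    rw [hord, zero_pow (by omega)] at h1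
    exact zero_ne_one h1
  have hf : fs (K := K) j s ≠ 0 := fs_ne_zero j s D h4 hD hord
  have hfin : Finite (Quotient (asmS0 (K := K) j s hs) ⊕ Quotient (asmS1 (K := K) j s hs)) :=
    inferInstance
  refine ⟨Quotient (asmS0 (K := K) j s hs) ⊕ Quotient (asmS1 (K := K) j s hs),
    Fintype.ofFinite _, asmG j s hs, Classical.decRel _, ?_, ?_, ?_, ?_⟩
  · obtain ⟨v, hv⟩ := exists_IsU (K := K)
    exact ⟨Sum.inl (Quotient.mk _ ⟨(v, 1), hv, Matrix.det_one⟩)⟩
  · intro v
    exact @asm_deg K _ _ _ L _ _ j s hs hf (Fintype.ofFinite _) (Classical.decRel _) v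
  · unfold asmG
    apply girth_of_closed_walks
    intro g a b hg hP hR ha hb hclose
    refine closed_walk j s hs D hcard h4 hD hord g hg (fun i => (a i).out) (fun i => (b i).out)
      hP hR ?_ ?_ (congrArg Quotient.out hclose)
    · intro i hi h
      apply ha i hi
      rw [← Quotient.out_eq (a i), ← Quotient.out_eq (a (i + 1))]
      exact Quotient.sound h
    · intro i hi h
      apply hb i hi
      rw [← Quotient.out_eq (b i), ← Quotient.out_eq (b (i + 1))]
      exact Quotient.sound h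
  · refine (@Fintype.card_eq_nat_card _ (Fintype.ofFinite _)).trans_le ?_
    rw [Nat.card_sum]
    have h1 : Nat.card (Quotient (asmS0 (K := K) j s hs)) ≤ Nat.card (R0 K L) :=
      Nat.card_le_card_of_surjective (Quotient.mk _) Quotient.mk_surjective
    have h2 : Nat.card (Quotient (asmS1 (K := K) j s hs)) ≤ Nat.card (R1 (K := K) j s) :=
      Nat.card_le_card_of_surjective (Quotient.mk _) Quotient.mk_surjective
    have h3 := card_R0 (K := K) (L := L)
    have h4 := card_R1 (K := K) j s hf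
    rw [hcard, ← pow_mul, mul_comm D 15] at h3 h4
    calc _ ≤ 2 * GD.q K ^ 8 * GD.q K ^ (15 * D) + 2 * GD.q K ^ 8 * GD.q K ^ (15 * D) :=
          Nat.add_le_add (h1.trans h3) (h2.trans h4)
      _ = _ := by ring
end

end GU4
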