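import Pool.Agent.H258R2.GU.Dt
import Pool.Agent.H258R2.GU.Cd

set_option linter.unusedSectionVars false
set_option linter.unusedVariables false

namespace GU4

open SkewMonoidAlgebra

variable {K : Type} [Field K] [Fintype K] [GD K]

theorem Uc_m1 {v : Lam K} (hv : IsU v) : cf v (-1) = fr 1 (cf v 1) := by
  have := cf_st v (-1)
  rw [hv.st_eq, neg_neg, show (2 : ℤ) + -1 = 1 from rfl] at this
  exact this

theorem Uc_b {v : Lam K} (hv : IsU v) : fr 2 (cf v 0) = cf v 0 := by
  have := cf_st v 0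
  rw [hv.st_eq, neg_zero, show (2 : ℤ) + 0 = 2 from rfl] at this
  exact this.symm

/-- the quadratic equation of `β = b ^ (q + 1)` -/
theorem Uc_quad {v : Lam K} (hv : IsU v) :
    (cf v 0 * fr 1 (cf v 0)) ^ 2 - 2 * (cf v 1 * fr 2 (cf v 1) + fr 1 (cf v 1) * fr 3 (cf v 1)) *
      (cf v 0 * fr 1 (cf v 0)) + ((cf v 1 * fr 2 (cf v 1)) ^ 2 +
        (fr 1 (cf v 1) * fr 3 (cf v 1)) ^ 2 - ((GD.x) ^ 4 + ((GD.x)⁻¹) ^ 4)) = 0 := by
  obtain ⟨w, hw, hN⟩ := hv.ker
  rw [eq_tri hv.supp] at hN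
  have h1 := det_zero hw hN
  have h2 := nrm_eq_aux hw hN
  have h3 : kap (cf v 1) (cf v 0) (cf v (-1)) = (GD.x) ^ 4 + ((GD.x)⁻¹) ^ 4 := by
    rw [h2, hv.nrm_eq] at h1
    rw [inv_pow]
    linear_combination h1
  rw [Uc_m1 hv] at h3
  have hb := Uc_b hv
  have hb3 : fr 3 (cf v 0) = fr 1 (cf v 0) := by
    conv_rhs => rw [← hb]
    rw [fr_fr]; rfl
  rw [kap] at h3
  simp only [fr_fr] at h3
  rw [show (1 : ℤ) + 1 = 2 from rfl, show (2 : ℤ) + 1 = 3 from rfl, show (3 : ℤ) + 1 = 4 from rfl,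
    fr_four, hb, hb3] at h3
  linear_combination h3

open Polynomial in
/-- the polynomial whose roots are the possible values of `β` -/
noncomputable def Uc_pol (a : K) : K[X] :=
  C 1 * X ^ 2 + C (-(2 * (a * fr 2 a + fr 1 a * fr 3 a))) * X +
    C ((a * fr 2 a) ^ 2 + (fr 1 a * fr 3 a) ^ 2 - ((GD.x) ^ 4 + ((GD.x)⁻¹) ^ 4))

open Polynomial in
theorem Uc_pol_card [DecidableEq K] (a : K) : (Uc_pol a).roots.toFinset.card ≤ 2 := by
  refine (Multiset.toFinset_card_le _).trans ((card_roots' _).trans ?_)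
  rw [Uc_pol]
  exact natDegree_quadratic_le

open Polynomial in
theorem Uc_mem [DecidableEq K] {v : Lam K} (hv : IsU v) :
    cf v 0 * fr 1 (cf v 0) ∈ (Uc_pol (cf v 1)).roots.toFinset := by
  rw [Multiset.mem_toFinset, mem_roots']
  constructor
  · intro h0
    have h2 : (Uc_pol (cf v 1)).natDegree = 2 := natDegree_quadratic one_ne_zero
    rw [h0, natDegree_zero] at h2
    omega
  · rw [IsRoot, Uc_pol]
    simp only [eval_add, eval_mul, eval_C, eval_pow, eval_X]
    linear_combination Uc_quad hv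

open Polynomial in
/-- the finite set containing all pairs of coefficients -/
noncomputable def Uc_T (K : Type) [Field K] [Fintype K] [GD K] [DecidableEq K] : Finset (K × K) :=
  (nthRoots (1 + GD.q K + GD.q K ^ 2 + GD.q K ^ 3) (1 : K)).toFinset.biUnion fun a =>
    (Uc_pol a).roots.toFinset.biUnion fun β =>
      (nthRoots (GD.q K + 1) β).toFinset.image fun b => (a, b)

open Polynomial in
theorem Uc_T_card [DecidableEq K] : (Uc_T K).card ≤ 6 * GD.q K ^ 4 := by
  have hq := GD.hq (K := K)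
  set q := GD.q K with hqdef
  have h1 : (Uc_T K).card ≤ (1 + q + q ^ 2 + q ^ 3) * (2 * (q + 1)) := by
    refine (Finset.card_biUnion_le_card_mul _ _ (2 * (q + 1)) ?_).trans
      (Nat.mul_le_mul_right _ ((Multiset.toFinset_card_le _).trans (card_nthRoots _ _)))
    intro a _
    refine (Finset.card_biUnion_le_card_mul _ _ (q + 1) ?_).trans
      (Nat.mul_le_mul_right _ (Uc_pol_card a))
    intro β _
    exact Finset.card_image_le.trans ((Multiset.toFinset_card_le _).trans (card_nthRoots _ _))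
  refine h1.trans ?_
  have e2 : 2 * q ^ 2 ≤ q ^ 3 := by nlinarith [Nat.mul_le_mul_right (q ^ 2) hq]
  have e1 : 2 * q ≤ q ^ 2 := by nlinarith
  have e3 : 2 * q ^ 3 ≤ q ^ 4 := by nlinarith [Nat.mul_le_mul_right (q ^ 3) hq]
  nlinarith

/-- the number of Gram elements. -/
theorem card_IsU : Nat.card {v : Lam K // IsU v} ≤ 6 * GD.q K ^ 4 := by
  classical
  have hmem : ∀ v : {v : Lam K // IsU v}, (cf v.1 1, cf v.1 0) ∈ Uc_T K := by
    intro v
    have hv := v.2
    rw [Uc_T, Finset.mem_biUnion]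
    refine ⟨cf v.1 1, ?_, ?_⟩
    · rw [Multiset.mem_toFinset, Polynomial.mem_nthRoots (by omega)]
      have h := hv.nrm_eq
      rw [nrm, fr_one] at h
      have h2 := fr_nat 2 (cf v.1 1)
      have h3 := fr_nat 3 (cf v.1 1)
      rw [Nat.cast_ofNat] at h2 h3
      rw [h2, h3] at h
      rw [pow_add, pow_add, pow_add, pow_one]
      exact h
    · rw [Finset.mem_biUnion]
      refine ⟨cf v.1 0 * fr 1 (cf v.1 0), Uc_mem hv, ?_⟩
      rw [Finset.mem_image]
      refine ⟨cf v.1 0, ?_, rfl⟩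
      rw [Multiset.mem_toFinset, Polynomial.mem_nthRoots (by omega), fr_one, pow_succ, mul_comm]
  have hinj : Function.Injective
      (fun v : {v : Lam K // IsU v} => (⟨(cf v.1 1, cf v.1 0), hmem v⟩ : {p // p ∈ Uc_T K})) := by
    rintro ⟨v, hv⟩ ⟨v', hv'⟩ h
    have h' := congrArg Subtype.val h
    simp only [Prod.mk.injEq] at h'
    exact Subtype.ext (Cd_ext hv hv' h'.1 h'.2)
  refine (Nat.card_le_card_of_injective _ hinj).trans ?_
  rw [Nat.card_eq_fintype_card, Fintype.card_coe]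
  exact Uc_T_card

end GU4
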