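import Pool.Agent.H258R2.GU.Bd
import Pool.Agent.H258R2.GU.Uc

set_option linter.unusedSectionVars false
set_option linter.unusedVariables false

namespace GU4

open SkewMonoidAlgebra

variable {K : Type} [Field K] [Fintype K] [GD K]

theorem Cd3_finite_IsU : Finite {v : Lam K // IsU v} := by
  refine Finite.of_injective (fun v : {v : Lam K // IsU v} => (cf v.1 1, cf v.1 0)) ?_
  intro v v' h
  simp only [Prod.mk.injEq] at h
  exact Subtype.ext (Cd_ext v.2 v'.2 h.1 h.2)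

section
variable {L : Type} [Field L] [Fintype L] (j : K →+* L) (s : L) (hs : s ≠ 0) (l : ℕ)

/-- vertices with determinant `t` and top degree `e` -/
def Cd3_T (t : L) (lo e : ℤ) : Type :=
  {r : Lam K × Matrix (Fin 4) (Fin 4) L × Lam K // IsU r.1 ∧
    r.2.1 ∈ (rho j s hs).range ∧ r.2.1.det = t ∧ Supp r.2.2 lo e ∧ cf r.2.2 e = 1}

/-- the injection -/
noncomputable def Cd3_map (t : L) (lo e : ℤ) (r : Cd3_T (K := K) j s hs t lo e) :
    {v : Lam K // IsU v} ×
      {A : Matrix (Fin 4) (Fin 4) L // A ∈ (rho j s hs).range ∧ A.det = t} × (Fin (l - 1) → K) :=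
  (⟨r.1.1, r.2.1⟩, ⟨r.1.2.1, r.2.2.1, r.2.2.2.1⟩, fun i => cf r.1.2.2 (e - 1 - (i : ℕ)))

theorem Cd3_inj (t : L) (lo e : ℤ) (hlo : lo = e + 1 - l) :
    Function.Injective (Cd3_map (K := K) j s hs l t lo e) := by
  rintro ⟨⟨v, A, B⟩, hv, hAr, hA, hB, hB0⟩ ⟨⟨v', A', B'⟩, hv', hAr', hA', hB', hB0'⟩ h
  simp only [Cd3_map, Prod.mk.injEq, Subtype.mk.injEq] at h
  simp only at hB hB0 hB' hB0'
  obtain ⟨rfl, rfl, h⟩ := h
  have hBB : B = B' := by
    apply cf_ext
    intro k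
    by_cases hk : lo ≤ k ∧ k ≤ e
    · by_cases hke : k = e
      · subst hke; rw [hB0, hB0']
      · have hlt : (e - 1 - k).toNat < l - 1 := by omega
        have := congrFun h ⟨(e - 1 - k).toNat, hlt⟩
        simp only at this
        have e1 : e - 1 - (((e - 1 - k).toNat : ℕ) : ℤ) = k := by omega
        rw [e1] at this
        exact this
    · rw [alg_cf_zero_of hB (by omega), alg_cf_zero_of hB' (by omega)]
  subst hBB
  rfl

theorem Cd3_finite (t : L) (lo e : ℤ) (hlo : lo = e + 1 - l) :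
    Finite (Cd3_T (K := K) j s hs t lo e) := by
  have : Finite {v : Lam K // IsU v} := Cd3_finite_IsU
  have : Finite (Matrix (Fin 4) (Fin 4) L) := inferInstance
  exact Finite.of_injective _ (Cd3_inj j s hs l t lo e hlo)

theorem Cd3_card (hl : 1 ≤ l) (D : ℕ) (hD : 0 < D) (hq4 : 4 ≤ GD.q K)
    (hord : orderOf s = GD.q K ^ D - 1) (t : L) (ht : t ≠ 0) (lo e : ℤ) (hlo : lo = e + 1 - l) :
    Nat.card (Cd3_T (K := K) j s hs t lo e) ≤ 48 * GD.q K ^ (15 * D + 4 * l) := by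
  have : Finite {v : Lam K // IsU v} := Cd3_finite_IsU
  have : Finite (Matrix (Fin 4) (Fin 4) L) := inferInstance
  refine (Nat.card_le_card_of_injective _ (Cd3_inj j s hs l t lo e hlo)).trans ?_
  rw [Nat.card_prod, Nat.card_prod]
  have h1 := card_IsU (K := K)
  have h2 := card_range_det j s hs D hD hq4 hord t ht
  have h3 : Nat.card (Fin (l - 1) → K) = GD.q K ^ (4 * (l - 1)) := by
    rw [Nat.card_eq_fintype_card, Fintype.card_fun, Fintype.card_fin, GD.card, pow_mul]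
  rw [h3]
  calc Nat.card {v : Lam K // IsU v} *
        (Nat.card {A : Matrix (Fin 4) (Fin 4) L // A ∈ (rho j s hs).range ∧ A.det = t} *
          GD.q K ^ (4 * (l - 1)))
      ≤ (6 * GD.q K ^ 4) * ((8 * GD.q K ^ (15 * D)) * GD.q K ^ (4 * (l - 1))) :=
        Nat.mul_le_mul h1 (Nat.mul_le_mul_right _ h2)
    _ = 48 * (GD.q K ^ (15 * D) * (GD.q K ^ 4 * GD.q K ^ (4 * (l - 1)))) := by ring
    _ = 48 * (GD.q K ^ (15 * D) * GD.q K ^ (4 * l)) := by
        rw [← pow_add]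
        congr 3
        omega
    _ = _ := by rw [← pow_add]

instance finite_E0 : Finite (E0 (K := K) j s hs l) :=
  Cd3_finite j s hs l 1 (1 - l) 0 (by ring)

instance finite_E1 : Finite (E1 (K := K) j s hs l) :=
  Cd3_finite j s hs l (- fs j s) (2 - l) 1 (by ring)

theorem card_E0 (hl : 1 ≤ l) (D : ℕ) (hD : 0 < D) (hq4 : 4 ≤ GD.q K)
    (hord : orderOf s = GD.q K ^ D - 1) :
    Nat.card (E0 (K := K) j s hs l) ≤ 48 * GD.q K ^ (15 * D + 4 * l) :=
  Cd3_card j s hs l hl D hD hq4 hord 1 one_ne_zero (1 - l) 0 (by ring)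

theorem card_E1 (hl : 1 ≤ l) (D : ℕ) (hD : 0 < D) (hq4 : 4 ≤ GD.q K)
    (hord : orderOf s = GD.q K ^ D - 1) (hf : fs (K := K) j s ≠ 0) :
    Nat.card (E1 (K := K) j s hs l) ≤ 48 * GD.q K ^ (15 * D + 4 * l) :=
  Cd3_card j s hs l hl D hD hq4 hord (- fs j s) (neg_ne_zero.2 hf) (2 - l) 1 (by ring)
end

end GU4
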