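import Pool.Agent.H258R2.GU.Bd

set_option linter.unusedSectionVars false
set_option linter.unusedVariables false

namespace GU4

open SkewMonoidAlgebra

variable {K : Type} [Field K] [Fintype K] [GD K]

/-- `X` has no coefficients above `t`. -/
def Cl3_Top (X : Lam K) (t : ℤ) : Prop := ∀ k : ℤ, t < k → cf X k = 0

theorem Cl3_top_of_supp {X : Lam K} {a b : ℤ} (h : Supp X a b) : Cl3_Top X b := by
  intro k hk
  by_contra hne
  have := h k hne
  omega

theorem Cl3_top_mono {X : Lam K} {t t' : ℤ} (h : Cl3_Top X t) (ht : t ≤ t') : Cl3_Top X t' :=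
  fun k hk => h k (by omega)

theorem Cl3_top_add {X Y : Lam K} {t : ℤ} (hX : Cl3_Top X t) (hY : Cl3_Top Y t) :
    Cl3_Top (X + Y) t := by
  intro k hk
  rw [cf_add, hX k hk, hY k hk, add_zero]

theorem Cl3_top_sub {X Y : Lam K} {t : ℤ} (hX : Cl3_Top X t) (hY : Cl3_Top Y t) :
    Cl3_Top (X - Y) t := by
  intro k hk
  rw [cf_sub, hX k hk, hY k hk, sub_zero]

theorem Cl3_top_neg {X : Lam K} {t : ℤ} (hX : Cl3_Top X t) : Cl3_Top (-X) t := by
  intro k hk
  rw [cf_neg, hX k hk, neg_zero]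

theorem Cl3_top_zero (t : ℤ) : Cl3_Top (0 : Lam K) t := fun k _ => cf_zero k

theorem Cl3_top_mul {X Y : Lam K} {t t' : ℤ} (hX : Cl3_Top X t) (hY : Cl3_Top Y t') :
    Cl3_Top (X * Y) (t + t') := by
  by_cases hX0 : X = 0
  · rw [hX0, zero_mul]; exact Cl3_top_zero _
  by_cases hY0 : Y = 0
  · rw [hY0, mul_zero]; exact Cl3_top_zero _
  obtain ⟨a, b, _, hs, _, hb⟩ := exists_supp hX0
  obtain ⟨a', b', _, hs', _, hb'⟩ := exists_supp hY0
  have h1 : b ≤ t := by
    by_contra h
    exact hb (hX b (by omega))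
  have h2 : b' ≤ t' := by
    by_contra h
    exact hb' (hY b' (by omega))
  exact Cl3_top_mono (Cl3_top_of_supp (supp_mul hs hs')) (by omega)

theorem Cl3_cancel_left {N X : Lam K} {n t : ℤ} (hN : Cl3_Top N n) (hn : cf N n ≠ 0)
    (h : Cl3_Top (N * X) (n + t)) : Cl3_Top X t := by
  by_cases hX0 : X = 0
  · rw [hX0]; exact Cl3_top_zero _
  have hN0 : N ≠ 0 := by
    rintro rfl
    exact hn (cf_zero n)
  obtain ⟨a, b, _, hs, _, hb⟩ := exists_supp hX0
  obtain ⟨a', b', _, hs', _, hb'⟩ := exists_supp hN0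
  have e1 : b' = n := by
    have h1 : b' ≤ n := by
      by_contra h
      exact hb' (hN b' (by omega))
    have h2 := (hs' n hn).2
    omega
  subst e1
  have h3 : b ≤ t := by
    by_contra h4
    have h5 := h (b' + b) (by omega)
    rw [cf_mul_top hs' hs] at h5
    rcases mul_eq_zero.1 h5 with h6 | h6
    · exact hb' h6
    · exact hb ((fr_eq_zero b').1 h6)
  exact Cl3_top_mono (Cl3_top_of_supp hs) h3

theorem Cl3_cancel_right {N X : Lam K} {n t : ℤ} (hN : Cl3_Top N n) (hn : cf N n ≠ 0)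
    (h : Cl3_Top (X * N) (t + n)) : Cl3_Top X t := by
  by_cases hX0 : X = 0
  · rw [hX0]; exact Cl3_top_zero _
  have hN0 : N ≠ 0 := by
    rintro rfl
    exact hn (cf_zero n)
  obtain ⟨a, b, _, hs, _, hb⟩ := exists_supp hX0
  obtain ⟨a', b', _, hs', _, hb'⟩ := exists_supp hN0
  have e1 : b' = n := by
    have h1 : b' ≤ n := by
      by_contra h
      exact hb' (hN b' (by omega))
    have h2 := (hs' n hn).2
    omega
  subst e1
  have h3 : b ≤ t := by
    by_contra h4
    have h5 := h (b + b') (by omega)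
    rw [cf_mul_top hs hs'] at h5
    rcases mul_eq_zero.1 h5 with h6 | h6
    · exact hb h6
    · exact hb' ((fr_eq_zero b).1 h6)
  exact Cl3_top_mono (Cl3_top_of_supp hs) h3

section
variable {L : Type} [Field L] [Fintype L] (j : K →+* L) (s : L) (hs : s ≠ 0) (l : ℕ)

/-- closed non-backtracking walks have length at least `8 D + 2 l`. -/
theorem closed_walk3 (D : ℕ) (hl : 1 ≤ l) (hinj : Inj2 K D s) (hfs : fs (K := K) j s ≠ 0)
    (g : ℕ) (hg : 1 ≤ g)
    (a : ℕ → E0 (K := K) j s hs l) (b : ℕ → E1 (K := K) j s hs l)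
    (hP : ∀ i < g, Ed j s hs l (a i) (b i)) (hR : ∀ i < g, Ed j s hs l (a (i + 1)) (b i))
    (ha : ∀ i < g, a i ≠ a (i + 1)) (hb : ∀ i, i + 1 < g → b i ≠ b (i + 1))
    (hclose : a g = a 0) : 8 * D + 2 * l ≤ 2 * g := by
  classical
  have hP' : ∀ i, ∃ N : Lam K, i < g → (Supp N (-1) 1 ∧
      N * (a i).1.1 * st N * (b i).1.1 = ff ∧ (b i).1.2.1 = rho j s hs N * (a i).1.2.1) ∧
      cf N 1 = 1 ∧ ∀ k : ℤ, 1 - (l : ℤ) < k → cf (N * (a i).1.2.2) k = cf (b i).1.2.2 k := by
    intro i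
    by_cases h : i < g
    · obtain ⟨N, hN1, hN2, hN3, hN4, hN5⟩ := hP i h
      exact ⟨N, fun _ => ⟨⟨hN1, hN3, hN4⟩, hN2, hN5⟩⟩
    · exact ⟨0, fun h' => absurd h' h⟩
  have hR' : ∀ i, ∃ N : Lam K, i < g → (Supp N (-1) 1 ∧
      N * (a (i + 1)).1.1 * st N * (b i).1.1 = ff ∧
        (b i).1.2.1 = rho j s hs N * (a (i + 1)).1.2.1) ∧
      cf N 1 = 1 ∧ ∀ k : ℤ, 1 - (l : ℤ) < k → cf (N * (a (i + 1)).1.2.2) k = cf (b i).1.2.2 k := by
    intro i
    by_cases h : i < g
    · obtain ⟨N, hN1, hN2, hN3, hN4, hN5⟩ := hR i h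
      exact ⟨N, fun _ => ⟨⟨hN1, hN3, hN4⟩, hN2, hN5⟩⟩
    · exact ⟨0, fun h' => absurd h' h⟩
  choose P hP using hP'
  choose R hR using hR'
  obtain ⟨v, hv⟩ : ∃ v : ℕ → Lam K, ∀ i, v i = (a i).1.1 := ⟨_, fun _ => rfl⟩
  obtain ⟨A, hA⟩ : ∃ A : ℕ → Matrix (Fin 4) (Fin 4) L, ∀ i, A i = (a i).1.2.1 :=
    ⟨_, fun _ => rfl⟩
  obtain ⟨Be, hBe⟩ : ∃ Be : ℕ → Lam K, ∀ i, Be i = (a i).1.2.2 := ⟨_, fun _ => rfl⟩
  obtain ⟨u, hu⟩ : ∃ u : ℕ → Lam K, ∀ i, u i = (b i).1.1 := ⟨_, fun _ => rfl⟩
  obtain ⟨B, hB⟩ : ∃ B : ℕ → Matrix (Fin 4) (Fin 4) L, ∀ i, B i = (b i).1.2.1 :=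
    ⟨_, fun _ => rfl⟩
  obtain ⟨Bo, hBo⟩ : ∃ Bo : ℕ → Lam K, ∀ i, Bo i = (b i).1.2.2 := ⟨_, fun _ => rfl⟩
  simp only [← hv, ← hA, ← hu, ← hB, ← hBe, ← hBo] at hP hR
  have hPm : ∀ i < g, cf (P i) 1 = 1 := fun i hi => (hP i hi).2.1
  have hRm : ∀ i < g, cf (R i) 1 = 1 := fun i hi => (hR i hi).2.1
  have hPt : ∀ i < g, ∀ k : ℤ, 1 - (l : ℤ) < k → cf (P i * Be i) k = cf (Bo i) k :=
    fun i hi => (hP i hi).2.2
  have hRt : ∀ i < g, ∀ k : ℤ, 1 - (l : ℤ) < k → cf (R i * Be (i + 1)) k = cf (Bo i) k :=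
    fun i hi => (hR i hi).2.2
  replace hP : ∀ i < g, Supp (P i) (-1) 1 ∧ P i * v i * st (P i) * u i = ff ∧
    B i = rho j s hs (P i) * A i := fun i hi => (hP i hi).1
  replace hR : ∀ i < g, Supp (R i) (-1) 1 ∧ R i * v (i + 1) * st (R i) * u i = ff ∧
    B i = rho j s hs (R i) * A (i + 1) := fun i hi => (hR i hi).1
  have hvU : ∀ i, IsU (v i) := fun i => by rw [hv]; exact (a i).2.1
  have hAd : ∀ i, (A i).det = 1 := fun i => by rw [hA]; exact (a i).2.2.2.1
  have huU : ∀ i, IsU (u i) := fun i => by rw [hu]; exact (b i).2.1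
  have hBd : ∀ i, (B i).det = - fs j s := fun i => by rw [hB]; exact (b i).2.2.2.1
  have hBeS : ∀ i, Supp (Be i) (1 - l) 0 := fun i => by rw [hBe]; exact (a i).2.2.2.2.1
  have hBe0 : ∀ i, cf (Be i) 0 = 1 := fun i => by rw [hBe]; exact (a i).2.2.2.2.2
  have hBoS : ∀ i, Supp (Bo i) (2 - l) 1 := fun i => by rw [hBo]; exact (b i).2.2.2.2.1
  have hBo1 : ∀ i, cf (Bo i) 1 = 1 := fun i => by rw [hBo]; exact (b i).2.2.2.2.2
  have hvg : v g = v 0 := by rw [hv, hv, hclose]
  have hAg : A g = A 0 := by rw [hA, hA, hclose]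
  have hBeg : Be g = Be 0 := by rw [hBe, hBe, hclose]
  -- X and M
  obtain ⟨X, hX⟩ : ∃ X : ℕ → Lam K, ∀ i, X i = v (i + 1) * st (R i) * u i * P i :=
    ⟨_, fun _ => rfl⟩
  obtain ⟨M, hM0, hM⟩ : ∃ M : ℕ → Lam K, M 0 = 1 ∧ ∀ i, M (i + 1) = X i * M i :=
    ⟨fun n => Nat.rec 1 (fun i m => X i * m) n, rfl, fun _ => rfl⟩
  have hRX : ∀ i < g, R i * X i = ff * P i := by
    intro i hi
    rw [hX, ← (hR i hi).2.1]
    noncomm_ring
  -- the chain
  have hstep : ∀ i < g, R i * (ff ^ (g - (i + 1)) * M (i + 1)) = P i * (ff ^ (g - i) * M i) := by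
    intro i hi
    have e1 : g - i = (g - (i + 1)) + 1 := by omega
    rw [hM, e1, pow_succ]
    calc R i * (ff ^ (g - (i + 1)) * (X i * M i))
        = (R i * ff ^ (g - (i + 1))) * X i * M i := by noncomm_ring
      _ = ff ^ (g - (i + 1)) * (R i * X i) * M i := by
          rw [← Ineq_ff_pow_comm]; noncomm_ring
      _ = ff ^ (g - (i + 1)) * (ff * P i) * M i := by rw [hRX i hi]
      _ = (ff ^ (g - (i + 1)) * ff) * P i * M i := by noncomm_ring
      _ = P i * (ff ^ (g - (i + 1)) * ff) * M i := by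
          rw [← pow_succ, Ineq_ff_pow_comm]
      _ = _ := by noncomm_ring
  -- supports
  have hXs : ∀ i < g, Supp (X i) (-4) 4 := by
    intro i hi
    have h1 := supp_mul (supp_mul (supp_mul (hvU (i + 1)).supp (supp_st (hR i hi).1))
      (huU i).supp) (hP i hi).1
    rw [← hX] at h1
    norm_num at h1
    exact h1
  have hMs : ∀ i ≤ g, Supp (M i) (-4 * i) (4 * i) := by
    intro i
    induction i with
    | zero =>
      intro _
      rw [hM0, one_eq]
      have := supp_mon (K := K) 0 1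
      simpa using this
    | succ i ih =>
      intro hi
      have h1 := supp_mul (hXs i (by omega)) (ih (by omega))
      rw [← hM] at h1
      refine supp_mono h1 ?_ ?_
      · push_cast; linarith
      · push_cast; linarith
  -- hermitian relation
  have hXv : ∀ i < g, X i * v i * st (X i) = ff * (ff * v (i + 1)) := by
    intro i hi
    have e1 : st (X i) = st (P i) * u i * R i * v (i + 1) := by
      rw [hX, st_mul, st_mul, st_mul, st_st, (huU i).st_eq, (hvU (i + 1)).st_eq]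
      noncomm_ring
    have e2 : v (i + 1) * st (R i) * u i * R i = ff := by
      have : R i * (v (i + 1) * st (R i) * u i) = ff := by
        rw [← (hR i hi).2.1]; noncomm_ring
      exact rotate this
    rw [e1, hX]
    calc v (i + 1) * st (R i) * u i * P i * v i * (st (P i) * u i * R i * v (i + 1))
        = (v (i + 1) * st (R i) * u i) * (P i * v i * st (P i) * u i) * R i * v (i + 1) := by
          noncomm_ring
      _ = (v (i + 1) * st (R i) * u i) * ff * R i * v (i + 1) := by rw [(hP i hi).2.1]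
      _ = ff * (v (i + 1) * st (R i) * u i) * R i * v (i + 1) := by rw [ff_comm]
      _ = ff * ((v (i + 1) * st (R i) * u i * R i) * v (i + 1)) := by noncomm_ring
      _ = _ := by rw [e2]
  have hMv : ∀ i ≤ g, M i * v 0 * st (M i) = ff ^ (2 * i) * v i := by
    intro i
    induction i with
    | zero =>
      intro _
      rw [hM0, st_one]
      simp
    | succ i ih =>
      intro hi
      have ih' := ih (by omega)
      rw [hM, st_mul]
      calc X i * M i * v 0 * (st (M i) * st (X i))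
          = X i * (M i * v 0 * st (M i)) * st (X i) := by noncomm_ring
        _ = X i * (ff ^ (2 * i) * v i) * st (X i) := by rw [ih']
        _ = (X i * ff ^ (2 * i)) * v i * st (X i) := by noncomm_ring
        _ = ff ^ (2 * i) * (X i * v i * st (X i)) := by
            rw [← Ineq_ff_pow_comm]; noncomm_ring
        _ = ff ^ (2 * i) * (ff * (ff * v (i + 1))) := by rw [hXv i (by omega)]
        _ = ff ^ (2 * (i + 1)) * v (i + 1) := by
            rw [show 2 * (i + 1) = 2 * i + 1 + 1 by ring, pow_succ, pow_succ]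
            noncomm_ring
  -- the representation
  have hXA : ∀ i < g, rho j s hs (X i) * A i = fs j s • A (i + 1) := by
    intro i hi
    have e2 : v (i + 1) * st (R i) * u i * R i = ff := by
      have : R i * (v (i + 1) * st (R i) * u i) = ff := by
        rw [← (hR i hi).2.1]; noncomm_ring
      exact rotate this
    rw [hX, map_mul, Matrix.mul_assoc, ← (hP i hi).2.2, (hR i hi).2.2, ← Matrix.mul_assoc,
      ← map_mul, e2, rho_ff j s hs 0, Matrix.smul_mul, Matrix.one_mul]
  have hMA : ∀ i ≤ g, rho j s hs (M i) * A 0 = (fs j s) ^ i • A i := by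
    intro i
    induction i with
    | zero =>
      intro _
      rw [hM0, map_one, Matrix.one_mul, pow_zero, one_smul]
    | succ i ih =>
      intro hi
      rw [hM, map_mul, Matrix.mul_assoc, ih (by omega), Matrix.mul_smul, hXA i (by omega),
        smul_smul, pow_succ]
  have hrho : rho j s hs (M g) = (fs j s) ^ g • (1 : Matrix (Fin 4) (Fin 4) L) := by
    have h1 := hMA g le_rfl
    rw [hAg] at h1
    have hU : IsUnit (A 0) := (Matrix.isUnit_iff_isUnit_det _).2 (by rw [hAd 0]; exact isUnit_one)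
    refine hU.mul_right_cancel ?_
    rw [h1, Matrix.smul_mul, Matrix.one_mul]
  have h1 : rho j s hs (M g - ff ^ g) = 0 := by
    rw [map_sub, Ineq_rho_ff_pow, hrho, sub_self]
  have h2 : rho j s hs (st (M g - ff ^ g)) = 0 := by
    rw [map_sub (st : Lam K →+ Lam K), st_ff_pow, map_sub, Ineq_rho_ff_pow]
    have e1 := congrArg (rho j s hs) (hMv g le_rfl)
    rw [hvg, map_mul, map_mul, hrho, map_mul, Ineq_rho_ff_pow, Matrix.smul_mul, Matrix.one_mul,
      Matrix.smul_mul, Matrix.smul_mul, Matrix.one_mul] at e1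
    have hdet : IsUnit (rho j s hs (v 0)) := by
      rw [Matrix.isUnit_iff_isUnit_det]
      obtain ⟨w, hw, hw'⟩ := (hvU 0).ker
      rw [det_rho j s hs (hvU 0).supp hw hw', (hvU 0).nrm_eq, map_one, one_mul]
      exact isUnit_iff_ne_zero.2 (neg_ne_zero.2 hfs)
    have e2 : (fs j s) ^ g • (rho j s hs (v 0) * rho j s hs (st (M g))) =
        (fs j s) ^ g • (rho j s hs (v 0) * ((fs j s) ^ g • (1 : Matrix (Fin 4) (Fin 4) L))) := by
      rw [e1, Matrix.mul_smul, Matrix.mul_one, smul_smul, ← pow_add, two_mul]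
    have e3 := smul_right_injective _ (pow_ne_zero g hfs) e2
    have e4 := hdet.mul_left_cancel e3
    rw [e4, sub_self]
  -- non-vanishing
  have hP0 : ∀ i < g, P i ≠ 0 := by
    intro i hi h0
    apply ff_ne_zero (K := K)
    rw [← (hP i hi).2.1, h0]
    simp
  have hstart : ∃ e0 : K × K, e0 ≠ 0 ∧ ∃ Q u' : Lam K, IsU u' ∧ Supp Q (-1) 1 ∧
      Q * v 0 * st Q * u' = ff ∧ act Q e0 = 0 ∧ ¬ ∃ d : K, P 0 = mon 0 d * Q := by
    obtain ⟨F, hF, hFN⟩ := nbr_count (hvU 0)
    have hq2 : 2 ≤ GD.q K := GD.hq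
    have hF1 : 1 < F.card := by
      have : 0 < GD.q K ^ 3 := by positivity
      omega
    obtain ⟨N1, hN1, N2, hN2, hne⟩ := Finset.one_lt_card.1 hF1
    have hkey : ∃ N ∈ F, ¬ ∃ d : K, P 0 = mon 0 d * N := by
      by_contra hcon
      push Not at hcon
      obtain ⟨d1, hd1⟩ := hcon N1 hN1
      obtain ⟨d2, hd2⟩ := hcon N2 hN2
      have c1 : cf (P 0) 1 = d1 := by
        rw [hd1, cf_mon_mul, sub_zero, (hFN N1 hN1).2.1, map_one, mul_one]
      have c2 : cf (P 0) 1 = d2 := by
        rw [hd2, cf_mon_mul, sub_zero, (hFN N2 hN2).2.1, map_one, mul_one]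
      have hd : d1 = d2 := c1.symm.trans c2
      subst hd
      apply hne
      refine Cl_cancel_left (X := mon 0 d1) ?_ (hd1.symm.trans hd2)
      intro h0
      apply hP0 0 (by omega)
      rw [hd1, h0, zero_mul]
    obtain ⟨N, hN, hNd⟩ := hkey
    obtain ⟨s1, s2, y, y1, y2, y3⟩ := hFN N hN
    obtain ⟨u', hu', he'⟩ := exists_nbr (hvU 0) y y2 y1 s1 s2 y3
    exact ⟨act (v 0) y, y1, N, u', hu', s1, he', y3, hNd⟩
  obtain ⟨e0, he0, hQ0⟩ := hstart
  have hext : ∀ {X Y : Lam K} {p r : ℤ}, Supp X p r → Supp Y p r →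
      (∀ k : ℤ, p ≤ k → cf X k = cf Y k) → X = Y := by
    intro X Y p r hX hY h
    apply cf_ext
    intro k
    by_cases hk : p ≤ k
    · exact h k hk
    · have h1 : cf X k = 0 := by
        by_contra hne
        exact hk (hX k hne).1
      have h2 : cf Y k = 0 := by
        by_contra hne
        exact hk (hY k hne).1
      rw [h1, h2]
  have hnb2 : ∀ i < g, ¬ ∃ d : K, R i = P i * mon 0 d := by
    rintro i hi ⟨d, hd⟩
    apply ha i hi
    have hd1 : d = 1 := by
      have h1 := hRm i hi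
      rw [hd, cf_mul_mon, sub_zero, hPm i hi, one_mul] at h1
      exact fr_inj 1 (by rw [h1, map_one])
    have hRP : R i = P i := by rw [hd, hd1, ← one_eq, mul_one]
    have hPu : st (P i) * u i ≠ 0 := by
      intro h0
      apply ff_ne_zero (K := K)
      rw [← (hP i hi).2.1, mul_assoc, h0, mul_zero]
    have e1 : v i = v (i + 1) := by
      have h1 : P i * (v i * (st (P i) * u i)) = P i * (v (i + 1) * (st (P i) * u i)) := by
        have h2 := (hP i hi).2.1
        have h3 := (hR i hi).2.1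
        rw [hRP] at h3
        calc P i * (v i * (st (P i) * u i)) = P i * v i * st (P i) * u i := by noncomm_ring
          _ = P i * v (i + 1) * st (P i) * u i := by rw [h2, h3]
          _ = _ := by noncomm_ring
      exact Cl_cancel_right hPu (Cl_cancel_left (hP0 i hi) h1)
    have e2 : A i = A (i + 1) := by
      have hdet : IsUnit (rho j s hs (P i)) := by
        rw [Matrix.isUnit_iff_isUnit_det]
        have h1 := congrArg Matrix.det (hP i hi).2.2
        rw [Matrix.det_mul, hAd i, mul_one, hBd i] at h1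
        rw [← h1]
        exact isUnit_iff_ne_zero.2 (neg_ne_zero.2 hfs)
      refine hdet.mul_left_cancel ?_
      have h3 := (hR i hi).2.2
      rw [hRP] at h3
      exact (hP i hi).2.2.symm.trans h3
    have e3 : Be i = Be (i + 1) := by
      have h1 : Cl3_Top (P i * (Be i - Be (i + 1))) (1 + -(l : ℤ)) := by
        intro k hk
        rw [mul_sub, cf_sub, hPt i hi k (by omega)]
        have h3 := hRt i hi k (by omega)
        rw [hRP] at h3
        rw [h3, sub_self]
      have h2 := Cl3_cancel_left (Cl3_top_of_supp (hP i hi).1)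
        (by rw [hPm i hi]; exact one_ne_zero) h1
      refine hext (hBeS i) (hBeS (i + 1)) ?_
      intro k hk
      have h3 := h2 k (by omega)
      rw [cf_sub] at h3
      exact sub_eq_zero.1 h3
    apply Subtype.ext
    refine Prod.ext ?_ (Prod.ext ?_ ?_)
    · rw [← hv, ← hv]; exact e1
    · rw [← hA, ← hA]; exact e2
    · rw [← hBe, ← hBe]; exact e3
  have hnb1 : ∀ i, i + 1 < g → ¬ ∃ d : K, P (i + 1) = mon 0 d * R i := by
    rintro i hi ⟨d, hd⟩
    apply hb i hi
    have hi' : i < g := by omega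
    have hd1 : d = 1 := by
      have h1 := hPm (i + 1) hi
      rw [hd, cf_mon_mul, sub_zero, hRm i hi', map_one, mul_one] at h1
      exact h1
    have hPR : P (i + 1) = R i := by rw [hd, hd1, ← one_eq, one_mul]
    have e1 : u i = u (i + 1) := by
      have h2 := (hR i hi').2.1
      have h3 := (hP (i + 1) hi).2.1
      rw [hPR] at h3
      refine Cl_cancel_left ?_ (h2.trans h3.symm)
      intro h0
      apply ff_ne_zero (K := K)
      rw [← h2, h0, zero_mul]
    have e2 : B i = B (i + 1) := by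
      rw [(hR i hi').2.2, (hP (i + 1) hi).2.2, hPR]
    have e3 : Bo i = Bo (i + 1) := by
      refine hext (hBoS i) (hBoS (i + 1)) ?_
      intro k hk
      have h3 := hRt i hi' k (by omega)
      have h4 := hPt (i + 1) hi k (by omega)
      rw [hPR] at h4
      rw [← h3, ← h4]
    apply Subtype.ext
    refine Prod.ext ?_ (Prod.ext ?_ ?_)
    · rw [← hu, ← hu]; exact e1
    · rw [← hB, ← hB]; exact e2
    · rw [← hBo, ← hBo]; exact e3
  have hind : ∀ i < g, act (M i) e0 ≠ 0 ∧ ∃ Q u' : Lam K, IsU u' ∧ Supp Q (-1) 1 ∧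
      Q * v i * st Q * u' = ff ∧ act Q (act (M i) e0) = 0 ∧ ¬ ∃ d : K, P i = mon 0 d * Q := by
    intro i
    induction i with
    | zero =>
      intro _
      rw [hM0, act_one]
      exact ⟨he0, hQ0⟩
    | succ i ih =>
      intro hi
      obtain ⟨hne, Q, u', hu', hQs, hQe, hQ0', hnb⟩ := ih (by omega)
      have hi' : i < g := by omega
      have k1 := nonvanish (hvU i) (hvU (i + 1)) (huU i) hu' (hP i hi').1 (hR i hi').1 hQs
        (hP i hi').2.1 (hR i hi').2.1 hQe hne hQ0' hnb (hnb2 i hi')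
      rw [← hX] at k1
      rw [hM, act_mul]
      refine ⟨k1, R i, u i, huU i, (hR i hi').1, (hR i hi').2.1, ?_, hnb1 i hi⟩
      rw [← act_mul, hRX i hi', act_mul, act_ff]
  have hfinal : act (M g) e0 ≠ 0 := by
    obtain ⟨i, rfl⟩ : ∃ i, g = i + 1 := ⟨g - 1, by omega⟩
    obtain ⟨hne, Q, u', hu', hQs, hQe, hQ0', hnb⟩ := hind i (by omega)
    have hi' : i < i + 1 := by omega
    have k1 := nonvanish (hvU i) (hvU (i + 1)) (huU i) hu' (hP i hi').1 (hR i hi').1 hQs
      (hP i hi').2.1 (hR i hi').2.1 hQe hne hQ0' hnb (hnb2 i hi')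
    rw [← hX] at k1
    rw [hM, act_mul]
    exact k1
  have hne : M g ≠ ff ^ g := by
    intro h
    apply hfinal
    obtain ⟨i, rfl⟩ : ∃ i, g = i + 1 := ⟨g - 1, by omega⟩
    rw [h, pow_succ', act_mul, act_ff]
  -- the top coefficients
  have hff : Cl3_Top (ff : Lam K) 4 := Cl3_top_of_supp supp_ff
  have hXB : ∀ i < g, Cl3_Top (X i * Be i - ff * Be (i + 1)) (4 - l) := by
    intro i hi
    have h1 : R i * (X i * Be i - ff * Be (i + 1)) = ff * (P i * Be i - R i * Be (i + 1)) := by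
      rw [mul_sub, ← mul_assoc, hRX i hi, mul_sub, ← mul_assoc (R i), ← ff_comm]
      noncomm_ring
    have h2 : Cl3_Top (P i * Be i - R i * Be (i + 1)) (1 - l) := by
      intro k hk
      rw [cf_sub, hPt i hi k hk, hRt i hi k hk, sub_self]
    have h3 : Cl3_Top (R i * (X i * Be i - ff * Be (i + 1))) (1 + (4 - (l : ℤ))) := by
      rw [h1]
      exact Cl3_top_mono (Cl3_top_mul hff h2) (by omega)
    exact Cl3_cancel_left (Cl3_top_of_supp (hR i hi).1) (by rw [hRm i hi]; exact one_ne_zero) h3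
  have hMB : ∀ i ≤ g, Cl3_Top (M i * Be 0 - ff ^ i * Be i) (4 * i - l) := by
    intro i
    induction i with
    | zero =>
      intro _
      rw [hM0, pow_zero, one_mul, sub_self]
      exact Cl3_top_zero _
    | succ i ih =>
      intro hi
      have h1 := ih (by omega)
      have h2 := hXB i (by omega)
      have e1 : M (i + 1) * Be 0 - ff ^ (i + 1) * Be (i + 1) =
          X i * (M i * Be 0 - ff ^ i * Be i) + ff ^ i * (X i * Be i - ff * Be (i + 1)) := by
        have e2 : X i * (ff ^ i * Be i) = ff ^ i * (X i * Be i) := by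
          rw [← mul_assoc, ← Ineq_ff_pow_comm, mul_assoc]
        rw [hM, mul_sub, mul_sub, e2, pow_succ]
        noncomm_ring
      rw [e1]
      refine Cl3_top_add ?_ ?_
      · refine Cl3_top_mono (Cl3_top_mul (Cl3_top_of_supp (hXs i (by omega))) h1) ?_
        push_cast; linarith
      · refine Cl3_top_mono (Cl3_top_mul (Cl3_top_of_supp (supp_ff_pow i)) h2) ?_
        push_cast; linarith
  have hYtop : Cl3_Top (M g - ff ^ g) (4 * g - l) := by
    have h1 := hMB g le_rfl
    rw [hBeg, ← sub_mul] at h1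
    have h2 : Cl3_Top ((M g - ff ^ g) * Be 0) ((4 * g - l) + 0) := by
      rw [add_zero]; exact h1
    exact Cl3_cancel_right (Cl3_top_of_supp (hBeS 0)) (by rw [hBe0 0]; exact one_ne_zero) h2
  have hYst : Cl3_Top (st (M g - ff ^ g)) (4 * g - l) := by
    have e0 := hMv g le_rfl
    rw [hvg] at e0
    have e1 : ff ^ g * v 0 * st (M g - ff ^ g) = - ((M g - ff ^ g) * v 0 * st (M g)) := by
      rw [map_sub (st : Lam K →+ Lam K), st_ff_pow]
      have e2 : ff ^ g * v 0 * ff ^ g = ff ^ (2 * g) * v 0 := by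
        rw [mul_assoc, ← Ineq_ff_pow_comm, ← mul_assoc, ← pow_add, two_mul]
      rw [mul_sub, e2, ← e0]
      noncomm_ring
    have hv1 : cf (v 0) 1 ≠ 0 := by
      intro h0
      have := (hvU 0).nrm_eq
      rw [h0] at this
      simp [nrm] at this
    have h1 : Cl3_Top ((ff : Lam K) ^ g * v 0) (4 * g + 1) :=
      Cl3_top_mul (Cl3_top_of_supp (supp_ff_pow g)) (Cl3_top_of_supp (hvU 0).supp)
    have h2 : cf ((ff : Lam K) ^ g * v 0) (4 * g + 1) ≠ 0 := by
      rw [cf_mul_top (supp_ff_pow g) (hvU 0).supp, cf_ff_pow_top, one_mul]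
      intro h0
      exact hv1 ((fr_eq_zero _).1 h0)
    have h3 : Cl3_Top (ff ^ g * v 0 * st (M g - ff ^ g)) ((4 * g + 1) + (4 * g - l)) := by
      rw [e1]
      apply Cl3_top_neg
      have h4 : Cl3_Top (st (M g)) (4 * g) := by
        have := Cl3_top_of_supp (supp_st (hMs g le_rfl))
        refine Cl3_top_mono this ?_
        linarith
      refine Cl3_top_mono (Cl3_top_mul (Cl3_top_mul hYtop (Cl3_top_of_supp (hvU 0).supp)) h4) ?_
      linarith
    exact Cl3_cancel_left h1 h2 h3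
  have hYS : Supp (M g - ff ^ g) (-4 * g + l) (4 * g - l) := by
    intro k hk
    constructor
    · by_contra hcon
      apply hk
      have h1 := hYst (-k) (by omega)
      rw [cf_st, neg_neg] at h1
      exact (fr_eq_zero _).1 h1
    · by_contra hcon
      exact hk (hYtop k (by omega))
  refine main_ineq3 j s hs D l hinj hfs (fun i => ff ^ (g - i) * M i) R P g ?_ ?_ hstep ?_ ?_
    ?_ ?_
  · intro i hi
    refine ⟨(hR i hi).1, ?_⟩
    intro h0
    apply ff_ne_zero (K := K)
    rw [← (hR i hi).2.1, h0]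
    simp
  · simp only [Nat.sub_zero, hM0, mul_one]
  · simp only [Nat.sub_self, pow_zero, one_mul]
    exact hne
  · simp only [Nat.sub_self, pow_zero, one_mul]
    exact hYS
  · simp only [Nat.sub_self, pow_zero, one_mul]
    exact h1
  · simp only [Nat.sub_self, pow_zero, one_mul]
    exact h2
end

end GU4
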