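import Pool.Agent.H258R2.GU.Cn
import Pool.Agent.H258R2.GU.Root

set_option linter.unusedSectionVars false
set_option linter.unusedVariables false

namespace GU4

open SkewMonoidAlgebra

variable {K : Type} [Field K] [Fintype K] [GD K]

theorem Gr_ne {c : K} (h : nrm c = 1) : c ≠ 0 := by
  rintro rfl
  simp [nrm] at h

theorem Gr_nrm_one : nrm (1 : K) = 1 := by
  simp [nrm]

theorem Gr_nrm_mul (a b : K) : nrm (a * b) = nrm a * nrm b := by
  simp only [nrm, map_mul]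
  ring

theorem Gr_nrm_inv {a : K} (h : nrm a = 1) : nrm a⁻¹ = 1 := by
  have h1 := Gr_nrm_mul a a⁻¹
  rw [mul_inv_cancel₀ (Gr_ne h), Gr_nrm_one, h, one_mul] at h1
  exact h1.symm

theorem Gr_mm (a b : K) : mon 0 a * mon 0 b = mon 0 (a * b) := by
  rw [mon_mul, fr_zero, add_zero]

theorem Gr_inv {a : K} (h : a ≠ 0) : mon 0 a * mon 0 a⁻¹ = (1 : Lam K) := by
  rw [Gr_mm, mul_inv_cancel₀ h, one_eq]

theorem Gr_inv' {a : K} (h : a ≠ 0) : mon 0 a⁻¹ * mon 0 a = (1 : Lam K) := by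
  rw [Gr_mm, inv_mul_cancel₀ h, one_eq]

theorem Gr_st_one : st (1 : Lam K) = 1 := by
  rw [one_eq, st_mon, map_one, neg_zero]

theorem Gr_st_inv {a : K} (h : a ≠ 0) : st (mon 0 a) * st (mon 0 a⁻¹) = (1 : Lam K) := by
  rw [← st_mul, Gr_inv' h, Gr_st_one]

theorem Gr_st_inv' {a : K} (h : a ≠ 0) : st (mon 0 a⁻¹) * st (mon 0 a) = (1 : Lam K) := by
  rw [← st_mul, Gr_inv h, Gr_st_one]

section
variable {L : Type} [Field L] [Fintype L] (j : K →+* L) (s : L) (hs : s ≠ 0)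

theorem rel0_refl (r : R0 K L) : rel0 j s hs r r := by
  refine ⟨1, Gr_nrm_one, ?_, ?_⟩
  · rw [← one_eq, Gr_st_one, one_mul, mul_one]
  · rw [← one_eq, map_one, one_mul]

theorem rel0_symm {r r' : R0 K L} (h : rel0 j s hs r r') : rel0 j s hs r' r := by
  obtain ⟨c, hc, h1, h2⟩ := h
  have hc0 := Gr_ne hc
  refine ⟨c⁻¹, Gr_nrm_inv hc, ?_, ?_⟩
  · rw [h1]
    calc r.1.1 = (mon 0 c⁻¹ * mon 0 c) * r.1.1 * (st (mon 0 c) * st (mon 0 c⁻¹)) := by
          rw [Gr_inv' hc0, Gr_st_inv hc0, one_mul, mul_one]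
      _ = mon 0 c⁻¹ * (mon 0 c * r.1.1 * st (mon 0 c)) * st (mon 0 c⁻¹) := by
          simp only [mul_assoc]
  · rw [h2, ← mul_assoc, ← map_mul, Gr_inv' hc0, map_one, one_mul]

theorem rel0_trans {r r' r'' : R0 K L} (h : rel0 j s hs r r') (h' : rel0 j s hs r' r'') :
    rel0 j s hs r r'' := by
  obtain ⟨c, hc, h1, h2⟩ := h
  obtain ⟨c', hc', h1', h2'⟩ := h'
  refine ⟨c' * c, by rw [Gr_nrm_mul, hc, hc', one_mul], ?_, ?_⟩
  · rw [h1', h1, ← Gr_mm, st_mul]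
    simp only [mul_assoc]
  · rw [h2', h2, ← mul_assoc, ← map_mul, Gr_mm]

theorem rel1_refl (r : R1 (K := K) j s) : rel1 j s hs r r := by
  refine ⟨1, Gr_nrm_one, ?_, ?_⟩
  · rw [← one_eq, Gr_st_one, one_mul, mul_one]
  · rw [← one_eq, map_one, one_mul]

theorem rel1_symm {r r' : R1 (K := K) j s} (h : rel1 j s hs r r') : rel1 j s hs r' r := by
  obtain ⟨c, hc, h1, h2⟩ := h
  have hc0 := Gr_ne hc
  refine ⟨c⁻¹, Gr_nrm_inv hc, ?_, ?_⟩
  · rw [← h1]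
    calc st (mon 0 c⁻¹) * (st (mon 0 c) * r'.1.1 * mon 0 c) * mon 0 c⁻¹
        = (st (mon 0 c⁻¹) * st (mon 0 c)) * r'.1.1 * (mon 0 c * mon 0 c⁻¹) := by
          simp only [mul_assoc]
      _ = r'.1.1 := by rw [Gr_inv hc0, Gr_st_inv' hc0, one_mul, mul_one]
  · rw [h2, ← mul_assoc, ← map_mul, Gr_inv' hc0, map_one, one_mul]

theorem rel1_trans {r r' r'' : R1 (K := K) j s} (h : rel1 j s hs r r')
    (h' : rel1 j s hs r' r'') : rel1 j s hs r r'' := by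
  obtain ⟨c, hc, h1, h2⟩ := h
  obtain ⟨c', hc', h1', h2'⟩ := h'
  refine ⟨c' * c, by rw [Gr_nrm_mul, hc, hc', one_mul], ?_, ?_⟩
  · rw [← h1, ← h1', ← Gr_mm, st_mul]
    simp only [mul_assoc]
  · rw [h2', h2, ← mul_assoc, ← map_mul, Gr_mm]

theorem edge_left {r r2 : R0 K L} {r' : R1 (K := K) j s} (h : rel0 j s hs r r2)
    (he : edge j s hs r r') : edge j s hs r2 r' := by
  obtain ⟨c, hc, h1, h2⟩ := h
  obtain ⟨N, hN, h3, h4⟩ := he
  have hc0 := Gr_ne hc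
  refine ⟨N * mon 0 c⁻¹, ?_, ?_, ?_⟩
  · intro i hi
    apply hN i
    intro h0
    apply hi
    rw [cf_mul_mon, sub_zero, h0, zero_mul]
  · rw [h1, st_mul, ← h3]
    calc N * mon 0 c⁻¹ * (mon 0 c * r.1.1 * st (mon 0 c)) * (st (mon 0 c⁻¹) * st N) * r'.1.1
        = N * (mon 0 c⁻¹ * mon 0 c) * r.1.1 * (st (mon 0 c) * st (mon 0 c⁻¹)) * st N *
            r'.1.1 := by simp only [mul_assoc]
      _ = N * r.1.1 * st N * r'.1.1 := by
          rw [Gr_inv' hc0, Gr_st_inv hc0, mul_one, mul_one]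
  · rw [h4, h2, ← mul_assoc, ← map_mul, mul_assoc N, Gr_inv' hc0, mul_one]

theorem edge_right {r : R0 K L} {r' r2' : R1 (K := K) j s} (h : rel1 j s hs r' r2')
    (he : edge j s hs r r') : edge j s hs r r2' := by
  obtain ⟨c, hc, h1, h2⟩ := h
  obtain ⟨N, hN, h3, h4⟩ := he
  have hc0 := Gr_ne hc
  refine ⟨mon 0 c * N, ?_, ?_, ?_⟩
  · intro i hi
    apply hN i
    intro h0
    apply hi
    rw [cf_mon_mul, sub_zero, h0, map_zero, mul_zero]
  · rw [st_mul]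
    calc mon 0 c * N * r.1.1 * (st N * st (mon 0 c)) * r2'.1.1
        = mon 0 c * (N * r.1.1 * st N * (st (mon 0 c) * r2'.1.1 * (mon 0 c * mon 0 c⁻¹))) := by
          rw [Gr_inv hc0, mul_one]
          simp only [mul_assoc]
      _ = mon 0 c * (N * r.1.1 * st N * (st (mon 0 c) * r2'.1.1 * mon 0 c)) * mon 0 c⁻¹ := by
          simp only [mul_assoc]
      _ = mon 0 c * ff * mon 0 c⁻¹ := by rw [h1, h3]
      _ = ff := by rw [← ff_comm, mul_assoc, Gr_inv hc0, mul_one]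
  · rw [h2, h4, ← mul_assoc, ← map_mul]

end

end GU4
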