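import Pool.Agent.H258R2.GU.Cr
import Pool.Agent.H258R2.GU.Gr
import Pool.Agent.H258R2.GU.Cd
import Pool.Agent.H258R2.GU.Asm

set_option linter.unusedSectionVars false
set_option linter.unusedVariables false

namespace GU4

open SkewMonoidAlgebra

variable {K : Type} [Field K] [Fintype K] [GD K]

theorem Cq_st (c : K) : st (mon 0 c) = mon 0 (fr 2 c) := by
  rw [st_mon, neg_zero, sub_zero]

theorem Cq_cf (v : Lam K) (c : K) (i : ℤ) :
    cf (mon 0 c * v * st (mon 0 c)) i = c * cf v i * fr i (fr 2 c) := by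
  rw [Cq_st, cf_mul_mon, sub_zero, cf_mon_mul, sub_zero, fr_zero]

theorem Cq_isU {v : Lam K} (hv : IsU v) {c : K} (hc : nrm c = 1) :
    IsU (mon 0 c * v * st (mon 0 c)) where
  supp := by
    intro i hi
    apply hv.supp i
    intro h0
    apply hi
    rw [Cq_cf, h0, mul_zero, zero_mul]
  st_eq := by rw [st_mul, st_mul, st_st, hv.st_eq, mul_assoc]
  nrm_eq := by
    rw [Cq_cf, Gr_nrm_mul, Gr_nrm_mul, nrm_fr, nrm_fr, hc, hv.nrm_eq, one_mul, one_mul]
  ker := by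
    obtain ⟨w, hw, h0⟩ := hv.ker
    have hc0 := Gr_ne hc
    refine ⟨act (st (mon 0 c⁻¹)) w, ?_, ?_⟩
    · intro h
      apply hw
      have : act (st (mon 0 c)) (act (st (mon 0 c⁻¹)) w) = w := by
        rw [← act_mul, Gr_st_inv hc0, act_one]
      rw [← this, h, map_zero]
    · rw [act_mul, ← act_mul (st (mon 0 c)), Gr_st_inv hc0, act_one, act_mul, h0, map_zero]

/-- the group of elements of norm one -/
abbrev CqM (K : Type) [Field K] [Fintype K] [GD K] : Type := {c : K // nrm c = 1}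

/-- the Gram elements -/
abbrev CqU (K : Type) [Field K] [Fintype K] [GD K] : Type := {v : Lam K // IsU v}

theorem Cq_pos : 0 < Nat.card (CqM K) := by
  have : Nonempty (CqM K) := ⟨⟨1, Gr_nrm_one⟩⟩
  exact Nat.card_pos

theorem Cq_cf0 {v : Lam K} (hv : IsU v) : fr 2 (cf v 0) = cf v 0 := by
  have h := cf_st v 0
  rw [hv.st_eq, neg_zero, add_zero] at h
  exact h.symm

/-- coordinates of a Gram element -/
noncomputable def CqMap (v : CqU K) : CqM K × {b : K // fr 2 b = b} :=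
  (⟨cf v.1 1, v.2.nrm_eq⟩, ⟨cf v.1 0, Cq_cf0 v.2⟩)

theorem CqMap_inj : Function.Injective (CqMap (K := K)) := by
  rintro ⟨v, hv⟩ ⟨v', hv'⟩ h
  simp only [CqMap, Prod.mk.injEq, Subtype.mk.injEq] at h
  exact Subtype.ext (Cd_ext hv hv' h.1 h.2)

instance Cq_finU : Finite (CqU K) := Finite.of_injective _ CqMap_inj

theorem Cq_cardU : Nat.card (CqU K) ≤ Nat.card (CqM K) * GD.q K ^ 2 := by
  rw [← Sb_card_fix (K := K), ← Nat.card_prod]
  exact Nat.card_le_card_of_injective _ CqMap_inj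

section
variable {L : Type} [Field L] [Fintype L] (j : K →+* L) (s : L) (hs : s ≠ 0)

/-- the elements of the image with determinant `t` -/
abbrev CqA (t : L) : Type :=
  {A : Matrix (Fin 4) (Fin 4) L // A ∈ (rho j s hs).range ∧ A.det = t}

theorem Cq_bound (D : ℕ) (hD : 0 < D) (hq4 : 4 ≤ GD.q K)
    (hord : orderOf s = GD.q K ^ D - 1) (t : L) (ht : t ≠ 0) {E : Type} [Finite E]
    (φ : E × CqM K → CqU K × CqA (K := K) j s hs t) (hφ : Function.Injective φ) :
    Nat.card E ≤ 8 * GD.q K ^ (15 * D + 2) := by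
  have h1 := Nat.card_le_card_of_injective φ hφ
  rw [Nat.card_prod, Nat.card_prod] at h1
  have h2 := Cq_cardU (K := K)
  have h3 := card_range_det (K := K) j s hs D hD hq4 hord t ht
  have h4 : Nat.card (CqM K) * Nat.card E ≤
      Nat.card (CqM K) * (8 * GD.q K ^ (15 * D + 2)) := by
    calc Nat.card (CqM K) * Nat.card E = Nat.card E * Nat.card (CqM K) := mul_comm _ _
      _ ≤ Nat.card (CqU K) * Nat.card (CqA (K := K) j s hs t) := h1
      _ ≤ (Nat.card (CqM K) * GD.q K ^ 2) * (8 * GD.q K ^ (15 * D)) := Nat.mul_le_mul h2 h3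
      _ = _ := by ring
  exact Nat.le_of_mul_le_mul_left h4 Cq_pos

theorem Cq_rho_inj {c c' : K} {A : Matrix (Fin 4) (Fin 4) L} (hA : A.det ≠ 0)
    (h : rho j s hs (mon 0 c) * A = rho j s hs (mon 0 c') * A) : c = c' := by
  have hu : IsUnit A := by
    rw [Matrix.isUnit_iff_isUnit_det]
    exact isUnit_iff_ne_zero.2 hA
  have h1 : rho j s hs (mon 0 c) = rho j s hs (mon 0 c') := hu.mul_right_cancel h
  rw [Gs_rho_zero, Gs_rho_zero] at h1
  have h2 := congrFun (congrFun h1 0) 0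
  simp only [rhoK, RingHom.coe_mk, MonoidHom.coe_mk, OneHom.coe_mk, Matrix.diagonal_apply_eq] at h2
  have h3 := j.injective h2
  exact fr_inj _ h3

theorem Cq_range {c : K} {A : Matrix (Fin 4) (Fin 4) L} (hA : A ∈ (rho (K := K) j s hs).range) :
    rho j s hs (mon 0 c) * A ∈ (rho (K := K) j s hs).range :=
  Subring.mul_mem _ ⟨_, rfl⟩ hA

theorem Cq_det {c : K} (hc : nrm c = 1) {A : Matrix (Fin 4) (Fin 4) L} {t : L} (hA : A.det = t) :
    (rho j s hs (mon 0 c) * A).det = t := by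
  rw [Matrix.det_mul, det_rho_mon, hc, map_one, one_mul, hA]

/-- the action on representatives of even vertices -/
noncomputable def CqR0 (r : R0 K L) (c : CqM K) : R0 K L :=
  ⟨(mon 0 c.1 * r.1.1 * st (mon 0 c.1), rho j s hs (mon 0 c.1) * r.1.2),
    Cq_isU r.2.1 c.2, Cq_det j s hs c.2 r.2.2⟩

theorem CqR0_rel (r : R0 K L) (c : CqM K) : rel0 j s hs r (CqR0 j s hs r c) :=
  ⟨c.1, c.2, rfl, rfl⟩

theorem Cq_isU' {u : Lam K} (hu : IsU u) {c : K} (hc : nrm c = 1) :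
    IsU (st (mon 0 c⁻¹) * u * mon 0 c⁻¹) := by
  have h1 : st (mon 0 (fr 2 c⁻¹)) = (mon 0 c⁻¹ : Lam K) := by
    rw [Cq_st, fr_fr, show (2 : ℤ) + 2 = 4 from rfl, fr_four]
  have h2 := Cq_isU hu (c := fr 2 c⁻¹) (by rw [nrm_fr]; exact Gr_nrm_inv hc)
  rw [h1] at h2
  rw [Cq_st]
  exact h2

/-- the action on representatives of odd vertices -/
noncomputable def CqR1 (r : R1 (K := K) j s) (c : CqM K) : R1 (K := K) j s :=
  ⟨(st (mon 0 c.1⁻¹) * r.1.1 * mon 0 c.1⁻¹, rho j s hs (mon 0 c.1) * r.1.2),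
    Cq_isU' r.2.1 c.2, Cq_det j s hs c.2 r.2.2⟩

theorem CqR1_rel (r : R1 (K := K) j s) (c : CqM K) : rel1 j s hs r (CqR1 j s hs r c) := by
  have hc0 := Gr_ne c.2
  refine ⟨c.1, c.2, ?_, rfl⟩
  show st (mon 0 c.1) * (st (mon 0 c.1⁻¹) * r.1.1 * mon 0 c.1⁻¹) * mon 0 c.1 = r.1.1
  calc st (mon 0 c.1) * (st (mon 0 c.1⁻¹) * r.1.1 * mon 0 c.1⁻¹) * mon 0 c.1
      = (st (mon 0 c.1) * st (mon 0 c.1⁻¹)) * r.1.1 * (mon 0 c.1⁻¹ * mon 0 c.1) := by
        simp only [mul_assoc]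
    _ = r.1.1 := by rw [Gr_inv' hc0, Gr_st_inv hc0, one_mul, mul_one]

/-- number of even vertices: the group of elements of norm one acts freely on the
representatives, and there are at most `|{c : N(c) = 1}| * q^2` Gram elements. -/
theorem card_even (D : ℕ) (hD : 0 < D) (hq4 : 4 ≤ GD.q K)
    (hord : orderOf s = GD.q K ^ D - 1) :
    Nat.card {a : Quotient (asmS0 (K := K) j s hs) // a.out.1.2 ∈ (rho j s hs).range} ≤
      8 * GD.q K ^ (15 * D + 2) := by
  refine Cq_bound j s hs D hD hq4 hord 1 one_ne_zero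
    (fun p => (⟨_, (CqR0 j s hs p.1.1.out p.2).2.1⟩,
      ⟨(CqR0 j s hs p.1.1.out p.2).1.2, Cq_range j s hs p.1.2,
        (CqR0 j s hs p.1.1.out p.2).2.2⟩)) ?_
  rintro ⟨⟨a, ha⟩, c⟩ ⟨⟨a', ha'⟩, c'⟩ h
  simp only [Prod.mk.injEq, Subtype.mk.injEq] at h
  have h1 : CqR0 j s hs a.out c = CqR0 j s hs a'.out c' := Subtype.ext (Prod.ext h.1 h.2)
  have h2 : rel0 j s hs a.out a'.out := by
    have h3 := CqR0_rel j s hs a'.out c'
    rw [← h1] at h3
    exact rel0_trans j s hs (CqR0_rel j s hs a.out c) (rel0_symm j s hs h3)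
  have h4 : a = a' := by
    rw [← Quotient.out_eq a, ← Quotient.out_eq a']
    exact Quotient.sound h2
  subst h4
  have h5 : c.1 = c'.1 := by
    refine Cq_rho_inj j s hs (A := a.out.1.2) ?_ h.2
    rw [a.out.2.2]
    exact one_ne_zero
  have h6 : c = c' := Subtype.ext h5
  subst h6
  rfl

theorem card_odd (D : ℕ) (hD : 0 < D) (hq4 : 4 ≤ GD.q K)
    (hord : orderOf s = GD.q K ^ D - 1) (hf : fs (K := K) j s ≠ 0) :
    Nat.card {a : Quotient (asmS1 (K := K) j s hs) // a.out.1.2 ∈ (rho j s hs).range} ≤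
      8 * GD.q K ^ (15 * D + 2) := by
  refine Cq_bound j s hs D hD hq4 hord (- fs (K := K) j s) (neg_ne_zero.2 hf)
    (fun p => (⟨_, (CqR1 j s hs p.1.1.out p.2).2.1⟩,
      ⟨(CqR1 j s hs p.1.1.out p.2).1.2, Cq_range j s hs p.1.2,
        (CqR1 j s hs p.1.1.out p.2).2.2⟩)) ?_
  rintro ⟨⟨a, ha⟩, c⟩ ⟨⟨a', ha'⟩, c'⟩ h
  simp only [Prod.mk.injEq, Subtype.mk.injEq] at h
  have h1 : CqR1 j s hs a.out c = CqR1 j s hs a'.out c' := Subtype.ext (Prod.ext h.1 h.2)
  have h2 : rel1 j s hs a.out a'.out := by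
    have h3 := CqR1_rel j s hs a'.out c'
    rw [← h1] at h3
    exact rel1_trans j s hs (CqR1_rel j s hs a.out c) (rel1_symm j s hs h3)
  have h4 : a = a' := by
    rw [← Quotient.out_eq a, ← Quotient.out_eq a']
    exact Quotient.sound h2
  subst h4
  have h5 : c.1 = c'.1 := by
    refine Cq_rho_inj j s hs (A := a.out.1.2) ?_ h.2
    rw [a.out.2.2]
    exact neg_ne_zero.2 hf
  have h6 : c = c' := Subtype.ext h5
  subst h6
  rfl
end

end GU4
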