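import Pool.Agent.H258R2.GU.Bd
import Pool.Agent.H258R2.GU.Gt
import Pool.Agent.H258R2.GU.Cq

set_option linter.unusedSectionVars false
set_option linter.unusedVariables false

namespace GU4

open SkewMonoidAlgebra

variable {K : Type} [Field K] [Fintype K] [GD K]

/-- the element `B` is determined recursively from the top. -/
theorem Dgb_exists_B {N B' : Lam K} (hN : Supp N (-1) 1) (hN1 : cf N 1 = 1)
    (hB'1 : cf B' 1 = 1) (hB's : ∀ k : ℤ, 1 < k → cf B' k = 0) (n : ℕ) :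
    ∃ B : Lam K, Supp B (-(n : ℤ)) 0 ∧ cf B 0 = 1 ∧
      ∀ k : ℤ, -(n : ℤ) < k → cf (N * B) k = cf B' k := by
  have hNz : ∀ i : ℤ, 1 < i → cf N i = 0 := fun i hi => alg_cf_zero_of hN (Or.inr hi)
  induction n with
  | zero =>
    refine ⟨1, ?_, ?_, ?_⟩
    · rw [one_eq]
      simpa using supp_mon (0 : ℤ) (1 : K)
    · rw [one_eq, cf_mon]; simp
    · intro k hk
      rw [mul_one]
      rcases eq_or_lt_of_le (show (1 : ℤ) ≤ k by push_cast at hk; omega) with h | h
      · rw [← h, hN1, hB'1]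
      · rw [hNz k h, hB's k h]
  | succ n ih =>
    obtain ⟨B, hBs, hB0, hB⟩ := ih
    set a : K := fr (-1) (cf B' (-(n : ℤ)) - cf (N * B) (-(n : ℤ))) with ha
    refine ⟨B + mon (-((n : ℤ) + 1)) a, ?_, ?_, ?_⟩
    · apply supp_add
      · exact supp_mono hBs (by push_cast; omega) le_rfl
      · exact supp_mono (supp_mon _ _) (by push_cast; omega) (by omega)
    · rw [cf_add, cf_mon, if_neg (by omega), add_zero, hB0]
    · intro k hk
      rw [mul_add, cf_add, cf_mul_mon]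
      rcases eq_or_lt_of_le (show -(n : ℤ) ≤ k by push_cast at hk; omega) with h | h
      · subst h
        rw [show (-(n : ℤ) - -((n : ℤ) + 1)) = 1 by ring, hN1, one_mul, ha, fr_fr,
          show (1 : ℤ) + -1 = 0 from rfl, fr_zero]
        ring
      · rw [hNz _ (by omega), zero_mul, add_zero, hB k h]

section
variable {L : Type} [Field L] [Fintype L] (j : K →+* L) (s : L) (hs : s ≠ 0) (l : ℕ)

/-- the inverse of an invertible element of the image is in the image. -/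
theorem Dgb_inv_range {N : Lam K} (h : IsUnit (rho j s hs N).det) :
    (rho j s hs N)⁻¹ ∈ (rho j s hs).range := by
  classical
  set P := rho j s hs N with hP
  have hu : IsUnit P := (Matrix.isUnit_iff_isUnit_det P).2 h
  obtain ⟨U, hU⟩ := hu
  have hc : U ^ Fintype.card (Matrix (Fin 4) (Fin 4) L)ˣ = 1 := pow_card_eq_one
  have hpos : 0 < Fintype.card (Matrix (Fin 4) (Fin 4) L)ˣ := Fintype.card_pos
  obtain ⟨m, hm⟩ : ∃ m, Fintype.card (Matrix (Fin 4) (Fin 4) L)ˣ = m + 1 :=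
    ⟨_, (Nat.succ_pred_eq_of_pos hpos).symm⟩
  rw [hm] at hc
  have h1 : P ^ m * P = 1 := by
    rw [← pow_succ, ← hU, ← Units.val_pow_eq_pow_val, hc, Units.val_one]
  have h2 : P⁻¹ = P ^ m := Matrix.inv_eq_left_inv h1
  rw [h2, hP, ← map_pow]
  exact ⟨_, rfl⟩

theorem deg_odd3 (hl : 1 ≤ l) (hf : fs (K := K) j s ≠ 0) (r' : E1 (K := K) j s hs l) :
    ∃ F : Finset (Lam K), GD.q K ^ 3 + 1 ≤ F.card ∧ ∃ φ : F → E0 (K := K) j s hs l,
      (∀ N, Ed j s hs l (φ N) r') ∧ Function.Injective φ := by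
  obtain ⟨⟨u, A', B'⟩, hu, hAr, hAd, hBs, hB1⟩ := r'
  simp only at hu hAr hAd hBs hB1
  obtain ⟨F, hF, hM⟩ := nbr_count hu
  have hex : ∀ M : F, ∃ v : Lam K, IsU v ∧ (M : Lam K) * u * st (M : Lam K) * v = ff := by
    intro M
    obtain ⟨h1, h2, y, hy, hyy, hNy⟩ := hM M.1 M.2
    exact exists_nbr hu y hyy hy h1 h2 hNy
  choose v1 hv1 hMv1 using hex
  have hne : ∀ M : F, (M : Lam K) ≠ 0 := by
    intro M h
    have := (hM M.1 M.2).2.1
    rw [h, cf_zero] at this
    exact zero_ne_one this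
  have hSt : ∀ M : F, Supp (st (M : Lam K)) (-1) 1 := by
    intro M
    have := supp_st (hM M.1 M.2).1
    simpa using this
  have hnrm : ∀ M : F, nrm (cf (st (M : Lam K)) 1) = 1 := by
    intro M
    obtain ⟨h1, h2, y, hy, hyy, hNy⟩ := hM M.1 M.2
    rw [cf_st, nrm_fr, nrm_cf h1 hy hNy, h2]
    simp [nrm]
  have hdetM : ∀ M : F, (rho j s hs (st (M : Lam K))).det = - fs j s := by
    intro M
    obtain ⟨h1, h2, y, hy, hyy, hNy⟩ := hM M.1 M.2
    obtain ⟨w', hw', hw0⟩ := ker_st h1 (hne M) hy hNy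
    rw [det_rho j s hs (hSt M) hw' hw0, hnrm M, map_one, one_mul]
  -- the constants
  let c : F → K := fun M => fr (-1) (cf (st (M : Lam K)) 1)⁻¹
  have hcn : ∀ M, nrm (c M) = 1 := by
    intro M
    show nrm (fr (-1) (cf (st (M : Lam K)) 1)⁻¹) = 1
    rw [nrm_fr]
    exact Gr_nrm_inv (hnrm M)
  have hc0 : ∀ M, c M ≠ 0 := fun M => Gr_ne (hcn M)
  let N : F → Lam K := fun M => st (M : Lam K) * mon 0 (c M)
  have hNs : ∀ M, Supp (N M) (-1) 1 := by
    intro M
    have := supp_mul (hSt M) (supp_mon 0 (c M))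
    simpa using this
  have hN1 : ∀ M, cf (N M) 1 = 1 := by
    intro M
    show cf (st (M : Lam K) * mon 0 (c M)) 1 = 1
    rw [cf_mul_mon]
    show cf (st (M : Lam K)) (1 - 0) * fr (1 - 0) (fr (-1) (cf (st (M : Lam K)) 1)⁻¹) = 1
    rw [sub_zero, fr_fr, show (1 : ℤ) + -1 = 0 from rfl, fr_zero]
    exact mul_inv_cancel₀ (Gr_ne (hnrm M))
  let v : F → Lam K := fun M => mon 0 (c M)⁻¹ * v1 M * st (mon 0 (c M)⁻¹)
  have hv : ∀ M, IsU (v M) := fun M => Cq_isU (hv1 M) (Gr_nrm_inv (hcn M))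
  have hEq : ∀ M, N M * v M * st (N M) * u = ff := by
    intro M
    have h1 : ((M : Lam K) * u) * (st (M : Lam K) * v1 M) = ff := by
      rw [← hMv1 M]; simp only [mul_assoc]
    have h2 := rotate h1
    have h3 : N M * v M * st (N M) * u = st (M : Lam K) * (mon 0 (c M) * mon 0 (c M)⁻¹) * v1 M *
        (st (mon 0 (c M)⁻¹) * st (mon 0 (c M))) * (M : Lam K) * u := by
      show st (M : Lam K) * mon 0 (c M) * (mon 0 (c M)⁻¹ * v1 M * st (mon 0 (c M)⁻¹)) *
        st (st (M : Lam K) * mon 0 (c M)) * u = _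
      rw [st_mul, st_st]
      simp only [mul_assoc]
    rw [h3, Gr_inv (hc0 M), Gr_st_inv' (hc0 M), mul_one, mul_one, ← h2]
    simp only [mul_assoc]
  have hfs : - fs (K := K) j s ≠ 0 := neg_ne_zero.2 hf
  have hdetN : ∀ M, (rho j s hs (N M)).det = - fs j s := by
    intro M
    show (rho j s hs (st (M : Lam K) * mon 0 (c M))).det = _
    rw [map_mul, Matrix.det_mul, hdetM M, det_rho_mon, hcn M, map_one, mul_one]
  have hunit : ∀ M : F, IsUnit (rho j s hs (N M)).det := by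
    intro M
    rw [hdetN M]
    exact isUnit_iff_ne_zero.2 hfs
  let A : F → Matrix (Fin 4) (Fin 4) L := fun M => (rho j s hs (N M))⁻¹ * A'
  have hAdet : ∀ M, (A M).det = 1 := by
    intro M
    show ((rho j s hs (N M))⁻¹ * A').det = 1
    rw [Matrix.det_mul, Matrix.det_nonsing_inv, hdetN M, hAd, Ring.inverse_eq_inv',
      inv_mul_cancel₀ hfs]
  have hArange : ∀ M, A M ∈ (rho j s hs).range := fun M =>
    Subring.mul_mem _ (Dgb_inv_range j s hs (hunit M)) hAr
  have hmul : ∀ M, rho j s hs (N M) * A M = A' :=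
    fun M => Matrix.mul_nonsing_inv_cancel_left _ _ (hunit M)
  have hBex : ∀ M, ∃ B : Lam K, Supp B (1 - l) 0 ∧ cf B 0 = 1 ∧
      ∀ k : ℤ, 1 - (l : ℤ) < k → cf (N M * B) k = cf B' k := by
    intro M
    obtain ⟨m, rfl⟩ : ∃ m, l = m + 1 := ⟨l - 1, by omega⟩
    obtain ⟨B, h1, h2, h3⟩ := Dgb_exists_B (hNs M) (hN1 M) hB1
      (fun k hk => alg_cf_zero_of hBs (Or.inr hk)) m
    have e : (1 - ((m + 1 : ℕ) : ℤ)) = -(m : ℤ) := by push_cast; ring
    rw [e]
    exact ⟨B, h1, h2, h3⟩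
  choose B hBS hB0 hBk using hBex
  refine ⟨F, hF, fun M => ⟨(v M, A M, B M), hv M, hArange M, hAdet M, hBS M, hB0 M⟩, ?_, ?_⟩
  · intro M
    exact ⟨N M, hNs M, hN1 M, hEq M, (hmul M).symm, hBk M⟩
  · intro M M' h
    have hA : A M = A M' := congrArg (fun r => r.1.2.1) h
    have hAu : IsUnit (A M) := by
      rw [Matrix.isUnit_iff_isUnit_det, hAdet M]; exact isUnit_one
    have h1 : rho j s hs (N M - N M') * A M = 0 := by
      rw [map_sub, sub_mul, hmul M, hA, hmul M', sub_self]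
    have h2 : rho j s hs (N M - N M') = 0 := by
      rw [← hAu.mul_left_inj, h1, zero_mul]
    have h3 := Gt_rho_inj j s hs (supp_sub (hNs M) (hNs M')) h2
    have h4 : N M = N M' := sub_eq_zero.1 h3
    have h5 : mon 0 (fr 2 (c M)) * (M : Lam K) = mon 0 (fr 2 (c M')) * (M' : Lam K) := by
      have := congrArg st h4
      change st (st (M : Lam K) * mon 0 (c M)) = st (st (M' : Lam K) * mon 0 (c M')) at this
      rw [st_mul, st_mul, st_st, st_st, Cq_st, Cq_st] at this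
      exact this
    have h6 : fr 2 (c M) = fr 2 (c M') := by
      have := congrArg (fun X => cf X 1) h5
      simp only [cf_mon_mul, sub_zero, fr_zero, (hM M.1 M.2).2.1, (hM M'.1 M'.2).2.1,
        mul_one] at this
      exact this
    rw [h6] at h5
    have h7 : fr 2 (c M') ≠ 0 := fun h => hc0 M' ((fr_eq_zero 2).1 h)
    have h8 := congrArg (fun X => mon 0 (fr 2 (c M'))⁻¹ * X) h5
    simp only [← mul_assoc, Gr_inv' h7, one_mul] at h8
    exact Subtype.ext h8
end

end GU4
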