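import Pool.Agent.H258R2.GU.Dga
import Pool.Agent.H258R2.GU.Dgb
import Pool.Agent.H258R2.GU.Cl3
import Pool.Agent.H258R2.GU.Cd3
import Pool.Agent.H258R2.GU.GL
import Pool.Agent.H258R2.GU.Ex

set_option linter.unusedSectionVars false
set_option linter.unusedVariables false

namespace GU4

open SkewMonoidAlgebra

variable {K : Type} [Field K] [Fintype K] [GD K]

section
variable {L : Type} [Field L] [Fintype L] (j : K →+* L) (s : L) (hs : s ≠ 0) (l : ℕ)

/-- the graph. -/
def Asm3G : SimpleGraph (E0 (K := K) j s hs l ⊕ E1 (K := K) j s hs l) :=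
  SimpleGraph.fromRel (fun x y => ∃ a b, x = Sum.inl a ∧ y = Sum.inr b ∧ Ed j s hs l a b)

theorem Asm3_adj (a : E0 (K := K) j s hs l) (b : E1 (K := K) j s hs l) :
    (Asm3G j s hs l).Adj (Sum.inl a) (Sum.inr b) ↔ Ed j s hs l a b := by
  unfold Asm3G
  rw [SimpleGraph.fromRel_adj]
  constructor
  · rintro ⟨-, ⟨a', b', h1, h2, h3⟩ | ⟨a', b', h1, h2, h3⟩⟩
    · cases h1; cases h2; exact h3
    · cases h1
  · intro h
    exact ⟨by simp, Or.inl ⟨a, b, rfl, rfl, h⟩⟩

theorem Asm3_deg (hl : 1 ≤ l) (hf : fs (K := K) j s ≠ 0)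
    [Fintype (E0 (K := K) j s hs l ⊕ E1 (K := K) j s hs l)]
    [DecidableRel (Asm3G (K := K) j s hs l).Adj] (v) :
    GD.q K ^ 3 + 1 ≤ (Asm3G (K := K) j s hs l).degree v := by
  rw [← SimpleGraph.card_neighborSet_eq_degree]
  rcases v with a | b
  · obtain ⟨F, hF, φ, h1, h2⟩ := deg_even3 j s hs l hl hf a
    refine hF.trans ?_
    rw [← Fintype.card_coe F]
    refine Fintype.card_le_of_injective (fun N => ⟨Sum.inr (φ N), ?_⟩) ?_
    · show (Asm3G j s hs l).Adj _ _
      rw [Asm3_adj]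
      exact h1 N
    · intro N N' h
      apply h2
      have h3 := congrArg Subtype.val h
      exact Sum.inr.inj h3
  · obtain ⟨F, hF, φ, h1, h2⟩ := deg_odd3 j s hs l hl hf b
    refine hF.trans ?_
    rw [← Fintype.card_coe F]
    refine Fintype.card_le_of_injective (fun N => ⟨Sum.inl (φ N), ?_⟩) ?_
    · show (Asm3G j s hs l).Adj _ _
      apply SimpleGraph.Adj.symm
      rw [Asm3_adj]
      exact h1 N
    · intro N N' h
      apply h2
      have h3 := congrArg Subtype.val h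
      exact Sum.inl.inj h3

/-- the graph with level structure at infinity. -/
theorem graph_exists3 (D : ℕ) (hD : 0 < D) (hl : 1 ≤ l) (hq4 : 4 ≤ GD.q K)
    (hord : orderOf s = GD.q K ^ D - 1) (hinj : Inj2 K D s) (hfs : fs (K := K) j s ≠ 0) :
    ∃ (V : Type) (_ : Fintype V) (G : SimpleGraph V) (_ : DecidableRel G.Adj), Nonempty V ∧
      (∀ v, GD.q K ^ 3 + 1 ≤ G.degree v) ∧ ((8 * D + 2 * l : ℕ) : ℕ∞) ≤ G.egirth ∧
      Fintype.card V ≤ 96 * GD.q K ^ (15 * D + 4 * l) := by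
  classical
  have hs : s ≠ 0 := by
    rintro rfl
    have h1 := pow_orderOf_eq_one (0 : L)
    have h2 : 2 ≤ GD.q K ^ D := by
      calc 2 ≤ GD.q K := GD.hq
        _ = GD.q K ^ 1 := (pow_one _).symm
        _ ≤ GD.q K ^ D := Nat.pow_le_pow_right (by have := GD.hq (K := K); omega) hD
    rw [hord, zero_pow (by omega)] at h1
    exact zero_ne_one h1
  have hfin : Finite (E0 (K := K) j s hs l ⊕ E1 (K := K) j s hs l) := inferInstance
  refine ⟨E0 (K := K) j s hs l ⊕ E1 (K := K) j s hs l,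
    Fintype.ofFinite _, Asm3G j s hs l, Classical.decRel _, ?_, ?_, ?_, ?_⟩
  · obtain ⟨v, hv⟩ := exists_IsU (K := K)
    exact ⟨Sum.inl ⟨(v, 1, mon 0 1), hv, one_mem _, Matrix.det_one,
      supp_mono (supp_mon 0 1) (by omega) le_rfl, by rw [cf_mon, if_pos rfl]⟩⟩
  · intro v
    exact @Asm3_deg K _ _ _ L _ _ j s hs l hl hfs (Fintype.ofFinite _) (Classical.decRel _) v
  · unfold Asm3G
    apply girth_of_closed_walks
    intro g a b hg hP hR ha hb hclose
    exact closed_walk3 j s hs l D hl hinj hfs g hg a b hP hR ha hb hclose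
  · refine (@Fintype.card_eq_nat_card _ (Fintype.ofFinite _)).trans_le ?_
    rw [Nat.card_sum]
    have h1 := card_E0 (K := K) j s hs l hl D hD hq4 hord
    have h2 := card_E1 (K := K) j s hs l hl D hD hq4 hord hfs
    calc _ ≤ 48 * GD.q K ^ (15 * D + 4 * l) + 48 * GD.q K ^ (15 * D + 4 * l) :=
          Nat.add_le_add h1 h2
      _ = _ := by ring
end

end GU4
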