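import Mathlib

/-!
Base definitions for the construction of regular graphs of large girth from a rank one
unitary group `U(4)`, in the explicit model `F_{q^4}[τ, τ⁻¹; Frob_q]` (skew Laurent polynomials).
-/

set_option linter.unusedSectionVars false

namespace GU4

open SkewMonoidAlgebra

/-- The data: `K` is a field with `q ^ 4` elements, `σ` its automorphism `a ↦ a ^ q`, and
`x ∈ K` satisfies `x ^ (q + 1) = 1`, `x ^ 8 ≠ 1`. -/
class GD (K : Type) [Field K] [Fintype K] where
  q : ℕ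
  hq : 2 ≤ q
  card : Fintype.card K = q ^ 4
  σ : K ≃+* K
  hσ : ∀ a, σ a = a ^ q
  x : K
  hx : x ^ (q + 1) = 1
  hx8 : x ^ 8 ≠ 1

section

variable (K : Type) [Field K] [Fintype K] [GD K]

/-- `ℤ` (written multiplicatively) acts on `K` through powers of the Frobenius `a ↦ a ^ q`. -/
noncomputable instance instAct : MulSemiringAction (Multiplicative ℤ) K :=
  MulSemiringAction.compHom K (zpowersHom (K ≃+* K) (GD.σ (K := K)))

/-- The skew Laurent polynomial ring `K[τ, τ⁻¹]`, `τ a = a ^ q τ`. -/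
abbrev Lam := SkewMonoidAlgebra K (Multiplicative ℤ)

end

variable {K : Type} [Field K] [Fintype K] [GD K]

/-- `fr i a = a ^ (q ^ i)`, `i ∈ ℤ`. -/
noncomputable def fr (i : ℤ) : K →+* K := (((GD.σ (K := K)) ^ i : K ≃+* K) : K →+* K)

/-- the monomial `a τ ^ i`. -/
noncomputable def mon (i : ℤ) (a : K) : Lam K := single (Multiplicative.ofAdd i) a

/-- the coefficient of `τ ^ i`. -/
noncomputable def cf (X : Lam K) (i : ℤ) : K := X.coeff (Multiplicative.ofAdd i)

/-- `X` is supported in the interval `[l, u]`. -/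
def Supp (X : Lam K) (l u : ℤ) : Prop := ∀ i, cf X i ≠ 0 → l ≤ i ∧ i ≤ u

theorem smul_eq_fr (i : ℤ) (a : K) : (Multiplicative.ofAdd i) • a = fr i a := rfl

theorem fr_zero (a : K) : fr 0 a = a := by
  simp [fr]

theorem fr_one (a : K) : fr 1 a = a ^ (GD.q K) := by
  simp [fr, GD.hσ]

theorem fr_fr (i j : ℤ) (a : K) : fr i (fr j a) = fr (i + j) a := by
  simp [fr, zpow_add]

theorem fr_nat (n : ℕ) (a : K) : fr (n : ℤ) a = a ^ ((GD.q K) ^ n) := by
  induction n with
  | zero => simp [fr_zero]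
  | succ n ih =>
    rw [Nat.cast_succ, add_comm, ← fr_fr, ih, fr_one, ← pow_mul, pow_succ]

theorem fr_four (a : K) : fr 4 a = a := by
  have h := fr_nat 4 a
  rw [← GD.card (K := K), FiniteField.pow_card] at h
  exact_mod_cast h

theorem fr_add_four (i : ℤ) (a : K) : fr (i + 4) a = fr i a := by
  rw [← fr_fr, fr_four]

theorem fr_inj (i : ℤ) {a b : K} (h : fr i a = fr i b) : a = b := by
  have := congrArg (fr (-i)) h
  simpa [fr_fr, fr_zero] using this

theorem fr_eq_zero (i : ℤ) {a : K} : fr i a = 0 ↔ a = 0 := by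
  constructor
  · intro h
    apply fr_inj i
    simp [h]
  · rintro rfl
    simp

/-! ### coefficients and monomials -/

theorem cf_add (X Y : Lam K) (i : ℤ) : cf (X + Y) i = cf X i + cf Y i := by
  simp [cf]

theorem cf_sub (X Y : Lam K) (i : ℤ) : cf (X - Y) i = cf X i - cf Y i := by
  simp [cf]

theorem cf_neg (X : Lam K) (i : ℤ) : cf (-X) i = - cf X i := by
  simp [cf]

theorem cf_zero (i : ℤ) : cf (0 : Lam K) i = 0 := by
  simp [cf]

theorem cf_mon (i j : ℤ) (a : K) : cf (mon i a) j = if i = j then a else 0 := by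
  classical
  simp only [cf, mon, coeff_single]
  rw [Finsupp.single_apply]
  simp

theorem cf_ext {X Y : Lam K} (h : ∀ i, cf X i = cf Y i) : X = Y := by
  apply SkewMonoidAlgebra.ext
  intro a
  exact h (Multiplicative.toAdd a)

theorem mon_mul (i j : ℤ) (a b : K) : mon i a * mon j b = mon (i + j) (a * fr i b) := by
  simp only [mon, single_mul_single, smul_eq_fr]
  rfl

theorem one_eq : (1 : Lam K) = mon 0 1 := rfl

theorem mon_zero (i : ℤ) : mon i (0 : K) = 0 := by
  simp [mon]

theorem mon_add (i : ℤ) (a b : K) : mon i (a + b) = mon i a + mon i b := by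
  simp [mon, single_add]

theorem mon_neg (i : ℤ) (a : K) : mon i (-a) = - mon i a := by
  simp [mon, single_neg]

theorem cf_mon_mul (i : ℤ) (a : K) (X : Lam K) (k : ℤ) :
    cf (mon i a * X) k = a * fr i (cf X (k - i)) := by
  simp only [mon, cf, coeff_single_mul, smul_eq_fr]
  congr 3
  rw [← ofAdd_neg, ← ofAdd_add]
  congr 1
  ring

theorem cf_mul_mon (i : ℤ) (a : K) (X : Lam K) (k : ℤ) :
    cf (X * mon i a) k = cf X (k - i) * fr (k - i) a := by
  have : Multiplicative.ofAdd k * (Multiplicative.ofAdd i)⁻¹ = Multiplicative.ofAdd (k - i) := rfl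
  simp only [mon, cf, coeff_mul_single, this, smul_eq_fr]

/-- induction principle -/
theorem lam_induction {P : Lam K → Prop} (X : Lam K) (h0 : P 0)
    (hadd : ∀ X Y, P X → P Y → P (X + Y)) (hmon : ∀ i a, P (mon i a)) : P X := by
  induction X using SkewMonoidAlgebra.induction_on with
  | zero => exact h0
  | single g a => exact hmon (Multiplicative.toAdd g) a
  | add X Y hX hY => exact hadd X Y hX hY

/-! ### the involution -/

/-- The involution `(a τ ^ i)* = τ ^ (-i) a ^ (q ^ 2)`. -/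
noncomputable def st : Lam K →+ Lam K :=
  (Finsupp.liftAddHom fun g : Multiplicative ℤ =>
    ({ toFun := fun a => mon (-(Multiplicative.toAdd g)) (fr (2 - Multiplicative.toAdd g) a)
       map_zero' := by simp [mon_zero]
       map_add' := by intro a b; simp [mon_add] } : K →+ Lam K)).comp
    (AddEquiv.toAddMonoidHom coeffAddEquiv)

theorem st_mon (i : ℤ) (a : K) : st (mon i a) = mon (-i) (fr (2 - i) a) := by
  simp [st, mon, coeffAddEquiv]

theorem st_mul (X Y : Lam K) : st (X * Y) = st Y * st X := by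
  induction X using lam_induction with
  | h0 => simp
  | hadd X X' h h' => simp [add_mul, mul_add, h, h']
  | hmon i a =>
    induction Y using lam_induction with
    | h0 => simp
    | hadd Y Y' h h' => simp [add_mul, mul_add, h, h']
    | hmon j b =>
      simp only [mon_mul, st_mon, map_mul, fr_fr]
      congr 1
      · ring
      · rw [mul_comm]
        congr 2
        · ring
        · ring

theorem st_st (X : Lam K) : st (st X) = X := by
  induction X using lam_induction with
  | h0 => simp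
  | hadd X X' h h' => simp [h, h']
  | hmon i a =>
    simp only [st_mon, fr_fr]
    congr 1
    · ring
    · have : (2 - -i + (2 - i) : ℤ) = 0 + 4 := by ring
      rw [this, fr_add_four, fr_zero]

theorem cf_st (X : Lam K) (i : ℤ) : cf (st X) i = fr (2 + i) (cf X (-i)) := by
  induction X using lam_induction with
  | h0 => simp [cf_zero]
  | hadd X X' h h' => simp [cf_add, h, h']
  | hmon j a =>
    rw [st_mon, cf_mon, cf_mon]
    by_cases h : j = -i
    · subst h
      simp
    · have : ¬ (-j = i) := by omega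
      simp [h, this]

/-! ### the action on `S = K × K` -/

theorem x_ne_zero : (GD.x : K) ≠ 0 := by
  intro h
  have := GD.hx (K := K)
  rw [h] at this
  simp at this

theorem fr_one_x : fr 1 (GD.x : K) = (GD.x : K)⁻¹ := by
  rw [fr_one]
  apply eq_inv_of_mul_eq_one_left
  rw [← pow_succ]
  exact GD.hx

theorem fr_two_x : fr 2 (GD.x : K) = (GD.x : K) := by
  have : (2 : ℤ) = 1 + 1 := rfl
  rw [this, ← fr_fr, fr_one_x, map_inv₀, fr_one_x, inv_inv]

/-- `a (y, z) = (a y, a ^ q z)`. -/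
noncomputable def actK : K →+* AddMonoid.End (K × K) where
  toFun a := ({ toFun := fun w => (a * w.1, fr 1 a * w.2)
                map_zero' := by simp
                map_add' := by intro u w; simp [mul_add] } : (K × K) →+ (K × K))
  map_one' := by
    apply AddMonoidHom.ext
    intro w
    show ((1 : K) * w.1, fr 1 (1 : K) * w.2) = w
    simp
  map_mul' a b := by
    apply AddMonoidHom.ext
    intro w
    show ((a * b) * w.1, fr 1 (a * b) * w.2) = (a * (b * w.1), fr 1 a * (fr 1 b * w.2))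
    simp [mul_assoc]
  map_zero' := by
    apply AddMonoidHom.ext
    intro w
    show ((0 : K) * w.1, fr 1 (0 : K) * w.2) = 0
    simp
  map_add' a b := by
    apply AddMonoidHom.ext
    intro w
    show ((a + b) * w.1, fr 1 (a + b) * w.2) = (a * w.1, fr 1 a * w.2) + (b * w.1, fr 1 b * w.2)
    simp [add_mul]

/-- `τ (y, z) = (x z, x y ^ (q ^ 2))`. -/
noncomputable def tauS : AddMonoid.End (K × K) :=
  ({ toFun := fun w => (GD.x * w.2, GD.x * fr 2 w.1)
     map_zero' := by simp
     map_add' := by intro u w; simp [mul_add] } : (K × K) →+ (K × K))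

/-- `τ⁻¹ (y, z) = (x⁻¹ z ^ (q ^ 2), x⁻¹ y)`. -/
noncomputable def tauSi : AddMonoid.End (K × K) :=
  ({ toFun := fun w => ((GD.x)⁻¹ * fr 2 w.2, (GD.x)⁻¹ * w.1)
     map_zero' := by simp
     map_add' := by intro u w; simp [mul_add] } : (K × K) →+ (K × K))

theorem actK_apply (a : K) (w : K × K) : actK a w = (a * w.1, fr 1 a * w.2) := rfl

theorem tauS_apply (w : K × K) : tauS w = (GD.x * w.2, GD.x * fr 2 w.1) := rfl

theorem tauSi_apply (w : K × K) : tauSi w = ((GD.x)⁻¹ * fr 2 w.2, (GD.x)⁻¹ * w.1) := rfl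

theorem tauS_tauSi : (tauS * tauSi : AddMonoid.End (K × K)) = 1 := by
  apply AddMonoidHom.ext
  intro w
  show tauS (tauSi w) = w
  have hx := x_ne_zero (K := K)
  simp [tauS_apply, tauSi_apply, fr_fr, fr_two_x, fr_four, hx]

theorem tauSi_tauS : (tauSi * tauS : AddMonoid.End (K × K)) = 1 := by
  apply AddMonoidHom.ext
  intro w
  show tauSi (tauS w) = w
  have hx := x_ne_zero (K := K)
  simp [tauS_apply, tauSi_apply, fr_fr, fr_two_x, fr_four, hx]

/-- `τ` as a unit. -/
noncomputable def tauSU : (AddMonoid.End (K × K))ˣ := ⟨tauS, tauSi, tauS_tauSi, tauSi_tauS⟩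

theorem tauS_actK (a : K) :
    (tauS * actK a : AddMonoid.End (K × K)) = actK (fr 1 a) * tauS := by
  apply AddMonoidHom.ext
  intro w
  show tauS (actK a w) = actK (fr 1 a) (tauS w)
  have h : (1 : ℤ) + 1 = 2 := rfl
  simp only [tauS_apply, actK_apply, fr_fr, map_mul, h, Prod.mk.injEq]
  constructor <;> ring

theorem semiconj_aux (U : (AddMonoid.End (K × K))ˣ) (hU : (U : AddMonoid.End (K × K)) = tauS)
    (i : ℤ) (a : K) :
    SemiconjBy ((U ^ i : (AddMonoid.End (K × K))ˣ) : AddMonoid.End (K × K)) (actK a)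
      (actK (fr i a)) := by
  induction i using Int.induction_on generalizing a with
  | zero => simp [fr_zero]
  | succ n ih =>
    have h1 := ih a
    rw [zpow_add, zpow_one]
    have e : ((U ^ (n : ℤ) * U : (AddMonoid.End (K × K))ˣ) : AddMonoid.End (K × K))
        = ((U ^ (n : ℤ) : (AddMonoid.End (K × K))ˣ) : AddMonoid.End (K × K)) * tauS := by
      rw [Units.val_mul, hU]
    rw [e]
    have h2 : SemiconjBy (tauS : AddMonoid.End (K × K)) (actK a) (actK (fr 1 a)) := tauS_actK a
    have h3 := ih (fr 1 a)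
    rw [fr_fr] at h3
    exact h3.mul_left h2
  | pred n ih =>
    rw [zpow_sub, zpow_one]
    have e : ((U ^ (-(n : ℤ)) * U⁻¹ : (AddMonoid.End (K × K))ˣ) : AddMonoid.End (K × K))
        = ((U ^ (-(n : ℤ)) : (AddMonoid.End (K × K))ˣ) : AddMonoid.End (K × K)) *
          ((U⁻¹ : (AddMonoid.End (K × K))ˣ) : AddMonoid.End (K × K)) := by
      rw [Units.val_mul]
    rw [e]
    have h2 : SemiconjBy (U : AddMonoid.End (K × K)) (actK (fr (-1) a)) (actK a) := by
      rw [hU]
      have := tauS_actK (fr (-1) a)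
      rw [fr_fr, show (1 : ℤ) + -1 = 0 from rfl, fr_zero] at this
      exact this
    have h2' := h2.units_inv_symm_left
    have h3 := ih (fr (-1) a)
    rw [fr_fr] at h3
    exact h3.mul_left h2'

/-- The action of the ring `Lam K` on `S = K × K`. -/
noncomputable def act : Lam K →+* AddMonoid.End (K × K) :=
  SkewMonoidAlgebra.liftNCRingHom (actK (K := K))
    ((Units.coeHom _).comp (zpowersHom _ (tauSU (K := K))))
    (by
      intro a g
      have := semiconj_aux (tauSU (K := K)) rfl (Multiplicative.toAdd g) a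
      exact this.symm)

theorem act_mon (i : ℤ) (a : K) (w : K × K) :
    act (mon i a) w = actK a (((tauSU (K := K) ^ i : (AddMonoid.End (K × K))ˣ) :
      AddMonoid.End (K × K)) w) := by
  have h : act (mon i a) = actK a * ((tauSU (K := K) ^ i : (AddMonoid.End (K × K))ˣ) :
      AddMonoid.End (K × K)) := by
    simp [act, mon, liftNCRingHom]
  rw [h]
  rfl

theorem act_mul (X Y : Lam K) (w : K × K) : act (X * Y) w = act X (act Y w) := by
  rw [map_mul]; rfl

theorem act_add (X Y : Lam K) (w : K × K) : act (X + Y) w = act X w + act Y w := by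
  rw [map_add]; rfl

theorem act_sub (X Y : Lam K) (w : K × K) : act (X - Y) w = act X w - act Y w := by
  rw [map_sub]; rfl

theorem act_zero' (w : K × K) : act (0 : Lam K) w = 0 := by
  rw [map_zero]; rfl

theorem act_one (w : K × K) : act (1 : Lam K) w = w := by
  rw [map_one]; rfl

theorem act_mon_zero (a : K) (w : K × K) : act (mon 0 a) w = (a * w.1, fr 1 a * w.2) := by
  rw [act_mon, zpow_zero]; rfl

theorem act_mon_one (a : K) (w : K × K) :
    act (mon 1 a) w = (a * (GD.x * w.2), fr 1 a * (GD.x * fr 2 w.1)) := by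
  rw [act_mon, zpow_one]; rfl

theorem act_mon_neg_one (a : K) (w : K × K) :
    act (mon (-1) a) w = (a * ((GD.x)⁻¹ * fr 2 w.2), fr 1 a * ((GD.x)⁻¹ * w.1)) := by
  rw [act_mon, zpow_neg, zpow_one]; rfl

/-- the action commutes with the diagonal multiplication by elements of `F_{q^2}`. -/
theorem act_smul (X : Lam K) (c : K) (hc : fr 2 c = c) (w : K × K) :
    act X (c • w) = c • act X w := by
  have h1 : ∀ w : K × K, (tauSU (K := K) : AddMonoid.End (K × K)) (c • w) =
      c • (tauSU (K := K) : AddMonoid.End (K × K)) w := by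
    intro w
    show tauS (c • w) = c • tauS w
    ext
    · simp [tauS_apply]; ring
    · simp [tauS_apply, hc]; ring
  have h2 : ∀ w : K × K, ((tauSU⁻¹ : (AddMonoid.End (K × K))ˣ) : AddMonoid.End (K × K)) (c • w) =
      c • ((tauSU⁻¹ : (AddMonoid.End (K × K))ˣ) : AddMonoid.End (K × K)) w := by
    intro w
    show tauSi (c • w) = c • tauSi w
    ext
    · simp [tauSi_apply, hc]; ring
    · simp [tauSi_apply]; ring
  have h3 : ∀ (i : ℤ) (w : K × K),
      ((tauSU (K := K) ^ i : (AddMonoid.End (K × K))ˣ) : AddMonoid.End (K × K)) (c • w) =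
      c • ((tauSU (K := K) ^ i : (AddMonoid.End (K × K))ˣ) : AddMonoid.End (K × K)) w := by
    intro i
    induction i using Int.induction_on with
    | zero => intro w; simp
    | succ n ih =>
      intro w
      rw [zpow_add, zpow_one]
      show ((tauSU (K := K) ^ (n : ℤ) : (AddMonoid.End (K × K))ˣ) : AddMonoid.End (K × K))
        ((tauSU (K := K) : AddMonoid.End (K × K)) (c • w)) = _
      rw [h1, ih]
      rfl
    | pred n ih =>
      intro w
      rw [zpow_sub, zpow_one]
      show ((tauSU (K := K) ^ (-(n : ℤ)) : (AddMonoid.End (K × K))ˣ) : AddMonoid.End (K × K))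
        (((tauSU⁻¹ : (AddMonoid.End (K × K))ˣ) : AddMonoid.End (K × K)) (c • w)) = _
      rw [h2, ih]
      rfl
  induction X using lam_induction with
  | h0 => rw [act_zero', act_zero', smul_zero]
  | hadd X X' h h' => rw [act_add, act_add, h, h', smul_add]
  | hmon i a =>
    rw [act_mon, act_mon, h3, actK_apply, actK_apply]
    ext
    · simp; ring
    · simp; ring

/-- The central element `f = τ ^ 4 + τ ^ (-4) - (x ^ 4 + x ^ (-4))`. -/
noncomputable def ff : Lam K := mon 4 1 + mon (-4) 1 - mon 0 ((GD.x) ^ 4 + ((GD.x)⁻¹) ^ 4)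

theorem fr_t0 (i : ℤ) : fr i ((GD.x : K) ^ 4 + ((GD.x)⁻¹) ^ 4) = (GD.x) ^ 4 + ((GD.x)⁻¹) ^ 4 := by
  have h1 : fr 1 ((GD.x : K) ^ 4 + ((GD.x)⁻¹) ^ 4) = (GD.x) ^ 4 + ((GD.x)⁻¹) ^ 4 := by
    simp [fr_one_x, add_comm]
  have h2 : fr (-1) ((GD.x : K) ^ 4 + ((GD.x)⁻¹) ^ 4) = (GD.x) ^ 4 + ((GD.x)⁻¹) ^ 4 := by
    apply fr_inj 1
    rw [fr_fr, h1, show (1 : ℤ) + -1 = 0 from rfl, fr_zero]
  induction i using Int.induction_on with
  | zero => rw [fr_zero]
  | succ n ih => rw [← fr_fr, h1, ih]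
  | pred n ih => rw [sub_eq_add_neg, ← fr_fr, h2, ih]

theorem ff_comm (X : Lam K) : ff * X = X * ff := by
  induction X using lam_induction with
  | h0 => simp
  | hadd X X' h h' => simp [add_mul, mul_add, h, h']
  | hmon i a =>
    have h4 : fr (-4) a = a := by
      apply fr_inj 4
      rw [fr_fr, show (4 : ℤ) + -4 = 0 from rfl, fr_zero, fr_four]
    simp only [ff, sub_mul, add_mul, mul_sub, mul_add, mon_mul, fr_four, h4, fr_t0, map_one,
      fr_zero, mul_one, one_mul, add_zero, zero_add]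
    congr 1
    · rw [add_comm 4 i, add_comm (-4) i]
    · congr 1; ring

theorem st_ff : st (ff : Lam K) = ff := by
  rw [ff, map_sub, map_add, st_mon, st_mon, st_mon, fr_t0, map_one, map_one, neg_neg, neg_zero,
    add_comm (mon (-4) 1)]

theorem tauS_four (w : K × K) : tauS (tauS (tauS (tauS w))) = (GD.x : K) ^ 4 • w := by
  have h2 : (2 : ℤ) + 2 = 4 := rfl
  ext
  · simp [tauS_apply, fr_fr, fr_two_x, h2, fr_four]; ring
  · simp [tauS_apply, fr_fr, fr_two_x, h2, fr_four]; ring

theorem tauSi_four (w : K × K) : tauSi (tauSi (tauSi (tauSi w))) = ((GD.x : K)⁻¹) ^ 4 • w := by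
  have h2 : (2 : ℤ) + 2 = 4 := rfl
  ext
  · simp [tauSi_apply, fr_fr, fr_two_x, h2, fr_four]; ring
  · simp [tauSi_apply, fr_fr, fr_two_x, h2, fr_four]; ring

theorem act_ff (w : K × K) : act (ff : Lam K) w = 0 := by
  have h4 : act (mon 4 (1 : K)) w = (GD.x : K) ^ 4 • w := by
    rw [act_mon, map_one]
    have : ((tauSU (K := K) ^ (4 : ℤ) : (AddMonoid.End (K × K))ˣ) : AddMonoid.End (K × K)) w
        = tauS (tauS (tauS (tauS w))) := by
      have e : (tauSU (K := K) ^ (4 : ℤ)) = tauSU * tauSU * tauSU * tauSU := by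
        rw [show (4 : ℤ) = ((4 : ℕ) : ℤ) from rfl, zpow_natCast]
        simp [pow_succ]
      rw [e]; rfl
    rw [this, tauS_four]; rfl
  have h5 : act (mon (-4) (1 : K)) w = ((GD.x : K)⁻¹) ^ 4 • w := by
    rw [act_mon, map_one]
    have : ((tauSU (K := K) ^ (-4 : ℤ) : (AddMonoid.End (K × K))ˣ) : AddMonoid.End (K × K)) w
        = tauSi (tauSi (tauSi (tauSi w))) := by
      have e : (tauSU (K := K) ^ (-4 : ℤ)) = tauSU⁻¹ * tauSU⁻¹ * tauSU⁻¹ * tauSU⁻¹ := by
        rw [show (-4 : ℤ) = -((4 : ℕ) : ℤ) from rfl, zpow_neg, ← inv_zpow, zpow_natCast]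
        simp [pow_succ]
      rw [e]; rfl
    rw [this, tauSi_four]; rfl
  rw [ff, act_sub, act_add, h4, h5, act_mon_zero, fr_t0]
  ext
  · simp; ring
  · simp; ring

/-- `supp f ⊆ [-4, 4]` and its extreme coefficients are `1`. -/
theorem cf_ff (i : ℤ) : cf (ff : Lam K) i =
    if i = 4 ∨ i = -4 then 1 else if i = 0 then -((GD.x) ^ 4 + ((GD.x)⁻¹) ^ 4) else 0 := by
  simp only [ff, cf_sub, cf_add, cf_mon]
  by_cases h4 : i = 4
  · subst h4; simp
  by_cases h5 : i = -4
  · subst h5; simp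
  by_cases h0 : i = 0
  · subst h0; simp
  simp [h4, h5, h0, Ne.symm h4, Ne.symm h5, Ne.symm h0]

/-! ### the pairing on `S` -/

/-- the hermitian pairing `B((y,z),(y',z')) = Tr_{F_{q^4}/F_{q^2}} (y z' ^ q + z y' ^ (q ^ 3))`. -/
noncomputable def BB (u w : K × K) : K :=
  (u.1 * fr 1 w.2 + u.2 * fr 3 w.1) + fr 2 (u.1 * fr 1 w.2 + u.2 * fr 3 w.1)

/-! ### the matrix representation -/

section rho

variable {L : Type} [Field L] (j : K →+* L) (s : L) (hs : s ≠ 0)

/-- `a ↦ diag (a, a ^ q, a ^ (q ^ 2), a ^ (q ^ 3))`. -/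
noncomputable def rhoK : K →+* Matrix (Fin 4) (Fin 4) L where
  toFun a := Matrix.diagonal (fun r : Fin 4 => j (fr (r : ℕ) a))
  map_one' := by simp
  map_mul' a b := by simp
  map_zero' := by simp
  map_add' a b := by simp

/-- the matrix of `τ`. -/
def rhoT : Matrix (Fin 4) (Fin 4) L := !![0, 1, 0, 0; 0, 0, 1, 0; 0, 0, 0, 1; s, 0, 0, 0]

/-- the matrix of `τ⁻¹`. -/
def rhoTi : Matrix (Fin 4) (Fin 4) L := !![0, 0, 0, s⁻¹; 1, 0, 0, 0; 0, 1, 0, 0; 0, 0, 1, 0]

include hs in
theorem rhoT_mul : rhoT s * rhoTi s = 1 := by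
  ext a b; fin_cases a <;> fin_cases b <;> simp [rhoT, rhoTi, Matrix.mul_apply, Fin.sum_univ_four, hs]

include hs in
theorem rhoTi_mul : rhoTi s * rhoT s = 1 := by
  ext a b; fin_cases a <;> fin_cases b <;> simp [rhoT, rhoTi, Matrix.mul_apply, Fin.sum_univ_four, hs]

def rhoTU : (Matrix (Fin 4) (Fin 4) L)ˣ := ⟨rhoT s, rhoTi s, rhoT_mul s hs, rhoTi_mul s hs⟩

theorem rhoT_rhoK (a : K) : rhoT s * rhoK j a = rhoK j (fr 1 a) * rhoT s := by
  have h4 : fr 3 (fr 1 a) = fr 0 a := by
    rw [fr_fr, show (3 : ℤ) + 1 = 4 from rfl, fr_four, fr_zero]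
  have h3 : fr 2 (fr 1 a) = fr 3 a := by rw [fr_fr]; rfl
  have h2 : fr 1 (fr 1 a) = fr 2 a := by rw [fr_fr]; rfl
  have h1 : fr 0 (fr 1 a) = fr 1 a := by rw [fr_fr]; rfl
  ext r c
  fin_cases r <;> fin_cases c <;>
    simp [rhoT, rhoK, Matrix.mul_apply, Fin.sum_univ_four, Matrix.diagonal, h1, h2, h3, h4, mul_comm]

theorem semiconj_rho (U : (Matrix (Fin 4) (Fin 4) L)ˣ) (hU : (U : Matrix (Fin 4) (Fin 4) L) = rhoT s)
    (i : ℤ) (a : K) :
    SemiconjBy ((U ^ i : (Matrix (Fin 4) (Fin 4) L)ˣ) : Matrix (Fin 4) (Fin 4) L) (rhoK j a)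
      (rhoK j (fr i a)) := by
  induction i using Int.induction_on generalizing a with
  | zero => simp [fr_zero]
  | succ n ih =>
    rw [zpow_add, zpow_one]
    have e : ((U ^ (n : ℤ) * U : (Matrix (Fin 4) (Fin 4) L)ˣ) : Matrix (Fin 4) (Fin 4) L)
        = ((U ^ (n : ℤ) : (Matrix (Fin 4) (Fin 4) L)ˣ) : Matrix (Fin 4) (Fin 4) L) * rhoT s := by
      rw [Units.val_mul, hU]
    rw [e]
    have h2 : SemiconjBy (rhoT s) (rhoK j a) (rhoK j (fr 1 a)) := rhoT_rhoK j s a
    have h3 := ih (fr 1 a)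
    rw [fr_fr] at h3
    exact h3.mul_left h2
  | pred n ih =>
    rw [zpow_sub, zpow_one]
    have e : ((U ^ (-(n : ℤ)) * U⁻¹ : (Matrix (Fin 4) (Fin 4) L)ˣ) : Matrix (Fin 4) (Fin 4) L)
        = ((U ^ (-(n : ℤ)) : (Matrix (Fin 4) (Fin 4) L)ˣ) : Matrix (Fin 4) (Fin 4) L) *
          ((U⁻¹ : (Matrix (Fin 4) (Fin 4) L)ˣ) : Matrix (Fin 4) (Fin 4) L) := by
      rw [Units.val_mul]
    rw [e]
    have h2 : SemiconjBy (U : Matrix (Fin 4) (Fin 4) L) (rhoK j (fr (-1) a)) (rhoK j a) := by
      rw [hU]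
      have := rhoT_rhoK j s (fr (-1) a)
      rw [fr_fr, show (1 : ℤ) + -1 = 0 from rfl, fr_zero] at this
      exact this
    have h2' := h2.units_inv_symm_left
    have h3 := ih (fr (-1) a)
    rw [fr_fr] at h3
    exact h3.mul_left h2'

/-- The matrix representation `Lam K → M_4(L)` at the point `s`: `τ ^ 4 = s`. -/
noncomputable def rho : Lam K →+* Matrix (Fin 4) (Fin 4) L :=
  SkewMonoidAlgebra.liftNCRingHom (rhoK j)
    ((Units.coeHom _).comp (zpowersHom _ (rhoTU s hs)))
    (by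
      intro a g
      have := semiconj_rho j s (rhoTU s hs) rfl (Multiplicative.toAdd g) a
      exact this.symm)

theorem rho_mon (i : ℤ) (a : K) : rho j s hs (mon i a) =
    rhoK j a * ((rhoTU s hs ^ i : (Matrix (Fin 4) (Fin 4) L)ˣ) : Matrix (Fin 4) (Fin 4) L) := by
  simp [rho, mon, liftNCRingHom]

end rho

/-! ### further definitions -/

/-- the norm `K → F_q`. -/
noncomputable def nrm (a : K) : K := a * fr 1 a * fr 2 a * fr 3 a

/-- The Gram elements: self-adjoint `v = a τ + b + a ^ q τ⁻¹` with `N(a) = 1` which are singular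
on `S`. -/
structure IsU (v : Lam K) : Prop where
  supp : Supp v (-1) 1
  st_eq : st v = v
  nrm_eq : nrm (cf v 1) = 1
  ker : ∃ w : K × K, w ≠ 0 ∧ act v w = 0

/-- the left ideal `Lam K * Z`. -/
noncomputable def LI (Z : Lam K) : AddSubgroup (Lam K) := (AddMonoidHom.mulRight Z).range

theorem mem_LI {Z X : Lam K} : X ∈ LI Z ↔ ∃ Q, Q * Z = X := by
  simp [LI, AddMonoidHom.mem_range]

/-- the left ideal generated by `W 0, …, W n`. -/
noncomputable def JJ (W : ℕ → Lam K) : ℕ → AddSubgroup (Lam K)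
  | 0 => LI (W 0)
  | n + 1 => JJ W n ⊔ LI (W (n + 1))

section graph

variable {L : Type} [Field L] (j : K →+* L) (s : L) (hs : s ≠ 0)

/-- the value of `f` at the point `s`. -/
noncomputable def fs : L := s + s⁻¹ - j ((GD.x) ^ 4 + ((GD.x)⁻¹) ^ 4)

/-- (representatives of) the even vertices. -/
def R0 (K : Type) [Field K] [Fintype K] [GD K] (L : Type) [Field L] : Type :=
  {r : Lam K × Matrix (Fin 4) (Fin 4) L // IsU r.1 ∧ r.2.det = 1}

/-- (representatives of) the odd vertices. -/
def R1 : Type := {r : Lam K × Matrix (Fin 4) (Fin 4) L // IsU r.1 ∧ r.2.det = - fs j s}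

/-- two representatives of the same even vertex. -/
def rel0 (r r' : R0 K L) : Prop := ∃ c : K, nrm c = 1 ∧
  r'.1.1 = mon 0 c * r.1.1 * st (mon 0 c) ∧ r'.1.2 = rho j s hs (mon 0 c) * r.1.2

/-- two representatives of the same odd vertex. -/
def rel1 (r r' : R1 j s) : Prop := ∃ c : K, nrm c = 1 ∧
  st (mon 0 c) * r'.1.1 * mon 0 c = r.1.1 ∧ r'.1.2 = rho j s hs (mon 0 c) * r.1.2

/-- adjacency of representatives. -/
def edge (r : R0 K L) (r' : R1 j s) : Prop := ∃ N : Lam K, Supp N (-1) 1 ∧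
  N * r.1.1 * st N * r'.1.1 = ff ∧ r'.1.2 = rho j s hs N * r.1.2

end graph

end GU4
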