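import Pool.Agent.H258R2.GU.Qp

set_option linter.unusedSectionVars false
set_option linter.unusedVariables false

namespace GU4

open SkewMonoidAlgebra

variable {K : Type} [Field K] [Fintype K] [GD K]

section
variable {L : Type} [Field L] [Fintype L] (j : K →+* L) (s : L) (hs : s ≠ 0)

/-- The image of `τ ^ (4 i)` is scalar. -/
theorem Cr_mon (i : ℕ) : rho j s hs (mon (4 * (i : ℤ)) (1 : K)) =
    (s ^ i) • (1 : Matrix (Fin 4) (Fin 4) L) := by
  ext r k
  rw [Root_rho_mon, map_one, map_one, one_mul, Matrix.smul_apply, smul_eq_mul, Matrix.one_apply]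
  by_cases h : r = k
  · subst h
    rw [if_pos rfl, show (((r : ℕ) : ℤ) + 4 * (i : ℤ) - ((r : ℕ) : ℤ)) = 4 * (i : ℤ) by ring,
      Root_e_mul, zpow_natCast, mul_one]
  · have h1 := r.2
    have h2 := k.2
    have h3 : (r : ℕ) ≠ (k : ℕ) := fun hh => h (Fin.ext hh)
    rw [if_neg h, Root_e_not s (by omega), mul_zero]

theorem Cr_smul_mem (i : ℕ) {A : Matrix (Fin 4) (Fin 4) L} (hA : A ∈ (rho j s hs).range) :
    (s ^ i) • A ∈ (rho j s hs).range := by
  obtain ⟨X, rfl⟩ := hA
  refine ⟨mon (4 * (i : ℤ)) (1 : K) * X, ?_⟩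
  rw [map_mul, Cr_mon, Matrix.smul_mul, Matrix.one_mul]

/-- at most `8 q^(15 D)` elements of the image of `rho` have a given nonzero determinant. -/
theorem card_range_det (D : ℕ) (hD : 0 < D) (hq4 : 4 ≤ GD.q K)
    (hord : orderOf s = GD.q K ^ D - 1) (t : L) (ht : t ≠ 0) :
    Nat.card {A : Matrix (Fin 4) (Fin 4) L // A ∈ (rho j s hs).range ∧ A.det = t} ≤
      8 * GD.q K ^ (15 * D) := by
  classical
  have hq0 : 0 < GD.q K := by omega
  have hqD : 4 ≤ GD.q K ^ D := hq4.trans (Nat.le_self_pow hD.ne' _)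
  have hsD : s ^ (GD.q K ^ D) = s := by
    have h1 : GD.q K ^ D = (GD.q K ^ D - 1) + 1 := by omega
    rw [h1, pow_succ, ← hord, pow_orderOf_eq_one, one_mul]
  have hcard := card_range j s hs D hD hsD
  set T := {A : Matrix (Fin 4) (Fin 4) L // A ∈ (rho j s hs).range ∧ A.det = t} with hT
  set M := orderOf (s ^ 4) with hM
  -- the order
  have hMn : GD.q K ^ D - 1 ≤ 4 * M := by
    have h1 : M = orderOf s / (orderOf s).gcd 4 := by
      rw [hM, orderOf_pow' s (by norm_num)]
    have h2 : (orderOf s).gcd 4 ∣ orderOf s := Nat.gcd_dvd_left _ _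
    have h3 : (orderOf s).gcd 4 ≤ 4 := Nat.gcd_le_right _ (by norm_num)
    have h4 : (orderOf s).gcd 4 * M = orderOf s := by
      rw [h1]; exact Nat.mul_div_cancel' h2
    calc GD.q K ^ D - 1 = (orderOf s).gcd 4 * M := by rw [h4, hord]
      _ ≤ 4 * M := Nat.mul_le_mul_right _ h3
  -- the injection
  have hfin : Finite T := Subtype.finite
  have hfin2 : Finite (rho j s hs).range := Subtype.finite
  let φ : Fin M × T → (rho j s hs).range := fun p => ⟨(s ^ (p.1 : ℕ)) • p.2.1,
    Cr_smul_mem j s hs _ p.2.2.1⟩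
  have hφ : Function.Injective φ := by
    rintro ⟨i, A, hA⟩ ⟨i', A', hA'⟩ h
    have h1 : (s ^ (i : ℕ)) • A = (s ^ (i' : ℕ)) • A' := congrArg Subtype.val h
    have h2 := congrArg Matrix.det h1
    rw [Matrix.det_smul, Matrix.det_smul, hA.2, hA'.2, Fintype.card_fin] at h2
    have h3 : (s ^ 4) ^ (i : ℕ) = (s ^ 4) ^ (i' : ℕ) := by
      have h4 := mul_right_cancel₀ ht h2
      rw [← pow_mul, ← pow_mul] at h4
      rw [← pow_mul, ← pow_mul, mul_comm 4, mul_comm 4]
      exact h4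
    have h5 : (i : ℕ) = (i' : ℕ) := pow_injOn_Iio_orderOf (Set.mem_Iio.mpr i.2)
      (Set.mem_Iio.mpr i'.2) h3
    have h6 : i = i' := Fin.ext h5
    subst h6
    have h7 : A = A' := smul_right_injective _ (pow_ne_zero _ hs) h1
    subst h7
    rfl
  have h1 := Nat.card_le_card_of_injective φ hφ
  rw [Nat.card_prod, Nat.card_eq_fintype_card (α := Fin M), Fintype.card_fin] at h1
  have h2 : M * Nat.card T ≤ GD.q K ^ (16 * D) := h1.trans hcard
  have h3 : GD.q K ^ D * Nat.card T ≤ GD.q K ^ D * (8 * GD.q K ^ (15 * D)) := by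
    calc GD.q K ^ D * Nat.card T ≤ (8 * M) * Nat.card T := by
          apply Nat.mul_le_mul_right
          omega
      _ = 8 * (M * Nat.card T) := by ring
      _ ≤ 8 * GD.q K ^ (16 * D) := Nat.mul_le_mul_left _ h2
      _ = GD.q K ^ D * (8 * GD.q K ^ (15 * D)) := by
          rw [show 16 * D = D + 15 * D by ring, pow_add]; ring
  exact Nat.le_of_mul_le_mul_left h3 (by omega)
end

end GU4
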