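import Pool.Agent.H258R2.GU.Ph2
import Pool.Agent.H258R2.GU.Cr

/-!
Level structure at the two points at infinity: representatives normalised to have leading
coefficient one, together with the `l` top coefficients of the group element.
-/

set_option linter.unusedSectionVars false
set_option linter.unusedVariables false

namespace GU4

open SkewMonoidAlgebra

variable {K : Type} [Field K] [Fintype K] [GD K]

section
variable {L : Type} [Field L] [Fintype L] (j : K →+* L) (s : L) (hs : s ≠ 0)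

/-- the main inequality. -/
theorem main_ineq3 (D l : ℕ) (hinj : Inj2 K D s) (hfs : fs (K := K) j s ≠ 0) (W R P : ℕ → Lam K) (g : ℕ)
    (hR : ∀ i < g, Supp (R i) (-1) 1 ∧ R i ≠ 0) (h0 : W 0 = ff ^ g)
    (hstep : ∀ i < g, R i * W (i + 1) = P i * W i)
    (hne : W g ≠ ff ^ g) (hS : Supp (W g - ff ^ g) (-4 * g + l) (4 * g - l))
    (h1 : rho j s hs (W g - ff ^ g) = 0) (h2 : rho j s hs (st (W g - ff ^ g)) = 0) :
    8 * D + 2 * l ≤ 2 * g := by
  classical
  set Y : Lam K := W g - ff ^ g with hY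
  have hYne : Y ≠ 0 := sub_ne_zero.2 hne
  set I : AddSubgroup (Lam K) := (Ineq_phi j s hs).ker with hI
  set J : AddSubgroup (Lam K) := JJ W g with hJ
  have hq2 : 2 ≤ GD.q K := GD.hq
  have hQ : 1 < GD.q K ^ 4 := Nat.one_lt_pow (by norm_num) (by omega)
  have hfin : Finite (Matrix (Fin 4) (Fin 4) L × Matrix (Fin 4) (Fin 4) L) := inferInstance
  -- index of I
  have hIindex : (GD.q K ^ 4) ^ (8 * D) ≤ I.index := by
    rw [hI, AddSubgroup.index_ker]
    have hf : Finite (Ineq_phi j s hs).range := inferInstance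
    let F : (Fin (8 * D) → K) → (Ineq_phi j s hs).range :=
      fun c => ⟨Ineq_phi j s hs (Ineq_win (8 * D) c), ⟨_, rfl⟩⟩
    have hF : Function.Injective F := by
      intro c c' hcc
      have h3 : Ineq_phi j s hs (Ineq_win (8 * D) c) = Ineq_phi j s hs (Ineq_win (8 * D) c') :=
        congrArg Subtype.val hcc
      have h4' : Ineq_phi j s hs (Ineq_win (8 * D) (c - c')) = 0 := by
        rw [← Ineq_win_sub, map_sub, h3, sub_self]
      rw [Ineq_phi_apply, Prod.mk_eq_zero] at h4'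
      have hsupp := Ineq_supp_win (8 * D) (c - c')
      have hz := root_window2 j s hs D hinj (Ineq_win (8 * D) (c - c'))
        (by
          have e : (((8 * D : ℕ) : ℤ) - 1) = (8 * (D : ℤ) - 1) := by push_cast; ring
          rw [e] at hsupp
          exact hsupp) h4'.1 h4'.2
      funext k
      have h5 := Ineq_cf_win (8 * D) (c - c') k
      rw [hz, cf_zero] at h5
      have h6 : c k - c' k = 0 := by
        rw [← Pi.sub_apply, ← h5]
      exact sub_eq_zero.1 h6
    have h7 := Nat.card_le_card_of_injective F hF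
    rw [Nat.card_eq_fintype_card (α := Fin (8 * D) → K), Fintype.card_fun, Fintype.card_fin,
      GD.card] at h7
    exact h7
  -- J ⊔ I = ⊤
  have hsup : J ⊔ I = ⊤ := by
    rw [eq_top_iff]
    intro X _
    set N := Fintype.card L - 1 with hN
    have hN1 : 1 ≤ N := by
      have : 1 < Fintype.card L := Fintype.one_lt_card
      omega
    have hpow : (fs j s) ^ N = 1 := FiniteField.pow_card_sub_one_eq_one _ hfs
    set Z : Lam K := X * ff ^ (g * (N - 1)) with hZ
    have e1 : Z * ff ^ g = X * ff ^ (g * N) := by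
      rw [hZ, mul_assoc, ← pow_add]
      congr 2
      obtain ⟨m, hm⟩ : ∃ m, N = m + 1 := ⟨N - 1, by omega⟩
      rw [hm, Nat.add_sub_cancel]
      ring
    have e2 : Ineq_phi j s hs (Z * ff ^ g) = Ineq_phi j s hs X := by
      rw [e1, Ineq_phi_mul, mul_comm g N, pow_mul, hpow, one_pow, one_smul]
    have e3 : X - Z * ff ^ g ∈ I := by
      rw [hI, AddMonoidHom.mem_ker, map_sub, e2, sub_self]
    have e4 : Z * ff ^ g ∈ J := by
      apply Ineq_LI_le_JJ W g 0 (Nat.zero_le _)
      rw [mem_LI]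
      exact ⟨Z, by rw [h0]⟩
    have e5 : X = Z * ff ^ g + (X - Z * ff ^ g) := by abel
    rw [e5]
    exact AddSubgroup.add_mem_sup e4 e3
  -- index of J ⊓ I
  have hinf : (J ⊓ I).index = I.index * J.index := by
    rw [← AddSubgroup.relIndex_mul_index (inf_le_left : J ⊓ I ≤ J), AddSubgroup.inf_relIndex_left]
    have h5 : I.relIndex J = I.index := by
      rw [← AddSubgroup.relIndex_sup_right, hsup, AddSubgroup.relIndex_top_right]
    rw [h5]
  -- index of J
  have hJindex : (GD.q K ^ 4) ^ (6 * g) ≤ J.index := by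
    have h5 := index_LI_ff_pow (K := K) g
    have h6 := relIndex_chain W R P g hR hstep
    have h7 := AddSubgroup.relIndex_mul_index (Ineq_LI_le_JJ W g 0 (Nat.zero_le _))
    rw [h0] at h7
    rw [h0] at h6
    rw [← h7] at h5
    have h8 : (GD.q K ^ 4) ^ (2 * g) * (GD.q K ^ 4) ^ (6 * g) ≤
        (GD.q K ^ 4) ^ (2 * g) * J.index := by
      rw [← pow_add, show 2 * g + 6 * g = 8 * g by ring]
      exact h5.trans (Nat.mul_le_mul_right _ h6.2)
    exact Nat.le_of_mul_le_mul_left h8 (by positivity)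
  -- LI Y
  have hSY : Supp Y (-4 * g + l) (4 * g - l) := hS
  have hl : ((-4 * g + l : ℤ)) ≤ 4 * g - l := by
    by_contra hcon
    apply hYne
    apply cf_ext
    intro i
    rw [cf_zero]
    by_contra hne'
    have := hSY i hne'
    omega
  have hLI := index_LI_le Y (-4 * g + l) (4 * g - l) hl hSY hYne
  have hle : LI Y ≤ J ⊓ I := by
    intro X hX
    rw [mem_LI] at hX
    obtain ⟨Z, rfl⟩ := hX
    refine AddSubgroup.mem_inf.2 ⟨?_, ?_⟩
    · rw [hY, mul_sub]
      refine J.sub_mem ?_ ?_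
      · exact Ineq_LI_le_JJ W g g le_rfl (mem_LI.2 ⟨Z, rfl⟩)
      · exact Ineq_LI_le_JJ W g 0 (Nat.zero_le _) (mem_LI.2 ⟨Z, by rw [h0]⟩)
    · rw [hI, AddMonoidHom.mem_ker, Ineq_phi_apply, st_mul, map_mul, map_mul, h1, h2, mul_zero,
        zero_mul]
      rfl
  have h9 : (J ⊓ I).index ≤ (LI Y).index :=
    Nat.le_of_dvd (Nat.pos_of_ne_zero hLI.1) (AddSubgroup.index_dvd_of_le hle)
  have h10 : (GD.q K ^ 4) ^ (8 * D + 6 * g) ≤ (GD.q K ^ 4) ^ (8 * g - 2 * l) := by
    rw [pow_add]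
    calc (GD.q K ^ 4) ^ (8 * D) * (GD.q K ^ 4) ^ (6 * g) ≤ I.index * J.index :=
          Nat.mul_le_mul hIindex hJindex
      _ = (J ⊓ I).index := hinf.symm
      _ ≤ (LI Y).index := h9
      _ ≤ _ := hLI.2
      _ = (GD.q K ^ 4) ^ (8 * g - 2 * l) := by
          congr 1
          omega
  have h11 := (Nat.pow_le_pow_iff_right hQ).1 h10
  omega

end

section
variable {L : Type} [Field L] (j : K →+* L) (s : L) (hs : s ≠ 0) (l : ℕ)

/-- even vertices `(v, A, B)`: `B` records the `l` top coefficients. -/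
def E0 : Type := {r : Lam K × Matrix (Fin 4) (Fin 4) L × Lam K // IsU r.1 ∧
  r.2.1 ∈ (rho j s hs).range ∧ r.2.1.det = 1 ∧ Supp r.2.2 (1 - l) 0 ∧ cf r.2.2 0 = 1}

/-- odd vertices `(u, A, B)`. -/
def E1 : Type := {r : Lam K × Matrix (Fin 4) (Fin 4) L × Lam K // IsU r.1 ∧
  r.2.1 ∈ (rho j s hs).range ∧ r.2.1.det = - fs j s ∧ Supp r.2.2 (2 - l) 1 ∧ cf r.2.2 1 = 1}

/-- adjacency through the monic element `N`: `N v N* u = f`, `A' = rho(N) A` and `N B`, `B'` have the
same `l` top coefficients. -/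
def EdN (N : Lam K) (r : E0 j s hs l) (r' : E1 j s hs l) : Prop :=
  Supp N (-1) 1 ∧ cf N 1 = 1 ∧ N * r.1.1 * st N * r'.1.1 = ff ∧
    r'.1.2.1 = rho j s hs N * r.1.2.1 ∧
    ∀ k : ℤ, 1 - (l : ℤ) < k → cf (N * r.1.2.2) k = cf r'.1.2.2 k

def Ed (r : E0 j s hs l) (r' : E1 j s hs l) : Prop := ∃ N : Lam K, EdN j s hs l N r r'

end

end GU4
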