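import Pool.Agent.H258R2.GU.Sd

set_option linter.unusedSectionVars false
set_option linter.unusedVariables false

namespace GU4

open SkewMonoidAlgebra

variable {K : Type} [Field K] [Fintype K] [GD K]

/-- the elements fixed by the Frobenius. -/
noncomputable def CtF (K : Type) [Field K] [Fintype K] [GD K] : Finset K := by
  classical
  exact Finset.univ.filter (fun c => fr 1 c = c)

theorem Ct_mem_F (c : K) : c ∈ CtF K ↔ fr 1 c = c := by
  classical
  simp [CtF]

theorem Ct_card_F_le : (CtF K).card ≤ GD.q K := by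
  classical
  have hq := GD.hq (K := K)
  have hdeg : (Polynomial.X ^ (GD.q K) - Polynomial.X : Polynomial K).natDegree = GD.q K :=
    FiniteField.X_pow_card_sub_X_natDegree_eq K (by omega)
  have hne : (Polynomial.X ^ (GD.q K) - Polynomial.X : Polynomial K) ≠ 0 := by
    intro h
    rw [h] at hdeg
    simp at hdeg
    omega
  have hsub : CtF K ⊆ (Polynomial.X ^ (GD.q K) - Polynomial.X : Polynomial K).roots.toFinset := by
    intro c hc
    rw [Ct_mem_F, fr_one] at hc
    rw [Multiset.mem_toFinset, Polynomial.mem_roots hne]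
    simp [Polynomial.IsRoot, hc]
  calc (CtF K).card ≤ _ := Finset.card_le_card hsub
    _ ≤ Multiset.card (Polynomial.X ^ (GD.q K) - Polynomial.X : Polynomial K).roots :=
      Multiset.toFinset_card_le _
    _ ≤ _ := Polynomial.card_roots' _
    _ = _ := hdeg

theorem Ct_card_Z_le (Z : Finset K) (hZ : ∀ b ∈ Z, b + fr 1 b + fr 2 b + fr 3 b = 0) :
    Z.card ≤ GD.q K ^ 3 := by
  classical
  have hq := GD.hq (K := K)
  set P : Polynomial K := Polynomial.X ^ (GD.q K ^ 3) + (Polynomial.X ^ (GD.q K ^ 2) +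
    Polynomial.X ^ (GD.q K) + Polynomial.X) with hP
  have h1 : (Polynomial.X ^ (GD.q K ^ 2) +
    Polynomial.X ^ (GD.q K) + Polynomial.X : Polynomial K).natDegree < GD.q K ^ 3 := by
    have a1 : GD.q K ^ 2 < GD.q K ^ 3 := Nat.pow_lt_pow_right (by omega) (by omega)
    have a2 : GD.q K < GD.q K ^ 3 := by
      calc GD.q K = GD.q K ^ 1 := (pow_one _).symm
        _ < _ := Nat.pow_lt_pow_right (by omega) (by omega)
    have a3 : 1 < GD.q K ^ 3 := by
      calc 1 = GD.q K ^ 0 := (pow_zero _).symm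
        _ < _ := Nat.pow_lt_pow_right (by omega) (by omega)
    refine lt_of_le_of_lt (Polynomial.natDegree_add_le _ _) (max_lt ?_ ?_)
    · refine lt_of_le_of_lt (Polynomial.natDegree_add_le _ _) (max_lt ?_ ?_)
      · simpa using a1
      · simpa using a2
    · simpa using a3
  have hdeg : P.natDegree = GD.q K ^ 3 := by
    rw [hP, Polynomial.natDegree_add_eq_left_of_natDegree_lt]
    · simp
    · simpa using h1
  have hne : P ≠ 0 := by
    intro h
    rw [h] at hdeg
    have : 0 < GD.q K ^ 3 := by positivity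
    simp at hdeg
    omega
  have hsub : Z ⊆ P.roots.toFinset := by
    intro c hc
    have h := hZ c hc
    have e2 : fr 2 c = c ^ (GD.q K ^ 2) := fr_nat 2 c
    have e3 : fr 3 c = c ^ (GD.q K ^ 3) := fr_nat 3 c
    rw [fr_one, e2, e3] at h
    rw [Multiset.mem_toFinset, Polynomial.mem_roots hne]
    simp only [Polynomial.IsRoot, hP, Polynomial.eval_add, Polynomial.eval_pow, Polynomial.eval_X]
    rw [← h]; ring
  calc Z.card ≤ _ := Finset.card_le_card hsub
    _ ≤ Multiset.card P.roots := Multiset.toFinset_card_le _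
    _ ≤ _ := Polynomial.card_roots' _
    _ = _ := hdeg

theorem Ct_card_F_ge : GD.q K ≤ (CtF K).card := by
  classical
  have hq := GD.hq (K := K)
  set Z : Finset K := Finset.univ.filter (fun b : K => b + fr 1 b + fr 2 b + fr 3 b = 0) with hZ
  have hZc : Z.card ≤ GD.q K ^ 3 := Ct_card_Z_le Z (by intro b hb; simpa [hZ] using hb)
  have h := Finset.card_le_mul_card_image_of_maps_to (s := (Finset.univ : Finset K)) (t := Z)
    (f := fun a => fr 1 a - a) (by
      intro a _
      simp only [hZ, Finset.mem_filter, Finset.mem_univ, true_and, map_sub, fr_fr]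
      norm_num [fr_four]) (CtF K).card (by
      intro b _
      by_cases hb : ∃ a0 : K, fr 1 a0 - a0 = b
      · obtain ⟨a0, ha0⟩ := hb
        apply Finset.card_le_card_of_injOn (fun a => a - a0)
        · intro a ha
          simp only [Finset.coe_filter, Finset.mem_univ, true_and, Set.mem_ofPred_eq] at ha
          simp only [Finset.mem_coe]
          rw [Ct_mem_F, map_sub]
          linear_combination ha - ha0
        · intro a _ a' _ haa
          simpa using haa
      · have : (Finset.univ.filter (fun a : K => fr 1 a - a = b)) = ∅ := by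
          rw [Finset.filter_eq_empty_iff]
          intro a _ ha
          exact hb ⟨a, ha⟩
        rw [this]; simp)
  have hK : (Finset.univ : Finset K).card = GD.q K ^ 4 := by
    rw [Finset.card_univ, GD.card]
  rw [hK] at h
  have h2 : GD.q K ^ 3 * GD.q K ≤ GD.q K ^ 3 * (CtF K).card := by
    calc GD.q K ^ 3 * GD.q K = GD.q K ^ 4 := by ring
      _ ≤ (CtF K).card * Z.card := h
      _ ≤ (CtF K).card * GD.q K ^ 3 := Nat.mul_le_mul_left _ hZc
      _ = _ := by ring
  exact Nat.le_of_mul_le_mul_left h2 (by positivity)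

theorem Ct_card_F : (CtF K).card = GD.q K := le_antisymm Ct_card_F_le Ct_card_F_ge

/-- the trace form of a nonzero vector is nonzero somewhere. -/
theorem Ct_exists (u : K × K) (hu : u ≠ 0) : ∃ y : K × K, BB u y + fr 1 (BB u y) ≠ 0 := by
  by_contra hcon
  push Not at hcon
  apply hu
  apply BB_nondeg_left
  intro w
  by_contra hw
  set c := BB u w with hc
  have hc2 : fr 2 c = c := fr_two_BB u w
  have hx2 := fr_two_x (K := K)
  have he2 : fr 2 (fr (-1) (GD.x / c : K)) = fr (-1) (GD.x / c : K) := by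
    rw [fr_fr, show (2 : ℤ) + -1 = -1 + 2 from rfl, ← fr_fr, map_div₀, hx2, hc2]
  have h1 := hcon (fr (-1) (GD.x / c : K) • w)
  rw [BB_smul_right _ he2, fr_fr, show (1 : ℤ) + -1 = 0 from rfl, fr_zero, ← hc,
    div_mul_cancel₀ _ hw, fr_one_x] at h1
  have hx0 := x_ne_zero (K := K)
  have h2 : (GD.x : K) ^ 2 = -1 := by
    have : (GD.x : K) * (GD.x + (GD.x)⁻¹) = 0 := by rw [h1, mul_zero]
    rw [mul_add, mul_inv_cancel₀ hx0] at this
    linear_combination this
  apply GD.hx8 (K := K)
  calc (GD.x : K) ^ 8 = ((GD.x : K) ^ 2) ^ 4 := by ring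
    _ = 1 := by rw [h2]; ring

/-- fibres of the trace form are small. -/
theorem Ct_fibre (u : K × K) (hu : u ≠ 0) (t : K) (Y : Finset (K × K))
    (hY : ∀ y ∈ Y, BB u y + fr 1 (BB u y) = t) : Y.card ≤ GD.q K ^ 7 := by
  classical
  have hq := GD.hq (K := K)
  obtain ⟨y0, hy0⟩ := Ct_exists u hu
  have h : ((CtF K) ×ˢ Y).card ≤ (Finset.univ : Finset (K × K)).card := by
    apply Finset.card_le_card_of_injOn (fun p => p.2 + p.1 • y0)
    · intro p _
      simp
    · rintro ⟨e, y⟩ hp ⟨e', y'⟩ hp' heq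
      simp only [Finset.coe_product, Set.mem_prod, Finset.mem_coe, Ct_mem_F] at hp hp'
      obtain ⟨he, hy⟩ := hp
      obtain ⟨he', hy'⟩ := hp'
      simp only at heq
      have h2 : ∀ e : K, fr 1 e = e → fr 2 e = e := by
        intro e he
        rw [show (2 : ℤ) = 1 + 1 from rfl, ← fr_fr, he, he]
      have key : ∀ (e : K) (y : K × K), fr 1 e = e → y ∈ Y →
          BB u (y + e • y0) + fr 1 (BB u (y + e • y0)) = t +
            e * (BB u y0 + fr 1 (BB u y0)) := by
        intro e y he hy
        rw [BB_add_right, BB_smul_right _ (h2 e he), map_add, map_mul, he]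
        rw [he]
        linear_combination hY y hy
      have k1 := key e y he hy
      have k2 := key e' y' he' hy'
      rw [heq, k2] at k1
      have k3 : e = e' := by
        have : e' * (BB u y0 + fr 1 (BB u y0)) = e * (BB u y0 + fr 1 (BB u y0)) := by
          linear_combination k1
        exact (mul_right_cancel₀ hy0 this).symm
      subst k3
      simp only [add_left_inj] at heq
      rw [heq]
  rw [Finset.card_product, Ct_card_F, Finset.card_univ, Fintype.card_prod, GD.card] at h
  have h2 : GD.q K * Y.card ≤ GD.q K * GD.q K ^ 7 := by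
    calc _ ≤ _ := h
      _ = _ := by ring
  exact Nat.le_of_mul_le_mul_left h2 (by omega)

/-- the number of isotropic vectors (lower bound). -/
theorem isotropic_count {v : Lam K} (hv : IsU v) :
    GD.q K ^ 7 + GD.q K ^ 4 ≤
      Nat.card {y : K × K // BB (act v y) y = 0} + GD.q K ^ 5 := by
  classical
  have hq := GD.hq (K := K)
  set q := GD.q K with hqdef
  set h : K × K → K := fun y => BB (act v y) y with hh
  have hfix : ∀ y, fr 1 (h y) = h y := by
    intro y
    simp only [hh]
    rw [← BB_symm, BB_adj', hv.st_eq]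
  have hvne : v ≠ 0 := by
    intro h0
    have := hv.nrm_eq
    rw [h0, cf_zero] at this
    simp [nrm] at this
  obtain ⟨w, hw, hvw⟩ := hv.ker
  have hker := card_ker hv.supp hvne hw hvw
  have hadd : ∀ y d, h (y + d) - h y = (BB (act v d) y + fr 1 (BB (act v d) y)) + h d := by
    intro y d
    simp only [hh]
    rw [map_add, BB_add_left, BB_add_right, BB_add_right]
    have e1 : BB (act v y) d = fr 1 (BB (act v d) y) := by
      rw [BB_adj v y d, hv.st_eq, BB_symm]
    rw [e1]; ring
  -- the counts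
  set N : K → ℕ := fun t => (Finset.univ.filter (fun y : K × K => h y = t)).card with hN
  have hS : (Finset.univ : Finset (K × K)).card = q ^ 8 := by
    rw [Finset.card_univ, Fintype.card_prod, GD.card]; ring
  have hsum1 : ∑ t ∈ CtF K, N t = q ^ 8 := by
    rw [← hS]
    exact (Finset.card_eq_sum_card_fiberwise (f := h) (s := (Finset.univ : Finset (K × K)))
      (t := CtF K) (by intro y _; simp only [Finset.mem_coe]; rw [Ct_mem_F]; exact hfix y)).symm
  have hsum2 : ∑ t ∈ CtF K, N t ^ 2 =
      ∑ d : K × K, (Finset.univ.filter (fun y : K × K => h (y + d) = h y)).card := by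
    have s1 : ∑ y : K × K, N (h y) = ∑ t ∈ CtF K, N t ^ 2 := by
      rw [← Finset.sum_fiberwise_of_maps_to (s := (Finset.univ : Finset (K × K))) (t := CtF K)
        (g := h) (by intro y _; rw [Ct_mem_F]; exact hfix y)]
      apply Finset.sum_congr rfl
      intro t _
      rw [Finset.sum_congr rfl (g := fun _ => N t)]
      · rw [Finset.sum_const, smul_eq_mul, sq]
      · intro y hy
        simp only [Finset.mem_filter, Finset.mem_univ, true_and] at hy
        rw [hy]
    rw [← s1]
    have s2 : ∀ y : K × K, N (h y) = ∑ d : K × K, if h (y + d) = h y then 1 else 0 := by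
      intro y
      rw [Finset.sum_boole]
      simp only [hN, Nat.cast_id]
      apply Finset.card_bij (fun z _ => z - y)
      · intro z hz
        simpa using hz
      · intro z _ z' _ hzz
        simpa using hzz
      · intro d hd
        refine ⟨y + d, ?_, ?_⟩
        · simpa using hd
        · simp
    simp_rw [s2]
    rw [Finset.sum_comm]
    apply Finset.sum_congr rfl
    intro d _
    rw [Finset.sum_boole]
    simp
  have hkerc : (Finset.univ.filter (fun d : K × K => act v d = 0)).card = q ^ 2 := by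
    rw [← hker, Nat.card_eq_fintype_card, Fintype.card_subtype]
  have hbound : ∑ t ∈ CtF K, N t ^ 2 ≤ q ^ 2 * q ^ 8 + (q ^ 8 - q ^ 2) * q ^ 7 := by
    rw [hsum2, ← Finset.sum_filter_add_sum_filter_not _ (fun d : K × K => act v d = 0)]
    apply add_le_add
    · rw [← hkerc, ← smul_eq_mul]
      apply Finset.sum_le_card_nsmul
      intro d _
      rw [← hS]
      exact Finset.card_le_card (Finset.filter_subset _ _)
    · have hc : (Finset.univ.filter (fun d : K × K => ¬ act v d = 0)).card = q ^ 8 - q ^ 2 := by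
        have := Finset.card_filter_add_card_filter_not (s := (Finset.univ : Finset (K × K)))
          (fun d : K × K => act v d = 0)
        rw [hS, hkerc] at this
        omega
      rw [← hc, ← smul_eq_mul]
      apply Finset.sum_le_card_nsmul
      intro d hd
      simp only [Finset.mem_filter, Finset.mem_univ, true_and] at hd
      apply Ct_fibre (act v d) hd (- h d)
      intro y hy
      simp only [Finset.mem_filter, Finset.mem_univ, true_and] at hy
      have := hadd y d
      rw [hy] at this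
      linear_combination -this
  have h0mem : (0 : K) ∈ CtF K := by rw [Ct_mem_F]; simp
  have hN0 : Nat.card {y : K × K // BB (act v y) y = 0} = N 0 := by
    rw [Nat.card_eq_fintype_card, Fintype.card_subtype]
  rw [hN0]
  have hF1 : ((CtF K).erase 0).card = q - 1 := by
    rw [Finset.card_erase_of_mem h0mem, Ct_card_F]
  have hs1 : N 0 + ∑ t ∈ (CtF K).erase 0, N t = q ^ 8 := by
    rw [Finset.add_sum_erase _ _ h0mem, hsum1]
  have hs2 : N 0 ^ 2 + ∑ t ∈ (CtF K).erase 0, N t ^ 2 ≤
      q ^ 2 * q ^ 8 + (q ^ 8 - q ^ 2) * q ^ 7 := by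
    rw [Finset.add_sum_erase (CtF K) (fun t => N t ^ 2) h0mem]; exact hbound
  have hcs : (∑ t ∈ (CtF K).erase 0, (N t : ℤ)) ^ 2 ≤
      (((CtF K).erase 0).card : ℤ) * ∑ t ∈ (CtF K).erase 0, (N t : ℤ) ^ 2 :=
    sq_sum_le_card_mul_sum_sq
  rw [hF1] at hcs
  have hq28 : q ^ 2 ≤ q ^ 8 := Nat.pow_le_pow_right (by omega) (by omega)
  have hs1' : (N 0 : ℤ) + ∑ t ∈ (CtF K).erase 0, (N t : ℤ) = (q : ℤ) ^ 8 := by exact_mod_cast hs1
  have hs2' : (N 0 : ℤ) ^ 2 + ∑ t ∈ (CtF K).erase 0, (N t : ℤ) ^ 2 ≤
      (q : ℤ) ^ 2 * (q : ℤ) ^ 8 + ((q : ℤ) ^ 8 - (q : ℤ) ^ 2) * (q : ℤ) ^ 7 := by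
    have := hs2
    zify [hq28] at this
    exact this
  have hq1 : ((q - 1 : ℕ) : ℤ) = (q : ℤ) - 1 := by
    rw [Nat.cast_sub (by omega)]; simp
  rw [hq1] at hcs
  set A : ℤ := ∑ t ∈ (CtF K).erase 0, (N t : ℤ) with hA
  set B : ℤ := ∑ t ∈ (CtF K).erase 0, (N t : ℤ) ^ 2 with hB
  set n : ℤ := (N 0 : ℤ) with hn
  have hqz : (2 : ℤ) ≤ (q : ℤ) := by exact_mod_cast hq
  have hAe : A = (q : ℤ) ^ 8 - n := by linarith
  have hBe : B ≤ (q : ℤ) ^ 15 + (q : ℤ) ^ 10 - (q : ℤ) ^ 9 - n ^ 2 := by nlinarith
  have h3 : ((q : ℤ) ^ 8 - n) ^ 2 ≤ ((q : ℤ) - 1) * ((q : ℤ) ^ 15 + (q : ℤ) ^ 10 - (q : ℤ) ^ 9 - n ^ 2) := by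
    rw [← hAe]
    exact le_trans hcs (mul_le_mul_of_nonneg_left hBe (by linarith))
  have h4 : (q : ℤ) * (n - (q : ℤ) ^ 7) ^ 2 ≤ (q : ℤ) * (((q : ℤ) - 1) * (q : ℤ) ^ 4) ^ 2 := by
    nlinarith [h3]
  have h5 : (n - (q : ℤ) ^ 7) ^ 2 ≤ (((q : ℤ) - 1) * (q : ℤ) ^ 4) ^ 2 :=
    le_of_mul_le_mul_left h4 (by linarith)
  have h6 := abs_le_of_sq_le_sq' h5 (by
    apply mul_nonneg (by linarith)
    positivity)
  have h7 : (q : ℤ) ^ 7 + (q : ℤ) ^ 4 ≤ n + (q : ℤ) ^ 5 := by
    have := h6.1
    nlinarith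
  have h8 : ((q ^ 7 + q ^ 4 : ℕ) : ℤ) ≤ ((N 0 + q ^ 5 : ℕ) : ℤ) := by
    push_cast
    exact h7
  exact_mod_cast h8

end GU4
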