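import Pool.Agent.H258R2.GU.Main3
import Pool.Agent.H258R2.GU.Cop

namespace GU4

/-- dense graphs of large girth: girth at least `8 D + 2 l` and at least
`c n^(1 + 3/(15 D + 4 l))` edges, for all large `n`. -/
theorem dense3 (D l : ℕ) (hD : 0 < D) (hl : 1 ≤ l) : ∃ c : ℝ, 0 < c ∧ ∀ᶠ n : ℕ in Filter.atTop,
    ∃ H : SimpleGraph (Fin n), ((8 * D + 2 * l : ℕ) : ℕ∞) ≤ H.egirth ∧
      c * (n : ℝ) ^ (1 + 3 / (15 * (D : ℝ) + 4 * l)) ≤ (H.edgeSet.ncard : ℝ) := by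
  set N : ℕ := 15 * D + 4 * l with hN
  have hN0 : 0 < N := by omega
  have hNr : (0 : ℝ) < N := by exact_mod_cast hN0
  refine ⟨1 / 32 * (1 / 96 : ℝ) ^ ((3 : ℝ) / N), by positivity, ?_⟩
  filter_upwards [Filter.eventually_ge_atTop (96 * 2 ^ (2 * N))] with n hn
  -- the exponent `m`
  have hb : 1 < 2 ^ N := Nat.one_lt_two_pow (by omega)
  have hn96 : 2 ^ (2 * N) ≤ n / 96 := by
    rw [Nat.le_div_iff_mul_le (by norm_num)]
    omega
  have hn96' : n / 96 ≠ 0 := by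
    have : 0 < 2 ^ (2 * N) := by positivity
    omega
  set m : ℕ := Nat.log (2 ^ N) (n / 96) with hm
  have h1 : (2 ^ N) ^ m ≤ n / 96 := Nat.pow_log_le_self _ hn96'
  have h2 : n / 96 < (2 ^ N) ^ (m + 1) := Nat.lt_pow_succ_log_self hb _
  have hm2 : 2 ≤ m := by
    rw [hm]
    apply (Nat.le_log_iff_pow_le hb hn96').2
    rw [← pow_mul, mul_comm N 2]
    exact hn96
  set q : ℕ := 2 ^ m with hq
  have hqN : (2 ^ N) ^ m = q ^ N := by rw [hq, ← pow_mul, ← pow_mul, mul_comm]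
  have hqN' : (2 ^ N) ^ (m + 1) = (2 * q) ^ N := by
    rw [pow_succ, hqN, mul_pow, mul_comm]
  have hqpp : IsPrimePow q := Nat.prime_two.isPrimePow.pow (by omega)
  have hq4 : 4 ≤ q := by
    calc 4 = 2 ^ 2 := by norm_num
      _ ≤ 2 ^ m := Nat.pow_le_pow_right (by norm_num) hm2
  have hq7 : q ≠ 7 := by
    intro h
    have h2 : 2 ∣ q := dvd_pow_self 2 (by omega)
    rw [h] at h2
    omega
  obtain ⟨m0, G, hdec, hm0, hdeg, hgir, hcard⟩ := exists_graph3 q hqpp hq4 hq7 D l hD hl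
  have hm0n : m0 ≤ n := by
    refine hcard.trans ?_
    rw [← hN, ← hqN]
    calc 96 * (2 ^ N) ^ m ≤ 96 * (n / 96) := Nat.mul_le_mul_left _ h1
      _ ≤ n := Nat.mul_div_le n 96
  obtain ⟨H, hH1, hH2⟩ := copies m0 n (q ^ 3 + 1) _ hm0 hm0n G hdeg hgir
  refine ⟨H, hH1, ?_⟩
  have hn0 : (0 : ℝ) < n := by
    have : 0 < n := by
      have : 0 < 2 ^ (2 * N) := by positivity
      omega
    exact_mod_cast this
  -- `n < 16 (2q)^N`
  have h3 : (n : ℝ) < 96 * (2 * (q : ℝ)) ^ N := by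
    have h4 : n < 96 * (2 * q) ^ N := by
      rw [← hqN']
      have := Nat.div_add_mod n 96
      have h5 := Nat.mod_lt n (show 0 < 96 by norm_num)
      omega
    exact_mod_cast h4
  have h5 : ((n : ℝ) / 96) ^ ((1 : ℝ) / N) ≤ 2 * q := by
    have h6 : (n : ℝ) / 96 ≤ (2 * (q : ℝ)) ^ (N : ℝ) := by
      rw [Real.rpow_natCast]
      linarith
    calc ((n : ℝ) / 96) ^ ((1 : ℝ) / N) ≤ ((2 * (q : ℝ)) ^ (N : ℝ)) ^ ((1 : ℝ) / N) :=
          Real.rpow_le_rpow (by positivity) h6 (by positivity)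
      _ = 2 * q := by
          rw [← Real.rpow_mul (by positivity), mul_one_div_cancel hNr.ne', Real.rpow_one]
  have h7 : ((n : ℝ) / 96) ^ ((3 : ℝ) / N) ≤ 8 * (q : ℝ) ^ 3 := by
    have e : ((n : ℝ) / 96) ^ ((3 : ℝ) / N) = (((n : ℝ) / 96) ^ ((1 : ℝ) / N)) ^ 3 := by
      rw [← Real.rpow_natCast, ← Real.rpow_mul (by positivity)]
      congr 1
      push_cast
      ring
    rw [e]
    calc (((n : ℝ) / 96) ^ ((1 : ℝ) / N)) ^ 3 ≤ (2 * (q : ℝ)) ^ 3 :=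
          pow_le_pow_left₀ (by positivity) h5 3
      _ = 8 * (q : ℝ) ^ 3 := by ring
  have h8 : (n : ℝ) * ((q : ℝ) ^ 3 + 1) ≤ 4 * (H.edgeSet.ncard : ℝ) := by exact_mod_cast hH2
  have eN : (15 * (D : ℝ) + 4 * l) = N := by rw [hN]; push_cast; ring
  rw [eN, Real.rpow_add hn0, Real.rpow_one]
  have e2 : ((n : ℝ) / 96) ^ ((3 : ℝ) / N) = (1 / 96 : ℝ) ^ ((3 : ℝ) / N) * (n : ℝ) ^ ((3 : ℝ) / N) := by
    rw [← Real.mul_rpow (by positivity) (by positivity)]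
    congr 1
    ring
  rw [e2] at h7
  calc 1 / 32 * (1 / 96 : ℝ) ^ ((3 : ℝ) / N) * ((n : ℝ) * (n : ℝ) ^ ((3 : ℝ) / N))
      = n / 32 * ((1 / 96 : ℝ) ^ ((3 : ℝ) / N) * (n : ℝ) ^ ((3 : ℝ) / N)) := by ring
    _ ≤ n / 32 * (8 * (q : ℝ) ^ 3) := mul_le_mul_of_nonneg_left h7 (by positivity)
    _ ≤ _ := by nlinarith

end GU4
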