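import Pool.Agent.H258R2.GU.Gr

set_option linter.unusedSectionVars false
set_option linter.unusedVariables false

namespace GU4

open SkewMonoidAlgebra

variable {K : Type} [Field K] [Fintype K] [GD K]

section
variable {L : Type} [Field L] [Fintype L] (j : K →+* L) (s : L) (hs : s ≠ 0)

theorem Gs_rho_one (a : K) : rho j s hs (mon 1 a) = rhoK j a * rhoT s := by
  rw [rho_mon, zpow_one]; rfl

theorem Gs_rho_zero (a : K) : rho j s hs (mon 0 a) = rhoK j a := by
  rw [rho_mon, zpow_zero, Units.val_one, mul_one]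

theorem Gs_rho_neg (a : K) : rho j s hs (mon (-1) a) = rhoK j a * rhoTi s := by
  rw [rho_mon, zpow_neg, zpow_one]; rfl

theorem Gs_three {X : Lam K} (h : Supp X (-1) 1) :
    X = mon 1 (cf X 1) + mon 0 (cf X 0) + mon (-1) (cf X (-1)) := by
  apply cf_ext
  intro i
  simp only [cf_add, cf_mon]
  by_cases h1 : i = 1
  · subst h1; simp
  by_cases h0 : i = 0
  · subst h0; simp
  by_cases hm : i = -1
  · subst hm; simp
  have : cf X i = 0 := by
    by_contra hne
    have := h i hne
    omega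
  rw [this, if_neg (Ne.symm h1), if_neg (Ne.symm h0), if_neg (Ne.symm hm)]
  simp

include hs in
/-- `rho` is injective on the elements supported in `[-1,1]` -/
theorem Gs_rho_inj {X : Lam K} (h : Supp X (-1) 1) (h0 : rho j s hs X = 0) : X = 0 := by
  have hj : Function.Injective j := j.injective
  have hX := Gs_three h
  set a := cf X 1
  set b := cf X 0
  set c := cf X (-1)
  rw [hX, map_add, map_add, Gs_rho_one, Gs_rho_zero, Gs_rho_neg] at h0
  have e00 := congrFun (congrFun h0 0) 0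
  have e01 := congrFun (congrFun h0 0) 1
  have e03 := congrFun (congrFun h0 0) 3
  simp [rhoK, rhoT, rhoTi, Matrix.mul_apply, Fin.sum_univ_four, Matrix.diagonal, fr_zero] at e00
  simp [rhoK, rhoT, rhoTi, Matrix.mul_apply, Fin.sum_univ_four, Matrix.diagonal, fr_zero] at e01
  simp [rhoK, rhoT, rhoTi, Matrix.mul_apply, Fin.sum_univ_four, Matrix.diagonal, fr_zero, hs] at e03
  have hb : b = 0 := by simpa using e00
  have ha : a = 0 := by simpa using e01
  have hc : c = 0 := by simpa using e03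
  rw [hX, ha, hb, hc, mon_zero, mon_zero, mon_zero]
  simp

theorem Gs_nrm_one : nrm (1 : K) = 1 := by
  simp [nrm]

/-- an even vertex has at least `q ^ 3 + 1` inequivalent neighbours. -/
theorem deg_even (hf : fs (K := K) j s ≠ 0) (r : R0 K L) :
    ∃ F : Finset (Lam K), GD.q K ^ 3 + 1 ≤ F.card ∧ ∃ φ : F → R1 (K := K) j s,
      (∀ N, edge j s hs r (φ N)) ∧ ∀ N N', rel1 j s hs (φ N) (φ N') → N = N' := by
  obtain ⟨⟨v, A⟩, hv, hA⟩ := r
  simp only at hv hA
  obtain ⟨F, hF, hN⟩ := nbr_count hv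
  have hex : ∀ N : F, ∃ u : Lam K, IsU u ∧ (N : Lam K) * v * st (N : Lam K) * u = ff := by
    intro N
    obtain ⟨h1, h2, y, hy, hyy, hNy⟩ := hN N.1 N.2
    exact exists_nbr hv y hyy hy h1 h2 hNy
  choose u hu hNu using hex
  have hdet : ∀ N : F, (rho j s hs (N : Lam K) * A).det = - fs j s := by
    intro N
    obtain ⟨h1, h2, y, hy, hyy, hNy⟩ := hN N.1 N.2
    rw [Matrix.det_mul, hA, mul_one, det_rho j s hs h1 hy hNy, h2, Gs_nrm_one, map_one, one_mul]
  refine ⟨F, hF, fun N => ⟨(u N, rho j s hs (N : Lam K) * A), hu N, hdet N⟩, ?_, ?_⟩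
  · intro N
    exact ⟨N.1, (hN N.1 N.2).1, hNu N, rfl⟩
  · rintro N N' ⟨c, hc, _, h⟩
    simp only at h
    have hAu : IsUnit A := by
      rw [Matrix.isUnit_iff_isUnit_det, hA]; exact isUnit_one
    have h1 : rho j s hs ((N' : Lam K) - mon 0 c * (N : Lam K)) * A = 0 := by
      rw [map_sub, sub_mul, h, map_mul, Matrix.mul_assoc, sub_self]
    have h2 : rho j s hs ((N' : Lam K) - mon 0 c * (N : Lam K)) = 0 := by
      rw [← hAu.mul_left_inj, h1, zero_mul]
    have hs0 : Supp (mon 0 c * (N : Lam K)) (-1) 1 := by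
      have := supp_mul (supp_mon 0 c) (hN N.1 N.2).1
      simpa using this
    have h3 := Gs_rho_inj j s hs (supp_sub (hN N'.1 N'.2).1 hs0) h2
    have h4 : (N' : Lam K) = mon 0 c * (N : Lam K) := sub_eq_zero.1 h3
    have h5 : cf (N' : Lam K) 1 = c := by
      rw [h4, cf_mon_mul]
      simp [fr_zero, (hN N.1 N.2).2.1]
    rw [(hN N'.1 N'.2).2.1] at h5
    rw [← h5, ← one_eq, one_mul] at h4
    exact Subtype.ext h4.symm

end

end GU4
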