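import Pool.Agent.H258R2.GU.Bd
import Pool.Agent.H258R2.GU.Gs

set_option linter.unusedSectionVars false
set_option linter.unusedVariables false

namespace GU4

open SkewMonoidAlgebra

variable {K : Type} [Field K] [Fintype K] [GD K]

/-- truncation to the degrees in `[lo, hi]` -/
noncomputable def Dga_tr (X : Lam K) (lo hi : ℤ) : Lam K :=
  ∑ k ∈ Finset.Icc lo hi, mon k (cf X k)

theorem Dga_cf_tr (X : Lam K) (lo hi k : ℤ) :
    cf (Dga_tr X lo hi) k = if lo ≤ k ∧ k ≤ hi then cf X k else 0 := by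
  classical
  have h : ∀ s : Finset ℤ, cf (∑ i ∈ s, mon i (cf X i)) k = if k ∈ s then cf X k else 0 := by
    intro s
    induction s using Finset.induction_on with
    | empty => simp [cf_zero]
    | insert a s ha ih =>
      rw [Finset.sum_insert ha, cf_add, ih, cf_mon]
      by_cases hk : a = k
      · subst hk; simp [ha]
      · simp [hk, Ne.symm hk]
  unfold Dga_tr
  rw [h]
  simp only [Finset.mem_Icc]

theorem Dga_supp_tr (X : Lam K) (lo hi : ℤ) : Supp (Dga_tr X lo hi) lo hi := by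
  intro i hi'
  rw [Dga_cf_tr] at hi'
  by_contra hcon
  rw [if_neg hcon] at hi'
  exact hi' rfl

section
variable {L : Type} [Field L] [Fintype L] (j : K →+* L) (s : L) (hs : s ≠ 0) (l : ℕ)

theorem deg_even3 (hl : 1 ≤ l) (hf : fs (K := K) j s ≠ 0) (r : E0 (K := K) j s hs l) :
    ∃ F : Finset (Lam K), GD.q K ^ 3 + 1 ≤ F.card ∧ ∃ φ : F → E1 (K := K) j s hs l,
      (∀ N, Ed j s hs l r (φ N)) ∧ Function.Injective φ := by
  obtain ⟨⟨v, A, B⟩, hv, hAr, hA, hB, hB0⟩ := r
  simp only at hv hA hAr hB hB0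
  obtain ⟨F, hF, hN⟩ := nbr_count hv
  have hex : ∀ N : F, ∃ u : Lam K, IsU u ∧ (N : Lam K) * v * st (N : Lam K) * u = ff := by
    intro N
    obtain ⟨h1, h2, y, hy, hyy, hNy⟩ := hN N.1 N.2
    exact exists_nbr hv y hyy hy h1 h2 hNy
  choose u hu hNu using hex
  have hdet : ∀ N : F, (rho j s hs (N : Lam K) * A).det = - fs j s := by
    intro N
    obtain ⟨h1, h2, y, hy, hyy, hNy⟩ := hN N.1 N.2
    rw [Matrix.det_mul, hA, mul_one, det_rho j s hs h1 hy hNy, h2, Gs_nrm_one, map_one, one_mul]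
  have hrange : ∀ N : F, rho j s hs (N : Lam K) * A ∈ (rho j s hs).range := fun N =>
    Subring.mul_mem _ ⟨_, rfl⟩ hAr
  have hNB : ∀ N : F, Supp ((N : Lam K) * B) (-(l : ℤ)) 1 := by
    intro N
    have := supp_mul (hN N.1 N.2).1 hB
    have e1 : (-1 : ℤ) + (1 - (l : ℤ)) = -(l : ℤ) := by ring
    rw [e1, add_zero] at this
    exact this
  have htop : ∀ N : F, cf ((N : Lam K) * B) 1 = 1 := by
    intro N
    have := cf_mul_top (hN N.1 N.2).1 hB
    rw [add_zero, (hN N.1 N.2).2.1, hB0, map_one, mul_one] at this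
    exact this
  have hcf1 : ∀ N : F, cf (Dga_tr ((N : Lam K) * B) (2 - (l : ℤ)) 1) 1 = 1 := by
    intro N
    rw [Dga_cf_tr, if_pos ⟨by omega, le_rfl⟩, htop]
  refine ⟨F, hF, fun N => ⟨(u N, rho j s hs (N : Lam K) * A,
    Dga_tr ((N : Lam K) * B) (2 - (l : ℤ)) 1), hu N, hrange N, hdet N, Dga_supp_tr _ _ _,
    hcf1 N⟩, ?_, ?_⟩
  · intro N
    refine ⟨N.1, (hN N.1 N.2).1, (hN N.1 N.2).2.1, hNu N, rfl, ?_⟩
    intro k hk
    show cf ((N : Lam K) * B) k = cf (Dga_tr ((N : Lam K) * B) (2 - (l : ℤ)) 1) k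
    rw [Dga_cf_tr]
    by_cases hk1 : k ≤ 1
    · rw [if_pos ⟨by omega, hk1⟩]
    · rw [if_neg (by omega)]
      by_contra hne
      have := hNB N k hne
      omega
  · intro N N' h
    have h0 := congrArg Subtype.val h
    simp only [Prod.mk.injEq] at h0
    have h1 := h0.2.1
    have hAu : IsUnit A := by
      rw [Matrix.isUnit_iff_isUnit_det, hA]; exact isUnit_one
    have h2 : rho j s hs (N : Lam K) = rho j s hs (N' : Lam K) := hAu.mul_left_inj.1 h1
    have h3 : rho j s hs ((N : Lam K) - (N' : Lam K)) = 0 := by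
      rw [map_sub, h2, sub_self]
    have h4 := Gs_rho_inj j s hs (supp_sub (hN N.1 N.2).1 (hN N'.1 N'.2).1) h3
    exact Subtype.ext (sub_eq_zero.1 h4)
end

end GU4
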