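import Pool.Agent.H258R2.GU.Alg

set_option linter.unusedSectionVars false
set_option linter.unusedVariables false

namespace GU4

open SkewMonoidAlgebra

variable {K : Type} [Field K] [Fintype K] [GD K]

/-- one step: cancelling the top coefficient -/
theorem Dvn_top (Z : Lam K) (l u : ℤ) (hlu : l ≤ u) (hZ : Supp Z l u)
    (hu : cf Z u ≠ 0) (X : Lam K) (m a b : ℤ) (ham : a ≤ m) (hb : m + (u - l) ≤ b)
    (hX : Supp X a b) : ∃ c, Supp (X - mon (b - u) c * Z) a (b - 1) := by
  have hfu : fr (b - u) (cf Z u) ≠ 0 := fun h => hu ((fr_eq_zero _).1 h)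
  refine ⟨cf X b * (fr (b - u) (cf Z u))⁻¹, ?_⟩
  intro i hi
  rw [cf_sub, cf_mon_mul] at hi
  have hib : i ≠ b := by
    rintro rfl
    apply hi
    have e : i - (i - u) = u := by ring
    rw [e, mul_assoc, inv_mul_cancel₀ hfu, mul_one, sub_self]
  by_cases h1 : cf X i = 0
  · have h2 : cf Z (i - (b - u)) ≠ 0 := by
      intro h2
      apply hi
      rw [h1, h2, map_zero, mul_zero, sub_zero]
    obtain ⟨h3, h4⟩ := hZ _ h2
    omega
  · obtain ⟨h3, h4⟩ := hX _ h1
    omega

/-- one step: cancelling the bottom coefficient -/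
theorem Dvn_bot (Z : Lam K) (l u : ℤ) (hlu : l ≤ u) (hZ : Supp Z l u)
    (hl : cf Z l ≠ 0) (X : Lam K) (a b : ℤ) (hb : a + (u - l) ≤ b)
    (hX : Supp X a b) : ∃ c, Supp (X - mon (a - l) c * Z) (a + 1) b := by
  have hfl : fr (a - l) (cf Z l) ≠ 0 := fun h => hl ((fr_eq_zero _).1 h)
  refine ⟨cf X a * (fr (a - l) (cf Z l))⁻¹, ?_⟩
  intro i hi
  rw [cf_sub, cf_mon_mul] at hi
  have hia : i ≠ a := by
    rintro rfl
    apply hi
    have e : i - (i - l) = l := by ring
    rw [e, mul_assoc, inv_mul_cancel₀ hfl, mul_one, sub_self]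
  by_cases h1 : cf X i = 0
  · have h2 : cf Z (i - (a - l)) ≠ 0 := by
      intro h2
      apply hi
      rw [h1, h2, map_zero, mul_zero, sub_zero]
    obtain ⟨h3, h4⟩ := hZ _ h2
    omega
  · obtain ⟨h3, h4⟩ := hX _ h1
    omega

/-- division with remainder in an arbitrary window: induction on the length of the support,
cancelling the top coefficient (if it is above the window) or the bottom one (if below). -/
theorem div_window (Z : Lam K) (l u : ℤ) (hlu : l ≤ u) (hZ : Supp Z l u) (hl : cf Z l ≠ 0)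
    (hu : cf Z u ≠ 0) (X : Lam K) (m : ℤ) :
    ∃ Q R, X = Q * Z + R ∧ Supp R m (m + (u - l) - 1) := by
  have main : ∀ (k : ℕ) (X : Lam K) (a b : ℤ), a ≤ m → m + (u - l) - 1 ≤ b →
      (m - a) + (b - (m + (u - l) - 1)) = k → Supp X a b →
      ∃ Q R, X = Q * Z + R ∧ Supp R m (m + (u - l) - 1) := by
    intro k
    induction k with
    | zero =>
      intro X a b h1 h2 h3 hX
      refine ⟨0, X, by simp, ?_⟩
      intro i hi
      obtain ⟨h4, h5⟩ := hX i hi
      have : ((0 : ℕ) : ℤ) = 0 := rfl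
      omega
    | succ k ih =>
      intro X a b h1 h2 h3 hX
      push_cast at h3
      by_cases hb : m + (u - l) ≤ b
      · obtain ⟨c, hc⟩ := Dvn_top Z l u hlu hZ hu X m a b h1 hb hX
        obtain ⟨Q, R, hQ, hR⟩ := ih _ a (b - 1) h1 (by omega) (by omega) hc
        refine ⟨Q + mon (b - u) c, R, ?_, hR⟩
        rw [add_mul, add_right_comm, ← hQ, sub_add_cancel]
      · obtain ⟨c, hc⟩ := Dvn_bot Z l u hlu hZ hl X a b (by omega) hX
        obtain ⟨Q, R, hQ, hR⟩ := ih _ (a + 1) b (by omega) h2 (by omega) hc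
        refine ⟨Q + mon (a - l) c, R, ?_, hR⟩
        rw [add_mul, add_right_comm, ← hQ, sub_add_cancel]
  by_cases hX : X = 0
  · refine ⟨0, 0, by simp [hX], ?_⟩
    intro i hi
    rw [cf_zero] at hi
    exact absurd rfl hi
  · obtain ⟨a, b, _, hS, _, _⟩ := exists_supp hX
    refine main ((m - min a m) + (max b (m + (u - l) - 1) - (m + (u - l) - 1))).toNat X (min a m)
      (max b (m + (u - l) - 1)) (min_le_right _ _) (le_max_right _ _) ?_ ?_
    · rw [Int.toNat_of_nonneg]
      have h1 := min_le_right a m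
      have h2 := le_max_right b (m + (u - l) - 1)
      omega
    · exact supp_mono hS (min_le_left _ _) (le_max_left _ _)

end GU4
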