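import Pool.Agent.H258R2.GU.Base

namespace GU4

/-- the data exist for every prime power `q ≠ 3, 7`: take for `x` an element of order `q + 1`
(`q + 1` does not divide `8`), `L` the field with `q ^ D` elements (which contains `K` because
`4 ∣ D`), `s` a generator of its multiplicative group. -/
theorem exists_data (q : ℕ) (hq : IsPrimePow q) (h3 : q ≠ 3) (h7 : q ≠ 7) (D : ℕ) (h4 : 4 ∣ D)
    (hD : 0 < D) : ∃ (K : Type) (_ : Field K) (_ : Fintype K) (_ : GD K) (L : Type) (_ : Field L)
      (_ : Fintype L) (j : K →+* L) (s : L), GD.q K = q ∧ s ≠ 0 ∧ Fintype.card L = q ^ D ∧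
      orderOf s = q ^ D - 1 := by
  classical
  obtain ⟨p, m, hp, hm, rfl⟩ := hq
  have hp' : p.Prime := hp.nat_prime
  have : Fact p.Prime := ⟨hp'⟩
  have hq2 : 2 ≤ p ^ m := by
    calc 2 ≤ p := hp'.two_le
      _ = p ^ 1 := (pow_one p).symm
      _ ≤ p ^ m := Nat.pow_le_pow_right hp'.pos hm
  have h4m : 4 * m ≠ 0 := by omega
  have hmD : m * D ≠ 0 := by positivity
  let K := GaloisField p (4 * m)
  let L := GaloisField p (m * D)
  let _ : Fintype K := Fintype.ofFinite _
  let _ : Fintype L := Fintype.ofFinite _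
  have hK : Fintype.card K = (p ^ m) ^ 4 := by
    rw [← Nat.card_eq_fintype_card, GaloisField.card p _ h4m, ← pow_mul, mul_comm]
  have hL : Fintype.card L = (p ^ m) ^ D := by
    rw [← Nat.card_eq_fintype_card, GaloisField.card p _ hmD, ← pow_mul]
  -- the element x
  obtain ⟨g, hg⟩ := IsCyclic.exists_ofOrder_eq_natCard (α := Kˣ)
  have hg' : orderOf g = (p ^ m) ^ 4 - 1 := by
    rw [hg, Nat.card_eq_fintype_card, Fintype.card_units, hK]
  obtain ⟨q, hqd⟩ : ∃ q, q = p ^ m := ⟨_, rfl⟩
  rw [← hqd] at hK hL hg' hq2 h3 h7 ⊢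
  have hfac : q ^ 4 - 1 = (q + 1) * ((q - 1) * (q ^ 2 + 1)) := by
    obtain ⟨r, rfl⟩ : ∃ r, q = r + 1 := ⟨q - 1, by omega⟩
    have : (r + 1) ^ 4 = (r + 1 + 1) * ((r + 1 - 1) * ((r + 1) ^ 2 + 1)) + 1 := by
      rw [Nat.add_sub_cancel]
      ring
    omega
  have hn0 : (q - 1) * (q ^ 2 + 1) ≠ 0 := by
    have : 0 < q - 1 := by omega
    positivity
  have hx : orderOf (g ^ ((q - 1) * (q ^ 2 + 1))) = q + 1 := by
    rw [orderOf_pow_of_dvd hn0 (by rw [hg', hfac]; exact Dvd.intro_left _ rfl), hg', hfac,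
      Nat.mul_div_cancel _ (Nat.pos_of_ne_zero hn0)]
  -- the element s
  obtain ⟨s, hs⟩ := IsCyclic.exists_ofOrder_eq_natCard (α := Lˣ)
  have hs' : orderOf (s : L) = q ^ D - 1 := by
    rw [orderOf_units, hs, Nat.card_eq_fintype_card, Fintype.card_units, hL]
  -- the embedding
  have hdvd : Module.finrank (ZMod p) K ∣ Module.finrank (ZMod p) L := by
    rw [GaloisField.finrank p h4m, GaloisField.finrank p hmD]
    obtain ⟨e, rfl⟩ := h4
    exact ⟨e, by ring⟩
  obtain ⟨j⟩ := FiniteField.nonempty_algHom_of_finrank_dvd hdvd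
  refine ⟨K, inferInstance, inferInstance,
    { q := q
      hq := hq2
      card := hK
      σ := iterateFrobeniusEquiv K p m
      hσ := fun a => by
        rw [iterateFrobeniusEquiv_apply, iterateFrobenius_def, hqd]
      x := ((g ^ ((q - 1) * (q ^ 2 + 1)) : Kˣ) : K)
      hx := by
        have := pow_orderOf_eq_one (g ^ ((q - 1) * (q ^ 2 + 1)))
        rw [hx] at this
        have h2 := congrArg (fun u : Kˣ => (u : K)) this
        simpa using h2
      hx8 := by
        intro h8
        have h2 : (g ^ ((q - 1) * (q ^ 2 + 1))) ^ 8 = 1 := by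
          apply Units.ext
          push_cast
          push_cast at h8
          exact h8
        have h5 := orderOf_dvd_of_pow_eq_one h2
        rw [hx] at h5
        have h6 : q + 1 ≤ 8 := Nat.le_of_dvd (by norm_num) h5
        have h9 : q ≤ 7 := by omega
        clear hqd hK hL hg' hfac hn0 hx hs' h8 h2
        revert h5
        interval_cases q <;> omega },
    L, inferInstance, inferInstance, j.toRingHom, (s : L), rfl, s.ne_zero, hL, hs'⟩

end GU4
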