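import Pool.Agent.H258R2.GU.Root
import Pool.Agent.H258R2.GU.Ineq
import Pool.Agent.H258R2.GU.Cl

set_option linter.unusedSectionVars false
set_option linter.unusedVariables false

namespace GU4

open SkewMonoidAlgebra

variable {K : Type} [Field K] [Fintype K] [GD K]

section
variable {L : Type} [Field L] [Fintype L] (j : K →+* L) (s : L) (hs : s ≠ 0)

/-- the conjugates of `s` and of `s⁻¹` are pairwise distinct. -/
def Inj2 (K : Type) [Field K] [Fintype K] [GD K] (D : ℕ) (s : L) : Prop :=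
  Function.Injective (Sum.elim (fun i : Fin D => s ^ (GD.q K ^ (i : ℕ)))
    (fun i : Fin D => (s⁻¹) ^ (GD.q K ^ (i : ℕ))))

/-- a nonzero element vanishing at `s` together with its adjoint has width at least `8 D`. -/
theorem root_window2 (D : ℕ) (hinj : Inj2 K D s) (Y : Lam K) (hY : Supp Y 0 (8 * D - 1))
    (h1 : rho j s hs Y = 0) (h2 : rho j s hs (st Y) = 0) : Y = 0 := by
  have hq := GD.hq (K := K)
  have hY' : Supp Y 0 ((4 * (2 * D) : ℕ) - 1) := by
    have : (((4 * (2 * D) : ℕ) : ℤ) - 1) = 8 * D - 1 := by push_cast; ring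
    rw [this]
    exact hY
  -- all the coefficients vanish
  have hcoef : ∀ e, e < 4 → ∀ k, k < 2 * D → cf Y ((4 * k + e : ℕ) : ℤ) = 0 := by
    intro e he
    let P : Polynomial L := ∑ k ∈ Finset.range (2 * D),
      Polynomial.C (j (cf Y ((4 * k + e : ℕ) : ℤ))) * Polynomial.X ^ k
    have heval : ∀ z : L, P.eval z =
        ∑ k ∈ Finset.range (2 * D), j (cf Y ((4 * k + e : ℕ) : ℤ)) * z ^ k := by
      intro z
      simp only [P, Polynomial.eval_finsetSum, Polynomial.eval_mul, Polynomial.eval_C,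
        Polynomial.eval_pow, Polynomial.eval_X]
    have hP : P = 0 := by
      rcases Nat.eq_zero_or_pos D with hD0 | hD0
      · subst hD0
        simp [P]
      apply Polynomial.eq_zero_of_natDegree_lt_card_of_eval_eq_zero P hinj
      · intro t
        rw [heval]
        rcases t with t | t
        · exact Root_orbit j (2 * D) Y s e
            (fun r hr => Root_key1 j s hs (2 * D) Y hY' h1 r e hr he) t
        · exact Root_orbit j (2 * D) Y s⁻¹ e
            (fun r hr => Root_key2 j s hs (2 * D) Y hY' h2 r e hr he) t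
      · have hdeg : P.natDegree ≤ 2 * D - 1 := by
          apply Polynomial.natDegree_sum_le_of_forall_le
          intro k hk
          rw [Finset.mem_range] at hk
          exact le_trans (Polynomial.natDegree_C_mul_X_pow_le _ _) (by omega)
        rw [Fintype.card_sum, Fintype.card_fin]
        omega
    intro k hk
    have h5 : P.coeff k = j (cf Y ((4 * k + e : ℕ) : ℤ)) := by
      simp only [P, Polynomial.finsetSum_coeff, Polynomial.coeff_C_mul, Polynomial.coeff_X_pow]
      rw [Finset.sum_eq_single k]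
      · simp
      · intro b _ hb
        rw [if_neg (Ne.symm hb), mul_zero]
      · intro h
        exact absurd (Finset.mem_range.mpr hk) h
    rw [hP, Polynomial.coeff_zero] at h5
    apply j.injective
    rw [← h5, map_zero]
  -- conclusion
  apply cf_ext
  intro i
  rw [cf_zero]
  by_contra hne
  obtain ⟨h0, h7⟩ := hY i hne
  obtain ⟨m, rfl⟩ : ∃ m : ℕ, i = m := ⟨i.toNat, by omega⟩
  apply hne
  have h8 := hcoef (m % 4) (Nat.mod_lt _ (by norm_num)) (m / 4) (by omega)
  rw [Nat.div_add_mod] at h8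
  exact h8

end

section
variable {L : Type} [Field L] [Fintype L] (j : K →+* L) (s : L) (hs : s ≠ 0)

/-- the main inequality. -/
theorem main_ineq2 (D : ℕ) (hinj : Inj2 K D s) (hfs : fs (K := K) j s ≠ 0) (W R P : ℕ → Lam K) (g : ℕ)
    (hR : ∀ i < g, Supp (R i) (-1) 1 ∧ R i ≠ 0) (h0 : W 0 = ff ^ g)
    (hstep : ∀ i < g, R i * W (i + 1) = P i * W i)
    (hne : W g ≠ ff ^ g) (hS : Supp (W g) (-4 * g) (4 * g))
    (h1 : rho j s hs (W g - ff ^ g) = 0) (h2 : rho j s hs (st (W g - ff ^ g)) = 0) :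
    8 * D ≤ 2 * g := by
  classical
  set Y : Lam K := W g - ff ^ g with hY
  have hYne : Y ≠ 0 := sub_ne_zero.2 hne
  set I : AddSubgroup (Lam K) := (Ineq_phi j s hs).ker with hI
  set J : AddSubgroup (Lam K) := JJ W g with hJ
  have hq2 : 2 ≤ GD.q K := GD.hq
  have hQ : 1 < GD.q K ^ 4 := Nat.one_lt_pow (by norm_num) (by omega)
  have hfin : Finite (Matrix (Fin 4) (Fin 4) L × Matrix (Fin 4) (Fin 4) L) := inferInstance
  -- index of I
  have hIindex : (GD.q K ^ 4) ^ (8 * D) ≤ I.index := by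
    rw [hI, AddSubgroup.index_ker]
    have hf : Finite (Ineq_phi j s hs).range := inferInstance
    let F : (Fin (8 * D) → K) → (Ineq_phi j s hs).range :=
      fun c => ⟨Ineq_phi j s hs (Ineq_win (8 * D) c), ⟨_, rfl⟩⟩
    have hF : Function.Injective F := by
      intro c c' hcc
      have h3 : Ineq_phi j s hs (Ineq_win (8 * D) c) = Ineq_phi j s hs (Ineq_win (8 * D) c') :=
        congrArg Subtype.val hcc
      have h4' : Ineq_phi j s hs (Ineq_win (8 * D) (c - c')) = 0 := by
        rw [← Ineq_win_sub, map_sub, h3, sub_self]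
      rw [Ineq_phi_apply, Prod.mk_eq_zero] at h4'
      have hsupp := Ineq_supp_win (8 * D) (c - c')
      have hz := root_window2 j s hs D hinj (Ineq_win (8 * D) (c - c'))
        (by
          have e : (((8 * D : ℕ) : ℤ) - 1) = (8 * (D : ℤ) - 1) := by push_cast; ring
          rw [e] at hsupp
          exact hsupp) h4'.1 h4'.2
      funext k
      have h5 := Ineq_cf_win (8 * D) (c - c') k
      rw [hz, cf_zero] at h5
      have h6 : c k - c' k = 0 := by
        rw [← Pi.sub_apply, ← h5]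
      exact sub_eq_zero.1 h6
    have h7 := Nat.card_le_card_of_injective F hF
    rw [Nat.card_eq_fintype_card (α := Fin (8 * D) → K), Fintype.card_fun, Fintype.card_fin,
      GD.card] at h7
    exact h7
  -- J ⊔ I = ⊤
  have hsup : J ⊔ I = ⊤ := by
    rw [eq_top_iff]
    intro X _
    set N := Fintype.card L - 1 with hN
    have hN1 : 1 ≤ N := by
      have : 1 < Fintype.card L := Fintype.one_lt_card
      omega
    have hpow : (fs j s) ^ N = 1 := FiniteField.pow_card_sub_one_eq_one _ hfs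
    set Z : Lam K := X * ff ^ (g * (N - 1)) with hZ
    have e1 : Z * ff ^ g = X * ff ^ (g * N) := by
      rw [hZ, mul_assoc, ← pow_add]
      congr 2
      obtain ⟨m, hm⟩ : ∃ m, N = m + 1 := ⟨N - 1, by omega⟩
      rw [hm, Nat.add_sub_cancel]
      ring
    have e2 : Ineq_phi j s hs (Z * ff ^ g) = Ineq_phi j s hs X := by
      rw [e1, Ineq_phi_mul, mul_comm g N, pow_mul, hpow, one_pow, one_smul]
    have e3 : X - Z * ff ^ g ∈ I := by
      rw [hI, AddMonoidHom.mem_ker, map_sub, e2, sub_self]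
    have e4 : Z * ff ^ g ∈ J := by
      apply Ineq_LI_le_JJ W g 0 (Nat.zero_le _)
      rw [mem_LI]
      exact ⟨Z, by rw [h0]⟩
    have e5 : X = Z * ff ^ g + (X - Z * ff ^ g) := by abel
    rw [e5]
    exact AddSubgroup.add_mem_sup e4 e3
  -- index of J ⊓ I
  have hinf : (J ⊓ I).index = I.index * J.index := by
    rw [← AddSubgroup.relIndex_mul_index (inf_le_left : J ⊓ I ≤ J), AddSubgroup.inf_relIndex_left]
    have h5 : I.relIndex J = I.index := by
      rw [← AddSubgroup.relIndex_sup_right, hsup, AddSubgroup.relIndex_top_right]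
    rw [h5]
  -- index of J
  have hJindex : (GD.q K ^ 4) ^ (6 * g) ≤ J.index := by
    have h5 := index_LI_ff_pow (K := K) g
    have h6 := relIndex_chain W R P g hR hstep
    have h7 := AddSubgroup.relIndex_mul_index (Ineq_LI_le_JJ W g 0 (Nat.zero_le _))
    rw [h0] at h7
    rw [h0] at h6
    rw [← h7] at h5
    have h8 : (GD.q K ^ 4) ^ (2 * g) * (GD.q K ^ 4) ^ (6 * g) ≤
        (GD.q K ^ 4) ^ (2 * g) * J.index := by
      rw [← pow_add, show 2 * g + 6 * g = 8 * g by ring]
      exact h5.trans (Nat.mul_le_mul_right _ h6.2)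
    exact Nat.le_of_mul_le_mul_left h8 (by positivity)
  -- LI Y
  have hSY : Supp Y (-4 * g) (4 * g) := supp_sub hS (supp_ff_pow g)
  have hLI := index_LI_le Y (-4 * g) (4 * g) (by omega) hSY hYne
  have hle : LI Y ≤ J ⊓ I := by
    intro X hX
    rw [mem_LI] at hX
    obtain ⟨Z, rfl⟩ := hX
    refine AddSubgroup.mem_inf.2 ⟨?_, ?_⟩
    · rw [hY, mul_sub]
      refine J.sub_mem ?_ ?_
      · exact Ineq_LI_le_JJ W g g le_rfl (mem_LI.2 ⟨Z, rfl⟩)
      · exact Ineq_LI_le_JJ W g 0 (Nat.zero_le _) (mem_LI.2 ⟨Z, by rw [h0]⟩)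
    · rw [hI, AddMonoidHom.mem_ker, Ineq_phi_apply, st_mul, map_mul, map_mul, h1, h2, mul_zero,
        zero_mul]
      rfl
  have h9 : (J ⊓ I).index ≤ (LI Y).index :=
    Nat.le_of_dvd (Nat.pos_of_ne_zero hLI.1) (AddSubgroup.index_dvd_of_le hle)
  have h10 : (GD.q K ^ 4) ^ (8 * D + 6 * g) ≤ (GD.q K ^ 4) ^ (8 * g) := by
    rw [pow_add]
    calc (GD.q K ^ 4) ^ (8 * D) * (GD.q K ^ 4) ^ (6 * g) ≤ I.index * J.index :=
          Nat.mul_le_mul hIindex hJindex
      _ = (J ⊓ I).index := hinf.symm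
      _ ≤ (LI Y).index := h9
      _ ≤ _ := hLI.2
      _ = (GD.q K ^ 4) ^ (8 * g) := by
          congr 1
          omega
  have h11 := (Nat.pow_le_pow_iff_right hQ).1 h10
  omega
end

section
variable {L : Type} [Field L] [Fintype L] (j : K →+* L) (s : L) (hs : s ≠ 0)

theorem closed_walk2 (D : ℕ) (hinj : Inj2 K D s) (hfs : fs (K := K) j s ≠ 0) (g : ℕ) (hg : 1 ≤ g)
    (a : ℕ → R0 K L) (b : ℕ → R1 (K := K) j s)
    (hP : ∀ i < g, edge j s hs (a i) (b i)) (hR : ∀ i < g, edge j s hs (a (i + 1)) (b i))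
    (ha : ∀ i < g, ¬ rel0 j s hs (a i) (a (i + 1)))
    (hb : ∀ i, i + 1 < g → ¬ rel1 j s hs (b i) (b (i + 1)))
    (hclose : a g = a 0) : 8 * D ≤ 2 * g := by
  classical
  have hP' : ∀ i, ∃ N : Lam K, i < g → Supp N (-1) 1 ∧
      N * (a i).1.1 * st N * (b i).1.1 = ff ∧ (b i).1.2 = rho j s hs N * (a i).1.2 := by
    intro i
    by_cases h : i < g
    · obtain ⟨N, hN⟩ := hP i h
      exact ⟨N, fun _ => hN⟩
    · exact ⟨0, fun h' => absurd h' h⟩
  have hR' : ∀ i, ∃ N : Lam K, i < g → Supp N (-1) 1 ∧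
      N * (a (i + 1)).1.1 * st N * (b i).1.1 = ff ∧
        (b i).1.2 = rho j s hs N * (a (i + 1)).1.2 := by
    intro i
    by_cases h : i < g
    · obtain ⟨N, hN⟩ := hR i h
      exact ⟨N, fun _ => hN⟩
    · exact ⟨0, fun h' => absurd h' h⟩
  choose P hP using hP'
  choose R hR using hR'
  obtain ⟨v, hv⟩ : ∃ v : ℕ → Lam K, ∀ i, v i = (a i).1.1 := ⟨_, fun _ => rfl⟩
  obtain ⟨A, hA⟩ : ∃ A : ℕ → Matrix (Fin 4) (Fin 4) L, ∀ i, A i = (a i).1.2 := ⟨_, fun _ => rfl⟩
  obtain ⟨u, hu⟩ : ∃ u : ℕ → Lam K, ∀ i, u i = (b i).1.1 := ⟨_, fun _ => rfl⟩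
  obtain ⟨B, hB⟩ : ∃ B : ℕ → Matrix (Fin 4) (Fin 4) L, ∀ i, B i = (b i).1.2 := ⟨_, fun _ => rfl⟩
  simp only [← hv, ← hA, ← hu, ← hB] at hP hR
  have hvU : ∀ i, IsU (v i) := fun i => by rw [hv]; exact (a i).2.1
  have hAd : ∀ i, (A i).det = 1 := fun i => by rw [hA]; exact (a i).2.2
  have huU : ∀ i, IsU (u i) := fun i => by rw [hu]; exact (b i).2.1
  have hBd : ∀ i, (B i).det = - fs j s := fun i => by rw [hB]; exact (b i).2.2
  have hvg : v g = v 0 := by rw [hv, hv, hclose]
  have hAg : A g = A 0 := by rw [hA, hA, hclose]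
  -- X and M
  obtain ⟨X, hX⟩ : ∃ X : ℕ → Lam K, ∀ i, X i = v (i + 1) * st (R i) * u i * P i :=
    ⟨_, fun _ => rfl⟩
  obtain ⟨M, hM0, hM⟩ : ∃ M : ℕ → Lam K, M 0 = 1 ∧ ∀ i, M (i + 1) = X i * M i :=
    ⟨fun n => Nat.rec 1 (fun i m => X i * m) n, rfl, fun _ => rfl⟩
  have hRX : ∀ i < g, R i * X i = ff * P i := by
    intro i hi
    rw [hX, ← (hR i hi).2.1]
    noncomm_ring
  -- the chain
  have hstep : ∀ i < g, R i * (ff ^ (g - (i + 1)) * M (i + 1)) = P i * (ff ^ (g - i) * M i) := by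
    intro i hi
    have e1 : g - i = (g - (i + 1)) + 1 := by omega
    rw [hM, e1, pow_succ]
    calc R i * (ff ^ (g - (i + 1)) * (X i * M i))
        = (R i * ff ^ (g - (i + 1))) * X i * M i := by noncomm_ring
      _ = ff ^ (g - (i + 1)) * (R i * X i) * M i := by
          rw [← Ineq_ff_pow_comm]; noncomm_ring
      _ = ff ^ (g - (i + 1)) * (ff * P i) * M i := by rw [hRX i hi]
      _ = (ff ^ (g - (i + 1)) * ff) * P i * M i := by noncomm_ring
      _ = P i * (ff ^ (g - (i + 1)) * ff) * M i := by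
          rw [← pow_succ, Ineq_ff_pow_comm]
      _ = _ := by noncomm_ring
  -- supports
  have hXs : ∀ i < g, Supp (X i) (-4) 4 := by
    intro i hi
    have h1 := supp_mul (supp_mul (supp_mul (hvU (i + 1)).supp (supp_st (hR i hi).1))
      (huU i).supp) (hP i hi).1
    rw [← hX] at h1
    norm_num at h1
    exact h1
  have hMs : ∀ i ≤ g, Supp (M i) (-4 * i) (4 * i) := by
    intro i
    induction i with
    | zero =>
      intro _
      rw [hM0, one_eq]
      have := supp_mon (K := K) 0 1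
      simpa using this
    | succ i ih =>
      intro hi
      have h1 := supp_mul (hXs i (by omega)) (ih (by omega))
      rw [← hM] at h1
      refine supp_mono h1 ?_ ?_
      · push_cast; linarith
      · push_cast; linarith
  -- hermitian relation
  have hXv : ∀ i < g, X i * v i * st (X i) = ff * (ff * v (i + 1)) := by
    intro i hi
    have e1 : st (X i) = st (P i) * u i * R i * v (i + 1) := by
      rw [hX, st_mul, st_mul, st_mul, st_st, (huU i).st_eq, (hvU (i + 1)).st_eq]
      noncomm_ring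
    have e2 : v (i + 1) * st (R i) * u i * R i = ff := by
      have : R i * (v (i + 1) * st (R i) * u i) = ff := by
        rw [← (hR i hi).2.1]; noncomm_ring
      exact rotate this
    rw [e1, hX]
    calc v (i + 1) * st (R i) * u i * P i * v i * (st (P i) * u i * R i * v (i + 1))
        = (v (i + 1) * st (R i) * u i) * (P i * v i * st (P i) * u i) * R i * v (i + 1) := by
          noncomm_ring
      _ = (v (i + 1) * st (R i) * u i) * ff * R i * v (i + 1) := by rw [(hP i hi).2.1]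
      _ = ff * (v (i + 1) * st (R i) * u i) * R i * v (i + 1) := by rw [ff_comm]
      _ = ff * ((v (i + 1) * st (R i) * u i * R i) * v (i + 1)) := by noncomm_ring
      _ = _ := by rw [e2]
  have hMv : ∀ i ≤ g, M i * v 0 * st (M i) = ff ^ (2 * i) * v i := by
    intro i
    induction i with
    | zero =>
      intro _
      rw [hM0, st_one]
      simp
    | succ i ih =>
      intro hi
      have ih' := ih (by omega)
      rw [hM, st_mul]
      calc X i * M i * v 0 * (st (M i) * st (X i))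
          = X i * (M i * v 0 * st (M i)) * st (X i) := by noncomm_ring
        _ = X i * (ff ^ (2 * i) * v i) * st (X i) := by rw [ih']
        _ = (X i * ff ^ (2 * i)) * v i * st (X i) := by noncomm_ring
        _ = ff ^ (2 * i) * (X i * v i * st (X i)) := by
            rw [← Ineq_ff_pow_comm]; noncomm_ring
        _ = ff ^ (2 * i) * (ff * (ff * v (i + 1))) := by rw [hXv i (by omega)]
        _ = ff ^ (2 * (i + 1)) * v (i + 1) := by
            rw [show 2 * (i + 1) = 2 * i + 1 + 1 by ring, pow_succ, pow_succ]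
            noncomm_ring
  -- the representation
  have hXA : ∀ i < g, rho j s hs (X i) * A i = fs j s • A (i + 1) := by
    intro i hi
    have e2 : v (i + 1) * st (R i) * u i * R i = ff := by
      have : R i * (v (i + 1) * st (R i) * u i) = ff := by
        rw [← (hR i hi).2.1]; noncomm_ring
      exact rotate this
    rw [hX, map_mul, Matrix.mul_assoc, ← (hP i hi).2.2, (hR i hi).2.2, ← Matrix.mul_assoc,
      ← map_mul, e2, rho_ff j s hs 0, Matrix.smul_mul, Matrix.one_mul]
  have hMA : ∀ i ≤ g, rho j s hs (M i) * A 0 = (fs j s) ^ i • A i := by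
    intro i
    induction i with
    | zero =>
      intro _
      rw [hM0, map_one, Matrix.one_mul, pow_zero, one_smul]
    | succ i ih =>
      intro hi
      rw [hM, map_mul, Matrix.mul_assoc, ih (by omega), Matrix.mul_smul, hXA i (by omega),
        smul_smul, pow_succ]
  have hrho : rho j s hs (M g) = (fs j s) ^ g • (1 : Matrix (Fin 4) (Fin 4) L) := by
    have h1 := hMA g le_rfl
    rw [hAg] at h1
    have hU : IsUnit (A 0) := (Matrix.isUnit_iff_isUnit_det _).2 (by rw [hAd 0]; exact isUnit_one)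
    refine hU.mul_right_cancel ?_
    rw [h1, Matrix.smul_mul, Matrix.one_mul]
  have h1 : rho j s hs (M g - ff ^ g) = 0 := by
    rw [map_sub, Ineq_rho_ff_pow, hrho, sub_self]
  have h2 : rho j s hs (st (M g - ff ^ g)) = 0 := by
    rw [map_sub (st : Lam K →+ Lam K), st_ff_pow, map_sub, Ineq_rho_ff_pow]
    have e1 := congrArg (rho j s hs) (hMv g le_rfl)
    rw [hvg, map_mul, map_mul, hrho, map_mul, Ineq_rho_ff_pow, Matrix.smul_mul, Matrix.one_mul,
      Matrix.smul_mul, Matrix.smul_mul, Matrix.one_mul] at e1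
    have hdet : IsUnit (rho j s hs (v 0)) := by
      rw [Matrix.isUnit_iff_isUnit_det]
      obtain ⟨w, hw, hw'⟩ := (hvU 0).ker
      rw [det_rho j s hs (hvU 0).supp hw hw', (hvU 0).nrm_eq, map_one, one_mul]
      exact isUnit_iff_ne_zero.2 (neg_ne_zero.2 hfs)
    have e2 : (fs j s) ^ g • (rho j s hs (v 0) * rho j s hs (st (M g))) =
        (fs j s) ^ g • (rho j s hs (v 0) * ((fs j s) ^ g • (1 : Matrix (Fin 4) (Fin 4) L))) := by
      rw [e1, Matrix.mul_smul, Matrix.mul_one, smul_smul, ← pow_add, two_mul]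
    have e3 := smul_right_injective _ (pow_ne_zero g hfs) e2
    have e4 := hdet.mul_left_cancel e3
    rw [e4, sub_self]
  -- non-vanishing
  have hP0 : ∀ i < g, P i ≠ 0 := by
    intro i hi h0
    apply ff_ne_zero (K := K)
    rw [← (hP i hi).2.1, h0]
    simp
  have hstart : ∃ e0 : K × K, e0 ≠ 0 ∧ ∃ Q u' : Lam K, IsU u' ∧ Supp Q (-1) 1 ∧
      Q * v 0 * st Q * u' = ff ∧ act Q e0 = 0 ∧ ¬ ∃ d : K, P 0 = mon 0 d * Q := by
    obtain ⟨F, hF, hFN⟩ := nbr_count (hvU 0)
    have hq2 : 2 ≤ GD.q K := GD.hq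
    have hF1 : 1 < F.card := by
      have : 0 < GD.q K ^ 3 := by positivity
      omega
    obtain ⟨N1, hN1, N2, hN2, hne⟩ := Finset.one_lt_card.1 hF1
    have hkey : ∃ N ∈ F, ¬ ∃ d : K, P 0 = mon 0 d * N := by
      by_contra hcon
      push Not at hcon
      obtain ⟨d1, hd1⟩ := hcon N1 hN1
      obtain ⟨d2, hd2⟩ := hcon N2 hN2
      have c1 : cf (P 0) 1 = d1 := by
        rw [hd1, cf_mon_mul, sub_zero, (hFN N1 hN1).2.1, map_one, mul_one]
      have c2 : cf (P 0) 1 = d2 := by
        rw [hd2, cf_mon_mul, sub_zero, (hFN N2 hN2).2.1, map_one, mul_one]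
      have hd : d1 = d2 := c1.symm.trans c2
      subst hd
      apply hne
      refine Cl_cancel_left (X := mon 0 d1) ?_ (hd1.symm.trans hd2)
      intro h0
      apply hP0 0 (by omega)
      rw [hd1, h0, zero_mul]
    obtain ⟨N, hN, hNd⟩ := hkey
    obtain ⟨s1, s2, y, y1, y2, y3⟩ := hFN N hN
    obtain ⟨u', hu', he'⟩ := exists_nbr (hvU 0) y y2 y1 s1 s2 y3
    exact ⟨act (v 0) y, y1, N, u', hu', s1, he', y3, hNd⟩
  obtain ⟨e0, he0, hQ0⟩ := hstart
  have hnb2 : ∀ i < g, ¬ ∃ d : K, R i = P i * mon 0 d := by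
    rintro i hi ⟨d, hd⟩
    apply ha i hi
    obtain ⟨c, hc1, hc2, hc3⟩ := Cl_nb2 j s hs hfs (hAd i) (hAd (i + 1)) (hBd i) (hP i hi).2.1
      (hR i hi).2.1 (hP i hi).2.2 (hR i hi).2.2 d hd
    refine ⟨c, hc1, ?_, ?_⟩
    · rw [← hv, ← hv]; exact hc2
    · rw [← hA, ← hA]; exact hc3
  have hnb1 : ∀ i, i + 1 < g → ¬ ∃ d : K, P (i + 1) = mon 0 d * R i := by
    rintro i hi ⟨d, hd⟩
    apply hb i hi
    obtain ⟨hc1, hc2, hc3⟩ := Cl_nb1 j s hs hfs (hBd i) (hBd (i + 1)) (hR i (by omega)).2.1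
      (hP (i + 1) hi).2.1 (hR i (by omega)).2.2 (hP (i + 1) hi).2.2 d hd
    refine ⟨d, hc1, ?_, ?_⟩
    · rw [← hu, ← hu]; exact hc2
    · rw [← hB, ← hB]; exact hc3
  have hind : ∀ i < g, act (M i) e0 ≠ 0 ∧ ∃ Q u' : Lam K, IsU u' ∧ Supp Q (-1) 1 ∧
      Q * v i * st Q * u' = ff ∧ act Q (act (M i) e0) = 0 ∧ ¬ ∃ d : K, P i = mon 0 d * Q := by
    intro i
    induction i with
    | zero =>
      intro _
      rw [hM0, act_one]
      exact ⟨he0, hQ0⟩
    | succ i ih =>
      intro hi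
      obtain ⟨hne, Q, u', hu', hQs, hQe, hQ0', hnb⟩ := ih (by omega)
      have hi' : i < g := by omega
      have k1 := nonvanish (hvU i) (hvU (i + 1)) (huU i) hu' (hP i hi').1 (hR i hi').1 hQs
        (hP i hi').2.1 (hR i hi').2.1 hQe hne hQ0' hnb (hnb2 i hi')
      rw [← hX] at k1
      rw [hM, act_mul]
      refine ⟨k1, R i, u i, huU i, (hR i hi').1, (hR i hi').2.1, ?_, hnb1 i hi⟩
      rw [← act_mul, hRX i hi', act_mul, act_ff]
  have hfinal : act (M g) e0 ≠ 0 := by
    obtain ⟨i, rfl⟩ : ∃ i, g = i + 1 := ⟨g - 1, by omega⟩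
    obtain ⟨hne, Q, u', hu', hQs, hQe, hQ0', hnb⟩ := hind i (by omega)
    have hi' : i < i + 1 := by omega
    have k1 := nonvanish (hvU i) (hvU (i + 1)) (huU i) hu' (hP i hi').1 (hR i hi').1 hQs
      (hP i hi').2.1 (hR i hi').2.1 hQe hne hQ0' hnb (hnb2 i hi')
    rw [← hX] at k1
    rw [hM, act_mul]
    exact k1
  have hne : M g ≠ ff ^ g := by
    intro h
    apply hfinal
    obtain ⟨i, rfl⟩ : ∃ i, g = i + 1 := ⟨g - 1, by omega⟩
    rw [h, pow_succ', act_mul, act_ff]
  refine main_ineq2 j s hs D hinj hfs (fun i => ff ^ (g - i) * M i) R P g ?_ ?_ hstep ?_ ?_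
    ?_ ?_
  · intro i hi
    refine ⟨(hR i hi).1, ?_⟩
    intro h0
    apply ff_ne_zero (K := K)
    rw [← (hR i hi).2.1, h0]
    simp
  · simp only [Nat.sub_zero, hM0, mul_one]
  · simp only [Nat.sub_self, pow_zero, one_mul]
    exact hne
  · simp only [Nat.sub_self, pow_zero, one_mul]
    exact hMs g le_rfl
  · simp only [Nat.sub_self, pow_zero, one_mul]
    exact h1
  · simp only [Nat.sub_self, pow_zero, one_mul]
    exact h2
end

end GU4
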