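import Pool.Agent.H258R2.GU.Fld
import Pool.Agent.H258R2.GU.Ph2

namespace GU4

section aux

variable {K : Type} [Field K] [Fintype K] [GD K] {L : Type} [Field L] (j : K →+* L)
  (s : L)

/-- the exponents are small -/
theorem Fld2_small (D : ℕ) (hD : 0 < D) (hq4 : 4 ≤ GD.q K) {i k : ℕ} (hi : i < D) (hk : k < D) :
    GD.q K ^ i + GD.q K ^ k < GD.q K ^ D - 1 := by
  obtain ⟨E, rfl⟩ : ∃ E, D = E + 1 := ⟨D - 1, by omega⟩
  have hi' : GD.q K ^ i ≤ GD.q K ^ E := Nat.pow_le_pow_right (by omega) (by omega)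
  have hk' : GD.q K ^ k ≤ GD.q K ^ E := Nat.pow_le_pow_right (by omega) (by omega)
  have hE : 1 ≤ GD.q K ^ E := Nat.one_le_pow _ _ (by omega)
  have h2 : GD.q K ^ E * 4 ≤ GD.q K ^ (E + 1) := by
    rw [pow_succ]; exact Nat.mul_le_mul_left _ hq4
  omega

theorem Fld2_inj (D : ℕ) (hD : 0 < D) (hq4 : 4 ≤ GD.q K) (hs : s ≠ 0)
    (hord : orderOf s = GD.q K ^ D - 1) : Inj2 K D s := by
  have hinj : ∀ i k : Fin D, s ^ (GD.q K ^ (i : ℕ)) = s ^ (GD.q K ^ (k : ℕ)) → i = k := by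
    intro i k h
    have h1 := Fld2_small (K := K) D hD hq4 i.2 k.2
    have hi : GD.q K ^ (i : ℕ) < orderOf s := by rw [hord]; omega
    have hk : GD.q K ^ (k : ℕ) < orderOf s := by rw [hord]; omega
    have h2 := pow_injOn_Iio_orderOf (Set.mem_Iio.mpr hi) (Set.mem_Iio.mpr hk) h
    exact Fin.ext (Nat.pow_right_injective (by omega : 2 ≤ GD.q K) h2)
  have hno : ∀ i k : Fin D, s ^ (GD.q K ^ (i : ℕ)) ≠ (s⁻¹) ^ (GD.q K ^ (k : ℕ)) := by
    intro i k h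
    have h1 := Fld2_small (K := K) D hD hq4 i.2 k.2
    have h2 : s ^ (GD.q K ^ (i : ℕ) + GD.q K ^ (k : ℕ)) = 1 := by
      rw [pow_add, h, inv_pow, inv_mul_cancel₀ (pow_ne_zero _ hs)]
    have h3 : 0 < GD.q K ^ (i : ℕ) := Nat.pow_pos (by omega)
    have h4 := orderOf_le_of_pow_eq_one (by omega) h2
    omega
  unfold Inj2
  rintro (i | i) (k | k) h
  · exact congrArg Sum.inl (hinj i k h)
  · exact absurd h (hno i k)
  · exact absurd h.symm (hno k i)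
  · simp only [Sum.elim_inr, inv_pow, inv_inj] at h
    exact congrArg Sum.inr (hinj i k h)

theorem Fld2_fs (D : ℕ) (hD : 0 < D) (hq4 : 4 ≤ GD.q K) (hs0 : s ≠ 0)
    (hord : orderOf s = GD.q K ^ D - 1) : fs j s ≠ 0 := by
  intro h
  have hw0 : (j (GD.x : K)) ^ 4 ≠ 0 :=
    pow_ne_zero _ (fun hh => x_ne_zero (K := K) (j.injective (by rw [hh, map_zero])))
  have hw : ((j (GD.x : K)) ^ 4) ^ (GD.q K + 1) = 1 := by
    rw [← pow_mul, mul_comm, pow_mul, ← map_pow, GD.hx, map_one, one_pow]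
  have h2 : s + s⁻¹ = (j (GD.x : K)) ^ 4 + ((j (GD.x : K)) ^ 4)⁻¹ := by
    unfold fs at h
    rw [map_add, map_pow, map_pow, map_inv₀, inv_pow] at h
    exact sub_eq_zero.mp h
  have h3 : (s - (j (GD.x : K)) ^ 4) * (s - ((j (GD.x : K)) ^ 4)⁻¹) = 0 := by
    have e1 : s * s⁻¹ = 1 := mul_inv_cancel₀ hs0
    have e2 : (j (GD.x : K)) ^ 4 * ((j (GD.x : K)) ^ 4)⁻¹ = 1 := mul_inv_cancel₀ hw0
    linear_combination s * h2 + e2 - e1
  have h5 : s ^ (GD.q K + 1) = 1 := by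
    rcases mul_eq_zero.mp h3 with h | h
    · rw [sub_eq_zero.mp h, hw]
    · rw [sub_eq_zero.mp h, inv_pow, hw, inv_one]
  have h6 : orderOf s ∣ GD.q K + 1 := orderOf_dvd_of_pow_eq_one h5
  rw [hord] at h6
  obtain ⟨E, rfl⟩ : ∃ E, D = E + 1 := ⟨D - 1, by omega⟩
  rcases Nat.eq_zero_or_pos E with hE | hE
  · subst hE
    rw [zero_add, pow_one] at h6
    have h7 : GD.q K - 1 ∣ 2 := by
      have h8 : GD.q K + 1 = (GD.q K - 1) + 2 := by omega
      rw [h8] at h6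
      exact (Nat.dvd_add_right (dvd_refl _)).mp h6
    have := Nat.le_of_dvd (by norm_num) h7
    omega
  · have h7 := Nat.le_of_dvd (by omega) h6
    have h8 : GD.q K ^ 1 ≤ GD.q K ^ E := Nat.pow_le_pow_right (by omega) hE
    have h9 : GD.q K ^ E * 4 ≤ GD.q K ^ (E + 1) := by
      rw [pow_succ]; exact Nat.mul_le_mul_left _ hq4
    rw [pow_one] at h8
    omega

end aux

/-- the data for every `D ≥ 1` and every prime power `q ≥ 4`, `q ≠ 7`: `L` is the field with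
`q ^ (4 D)` elements, `s` an element of order `q ^ D - 1`. -/
theorem exists_data2 (q : ℕ) (hq : IsPrimePow q) (h4 : 4 ≤ q) (h7 : q ≠ 7) (D : ℕ) (hD : 0 < D) :
    ∃ (K : Type) (_ : Field K) (_ : Fintype K) (_ : GD K) (L : Type) (_ : Field L)
      (_ : Fintype L) (j : K →+* L) (s : L), GD.q K = q ∧ s ≠ 0 ∧ orderOf s = q ^ D - 1 ∧
      Inj2 K D s ∧ fs j s ≠ 0 := by
  classical
  obtain ⟨K, hF, hK, hG, L, hL, hLf, j, g, hqK, hg0, hcard, hgo⟩ :=
    exists_data q hq (by omega) h7 (4 * D) (Dvd.intro _ rfl) (by omega)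
  -- an element of order `q ^ D - 1`
  have hqD : 4 ≤ q ^ D := h4.trans (Nat.le_self_pow hD.ne' _)
  have hdvd : q ^ D - 1 ∣ q ^ (4 * D) - 1 := by
    rw [mul_comm, pow_mul]
    exact Nat.sub_one_dvd_pow_sub_one _ _
  obtain ⟨c, hc⟩ := hdvd
  have hpos : 0 < q ^ (4 * D) - 1 := by
    have : q ^ D ≤ q ^ (4 * D) := Nat.pow_le_pow_right (by omega) (by omega)
    omega
  have hc0 : c ≠ 0 := by
    rintro rfl
    omega
  have hs : orderOf (g ^ c) = q ^ D - 1 := by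
    rw [orderOf_pow_of_dvd hc0 (by rw [hgo, hc]; exact Dvd.intro_left _ rfl), hgo, hc,
      Nat.mul_div_cancel _ (Nat.pos_of_ne_zero hc0)]
  have hs0 : g ^ c ≠ 0 := pow_ne_zero _ hg0
  have hs' : orderOf (g ^ c) = GD.q K ^ D - 1 := by rw [hqK]; exact hs
  refine ⟨K, hF, hK, hG, L, hL, hLf, j, g ^ c, hqK, hs0, hs, ?_, ?_⟩
  · exact Fld2_inj (g ^ c) D hD (by rw [hqK]; exact h4) hs0 hs'
  · exact Fld2_fs j (g ^ c) D hD (by rw [hqK]; exact h4) hs0 hs'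

end GU4
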