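import Pool.Agent.H258R2.GU.Dvn

set_option linter.unusedSectionVars false
set_option linter.unusedVariables false

namespace GU4

open SkewMonoidAlgebra

variable {K : Type} [Field K] [Fintype K] [GD K]

theorem Ind1_cf_sum {ι : Type} (s : Finset ι) (F : ι → Lam K) (j : ℤ) :
    cf (∑ i ∈ s, F i) j = ∑ i ∈ s, cf (F i) j := by
  classical
  induction s using Finset.induction_on with
  | empty => simp [cf_zero]
  | insert i s hi ih => rw [Finset.sum_insert hi, Finset.sum_insert hi, cf_add, ih]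

/-- polynomials of degree less than `w` -/
noncomputable def Ind1_P (w : ℕ) (c : Fin w → K) : Lam K := ∑ i : Fin w, mon ((i : ℕ) : ℤ) (c i)

theorem Ind1_cf_P (w : ℕ) (c : Fin w → K) (i : Fin w) : cf (Ind1_P w c) ((i : ℕ) : ℤ) = c i := by
  classical
  unfold Ind1_P
  rw [Ind1_cf_sum, Finset.sum_eq_single i]
  · rw [cf_mon, if_pos rfl]
  · intro j _ hj
    rw [cf_mon, if_neg]
    intro h
    apply hj
    apply Fin.ext
    exact_mod_cast h
  · intro h
    exact absurd (Finset.mem_univ _) h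

theorem Ind1_cf_P_out (w : ℕ) (c : Fin w → K) (j : ℤ) (hj : ¬ (0 ≤ j ∧ j < w)) :
    cf (Ind1_P w c) j = 0 := by
  classical
  unfold Ind1_P
  rw [Ind1_cf_sum]
  refine Finset.sum_eq_zero fun i _ => ?_
  rw [cf_mon, if_neg]
  intro h
  apply hj
  rw [← h]
  exact ⟨by positivity, by exact_mod_cast i.2⟩

theorem Ind1_supp_P (w : ℕ) (c : Fin w → K) : Supp (Ind1_P w c) 0 (w - 1) := by
  intro j hj
  by_contra h
  apply hj
  apply Ind1_cf_P_out
  intro h2
  apply h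
  omega

theorem Ind1_eq_P {R : Lam K} {w : ℕ} (hR : Supp R 0 (w - 1)) :
    Ind1_P w (fun i => cf R ((i : ℕ) : ℤ)) = R := by
  apply cf_ext
  intro j
  by_cases hj : 0 ≤ j ∧ j < w
  · obtain ⟨n, rfl⟩ := Int.eq_ofNat_of_zero_le hj.1
    have hn : n < w := by exact_mod_cast hj.2
    exact Ind1_cf_P w _ ⟨n, hn⟩
  · rw [Ind1_cf_P_out _ _ _ hj]
    by_contra h
    have := hR j (fun h' => h h'.symm)
    apply hj
    omega

theorem Ind1_card (w : ℕ) : Nat.card (Fin w → K) = (GD.q K ^ 4) ^ w := by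
  rw [Nat.card_eq_fintype_card, Fintype.card_fun, GD.card, Fintype.card_fin]

theorem Ind1_surj (Z : Lam K) (l u : ℤ) (hlu : l ≤ u) (hZ : Supp Z l u) (hl : cf Z l ≠ 0)
    (hu : cf Z u ≠ 0) : Function.Surjective fun c : Fin (u - l).toNat → K =>
      (QuotientAddGroup.mk (Ind1_P (u - l).toNat c) : Lam K ⧸ LI Z) := by
  intro y
  obtain ⟨X, rfl⟩ := QuotientAddGroup.mk_surjective y
  obtain ⟨Q, R, hX, hR⟩ := div_window Z l u hlu hZ hl hu X 0
  have hR' : Supp R 0 (((u - l).toNat : ℤ) - 1) := by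
    rw [Int.toNat_of_nonneg (by omega)]
    simpa using hR
  refine ⟨fun i => cf R ((i : ℕ) : ℤ), ?_⟩
  simp only
  rw [Ind1_eq_P hR']
  rw [QuotientAddGroup.eq, hX]
  rw [mem_LI]
  exact ⟨Q, by abel⟩

theorem Ind1_finite (Z : Lam K) (hne : Z ≠ 0) : Finite (Lam K ⧸ LI Z) := by
  obtain ⟨l, u, hlu, hS, hl, hu⟩ := exists_supp hne
  exact Finite.of_surjective _ (Ind1_surj Z l u hlu hS hl hu)

theorem index_LI_le (Z : Lam K) (l u : ℤ) (hlu : l ≤ u) (hZ : Supp Z l u) (hne : Z ≠ 0) :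
    (LI Z).index ≠ 0 ∧ (LI Z).index ≤ (GD.q K ^ 4) ^ ((u - l).toNat) := by
  have hfin := Ind1_finite Z hne
  refine ⟨AddSubgroup.index_ne_zero_of_finite, ?_⟩
  obtain ⟨l', u', h1, h2, h3, hS, hl, hu⟩ := exists_supp_sub hne hZ
  have hc := Nat.card_le_card_of_surjective _ (Ind1_surj Z l' u' h2 hS hl hu)
  rw [Ind1_card] at hc
  refine hc.trans ?_
  have hq : 0 < GD.q K := lt_of_lt_of_le (by norm_num) (GD.hq (K := K))
  exact Nat.pow_le_pow_right (by positivity) (by omega)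

theorem index_LI_ff_pow (g : ℕ) : (GD.q K ^ 4) ^ (8 * g) ≤ (LI ((ff : Lam K) ^ g)).index := by
  have hne : (ff : Lam K) ^ g ≠ 0 := by
    intro h
    have := cf_ff_pow_top (K := K) g
    rw [h, cf_zero] at this
    exact zero_ne_one this
  have hfin := Ind1_finite ((ff : Lam K) ^ g) hne
  rw [← Ind1_card]
  refine Nat.card_le_card_of_injective (fun c : Fin (8 * g) → K =>
    (QuotientAddGroup.mk (Ind1_P (8 * g) c) : Lam K ⧸ LI ((ff : Lam K) ^ g))) ?_
  intro c c' hcc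
  simp only at hcc
  rw [QuotientAddGroup.eq, mem_LI] at hcc
  obtain ⟨Q, hQ⟩ := hcc
  have hS : Supp (Q * (ff : Lam K) ^ g) 0 (((8 * g : ℕ) : ℤ) - 1) := by
    rw [hQ]
    have e : -Ind1_P (8 * g) c + Ind1_P (8 * g) c' = Ind1_P (8 * g) c' - Ind1_P (8 * g) c := by abel
    rw [e]
    exact supp_sub (Ind1_supp_P _ _) (Ind1_supp_P _ _)
  have hQ0 : Q = 0 := by
    by_contra hQne
    obtain ⟨a, b, hab, hSQ, ha, hb⟩ := exists_supp hQne
    have h1 : cf (Q * (ff : Lam K) ^ g) (b + 4 * g) ≠ 0 := by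
      rw [cf_mul_top hSQ (supp_ff_pow g), cf_ff_pow_top, map_one, mul_one]
      exact hb
    have h2 : cf (Q * (ff : Lam K) ^ g) (a + -4 * g) ≠ 0 := by
      rw [cf_mul_bot hSQ (supp_ff_pow g), cf_ff_pow_bot, map_one, mul_one]
      exact ha
    have h3 := (hS _ h1).2
    have h4 := (hS _ h2).1
    push_cast at h3
    linarith
  rw [hQ0, zero_mul] at hQ
  have hP : Ind1_P (8 * g) c = Ind1_P (8 * g) c' := by
    rw [← sub_eq_zero]
    have : Ind1_P (8 * g) c - Ind1_P (8 * g) c' = -(-Ind1_P (8 * g) c + Ind1_P (8 * g) c') := by abel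
    rw [this, ← hQ, neg_zero]
  funext i
  rw [← Ind1_cf_P (8 * g) c i, hP, Ind1_cf_P]

end GU4
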