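import Pool.Agent.H258R2.GU.Ind1

set_option linter.unusedSectionVars false
set_option linter.unusedVariables false

namespace GU4

open SkewMonoidAlgebra

variable {K : Type} [Field K] [Fintype K] [GD K]

theorem Ind2_LI_le_JJ (W : ℕ → Lam K) (g : ℕ) : LI (W g) ≤ JJ W g := by
  cases g with
  | zero => exact le_refl _
  | succ n => exact le_sup_right

theorem Ind2_LI0_le_JJ (W : ℕ → Lam K) (g : ℕ) : LI (W 0) ≤ JJ W g := by
  induction g with
  | zero => exact le_refl _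
  | succ n ih => exact ih.trans le_sup_left

/-- One step of the chain. -/
theorem Ind2_step (W : ℕ → Lam K) (g : ℕ) (R P : Lam K) (hR : Supp R (-1) 1) (hne : R ≠ 0)
    (h : R * W (g + 1) = P * W g) :
    (JJ W g).relIndex (JJ W (g + 1)) ≠ 0 ∧
      (JJ W g).relIndex (JJ W (g + 1)) ≤ (GD.q K ^ 4) ^ 2 := by
  have e1 : (JJ W g).relIndex (JJ W (g + 1)) =
      ((JJ W g).comap (AddMonoidHom.mulRight (W (g + 1)))).index := by
    rw [AddSubgroup.index_comap]
    exact AddSubgroup.relIndex_sup_left _ _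
  have hle : LI R ≤ (JJ W g).comap (AddMonoidHom.mulRight (W (g + 1))) := by
    intro X hX
    obtain ⟨Q, rfl⟩ := mem_LI.mp hX
    rw [AddSubgroup.mem_comap]
    apply Ind2_LI_le_JJ W g
    rw [mem_LI]
    refine ⟨Q * P, ?_⟩
    rw [AddMonoidHom.mulRight_apply, mul_assoc, mul_assoc, h]
  have h1 := index_LI_le R (-1) 1 (by norm_num) hR hne
  have h2 : ((1 : ℤ) - (-1)).toNat = 2 := rfl
  rw [h2] at h1
  have hdvd := AddSubgroup.index_dvd_of_le hle
  rw [e1]
  constructor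
  · intro h0
    rw [h0] at hdvd
    exact h1.1 (Nat.eq_zero_of_zero_dvd hdvd)
  · exact (Nat.le_of_dvd (Nat.pos_of_ne_zero h1.1) hdvd).trans h1.2

/-- `R_i W_{i+1} = P_i W_i` and `Lam / Lam R_i` has at most `|K|^2` elements, so each step
`J_i ⊆ J_{i+1} = J_i + Lam W_{i+1}` has index at most `|K|^2`. -/
theorem relIndex_chain (W R P : ℕ → Lam K) (g : ℕ)
    (hR : ∀ i < g, Supp (R i) (-1) 1 ∧ R i ≠ 0)
    (hstep : ∀ i < g, R i * W (i + 1) = P i * W i) :
    (LI (W 0)).relIndex (JJ W g) ≠ 0 ∧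
      (LI (W 0)).relIndex (JJ W g) ≤ (GD.q K ^ 4) ^ (2 * g) := by
  induction g with
  | zero =>
    have e : (LI (W 0)).relIndex (JJ W 0) = 1 := AddSubgroup.relIndex_self _
    rw [e]
    exact ⟨one_ne_zero, by simp⟩
  | succ n ih =>
    have ih' := ih (fun i hi => hR i (by omega)) (fun i hi => hstep i (by omega))
    have hs := Ind2_step W n (R n) (P n) (hR n (by omega)).1 (hR n (by omega)).2
      (hstep n (by omega))
    have e := AddSubgroup.relIndex_mul_relIndex (LI (W 0)) (JJ W n) (JJ W (n + 1))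
      (Ind2_LI0_le_JJ W n) le_sup_left
    rw [← e]
    refine ⟨mul_ne_zero ih'.1 hs.1, ?_⟩
    calc _ ≤ (GD.q K ^ 4) ^ (2 * n) * (GD.q K ^ 4) ^ 2 := Nat.mul_le_mul ih'.2 hs.2
      _ = (GD.q K ^ 4) ^ (2 * (n + 1)) := by rw [← pow_add]; congr 1

end GU4
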