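import Pool.Agent.H258R2.GU.Asm3
import Pool.Agent.H258R2.GU.Fld2

namespace GU4

theorem Main3_degree {V W : Type} [Fintype V] [Fintype W] {G : SimpleGraph V} {G' : SimpleGraph W}
    [DecidableRel G.Adj] [DecidableRel G'.Adj] (e : G ≃g G') (v : V) :
    G'.degree (e v) = G.degree v := by
  rw [← SimpleGraph.card_neighborSet_eq_degree, ← SimpleGraph.card_neighborSet_eq_degree]
  exact (Fintype.card_congr (e.mapNeighborSet v)).symm

theorem exists_graph3 (q : ℕ) (hq : IsPrimePow q) (h4 : 4 ≤ q) (h7 : q ≠ 7) (D l : ℕ) (hD : 0 < D)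
    (hl : 1 ≤ l) :
    ∃ (n : ℕ) (G : SimpleGraph (Fin n)) (_ : DecidableRel G.Adj), 0 < n ∧
      (∀ v, q ^ 3 + 1 ≤ G.degree v) ∧ ((8 * D + 2 * l : ℕ) : ℕ∞) ≤ G.egirth ∧
      n ≤ 96 * q ^ (15 * D + 4 * l) := by
  classical
  obtain ⟨K, _, _, _, L, _, _, j, s, hKq, hs, hord, hinj, hfs⟩ := exists_data2 q hq h4 h7 D hD
  subst hKq
  have hgr : ∃ (V : Type) (_ : Fintype V) (G : SimpleGraph V) (_ : DecidableRel G.Adj),
      Nonempty V ∧ (∀ v, GD.q K ^ 3 + 1 ≤ G.degree v) ∧ ((8 * D + 2 * l : ℕ) : ℕ∞) ≤ G.egirth ∧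
      Fintype.card V ≤ 96 * GD.q K ^ (15 * D + 4 * l) := by
    first
    | exact graph_exists3 j s l D hD hl h4 hord hinj hfs
    | exact graph_exists3 j s hs l D hD hl h4 hord hinj hfs
  obtain ⟨V, _, G, _, hne, hdeg, hg, hc⟩ := hgr
  refine ⟨Fintype.card V, G.overFin rfl, inferInstance, Fintype.card_pos, ?_, ?_, hc⟩
  · intro v
    have h1 := Main3_degree (G.overFinIso (n := Fintype.card V) rfl)
      ((G.overFinIso (n := Fintype.card V) rfl).symm v)
    rw [RelIso.apply_symm_apply] at h1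
    have h2 := hdeg ((G.overFinIso (n := Fintype.card V) rfl).symm v)
    rw [← h1] at h2
    convert! h2 using 1
  · rw [← (G.overFinIso (n := Fintype.card V) rfl).egirth_eq]
    exact hg

end GU4
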