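import Pool.Agent.H258R2.GU.Base

set_option linter.unusedSectionVars false
set_option linter.unusedVariables false

namespace GU4

open SkewMonoidAlgebra

variable {K : Type} [Field K] [Fintype K] [GD K]

/-! properties of the hermitian pairing `BB` -/

theorem Pr_fr5 (a : K) : fr 5 a = fr 1 a := fr_add_four 1 a

theorem Pr_fr6 (a : K) : fr 6 a = fr 2 a := fr_add_four 2 a

theorem Pr_fr7 (a : K) : fr 7 a = fr 3 a := fr_add_four 3 a

theorem Pr_x3 : fr 3 (GD.x : K) = (GD.x : K)⁻¹ := by
  rw [show (3 : ℤ) = 1 + 2 from rfl, ← fr_fr, fr_two_x, fr_one_x]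

theorem Pr_BB (u w : K × K) : BB u w = u.1 * fr 1 w.2 + u.2 * fr 3 w.1 + fr 2 u.1 * fr 3 w.2 +
    fr 2 u.2 * fr 1 w.1 := by
  unfold BB
  rw [map_add, map_mul, map_mul, fr_fr, fr_fr]
  norm_num [Pr_fr5]
  ring

theorem BB_add_left (u u' w : K × K) : BB (u + u') w = BB u w + BB u' w := by
  simp only [Pr_BB, Prod.fst_add, Prod.snd_add, map_add]
  ring

theorem BB_add_right (u w w' : K × K) : BB u (w + w') = BB u w + BB u w' := by
  simp only [Pr_BB, Prod.fst_add, Prod.snd_add, map_add]
  ring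

theorem BB_zero_left (w : K × K) : BB 0 w = 0 := by
  simp [Pr_BB]

theorem BB_zero_right (u : K × K) : BB u 0 = 0 := by
  simp [Pr_BB]

theorem BB_neg_left (u w : K × K) : BB (-u) w = - BB u w := by
  simp only [Pr_BB, Prod.fst_neg, Prod.snd_neg, map_neg]
  ring

theorem BB_sub_left (u u' w : K × K) : BB (u - u') w = BB u w - BB u' w := by
  simp only [Pr_BB, Prod.fst_sub, Prod.snd_sub, map_sub]
  ring

theorem BB_sub_right (u w w' : K × K) : BB u (w - w') = BB u w - BB u w' := by
  simp only [Pr_BB, Prod.fst_sub, Prod.snd_sub, map_sub]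
  ring

theorem fr_two_BB (u w : K × K) : fr 2 (BB u w) = BB u w := by
  unfold BB
  rw [map_add (fr 2), fr_fr, show (2 : ℤ) + 2 = 4 from rfl, fr_four, add_comm]

theorem BB_symm (u w : K × K) : BB w u = fr 1 (BB u w) := by
  simp only [Pr_BB, map_add, map_mul, fr_fr]
  norm_num [fr_four]
  ring

theorem BB_smul_left (c : K) (hc : fr 2 c = c) (u w : K × K) : BB (c • u) w = c * BB u w := by
  simp only [Pr_BB, Prod.smul_fst, Prod.smul_snd, smul_eq_mul, map_mul, hc]
  ring

theorem BB_smul_right (c : K) (hc : fr 2 c = c) (u w : K × K) :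
    BB u (c • w) = fr 1 c * BB u w := by
  have h3 : fr 3 c = fr 1 c := by
    rw [show (3 : ℤ) = 1 + 2 from rfl, ← fr_fr, hc]
  simp only [Pr_BB, Prod.smul_fst, Prod.smul_snd, smul_eq_mul, map_mul, h3]
  ring

open Polynomial in
/-- the elements of trace zero -/
theorem Pr_card_ker : Nat.card {t : K // t + fr 2 t = 0} ≤ GD.q K ^ 2 := by
  classical
  have hq := GD.hq (K := K)
  have hdeg : (X ^ (GD.q K ^ 2) + X : K[X]).natDegree = GD.q K ^ 2 := by
    have h1 : (X : K[X]).degree < ((X : K[X]) ^ (GD.q K ^ 2)).degree := by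
      rw [degree_X_pow, degree_X]
      have : 1 < GD.q K ^ 2 := by nlinarith
      exact_mod_cast this
    have h2 := degree_add_eq_left_of_degree_lt h1
    rw [degree_X_pow] at h2
    exact natDegree_eq_of_degree_eq_some h2
  have hne : (X ^ (GD.q K ^ 2) + X : K[X]) ≠ 0 := by
    intro h
    rw [h, natDegree_zero] at hdeg
    have : 0 < GD.q K ^ 2 := by positivity
    omega
  rw [Nat.card_eq_fintype_card, Fintype.card_subtype]
  calc (Finset.univ.filter (fun t : K => t + fr 2 t = 0)).card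
      ≤ (X ^ (GD.q K ^ 2) + X : K[X]).roots.toFinset.card := by
        refine Finset.card_le_card (fun t ht => ?_)
        rw [Finset.mem_filter] at ht
        rw [Multiset.mem_toFinset, mem_roots hne, IsRoot.def, eval_add, eval_pow, eval_X]
        have h2 := fr_nat 2 t
        rw [Nat.cast_ofNat] at h2
        rw [← h2, add_comm]
        exact ht.2
    _ ≤ Multiset.card (X ^ (GD.q K ^ 2) + X : K[X]).roots := Multiset.toFinset_card_le _
    _ ≤ (X ^ (GD.q K ^ 2) + X : K[X]).natDegree := card_roots' _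
    _ = GD.q K ^ 2 := hdeg

theorem Pr_exists_tr : ∃ t : K, t + fr 2 t ≠ 0 := by
  by_contra h
  push Not at h
  have h1 := Pr_card_ker (K := K)
  have h2 : Nat.card {t : K // t + fr 2 t = 0} = GD.q K ^ 4 := by
    rw [← GD.card (K := K), ← Nat.card_eq_fintype_card]
    exact Nat.card_congr (Equiv.subtypeUnivEquiv h)
  rw [h2] at h1
  have hq := GD.hq (K := K)
  have : GD.q K ^ 2 < GD.q K ^ 4 := Nat.pow_lt_pow_right (by omega) (by norm_num)
  omega

theorem BB_nondeg_left (u : K × K) (h : ∀ w, BB u w = 0) : u = 0 := by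
  obtain ⟨t, ht⟩ := Pr_exists_tr (K := K)
  have h1 : u.1 = 0 := by
    by_contra hu
    apply ht
    have := h (0, fr (-1) (t / u.1))
    unfold BB at this
    simp only [map_zero, mul_zero, add_zero, fr_fr] at this
    rw [show (1 : ℤ) + -1 = 0 from rfl, fr_zero, mul_div_cancel₀ _ hu] at this
    exact this
  have h2 : u.2 = 0 := by
    by_contra hu
    apply ht
    have := h (fr (-3) (t / u.2), 0)
    unfold BB at this
    simp only [map_zero, mul_zero, zero_add, fr_fr] at this
    rw [show (3 : ℤ) + -3 = 0 from rfl, fr_zero, mul_div_cancel₀ _ hu] at this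
    exact this
  exact Prod.ext h1 h2

theorem BB_nondeg_right (u : K × K) (h : ∀ w, BB w u = 0) : u = 0 := by
  refine BB_nondeg_left u (fun w => ?_)
  have := BB_symm u w
  rw [h w] at this
  exact (fr_eq_zero 1).1 this.symm

theorem Pr_adj_mul {X Y : Lam K} (hX : ∀ u w, BB (act X u) w = BB u (act (st X) w))
    (hY : ∀ u w, BB (act Y u) w = BB u (act (st Y) w)) :
    ∀ u w, BB (act (X * Y) u) w = BB u (act (st (X * Y)) w) := by
  intro u w
  rw [act_mul, hX, hY, st_mul, act_mul]

theorem Pr_adj_zero (a : K) (u w : K × K) :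
    BB (act (mon 0 a) u) w = BB u (act (st (mon 0 a)) w) := by
  rw [st_mon, neg_zero, sub_zero, act_mon_zero, act_mon_zero]
  simp only [Pr_BB, map_mul, fr_fr]
  norm_num [fr_four, Pr_fr5, Pr_fr6]
  ring

theorem Pr_adj_one (u w : K × K) :
    BB (act (mon 1 (1 : K)) u) w = BB u (act (st (mon 1 (1 : K))) w) := by
  rw [st_mon, act_mon_one, map_one, act_mon_neg_one]
  simp only [Pr_BB, map_mul, fr_fr, map_one, one_mul, map_inv₀, fr_one_x, fr_two_x, Pr_x3, inv_inv]
  norm_num [fr_four, Pr_fr5, Pr_fr6]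
  ring

theorem Pr_adj_neg_one (u w : K × K) :
    BB (act (mon (-1) (1 : K)) u) w = BB u (act (st (mon (-1) (1 : K))) w) := by
  rw [st_mon, act_mon_neg_one, map_one, neg_neg, act_mon_one]
  simp only [Pr_BB, map_mul, fr_fr, map_one, one_mul, map_inv₀, fr_one_x, fr_two_x, Pr_x3]
  norm_num [fr_four, Pr_fr5, Pr_fr6]
  ring

/-- `st X` is the adjoint of `X`. Prove it for `X = mon 0 a` and `X = mon 1 1`, `mon (-1) 1`, then
use `mon i a = mon 0 a * (mon 1 1) ^ i` and multiplicativity (`act_mul`, `st_mul`). -/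
theorem BB_adj (X : Lam K) (u w : K × K) : BB (act X u) w = BB u (act (st X) w) := by
  have hone : ∀ (i : ℤ) (u w : K × K),
      BB (act (mon i (1 : K)) u) w = BB u (act (st (mon i (1 : K))) w) := by
    intro i
    induction i using Int.induction_on with
    | zero => exact Pr_adj_zero 1
    | succ n ih =>
      have e : mon ((n : ℤ) + 1) (1 : K) = mon 1 1 * mon n 1 := by
        rw [mon_mul, map_one, one_mul, add_comm]
      rw [e]
      exact Pr_adj_mul Pr_adj_one ih
    | pred n ih =>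
      have e : mon (-(n : ℤ) - 1) (1 : K) = mon (-1) 1 * mon (-n) 1 := by
        rw [mon_mul, map_one, one_mul]
        congr 1
        ring
      rw [e]
      exact Pr_adj_mul Pr_adj_neg_one ih
  induction X using lam_induction generalizing u w with
  | h0 => rw [map_zero st, act_zero', act_zero', BB_zero_left, BB_zero_right]
  | hadd X X' h h' => rw [act_add, BB_add_left, h, h', map_add st, act_add, BB_add_right]
  | hmon i a =>
    have e : mon i a = mon 0 a * mon i 1 := by
      rw [mon_mul, map_one, mul_one, zero_add]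
    rw [e]
    exact Pr_adj_mul (Pr_adj_zero a) (hone i) u w

theorem BB_adj' (X : Lam K) (u w : K × K) : BB u (act X w) = BB (act (st X) u) w := by
  rw [BB_adj, st_st]

/-- the set `w^⊥` has at most `q ^ 6` elements. -/
theorem card_perp_le (w : K × K) (hw : w ≠ 0) :
    Nat.card {u : K × K // BB w u = 0} ≤ GD.q K ^ 6 := by
  classical
  have hfin : Finite ({t : K // t + fr 2 t = 0} × K) := inferInstance
  have hcard : Nat.card ({t : K // t + fr 2 t = 0} × K) ≤ GD.q K ^ 6 := by
    rw [Nat.card_prod, Nat.card_eq_fintype_card (α := K), GD.card (K := K)]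
    calc Nat.card {t : K // t + fr 2 t = 0} * GD.q K ^ 4 ≤ GD.q K ^ 2 * GD.q K ^ 4 :=
          Nat.mul_le_mul_right _ Pr_card_ker
      _ = GD.q K ^ 6 := by ring
  refine le_trans ?_ hcard
  by_cases h1 : w.1 = 0
  · have h2 : w.2 ≠ 0 := fun h => hw (Prod.ext h1 h)
    refine Nat.card_le_card_of_injective
      (fun u : {u : K × K // BB w u = 0} =>
        ((⟨w.1 * fr 1 u.1.2 + w.2 * fr 3 u.1.1, u.2⟩, u.1.2) :
          {t : K // t + fr 2 t = 0} × K)) ?_
    rintro ⟨⟨a, b⟩, h⟩ ⟨⟨a', b'⟩, h'⟩ e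
    simp only [Prod.mk.injEq, Subtype.mk.injEq] at e
    obtain ⟨e1, rfl⟩ := e
    have e2 := add_left_cancel e1
    have e3 := fr_inj 3 (mul_left_cancel₀ h2 e2)
    subst e3
    rfl
  · refine Nat.card_le_card_of_injective
      (fun u : {u : K × K // BB w u = 0} =>
        ((⟨w.1 * fr 1 u.1.2 + w.2 * fr 3 u.1.1, u.2⟩, u.1.1) :
          {t : K // t + fr 2 t = 0} × K)) ?_
    rintro ⟨⟨a, b⟩, h⟩ ⟨⟨a', b'⟩, h'⟩ e
    simp only [Prod.mk.injEq, Subtype.mk.injEq] at e
    obtain ⟨e1, rfl⟩ := e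
    have e2 := add_right_cancel e1
    have e3 := fr_inj 1 (mul_left_cancel₀ h1 e2)
    subst e3
    rfl

end GU4
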