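import Pool.Agent.H258R2.GU.Ind1
import Pool.Agent.H258R2.GU.Root

set_option linter.unusedSectionVars false
set_option linter.unusedVariables false

namespace GU4

open SkewMonoidAlgebra

variable {K : Type} [Field K] [Fintype K] [GD K]

section
variable {L : Type} [Field L] [Fintype L] (j : K →+* L) (s : L) (hs : s ≠ 0)

include j in
/-- the Frobenius of `L` -/
theorem Qp_frob : ∃ φ : L →+* L, ∀ z, φ z = z ^ GD.q K := by
  obtain ⟨p, hp⟩ := CharP.exists K
  obtain ⟨m, hpp, hm⟩ := FiniteField.card K p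
  have : Fact p.Prime := ⟨hpp⟩
  have h1 : GD.q K ∣ p ^ (m : ℕ) := by
    rw [← hm, GD.card (K := K)]
    exact dvd_pow_self _ (by norm_num)
  obtain ⟨a, _, ha⟩ := (Nat.dvd_prime_pow hpp).mp h1
  have : CharP L p := charP_of_injective_ringHom j.injective p
  refine ⟨iterateFrobenius L p a, fun z => ?_⟩
  rw [ha]
  exact iterateFrobenius_def p a z

/-- the elements of `L` fixed by the Frobenius come from `K` -/
theorem Qp_fixed (z : L) (hz : z ^ GD.q K = z) : ∃ a : K, j a = z ∧ fr 1 a = a := by
  classical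
  have hq := GD.hq (K := K)
  have h4 : z ^ (GD.q K ^ 4) = z := by
    have h : ∀ i : ℕ, z ^ (GD.q K ^ i) = z := by
      intro i
      induction i with
      | zero => simp
      | succ i ih => rw [pow_succ, pow_mul, ih, hz]
    exact h 4
  have hc1 : 1 < GD.q K ^ 4 := Nat.one_lt_pow (by norm_num) (by omega)
  set Q : Polynomial L := Polynomial.X ^ (GD.q K ^ 4) - Polynomial.X with hQ
  have hQd : Q.natDegree = GD.q K ^ 4 := FiniteField.X_pow_card_sub_X_natDegree_eq L hc1
  have hQ0 : Q ≠ 0 := by
    intro h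
    rw [h, Polynomial.natDegree_zero] at hQd
    omega
  have hroot : ∀ w : L, w ^ (GD.q K ^ 4) = w → w ∈ Q.roots.toFinset := by
    intro w hw
    rw [Multiset.mem_toFinset, Polynomial.mem_roots hQ0]
    simp [hQ, Polynomial.IsRoot, hw]
  have hsub : Finset.univ.image j ⊆ Q.roots.toFinset := by
    intro w hw
    obtain ⟨a, -, rfl⟩ := Finset.mem_image.mp hw
    apply hroot
    rw [← map_pow, ← GD.card (K := K), FiniteField.pow_card]
  have hcard : Q.roots.toFinset.card ≤ (Finset.univ.image j).card := by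
    rw [Finset.card_image_of_injective _ j.injective, Finset.card_univ, GD.card]
    refine (Multiset.toFinset_card_le _).trans ?_
    rw [← hQd]
    exact Polynomial.card_roots' Q
  have heq := Finset.eq_of_subset_of_card_le hsub hcard
  have hz' := hroot z h4
  rw [← heq] at hz'
  obtain ⟨a, -, ha⟩ := Finset.mem_image.mp hz'
  refine ⟨a, ha, ?_⟩
  apply j.injective
  rw [fr_one, map_pow, ha, hz]

/-- the polynomial of the conjugates of `s` -/
noncomputable def QpP (K : Type) [Field K] [Fintype K] [GD K] (s : L) (D : ℕ) : Polynomial L :=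
  ∏ i ∈ Finset.range D, (Polynomial.X - Polynomial.C (s ^ (GD.q K ^ i)))

theorem QpP_monic (D : ℕ) : (QpP K s D).Monic :=
  Polynomial.monic_prod_of_monic _ _ fun i _ => Polynomial.monic_X_sub_C _

theorem QpP_deg (D : ℕ) : (QpP K s D).natDegree = D := by
  unfold QpP
  rw [Polynomial.natDegree_prod_of_monic _ _ fun i _ => Polynomial.monic_X_sub_C _]
  simp only [Polynomial.natDegree_X_sub_C, Finset.sum_const, Finset.card_range, smul_eq_mul,
    mul_one]

include j in
theorem QpP_coeff (D : ℕ) (hsD : s ^ (GD.q K ^ D) = s) (k : ℕ) :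
    (QpP K s D).coeff k ^ GD.q K = (QpP K s D).coeff k := by
  obtain ⟨φ, hφ⟩ := Qp_frob (K := K) j
  have h1 : (QpP K s D).map φ = QpP K s D := by
    unfold QpP
    rw [Polynomial.map_prod]
    have e1 : ∀ i, Polynomial.map φ (Polynomial.X - Polynomial.C (s ^ (GD.q K ^ i))) =
        Polynomial.X - Polynomial.C (s ^ (GD.q K ^ (i + 1))) := by
      intro i
      rw [Polynomial.map_sub, Polynomial.map_X, Polynomial.map_C, hφ, ← pow_mul, ← pow_succ]
    rw [Finset.prod_congr rfl fun i _ => e1 i]
    have e2 := Finset.prod_range_succ'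
      (fun i => (Polynomial.X - Polynomial.C (s ^ (GD.q K ^ i)) : Polynomial L)) D
    rw [Finset.prod_range_succ] at e2
    simp only [pow_zero, pow_one, hsD] at e2
    exact (mul_right_cancel₀ (Polynomial.X_sub_C_ne_zero s) e2).symm
  have h2 := congrArg (fun P => Polynomial.coeff P k) h1
  simp only [Polynomial.coeff_map, hφ] at h2
  exact h2

/-- a nonzero element of the kernel with small support -/
theorem Qp_exists (D : ℕ) (hD : 0 < D) (hsD : s ^ (GD.q K ^ D) = s) :
    ∃ Z : Lam K, Z ≠ 0 ∧ Supp Z 0 (4 * D) ∧ rho j s hs Z = 0 := by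
  classical
  have hex : ∀ i : ℕ, ∃ a : K, j a = (QpP K s D).coeff i ∧ fr 1 a = a := fun i =>
    Qp_fixed j _ (QpP_coeff j s D hsD i)
  choose a ha1 ha2 using hex
  have hfr : ∀ (i : ℕ) (r : ℕ), fr (r : ℤ) (a i) = a i := by
    intro i r
    induction r with
    | zero => rw [Nat.cast_zero, fr_zero]
    | succ r ih => rw [Nat.cast_succ, add_comm, ← fr_fr, ih, ha2]
  set Z : Lam K := ∑ i ∈ Finset.range (D + 1), mon ((4 * i : ℕ) : ℤ) (a i) with hZ
  have hcf : ∀ t : ℤ, cf Z t = ∑ i ∈ Finset.range (D + 1),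
      if ((4 * i : ℕ) : ℤ) = t then a i else 0 := by
    intro t
    rw [hZ, Root_cf_sum]
    exact Finset.sum_congr rfl fun i _ => cf_mon _ _ _
  refine ⟨Z, ?_, ?_, ?_⟩
  · intro h0
    have h1 : cf Z ((4 * D : ℕ) : ℤ) = a D := by
      rw [hcf, Finset.sum_eq_single D]
      · rw [if_pos rfl]
      · intro b _ hb
        rw [if_neg]
        intro h
        apply hb
        have : 4 * b = 4 * D := by exact_mod_cast h
        omega
      · intro h
        exact absurd (Finset.mem_range.mpr (Nat.lt_succ_self D)) h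
    rw [h0, cf_zero] at h1
    have h2 : (QpP K s D).coeff D = 1 := by
      have := QpP_monic (K := K) s D
      rw [Polynomial.Monic, Polynomial.leadingCoeff, QpP_deg] at this
      exact this
    rw [← ha1, ← h1, map_zero] at h2
    exact zero_ne_one h2
  · intro t ht
    rw [hcf] at ht
    obtain ⟨i, hi, hne⟩ := Finset.exists_ne_zero_of_sum_ne_zero ht
    rw [Finset.mem_range] at hi
    have h1 : ((4 * i : ℕ) : ℤ) = t := by
      by_contra h
      rw [if_neg h] at hne
      exact hne rfl
    rw [← h1]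
    push_cast
    omega
  · ext r c
    rw [hZ, _root_.map_sum, Matrix.sum_apply, Matrix.zero_apply]
    simp only [Root_rho_mon, hfr, ha1]
    by_cases h : r = c
    · subst h
      have h1 : ∀ i : ℕ, Root_e s (((r : ℕ) : ℤ) + ((4 * i : ℕ) : ℤ) - ((r : ℕ) : ℤ)) = s ^ i := by
        intro i
        rw [show (((r : ℕ) : ℤ) + ((4 * i : ℕ) : ℤ) - ((r : ℕ) : ℤ)) = 4 * (i : ℤ) by
          push_cast; ring, Root_e_mul, zpow_natCast]
      simp only [h1]
      have h2 : (QpP K s D).eval s = 0 := by
        unfold QpP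
        rw [Polynomial.eval_prod]
        apply Finset.prod_eq_zero (Finset.mem_range.mpr hD)
        simp
      rw [Polynomial.eval_eq_sum_range, QpP_deg] at h2
      exact h2
    · apply Finset.sum_eq_zero
      intro i _
      have h1 := r.2
      have h2 := c.2
      have h3 : (r : ℕ) ≠ (c : ℕ) := fun hh => h (Fin.ext hh)
      rw [Root_e_not, mul_zero]
      push_cast
      omega

/-- the image of `rho` has at most `|K|^(4D) = q^(16D)` elements if `s` lies in the field with
`q ^ D` elements. -/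
theorem card_range (D : ℕ) (hD : 0 < D) (hsD : s ^ (GD.q K ^ D) = s) :
    Nat.card (rho j s hs).range ≤ GD.q K ^ (16 * D) := by
  obtain ⟨Z, hZ0, hZs, hZr⟩ := Qp_exists j s hs D hD hsD
  obtain ⟨h1, h2⟩ := index_LI_le Z 0 (4 * D) (by positivity) hZs hZ0
  set f : Lam K →+ Matrix (Fin 4) (Fin 4) L := (rho j s hs).toAddMonoidHom with hf
  have hle : LI Z ≤ f.ker := by
    intro X hX
    obtain ⟨Q, rfl⟩ := mem_LI.mp hX
    rw [AddMonoidHom.mem_ker]
    change rho j s hs (Q * Z) = 0
    rw [map_mul, hZr, mul_zero]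
  have h3 : f.ker.index ≤ (LI Z).index :=
    Nat.le_of_dvd (Nat.pos_of_ne_zero h1) (AddSubgroup.index_dvd_of_le hle)
  have h4 : Nat.card (rho j s hs).range = f.ker.index := by
    rw [AddSubgroup.index_ker]
    exact Nat.card_congr (Equiv.subtypeEquivRight fun M => Iff.rfl)
  rw [h4]
  refine (h3.trans h2).trans (le_of_eq ?_)
  rw [← pow_mul]
  congr 1
  have : ((4 * (D : ℤ)) - 0).toNat = 4 * D := by omega
  rw [this]
  ring

end

end GU4
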