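import Pool.Agent.H258R2.GU.Alg

set_option linter.unusedSectionVars false
set_option linter.unusedVariables false

namespace GU4

open SkewMonoidAlgebra

variable {K : Type} [Field K] [Fintype K] [GD K]

theorem Sa_fr_nrm (a : K) : fr 1 (nrm a) = nrm a := by
  simp only [nrm, map_mul, fr_fr]
  rw [show (1 : ℤ) + 1 = 2 from rfl, show (1 : ℤ) + 2 = 3 from rfl, show (1 : ℤ) + 3 = 4 from rfl,
    fr_four]
  ring

theorem Sa_nrm_ne {a : K} (ha : a ≠ 0) : nrm a ≠ 0 := by
  have h : ∀ i : ℤ, fr i a ≠ 0 := fun i h => ha ((fr_eq_zero i).1 h)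
  exact mul_ne_zero (mul_ne_zero (mul_ne_zero ha (h 1)) (h 2)) (h 3)

/-- an element of width at most one that kills a nonzero vector of `S` is zero. -/
theorem width_one (a b : K) (w : K × K) (hw : w ≠ 0) (h : act (mon 1 a + mon 0 b) w = 0) :
    a = 0 ∧ b = 0 := by
  obtain ⟨y, z⟩ := w
  rw [act_add, act_mon_one, act_mon_zero] at h
  simp only [Prod.mk_add_mk, Prod.mk_eq_zero] at h
  obtain ⟨E1, E2⟩ := h
  have hx := x_ne_zero (K := K)
  have hw' : y = 0 → z ≠ 0 := by
    rintro h1 h2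
    exact hw (by rw [h1, h2]; rfl)
  by_cases ha : a = 0
  · subst ha
    refine ⟨rfl, ?_⟩
    simp only [zero_mul, map_zero, zero_add] at E1 E2
    by_contra hb
    have hy : y = 0 := by
      rcases mul_eq_zero.1 E1 with h | h
      · exact absurd h hb
      · exact h
    have hz : z = 0 := by
      rcases mul_eq_zero.1 E2 with h | h
      · exact absurd ((fr_eq_zero 1).1 h) hb
      · exact h
    exact hw' hy hz
  · exfalso
    have ha1 : fr 1 a ≠ 0 := fun h => ha ((fr_eq_zero 1).1 h)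
    have hy : y ≠ 0 := by
      intro hy
      rw [hy, mul_zero, add_zero] at E1
      rcases mul_eq_zero.1 E1 with h | h
      · exact ha h
      · rcases mul_eq_zero.1 h with h | h
        · exact hx h
        · exact hw' hy h
    have hy2 : fr 2 y ≠ 0 := fun h => hy ((fr_eq_zero 2).1 h)
    have F1 : a * fr 1 a * GD.x ^ 2 * fr 2 y = b * fr 1 b * y := by
      have : a * GD.x * (fr 1 a * (GD.x * fr 2 y) + fr 1 b * z) = 0 := by rw [E2, mul_zero]
      linear_combination this - fr 1 b * E1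
    have F2 : fr 2 a * fr 3 a * GD.x ^ 2 * y = fr 2 b * fr 3 b * fr 2 y := by
      have := congrArg (fr 2) F1
      simp only [map_mul, map_pow, fr_fr, fr_two_x] at this
      rw [show (2 : ℤ) + 1 = 3 from rfl, show (2 : ℤ) + 2 = 4 from rfl, fr_four] at this
      exact this
    have F3 : nrm a * GD.x ^ 4 = nrm b := by
      have h0 : y * fr 2 y ≠ 0 := mul_ne_zero hy hy2
      apply mul_right_cancel₀ h0
      simp only [nrm]
      linear_combination (fr 2 a * fr 3 a * GD.x ^ 2 * y) * F1 + (b * fr 1 b * y) * F2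
    have F4 : nrm a * ((GD.x : K)⁻¹) ^ 4 = nrm b := by
      have := congrArg (fr 1) F3
      simpa only [map_mul, map_pow, Sa_fr_nrm, fr_one_x] using this
    have F5 : (GD.x : K) ^ 4 = ((GD.x : K)⁻¹) ^ 4 :=
      mul_left_cancel₀ (Sa_nrm_ne ha) (F3.trans F4.symm)
    apply GD.hx8 (K := K)
    calc (GD.x : K) ^ 8 = GD.x ^ 4 * GD.x ^ 4 := by ring
      _ = (GD.x)⁻¹ ^ 4 * GD.x ^ 4 := by rw [← F5]
      _ = 1 := by rw [← mul_pow, inv_mul_cancel₀ hx, one_pow]

theorem width_one' (a b : K) (w : K × K) (hw : w ≠ 0) (h : act (mon 0 a + mon (-1) b) w = 0) :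
    a = 0 ∧ b = 0 := by
  have h1 : act (mon 1 1 * (mon 0 a + mon (-1) b)) w = 0 := by
    rw [act_mul, h, map_zero]
  rw [mul_add, mon_mul, mon_mul, one_mul, one_mul, add_zero,
    show (1 : ℤ) + -1 = 0 from rfl] at h1
  obtain ⟨h2, h3⟩ := width_one _ _ w hw h1
  exact ⟨(fr_eq_zero 1).1 h2, (fr_eq_zero 1).1 h3⟩

end GU4
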