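import Pool.Agent.H258R2.GU.Sa

set_option linter.unusedSectionVars false
set_option linter.unusedVariables false

namespace GU4

open SkewMonoidAlgebra

variable {K : Type} [Field K] [Fintype K] [GD K]

theorem ext_three {N N' : Lam K} (h : Supp N (-1) 1) (h' : Supp N' (-1) 1)
    (h1 : cf N 1 = cf N' 1) (h0 : cf N 0 = cf N' 0) (hm : cf N (-1) = cf N' (-1)) : N = N' := by
  apply cf_ext
  intro i
  by_cases hi : -1 ≤ i ∧ i ≤ 1
  · obtain ⟨ha, hb⟩ := hi
    interval_cases i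
    · exact hm
    · exact h0
    · exact h1
  · have e1 : cf N i = 0 := by
      by_contra hc
      exact hi (h i hc)
    have e2 : cf N' i = 0 := by
      by_contra hc
      exact hi (h' i hc)
    rw [e1, e2]

theorem Sb_supp_three (a b c : K) : Supp (mon 1 a + mon 0 b + mon (-1) c : Lam K) (-1) 1 := by
  intro i hi
  rw [cf_add, cf_add, cf_mon, cf_mon, cf_mon] at hi
  by_contra hcon
  apply hi
  rw [if_neg (by omega), if_neg (by omega), if_neg (by omega)]
  simp

theorem Sb_decomp {N : Lam K} (h : Supp N (-1) 1) :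
    N = mon 1 (cf N 1) + mon 0 (cf N 0) + mon (-1) (cf N (-1)) := by
  apply ext_three h (Sb_supp_three _ _ _) <;> simp [cf_add, cf_mon]

theorem ker_cf_ne {N : Lam K} (h : Supp N (-1) 1) (hne : N ≠ 0) {w : K × K} (hw : w ≠ 0)
    (hN : act N w = 0) : cf N 1 ≠ 0 ∧ cf N (-1) ≠ 0 := by
  constructor
  · intro h1
    apply hne
    have hd := Sb_decomp h
    rw [h1, mon_zero, zero_add] at hd
    rw [hd] at hN
    obtain ⟨e0, em⟩ := width_one' _ _ w hw hN
    rw [hd, e0, em, mon_zero, mon_zero, add_zero]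
  · intro h1
    apply hne
    have hd := Sb_decomp h
    rw [h1, mon_zero, add_zero] at hd
    rw [hd] at hN
    obtain ⟨e0, em⟩ := width_one _ _ w hw hN
    rw [hd, e0, em, mon_zero, mon_zero, add_zero]

theorem Sb_mon_sub (i : ℤ) (a b : K) : (mon i (a - b) : Lam K) = mon i a - mon i b := by
  rw [sub_eq_add_neg, mon_add, mon_neg, ← sub_eq_add_neg]

theorem Sb_act_zero (X : Lam K) : act X (0 : K × K) = 0 := map_zero _

/-- every vector is reached from `w ≠ 0` by an element of width one. -/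
theorem Sb_exists_X (w : K × K) (hw : w ≠ 0) (v : K × K) :
    ∃ a b : K, act (mon 1 a + mon 0 b) w = v := by
  have hinj : Function.Injective (fun t : K × K => act (mon 1 t.1 + mon 0 t.2) w) := by
    intro t t' ht
    have h1 : act (mon 1 (t.1 - t'.1) + mon 0 (t.2 - t'.2)) w = 0 := by
      have e : (mon 1 (t.1 - t'.1) + mon 0 (t.2 - t'.2) : Lam K) =
          (mon 1 t.1 + mon 0 t.2) - (mon 1 t'.1 + mon 0 t'.2) := by
        rw [Sb_mon_sub, Sb_mon_sub]; abel
      rw [e, act_sub]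
      exact sub_eq_zero.2 ht
    obtain ⟨h2, h3⟩ := width_one _ _ w hw h1
    exact Prod.ext (sub_eq_zero.1 h2) (sub_eq_zero.1 h3)
  obtain ⟨t, ht⟩ := (Finite.injective_iff_surjective.1 hinj) v
  exact ⟨t.1, t.2, ht⟩

theorem Sb_mon0_mul_supp {N : Lam K} (h : Supp N (-1) 1) (c : K) :
    Supp (mon 0 c * N) (-1) 1 := by
  intro i hi
  rw [cf_mon_mul, sub_zero, fr_zero] at hi
  exact h i (right_ne_zero_of_mul hi)

theorem Sb_cf_mon0_mul (N : Lam K) (c : K) (i : ℤ) : cf (mon 0 c * N) i = c * cf N i := by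
  rw [cf_mon_mul, sub_zero, fr_zero]

/-- the kernel of `N` on `S` is an `F_{q^2}`-line. -/
theorem ker_line {N : Lam K} (h : Supp N (-1) 1) (hne : N ≠ 0) {w : K × K} (hw : w ≠ 0)
    (hN : act N w = 0) {w' : K × K} (hN' : act N w' = 0) : ∃ c : K, fr 2 c = c ∧ w' = c • w := by
  obtain ⟨a, b, hX⟩ := Sb_exists_X w hw ((1, 0) : K × K)
  set X : Lam K := mon 1 a + mon 0 b with hXdef
  obtain ⟨hn1, _⟩ := ker_cf_ne h hne hw hN
  have hx0 := x_ne_zero (K := K)
  set Z : Lam K := mon 2 1 - mon 0 ((GD.x) ^ 2) with hZ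
  have hZact : ∀ y z : K, act Z (y, z) =
      ((GD.x) ^ 2 * fr 2 y - (GD.x) ^ 2 * y, (GD.x) ^ 2 * fr 2 z - ((GD.x)⁻¹) ^ 2 * z) := by
    intro y z
    have h2 : (mon 2 1 : Lam K) = mon 1 1 * mon 1 1 := by
      rw [mon_mul, map_one, mul_one]; norm_num
    rw [hZ, act_sub, h2, act_mul, act_mon_one, act_mon_one, act_mon_zero]
    have e1 : fr 2 ((GD.x : K) * z) = GD.x * fr 2 z := by rw [map_mul, fr_two_x]
    have e2 : fr 1 ((GD.x : K) ^ 2) = ((GD.x)⁻¹) ^ 2 := by rw [map_pow, fr_one_x]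
    simp only [map_one, one_mul, e1, e2]
    ext
    · simp; ring
    · simp; ring
  -- `Z X` kills `w`, hence `w'`
  have hM : act (Z * X) w = 0 := by
    rw [act_mul, hX, hZact]
    simp
  have hsupp : ∀ i : ℤ, (i < 0 ∨ 3 < i) → cf (Z * X) i = 0 := by
    intro i hi
    rw [hZ, sub_mul, cf_sub, cf_mon_mul, cf_mon_mul, hXdef, cf_add, cf_add, cf_mon, cf_mon, cf_mon,
      cf_mon, if_neg (by omega), if_neg (by omega), if_neg (by omega), if_neg (by omega)]
    simp
  have hNs : ∀ i : ℤ, (i < -1 ∨ 1 < i) → cf N i = 0 := by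
    intro i hi
    by_contra hc
    have := h i hc
    omega
  set c : K := cf (Z * X) 3 * (fr 2 (cf N 1))⁻¹ with hc
  have hf2 : fr 2 (cf N 1) ≠ 0 := fun h => hn1 ((fr_eq_zero 2).1 h)
  have hf1 : fr 1 (cf N 1) ≠ 0 := fun h => hn1 ((fr_eq_zero 1).1 h)
  set d : K := (cf (Z * X) 2 - c * fr 2 (cf N 0)) * (fr 1 (cf N 1))⁻¹ with hd
  have hc' : c * fr 2 (cf N 1) = cf (Z * X) 3 := by rw [hc]; exact inv_mul_cancel_right₀ hf2 _
  have hd' : d * fr 1 (cf N 1) = cf (Z * X) 2 - c * fr 2 (cf N 0) := by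
    rw [hd]; exact inv_mul_cancel_right₀ hf1 _
  clear_value c d
  have hR : Z * X - mon 2 c * N - mon 1 d * N =
      mon 1 (cf (Z * X - mon 2 c * N - mon 1 d * N) 1) +
        mon 0 (cf (Z * X - mon 2 c * N - mon 1 d * N) 0) := by
    apply cf_ext
    intro i
    rw [cf_add, cf_mon, cf_mon]
    by_cases h1 : i = 1
    · subst h1; simp
    by_cases h0 : i = 0
    · subst h0; simp
    rw [if_neg (Ne.symm h1), if_neg (Ne.symm h0), add_zero, cf_sub, cf_sub, cf_mon_mul, cf_mon_mul]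
    by_cases h2 : i = 2
    · subst h2
      rw [show (2 : ℤ) - 2 = 0 by norm_num, show (2 : ℤ) - 1 = 1 by norm_num, hd']
      ring
    by_cases h3 : i = 3
    · subst h3
      rw [show (3 : ℤ) - 2 = 1 by norm_num, show (3 : ℤ) - 1 = 2 by norm_num, hNs 2 (by norm_num),
        hc', map_zero]
      ring
    rw [hsupp i (by omega), hNs (i - 2) (by omega), hNs (i - 1) (by omega)]
    simp
  have hRw : act (Z * X - mon 2 c * N - mon 1 d * N) w = 0 := by
    rw [act_sub, act_sub, hM, act_mul, act_mul, hN, Sb_act_zero, Sb_act_zero]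
    simp
  have hR0 : Z * X - mon 2 c * N - mon 1 d * N = 0 := by
    rw [hR] at hRw
    obtain ⟨e1, e0⟩ := width_one _ _ w hw hRw
    rw [hR, e1, e0, mon_zero, mon_zero, add_zero]
  have hM' : act (Z * X) w' = 0 := by
    have e : Z * X = mon 2 c * N + mon 1 d * N := by
      have := hR0
      rw [sub_sub, sub_eq_zero] at this
      exact this
    rw [e, act_add, act_mul, act_mul, hN', Sb_act_zero, Sb_act_zero, add_zero]
  rw [act_mul] at hM'
  -- analyse `w1`
  obtain ⟨y1, z1, hyz⟩ : ∃ y z : K, act X w' = (y, z) := ⟨_, _, rfl⟩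
  rw [hyz, hZact] at hM'
  have hx2 : (GD.x : K) ^ 2 ≠ 0 := pow_ne_zero 2 hx0
  have hy : fr 2 y1 = y1 := by
    have h1 : (GD.x : K) ^ 2 * fr 2 y1 - (GD.x) ^ 2 * y1 = 0 := congrArg Prod.fst hM'
    exact mul_left_cancel₀ hx2 (sub_eq_zero.1 h1)
  have hz : z1 = 0 := by
    by_contra hz0
    have h1 : (GD.x : K) ^ 2 * fr 2 z1 - ((GD.x)⁻¹) ^ 2 * z1 = 0 := congrArg Prod.snd hM'
    have h2 : fr 2 z1 = ((GD.x : K)⁻¹) ^ 4 * z1 := by
      apply mul_left_cancel₀ hx2
      rw [sub_eq_zero.1 h1]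
      field_simp
    have h3 := congrArg (fr 2) h2
    rw [fr_fr, show (2 : ℤ) + 2 = 4 by norm_num, fr_four, map_mul, map_pow, map_inv₀, fr_two_x,
      h2] at h3
    apply GD.hx8 (K := K)
    have h4 : (GD.x : K) ^ 8 * z1 = 1 * z1 := by
      rw [one_mul]
      conv_lhs => rw [h3]
      field_simp
    exact mul_right_cancel₀ hz0 h4
  refine ⟨y1, hy, ?_⟩
  by_contra hcon
  have hne' : w' - y1 • w ≠ 0 := sub_ne_zero.2 hcon
  have hk : act X (w' - y1 • w) = 0 := by
    rw [map_sub, act_smul X y1 hy, hX, hyz, hz]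
    ext
    · simp
    · simp
  rw [hXdef] at hk
  obtain ⟨e1, e2⟩ := width_one _ _ _ hne' hk
  rw [hXdef, e1, e2, mon_zero, mon_zero, add_zero, act_zero'] at hX
  exact one_ne_zero (congrArg Prod.fst hX).symm

/-- existence of the generator of the annihilator of `w`. -/
theorem exists_N (w : K × K) (hw : w ≠ 0) :
    ∃ N : Lam K, Supp N (-1) 1 ∧ cf N 1 = 1 ∧ act N w = 0 := by
  classical
  -- some vector is hit by `τ⁻¹ w`, use a width one element to cancel it
  obtain ⟨a, b, hab⟩ := Sb_exists_X w hw (- act (mon (-1) 1) w)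
  set N0 : Lam K := mon 1 a + mon 0 b + mon (-1) 1 with hN0
  have hs : Supp N0 (-1) 1 := Sb_supp_three _ _ _
  have hk : act N0 w = 0 := by
    rw [hN0, act_add, hab]
    exact neg_add_cancel _
  have hm : cf N0 (-1) = 1 := by
    rw [hN0, cf_add, cf_add, cf_mon, cf_mon, cf_mon]
    simp
  have hne : N0 ≠ 0 := by
    intro h0
    rw [h0, cf_zero] at hm
    exact zero_ne_one hm
  obtain ⟨h1, _⟩ := ker_cf_ne hs hne hw hk
  refine ⟨mon 0 (cf N0 1)⁻¹ * N0, Sb_mon0_mul_supp hs _, ?_, ?_⟩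
  · rw [Sb_cf_mon0_mul, inv_mul_cancel₀ h1]
  · rw [act_mul, hk, Sb_act_zero]

/-- uniqueness of the generator of the annihilator of `w`. -/
theorem unique_N {N N' : Lam K} (h : Supp N (-1) 1) (hne : N ≠ 0) (h' : Supp N' (-1) 1)
    (hne' : N' ≠ 0) {w : K × K} (hw : w ≠ 0) (hN : act N w = 0) (hN' : act N' w = 0) :
    ∃ d : K, d ≠ 0 ∧ N' = mon 0 d * N := by
  obtain ⟨h1, _⟩ := ker_cf_ne h hne hw hN
  obtain ⟨h1', _⟩ := ker_cf_ne h' hne' hw hN'
  set d : K := cf N' 1 * (cf N 1)⁻¹ with hd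
  have hd1 : d * cf N 1 = cf N' 1 := by rw [hd]; exact inv_mul_cancel_right₀ h1 _
  refine ⟨d, mul_ne_zero h1' (inv_ne_zero h1), ?_⟩
  have hs := Sb_mon0_mul_supp h d
  have hk : act (N' - mon 0 d * N) w = 0 := by
    rw [act_sub, act_mul, hN, hN', Sb_act_zero, sub_zero]
  have hR : N' - mon 0 d * N = mon 0 (cf N' 0 - d * cf N 0) +
      mon (-1) (cf N' (-1) - d * cf N (-1)) := by
    apply cf_ext
    intro i
    rw [cf_sub, Sb_cf_mon0_mul, cf_add, cf_mon, cf_mon]
    by_cases hi1 : i = 1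
    · subst hi1
      rw [hd1]
      simp
    by_cases hi0 : i = 0
    · subst hi0; simp
    by_cases him : i = -1
    · subst him; simp
    rw [if_neg (Ne.symm hi0), if_neg (Ne.symm him), add_zero]
    have e1 : cf N i = 0 := by
      by_contra hc
      have := h i hc
      omega
    have e2 : cf N' i = 0 := by
      by_contra hc
      have := h' i hc
      omega
    rw [e1, e2, mul_zero, sub_zero]
  rw [hR] at hk
  obtain ⟨e0, em⟩ := width_one' _ _ w hw hk
  rw [e0, em, mon_zero, mon_zero, add_zero] at hR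
  exact sub_eq_zero.1 hR

theorem Sb_card_fix : Nat.card {c : K // fr 2 c = c} = GD.q K ^ 2 := by
  classical
  have hq := GD.hq (K := K)
  have hfr : ∀ c : K, fr 2 c = c ^ (GD.q K ^ 2) := fun c => by
    have := fr_nat 2 c
    exact_mod_cast this
  have hq2 : 4 ≤ GD.q K ^ 2 := by nlinarith
  set m := GD.q K ^ 2 - 1 with hm
  have hmq : GD.q K ^ 2 = m + 1 := by omega
  have hcardU : Nat.card Kˣ = GD.q K ^ 4 - 1 := by
    rw [Nat.card_units, Nat.card_eq_fintype_card, GD.card (K := K)]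
  have hker : Nat.card (powMonoidHom m : Kˣ →* Kˣ).ker = m := by
    rw [IsCyclic.card_powMonoidHom_ker, hcardU]
    apply Nat.gcd_eq_right
    have e : GD.q K ^ 4 - 1 = m * (GD.q K ^ 2 + 1) := by
      have h1 : GD.q K ^ 4 = (m + 1) * (m + 1) := by rw [← hmq]; ring
      rw [h1, hmq]
      have h2 : (m + 1) * (m + 1) = m * (m + 1 + 1) + 1 := by ring
      rw [h2]
      simp
    rw [e]
    exact Dvd.intro _ rfl
  have hset : {c : K | fr 2 c = c} = insert 0 ((fun u : Kˣ => (u : K)) ''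
      {u : Kˣ | u ^ m = 1}) := by
    ext c
    simp only [Set.mem_ofPred_eq, Set.mem_insert_iff, Set.mem_image]
    constructor
    · intro hc
      by_cases h0 : c = 0
      · exact Or.inl h0
      · right
        refine ⟨Units.mk0 c h0, ?_, rfl⟩
        ext
        rw [Units.val_pow_eq_pow_val, Units.val_mk0, Units.val_one]
        rw [hfr, hmq, pow_succ] at hc
        exact mul_right_cancel₀ h0 (by rw [hc, one_mul])
    · rintro (rfl | ⟨u, hu, rfl⟩)
      · exact map_zero _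
      · rw [hfr, hmq, pow_succ]
        have : (u : K) ^ m = 1 := by
          rw [← Units.val_pow_eq_pow_val, hu, Units.val_one]
        rw [this, one_mul]
  have h1 : Nat.card {c : K // fr 2 c = c} = Set.ncard {c : K | fr 2 c = c} := rfl
  rw [h1, hset, Set.ncard_insert_of_notMem, Set.ncard_image_of_injective _ Units.val_injective]
  · have h2 : Set.ncard {u : Kˣ | u ^ m = 1} = Nat.card (powMonoidHom m : Kˣ →* Kˣ).ker := by
      rfl
    rw [h2, hker, hmq]
  · rintro ⟨u, _, hu⟩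
    exact u.ne_zero hu

/-- the kernel of `N` on `S` has `q ^ 2` elements. -/
theorem card_ker {N : Lam K} (h : Supp N (-1) 1) (hne : N ≠ 0) {w : K × K} (hw : w ≠ 0)
    (hN : act N w = 0) : Nat.card {u : K × K // act N u = 0} = GD.q K ^ 2 := by
  rw [← Sb_card_fix]
  refine (Nat.card_congr (Equiv.ofBijective (fun c : {c : K // fr 2 c = c} =>
    (⟨c.1 • w, by rw [act_smul N c.1 c.2, hN, smul_zero]⟩ : {u : K × K // act N u = 0})) ?_)).symm
  constructor
  · intro c c' hcc
    have h1 : c.1 • w = c'.1 • w := congrArg Subtype.val hcc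
    apply Subtype.ext
    have h2 : (c.1 - c'.1) • w = 0 := by rw [sub_smul, h1, sub_self]
    exact sub_eq_zero.1 ((smul_eq_zero.1 h2).resolve_right hw)
  · rintro ⟨u, hu⟩
    obtain ⟨c, hc, e⟩ := ker_line h hne hw hN hu
    exact ⟨⟨c, hc⟩, Subtype.ext e.symm⟩

end GU4
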