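import Pool.Agent.H258R2.GU.Sb
import Pool.Agent.H258R2.GU.Dvn

set_option linter.unusedSectionVars false
set_option linter.unusedVariables false

namespace GU4

open SkewMonoidAlgebra

variable {K : Type} [Field K] [Fintype K] [GD K]

/-- everything that kills `w` is a left multiple of `N`. -/
theorem dvd_N {N : Lam K} (h : Supp N (-1) 1) (hne : N ≠ 0) {w : K × K} (hw : w ≠ 0)
    (hN : act N w = 0) {X : Lam K} (hX : act X w = 0) : ∃ Q, X = Q * N := by
  have hcf := ker_cf_ne h hne hw hN
  obtain ⟨Q, R, hXQ, hR⟩ := div_window N (-1) 1 (by norm_num) h hcf.2 hcf.1 X 0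
  have hR' : Supp R 0 1 := by
    intro i hi
    have := hR i hi
    exact ⟨this.1, by linarith [this.2]⟩
  have h1 : act R w = 0 := by
    have h2 : act X w = act Q (act N w) + act R w := by rw [hXQ, act_add, act_mul]
    rw [hN, map_zero, zero_add] at h2
    rw [← h2, hX]
  have h3 : R = mon 1 (cf R 1) + mon 0 (cf R 0) := by
    apply cf_ext
    intro i
    rw [cf_add, cf_mon, cf_mon]
    by_cases hi1 : (1 : ℤ) = i
    · subst hi1
      simp
    · by_cases hi0 : (0 : ℤ) = i
      · subst hi0
        simp
      · rw [if_neg hi1, if_neg hi0, add_zero]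
        by_contra hne'
        have := hR' i hne'
        omega
  rw [h3] at h1
  obtain ⟨ha, hb⟩ := width_one _ _ w hw h1
  refine ⟨Q, ?_⟩
  rw [hXQ, h3, ha, hb, mon_zero, mon_zero, add_zero, add_zero]

end GU4
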