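import Pool.Agent.H258R2.GU.Sc
import Pool.Agent.H258R2.GU.Pr

set_option linter.unusedSectionVars false
set_option linter.unusedVariables false

namespace GU4

open SkewMonoidAlgebra

variable {K : Type} [Field K] [Fintype K] [GD K]

theorem Sd_supp_st {N : Lam K} (h : Supp N (-1) 1) : Supp (st N) (-1) 1 := by
  intro i hi
  rw [cf_st] at hi
  have h1 : cf N (-i) ≠ 0 := fun h0 => hi (by rw [h0, map_zero])
  have := h _ h1
  omega

theorem Sd_st_ne {N : Lam K} (h : N ≠ 0) : st N ≠ 0 := by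
  intro h0
  apply h
  rw [← st_st N, h0, map_zero]

theorem Sd_card_S : Nat.card (K × K) = GD.q K ^ 8 := by
  rw [Nat.card_eq_fintype_card, Fintype.card_prod, GD.card (K := K), ← pow_add]

theorem Sd_card_range (φ : (K × K) →+ (K × K)) :
    Nat.card φ.range * Nat.card φ.ker = GD.q K ^ 8 := by
  rw [← AddSubgroup.index_ker, AddSubgroup.index_mul_card, Sd_card_S]

theorem Sd_card_ker_comp (φ ψ : (K × K) →+ (K × K)) :
    Nat.card (φ.comp ψ).ker ≤ Nat.card φ.ker * Nat.card ψ.ker := by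
  set H := (φ.comp ψ).ker with hH
  have h1 : Nat.card (ψ.comp H.subtype).range * Nat.card (ψ.comp H.subtype).ker = Nat.card H := by
    rw [← AddSubgroup.index_ker, AddSubgroup.index_mul_card]
  rw [← h1]
  refine Nat.mul_le_mul ?_ ?_
  · refine Nat.card_le_card_of_injective
      (fun y : (ψ.comp H.subtype).range => (⟨y.1, ?_⟩ : φ.ker)) ?_
    · obtain ⟨u, hu⟩ := y.2
      rw [AddMonoidHom.mem_ker, ← hu]
      exact u.2
    · intro a b hab
      have h2 := congrArg Subtype.val hab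
      exact Subtype.ext h2
  · refine Nat.card_le_card_of_injective
      (fun y : (ψ.comp H.subtype).ker => (⟨y.1.1, y.2⟩ : ψ.ker)) ?_
    intro a b hab
    have h2 := congrArg Subtype.val hab
    exact Subtype.ext (Subtype.ext h2)

/-- the adjoint of `N` is again singular. -/
theorem ker_st {N : Lam K} (h : Supp N (-1) 1) (hne : N ≠ 0) {w : K × K} (hw : w ≠ 0)
    (hN : act N w = 0) : ∃ w' : K × K, w' ≠ 0 ∧ act (st N) w' = 0 := by
  by_contra hcon
  push Not at hcon
  have hinj : Function.Injective (act (st N) : (K × K) →+ (K × K)) := by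
    rw [injective_iff_map_eq_zero]
    intro a ha
    by_contra h0
    exact hcon a h0 ha
  have hsurj := Finite.surjective_of_injective hinj
  apply hw
  apply BB_nondeg_left
  intro y
  obtain ⟨z, hz⟩ := hsurj y
  rw [← hz]
  show BB w (act (st N) z) = 0
  rw [← BB_adj, hN, BB_zero_left]

/-- the image of `N` has `q ^ 6` elements. -/
theorem card_im {N : Lam K} (h : Supp N (-1) 1) (hne : N ≠ 0) {w : K × K} (hw : w ≠ 0)
    (hN : act N w = 0) : Nat.card (Set.range (fun u : K × K => act N u)) = GD.q K ^ 6 := by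
  have h1 := Sd_card_range (act N : (K × K) →+ (K × K))
  have h2 : Nat.card (AddMonoidHom.ker (act N : (K × K) →+ (K × K))) = GD.q K ^ 2 :=
    card_ker h hne hw hN
  have h3 : Nat.card (Set.range (fun u : K × K => act N u)) =
      Nat.card (AddMonoidHom.range (act N : (K × K) →+ (K × K))) := rfl
  rw [h3]
  rw [h2] at h1
  have hq : 0 < GD.q K ^ 2 := pow_pos (by have := GD.hq (K := K); omega) 2
  have h4 : GD.q K ^ 8 = GD.q K ^ 6 * GD.q K ^ 2 := by rw [← pow_add]
  rw [h4] at h1
  exact Nat.eq_of_mul_eq_mul_right hq h1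

/-- the image of `N*` is the orthogonal of the kernel of `N`. -/
theorem im_st {N : Lam K} (h : Supp N (-1) 1) (hne : N ≠ 0) {w : K × K} (hw : w ≠ 0)
    (hN : act N w = 0) (u : K × K) (hu : BB w u = 0) : ∃ z, act (st N) z = u := by
  obtain ⟨w', hw', hN'⟩ := ker_st h hne hw hN
  have h1 := card_im (Sd_supp_st h) (Sd_st_ne hne) hw' hN'
  have h2 := card_perp_le w hw
  have h3 : Set.range (fun u : K × K => act (st N) u) = {u | BB w u = 0} := by
    apply Set.eq_of_subset_of_ncard_le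
    · rintro y ⟨z, rfl⟩
      show BB w (act (st N) z) = 0
      rw [← BB_adj, hN, BB_zero_left]
    · rw [← Nat.card_coe_set_eq, ← Nat.card_coe_set_eq, h1]
      exact h2
    · exact Set.toFinite _
  have h4 : u ∈ Set.range (fun u : K × K => act (st N) u) := by rw [h3]; exact hu
  exact h4

/-- a product of three singular elements is still nonzero on `S`. -/
theorem three_ne {A B C : Lam K} (hA : Supp A (-1) 1) (hB : Supp B (-1) 1) (hC : Supp C (-1) 1)
    (hA0 : A ≠ 0) (hB0 : B ≠ 0) (hC0 : C ≠ 0)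
    (kA : ∃ w : K × K, w ≠ 0 ∧ act A w = 0) (kB : ∃ w : K × K, w ≠ 0 ∧ act B w = 0)
    (kC : ∃ w : K × K, w ≠ 0 ∧ act C w = 0) : ∃ z : K × K, act (A * B * C) z ≠ 0 := by
  by_contra hcon
  push Not at hcon
  obtain ⟨a, ha, ha'⟩ := kA
  obtain ⟨b, hb, hb'⟩ := kB
  obtain ⟨c, hc, hc'⟩ := kC
  have h1 : Nat.card (AddMonoidHom.ker (act A : (K × K) →+ (K × K))) = GD.q K ^ 2 :=
    card_ker hA hA0 ha ha'
  have h2 : Nat.card (AddMonoidHom.ker (act B : (K × K) →+ (K × K))) = GD.q K ^ 2 :=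
    card_ker hB hB0 hb hb'
  have h3 : Nat.card (AddMonoidHom.ker (act C : (K × K) →+ (K × K))) = GD.q K ^ 2 :=
    card_ker hC hC0 hc hc'
  have h4 := Sd_card_ker_comp (act A : (K × K) →+ (K × K)) (act B : (K × K) →+ (K × K))
  have h5 := Sd_card_ker_comp ((act A : (K × K) →+ (K × K)).comp (act B : (K × K) →+ (K × K)))
    (act C : (K × K) →+ (K × K))
  have h6 : AddMonoidHom.ker (((act A : (K × K) →+ (K × K)).comp
      (act B : (K × K) →+ (K × K))).comp (act C : (K × K) →+ (K × K))) = ⊤ := by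
    rw [AddSubgroup.eq_top_iff']
    intro z
    rw [AddMonoidHom.mem_ker]
    have := hcon z
    rw [act_mul, act_mul] at this
    exact this
  rw [h6, AddSubgroup.card_top, Sd_card_S] at h5
  rw [h1, h2] at h4
  rw [h3] at h5
  have hq := GD.hq (K := K)
  have h7 : GD.q K ^ 8 ≤ GD.q K ^ 6 := by
    calc GD.q K ^ 8 ≤ _ := h5
      _ ≤ (GD.q K ^ 2 * GD.q K ^ 2) * GD.q K ^ 2 := Nat.mul_le_mul_right _ h4
      _ = GD.q K ^ 6 := by ring
  have h8 : GD.q K ^ 6 < GD.q K ^ 8 := Nat.pow_lt_pow_right (by omega) (by norm_num)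
  omega

end GU4
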