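import Pool.Agent.H258R2.GU.Se

set_option linter.unusedSectionVars false
set_option linter.unusedVariables false

namespace GU4

open SkewMonoidAlgebra

variable {K : Type} [Field K] [Fintype K] [GD K]

/-- Witt index one: two orthogonal isotropic vectors are proportional (modulo the radical). -/
theorem witt {v : Lam K} (hv : IsU v) (y y' : K × K) (hy : BB (act v y) y = 0)
    (hy' : BB (act v y') y' = 0) (hyy : BB (act v y) y' = 0) (hw : act v y ≠ 0) :
    ∃ c : K, fr 2 c = c ∧ act v y' = c • act v y := by
  obtain ⟨N, hN, hN1, hNw⟩ := exists_N (act v y) hw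
  have hNne : N ≠ 0 := by
    intro h
    rw [h, cf_zero] at hN1
    exact zero_ne_one hN1
  obtain ⟨u, hu, hNu⟩ := exists_nbr hv y hy hw hN hN1 hNw
  set G := N * v * st N with hG
  have hstG : st G = G := by
    rw [hG, st_mul, st_mul, st_st, hv.st_eq, mul_assoc]
  have huG : u * G = ff := rotate hNu
  have hune : u ≠ 0 := by
    intro h
    have h1 := hu.nrm_eq
    rw [h, cf_zero] at h1
    simp [nrm] at h1
  obtain ⟨z, hz⟩ := im_st hN hNne hw hNw y' hyy
  have hNy' : act N (act v y') = act G z := by
    rw [← hz, hG, act_mul, act_mul]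
  have hGz : act G z = 0 := by
    by_contra hg
    set g := act G z with hgdef
    have hgz : BB g z = 0 := by
      have h1 : BB (act v (act (st N) z)) (act (st N) z) = 0 := by
        rw [hz]; exact hy'
      rw [BB_adj', st_st] at h1
      rw [hgdef, hG, act_mul, act_mul]
      exact h1
    have hug : ∀ z', act u (act G z') = 0 := by
      intro z'
      rw [← act_mul, huG, act_ff]
    apply hg
    apply BB_nondeg_right
    intro z'
    obtain ⟨c, hc, hcz⟩ := ker_line hu.supp hune hg (hug z) (hug z')
    have h1 : BB (act G z') z = 0 := by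
      rw [hcz, BB_smul_left c hc, hgz, mul_zero]
    rw [BB_adj, hstG] at h1
    exact h1
  rw [hGz] at hNy'
  exact ker_line hN hNne hw hNw hNy'

end GU4
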