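import Pool.Agent.H258R2.GU.Sf

set_option linter.unusedSectionVars false
set_option linter.unusedVariables false

namespace GU4

open SkewMonoidAlgebra

variable {K : Type} [Field K] [Fintype K] [GD K]

theorem Sg_inj {X : Lam K} (h : ∀ e : K × K, e ≠ 0 → act X e ≠ 0) :
    Function.Injective (act X : K × K → K × K) := by
  intro a b hab
  by_contra hne
  apply h (a - b) (sub_ne_zero.2 hne)
  rw [map_sub, sub_eq_zero]
  exact hab

theorem edge_singular {v u Q : Lam K} (hv : IsU v) (hu : IsU u) (hQ : Supp Q (-1) 1)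
    (hE : Q * v * st Q * u = ff) : Q ≠ 0 ∧ (∃ e : K × K, e ≠ 0 ∧ act Q e = 0) ∧
      (∃ e : K × K, e ≠ 0 ∧ act (st Q) e = 0) := by
  have hQ0 : Q ≠ 0 := by
    rintro rfl
    rw [zero_mul, zero_mul, zero_mul] at hE
    exact ff_ne_zero hE.symm
  have hker : ∃ e : K × K, e ≠ 0 ∧ act Q e = 0 := by
    by_contra hcon
    push Not at hcon
    have hinj := Sg_inj hcon
    have hsurj := Finite.surjective_of_injective hinj
    have hinj' : Function.Injective (act (st Q) : K × K → K × K) := by
      apply Sg_inj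
      intro e he h0
      apply he
      apply BB_nondeg_left
      intro z'
      obtain ⟨z, rfl⟩ := hsurj z'
      rw [BB_adj', h0, BB_zero_left]
    have hz : ∀ z, act v (act (st Q) (act u z)) = 0 := by
      intro z
      apply hinj
      rw [map_zero, ← act_mul, ← act_mul, ← act_mul, hE, act_ff]
    obtain ⟨k, hk0, hk⟩ := hv.ker
    obtain ⟨k', hk0', hk'⟩ := hu.ker
    have h1 := card_im hu.supp (Se_ne_zero hu) hk0' hk'
    have h2 := card_ker hv.supp (Se_ne_zero hv) hk0 hk
    have h3 : Nat.card (Set.range (fun z : K × K => act u z)) ≤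
        Nat.card {w : K × K // act v w = 0} := by
      let φ : Set.range (fun z : K × K => act u z) → {w : K × K // act v w = 0} :=
        fun w => ⟨act (st Q) w.1, by
          obtain ⟨z, hz'⟩ := w.2
          rw [← hz']
          exact hz z⟩
      apply Nat.card_le_card_of_injective φ
      intro a b hab
      apply Subtype.ext
      apply hinj'
      exact congrArg Subtype.val hab
    rw [h1, h2] at h3
    have h4 : GD.q K ^ 2 < GD.q K ^ 6 := Nat.pow_lt_pow_right (by have := GD.hq (K := K); omega) (by norm_num)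
    omega
  obtain ⟨e, he0, he⟩ := hker
  exact ⟨hQ0, ⟨e, he0, he⟩, ker_st hQ hQ0 he0 he⟩

/-- the kernel of an edge `Q` out of `v` is spanned by an isotropic point of `v`. -/
theorem ker_isotropic {v u Q : Lam K} (hv : IsU v) (hu : IsU u) (hQ : Supp Q (-1) 1)
    (hE : Q * v * st Q * u = ff) {e : K × K} (he : e ≠ 0) (hQe : act Q e = 0) :
    ∃ y, e = act v y ∧ BB e y = 0 := by
  obtain ⟨hQ0, hk, hk'⟩ := edge_singular hv hu hQ hE
  have hsQ : Supp (st Q) (-1) 1 := by
    have := supp_st hQ
    simpa using this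
  have hsQ0 : st Q ≠ 0 := by
    intro h
    apply hQ0
    rw [← st_st Q, h, map_zero]
  obtain ⟨z, hz⟩ := three_ne hv.supp hsQ hu.supp (Se_ne_zero hv) hsQ0 (Se_ne_zero hu) hv.ker hk' hu.ker
  have h1 : act Q (act (v * st Q * u) z) = 0 := by
    rw [← act_mul, ← mul_assoc, ← mul_assoc, hE, act_ff]
  obtain ⟨c, hc, hcz⟩ := ker_line hQ hQ0 he hQe h1
  have hc0 : c ≠ 0 := by
    rintro rfl
    rw [zero_smul] at hcz
    exact hz hcz
  have hci : fr 2 c⁻¹ = c⁻¹ := by rw [map_inv₀, hc]
  refine ⟨act (st Q) (c⁻¹ • act u z), ?_, ?_⟩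
  · rw [act_smul _ _ hci, act_smul _ _ hci, ← act_mul, ← act_mul, hcz, smul_smul,
      inv_mul_cancel₀ hc0, one_smul]
  · rw [← BB_adj, hQe, BB_zero_left]

end GU4
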