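import Pool.Agent.H258R2.GU.Sg

set_option linter.unusedSectionVars false
set_option linter.unusedVariables false

namespace GU4

open SkewMonoidAlgebra

variable {K : Type} [Field K] [Fintype K] [GD K]

theorem Sh_isU_ne {v : Lam K} (hv : IsU v) : v ≠ 0 := by
  rintro rfl
  have h := hv.nrm_eq
  simp [nrm, cf_zero] at h

theorem Sh_st_ne {N : Lam K} (h : N ≠ 0) : st N ≠ 0 := by
  intro h'
  apply h
  rw [← st_st N, h', map_zero]

theorem Sh_supp_st {N : Lam K} (h : Supp N (-1) 1) : Supp (st N) (-1) 1 := by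
  have := supp_st h
  simpa using this

/-- the non-vanishing step. -/
theorem nonvanish {v v2 u u' P R Q : Lam K} (hv : IsU v) (hv2 : IsU v2) (hu : IsU u)
    (hu' : IsU u') (hP : Supp P (-1) 1) (hR : Supp R (-1) 1) (hQ : Supp Q (-1) 1)
    (eP : P * v * st P * u = ff) (eR : R * v2 * st R * u = ff) (eQ : Q * v * st Q * u' = ff)
    {e : K × K} (he : e ≠ 0) (hQe : act Q e = 0)
    (nb1 : ¬ ∃ d : K, P = mon 0 d * Q) (nb2 : ¬ ∃ d : K, R = P * mon 0 d) :
    act (v2 * st R * u * P) e ≠ 0 := by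
  obtain ⟨y, hey, hy⟩ := ker_isotropic hv hu' hQ eQ he hQe
  obtain ⟨hQ0, -, -⟩ := edge_singular hv hu' hQ eQ
  obtain ⟨hP0, kP, kP'⟩ := edge_singular hv hu hP eP
  obtain ⟨hR0, kR, kR'⟩ := edge_singular hv2 hu hR eR
  have hv0 := Sh_isU_ne hv
  have hv20 := Sh_isU_ne hv2
  have hu0 := Sh_isU_ne hu
  have rP : st P * u * (P * v) = ff := by
    apply rotate
    rw [← eP]
    noncomm_ring
  have rR : st R * u * (R * v2) = ff := by
    apply rotate
    rw [← eR]
    noncomm_ring
  -- Step 1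
  have step1 : act u (act P e) ≠ 0 := by
    intro h0
    obtain ⟨z, hz⟩ := three_ne hv.supp (Sh_supp_st hP) hu.supp hv0 (Sh_st_ne hP0) hu0 hv.ker kP' hu.ker
    set n := act (v * st P * u) z with hn
    have hPn : act P n = 0 := by
      rw [hn, ← act_mul, show P * (v * st P * u) = ff by rw [← eP]; noncomm_ring, act_ff]
    have hny : BB n y = 0 := by
      rw [hn, BB_adj, st_mul, st_mul, st_st, hv.st_eq, hu.st_eq, act_mul, act_mul, ← hey, h0,
        BB_zero_right]
    obtain ⟨yP, hyP, hyP'⟩ := ker_isotropic hv hu hP eP hz hPn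
    obtain ⟨c, hc, hcn⟩ := witt hv yP y (by rw [← hyP]; exact hyP') (by rw [← hey]; exact hy)
      (by rw [← hyP]; exact hny) (by rw [← hyP]; exact hz)
    have hPe : act P e = 0 := by
      rw [hey, hcn, act_smul P c hc, ← hyP, hPn, smul_zero]
    obtain ⟨d, -, hd⟩ := unique_N hQ hQ0 hP hP0 he hQe hPe
    exact nb1 ⟨d, hd⟩
  -- Step 2
  have h2 : act (st P) (act u (act P e)) = 0 := by
    rw [hey, ← act_mul, ← act_mul, ← act_mul,
      show st P * u * P * v = st P * u * (P * v) by noncomm_ring, rP, act_ff]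
  have h3 : BB (act u (act P e)) (act P e) = 0 := by
    rw [BB_adj' P, h2, BB_zero_left]
  -- Step 3
  intro h0
  obtain ⟨z, hz⟩ := three_ne hu.supp hR hv2.supp hu0 hR0 hv20 hu.ker kR hv2.ker
  set mm := act (u * R * v2) z with hmm
  have hRm : act (st R) mm = 0 := by
    rw [hmm, ← act_mul, show st R * (u * R * v2) = st R * u * (R * v2) by noncomm_ring, rR, act_ff]
  have hBm : BB (act P e) mm = 0 := by
    have h4 : BB (act (v2 * st R * u) (act P e)) z = 0 := by
      rw [← act_mul, h0, BB_zero_left]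
    rw [BB_adj, st_mul, st_mul, st_st, hv2.st_eq, hu.st_eq] at h4
    rw [hmm, show u * R * v2 = u * (R * v2) by noncomm_ring]
    exact h4
  have hBm' : BB mm (act P e) = 0 := by
    rw [BB_symm, hBm, map_zero]
  have eR' : st R * u * st (st R) * v2 = ff := by
    rw [st_st, ← rR]
    noncomm_ring
  obtain ⟨yR, hyR, hyR'⟩ := ker_isotropic hu hv2 (Sh_supp_st hR) eR' hz hRm
  obtain ⟨c, hc, hcn⟩ := witt hu yR (act P e) (by rw [← hyR]; exact hyR') h3
    (by rw [← hyR]; exact hBm') (by rw [← hyR]; exact hz)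
  have hRw : act (st R) (act u (act P e)) = 0 := by
    rw [hcn, act_smul _ c hc, ← hyR, hRm, smul_zero]
  obtain ⟨d, -, hd⟩ := unique_N (Sh_supp_st hP) (Sh_st_ne hP0) (Sh_supp_st hR) (Sh_st_ne hR0)
    step1 h2 hRw
  apply nb2
  refine ⟨fr 2 d, ?_⟩
  rw [← st_st R, hd, st_mul, st_st, st_mon]
  simp

end GU4
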